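import Mathlib

set_option autoImplicit false

open MeasureTheory Set Filter Topology

namespace Pool.Agent.PIP

/-- `μ` carries no total diffuse distribution: if `E` is a set and `γ` a real function such that
`E ∩ γ⁻¹(A)` is measurable for every set `A` of reals and `E ∩ γ⁻¹{x}` is `μ`-null for every real
`x`, then `E` is `μ`-null. -/
def NoTotal {Ω : Type} [MeasurableSpace Ω] (μ : Measure Ω) : Prop :=
  ∀ (E : Set Ω) (γ : Ω → ℝ), (∀ A : Set ℝ, MeasurableSet (E ∩ γ ⁻¹' A)) →
    (∀ x : ℝ, μ (E ∩ γ ⁻¹' {x}) = 0) → μ E = 0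

section Kern

variable {B Ω₂ : Type} [MeasurableSpace Ω₂] (j : B → ℝ) (F : B → Ω₂ → ℝ)

/-- dyadic cells -/
def Kern_D (n : ℕ) (k : ℤ) : Set B := {b | ⌊(2 : ℝ) ^ n * j b⌋ = k}

/-- the set where some `F b`, `b ∈ B'`, is large -/
def Kern_T (δ : ℝ) (B' : Set B) : Set Ω₂ := {ω | ∃ b ∈ B', δ < |F b ω|}

open Classical in
theorem Kern_indicator_sub (a : B → ℝ) (hs : Summable a) (B' : Set B) (b : B) (hb : b ∈ B') :
    |(∑' x, B'.indicator a x) - a b| ≤ ∑' x, (B' \ {b}).indicator (fun x => |a x|) x := by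
  have h1 : ∑' x, B'.indicator a x = a b + ∑' x, (B' \ {b}).indicator a x := by
    have h2 : B'.indicator a = fun x => (if x = b then a b else 0) + (B' \ {b}).indicator a x := by
      funext x
      by_cases hx : x = b
      · subst hx
        simp [hb]
      · by_cases hx' : x ∈ B'
        · simp [hx', hx]
        · simp [hx', hx]
    rw [h2, Summable.tsum_add, tsum_ite_eq]
    · exact (hasSum_ite_eq b (a b)).summable
    · exact hs.indicator _
  rw [h1, add_sub_cancel_left]
  have h3 : Summable fun x => |(B' \ {b}).indicator a x| := (hs.indicator _).abs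
  have h4 : ∀ x, |(B' \ {b}).indicator a x| = (B' \ {b}).indicator (fun x => |a x|) x := by
    intro x
    by_cases hx : x ∈ B' \ {b}
    · simp only [indicator_of_mem hx]
    · simp only [indicator_of_notMem hx, abs_zero]
  calc |∑' x, (B' \ {b}).indicator a x| ≤ ∑' x, |(B' \ {b}).indicator a x| := by
        have := norm_tsum_le_tsum_norm (f := fun x => (B' \ {b}).indicator a x)
          (by simpa [Real.norm_eq_abs] using h3)
        simpa [Real.norm_eq_abs] using this
    _ = _ := by simp only [h4]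

/-- the cells around a point shrink -/
theorem Kern_tail (hj : Function.Injective j) (a : B → ℝ) (hs : Summable a) (B' : Set B) (b : B)
    (hb : b ∈ B') : Tendsto (fun n => ∑' x, B'.indicator ((Kern_D j n ⌊(2 : ℝ) ^ n * j b⌋).indicator a) x)
      atTop (𝓝 (a b)) := by
  classical
  have h1 : Tendsto (fun n => ∑' x, B'.indicator ((Kern_D j n ⌊(2 : ℝ) ^ n * j b⌋).indicator a) x)
      atTop (𝓝 (∑' x, if x = b then a b else 0)) := by
    refine tendsto_tsum_of_dominated_convergence (bound := fun x => |a x|) hs.abs ?_ ?_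
    · intro x
      by_cases hx : x = b
      · subst hx
        refine tendsto_const_nhds.congr fun n => ?_
        rw [indicator_of_mem hb, indicator_of_mem (show x ∈ Kern_D j n _ from rfl), if_pos rfl]
      · rw [if_neg hx]
        refine tendsto_const_nhds.congr' ?_
        have h2 : 0 < |j x - j b| := abs_pos.2 (sub_ne_zero.2 fun h => hx (hj h))
        obtain ⟨N, hN⟩ := pow_unbounded_of_one_lt (1 / |j x - j b|) (by norm_num : (1 : ℝ) < 2)
        filter_upwards [eventually_ge_atTop N] with n hn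
        symm
        have h3 : x ∉ Kern_D j n ⌊(2 : ℝ) ^ n * j b⌋ := by
          intro h4
          have h5 : |(2 : ℝ) ^ n * j x - 2 ^ n * j b| < 1 := Int.abs_sub_lt_one_of_floor_eq_floor h4
          rw [← mul_sub, abs_mul, abs_of_pos (by positivity : (0 : ℝ) < 2 ^ n)] at h5
          have h6 : (2 : ℝ) ^ N ≤ 2 ^ n := pow_le_pow_right₀ (by norm_num) hn
          rw [div_lt_iff₀ h2] at hN
          nlinarith
        by_cases hx' : x ∈ B'
        · rw [indicator_of_mem hx', indicator_of_notMem h3]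
        · rw [indicator_of_notMem hx']
    · refine Eventually.of_forall fun n x => ?_
      rw [Real.norm_eq_abs]
      by_cases hx' : x ∈ B'
      · rw [indicator_of_mem hx']
        by_cases h3 : x ∈ Kern_D j n ⌊(2 : ℝ) ^ n * j b⌋
        · rw [indicator_of_mem h3]
        · rw [indicator_of_notMem h3, abs_zero]; exact abs_nonneg _
      · rw [indicator_of_notMem hx', abs_zero]; exact abs_nonneg _
  rwa [tsum_ite_eq] at h1

/-- for large `n` every cell has at most one large atom -/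
theorem Kern_upper (hj : Function.Injective j) (a : B → ℝ) (hs : Summable a) (B' : Set B) (δ ε : ℝ)
    (hδ : 0 ≤ δ) (hε : 0 < ε) (hB : ∀ b ∈ B', |a b| ≤ δ) :
    ∀ᶠ n in atTop, ∀ k, |∑' x, (B' ∩ Kern_D j n k).indicator a x| ≤ δ + ε := by
  classical
  have ha : Summable fun x => |a x| := hs.abs
  obtain ⟨Φ, hΦ⟩ : ∃ Φ : Finset B, ∑' x, (if x ∈ Φ then 0 else |a x|) ≤ ε := by
    have h1 := (Metric.tendsto_nhds.1 ha.hasSum) ε hε
    obtain ⟨Φ, hΦ⟩ := eventually_atTop.1 h1
    refine ⟨Φ, ?_⟩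
    have h2 := hΦ Φ le_rfl
    have h3 : ∑' x, |a x| = ∑ x ∈ Φ, |a x| + ∑' x, (if x ∈ Φ then 0 else |a x|) := by
      have h4 : (fun x => |a x|) = fun x => (if x ∈ Φ then |a x| else 0) +
          (if x ∈ Φ then 0 else |a x|) := by
        funext x; split_ifs <;> simp
      have h5 : Summable fun x => (if x ∈ Φ then |a x| else 0) :=
        summable_of_ne_finset_zero (s := Φ) fun x hx => by simp [hx]
      have h6 : Summable fun x => (if x ∈ Φ then 0 else |a x|) := by
        refine Summable.of_nonneg_of_le (fun x => ?_) (fun x => ?_) ha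
        · split_ifs
          · exact le_rfl
          · exact abs_nonneg _
        · split_ifs
          · exact abs_nonneg _
          · exact le_rfl
      conv_lhs => rw [h4]
      rw [Summable.tsum_add h5 h6]
      congr 1
      rw [tsum_eq_sum (s := Φ) fun x hx => by simp [hx]]
      exact Finset.sum_congr rfl fun x hx => by simp [hx]
    rw [Real.dist_eq, h3, abs_lt] at h2
    linarith [h2.1]
  have hsep : ∀ᶠ n in atTop, ∀ x ∈ Φ, ∀ y ∈ Φ, x ≠ y →
      ⌊(2 : ℝ) ^ n * j x⌋ ≠ ⌊(2 : ℝ) ^ n * j y⌋ := by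
    rw [Finset.eventually_all]
    intro x _
    rw [Finset.eventually_all]
    intro y _
    by_cases hxy : x = y
    · exact Eventually.of_forall fun n h => absurd hxy h
    have h2 : 0 < |j x - j y| := abs_pos.2 (sub_ne_zero.2 fun h => hxy (hj h))
    obtain ⟨N, hN⟩ := pow_unbounded_of_one_lt (1 / |j x - j y|) (by norm_num : (1 : ℝ) < 2)
    filter_upwards [eventually_ge_atTop N] with n hn _ h4
    have h5 : |(2 : ℝ) ^ n * j x - 2 ^ n * j y| < 1 := Int.abs_sub_lt_one_of_floor_eq_floor h4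
    rw [← mul_sub, abs_mul, abs_of_pos (by positivity : (0 : ℝ) < 2 ^ n)] at h5
    have h6 : (2 : ℝ) ^ N ≤ 2 ^ n := pow_le_pow_right₀ (by norm_num) hn
    rw [div_lt_iff₀ h2] at hN
    nlinarith
  filter_upwards [hsep] with n hn k
  set D := B' ∩ Kern_D j n k with hD
  have h6 : Summable fun x => (if x ∈ Φ then 0 else |a x|) := by
    refine Summable.of_nonneg_of_le (fun x => ?_) (fun x => ?_) ha
    · split_ifs
      · exact le_rfl
      · exact abs_nonneg _
    · split_ifs
      · exact abs_nonneg _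
      · exact le_rfl
  by_cases hex : ∃ b ∈ D, b ∈ Φ
  · obtain ⟨b, hbD, hbΦ⟩ := hex
    have h7 := Kern_indicator_sub a hs D b hbD
    have h8 : ∑' x, (D \ {b}).indicator (fun x => |a x|) x ≤ ε := by
      refine le_trans (Summable.tsum_le_tsum (fun x => ?_) (ha.indicator _) h6) hΦ
      by_cases hx : x ∈ D \ {b}
      · rw [indicator_of_mem hx]
        have hxΦ : x ∉ Φ := by
          intro hxΦ
          refine hn x hxΦ b hbΦ (fun h => hx.2 h) ?_
          exact (show ⌊(2 : ℝ) ^ n * j x⌋ = k from hx.1.2).trans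
            (show ⌊(2 : ℝ) ^ n * j b⌋ = k from hbD.2).symm
        rw [if_neg hxΦ]
      · rw [indicator_of_notMem hx]
        split_ifs
        · exact le_rfl
        · exact abs_nonneg _
    have h9 := hB b hbD.1
    have h10 := abs_sub_abs_le_abs_sub (∑' x, D.indicator a x) (a b)
    linarith
  · push Not at hex
    have h7 : |∑' x, D.indicator a x| ≤ ∑' x, (if x ∈ Φ then 0 else |a x|) := by
      have h8 : Summable fun x => |D.indicator a x| := (hs.indicator _).abs
      calc |∑' x, D.indicator a x| ≤ ∑' x, |D.indicator a x| := by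
            have := norm_tsum_le_tsum_norm (f := fun x => D.indicator a x)
              (by simpa [Real.norm_eq_abs] using h8)
            simpa [Real.norm_eq_abs] using this
        _ ≤ _ := by
            refine Summable.tsum_le_tsum (fun x => ?_) h8 h6
            by_cases hx : x ∈ D
            · rw [indicator_of_mem hx, if_neg (hex x hx)]
            · rw [indicator_of_notMem hx, abs_zero]
              split_ifs
              · exact le_rfl
              · exact abs_nonneg _
    linarith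

variable (hj : Function.Injective j) (hs : ∀ ω, Summable fun b => F b ω)
  (hm : ∀ B' : Set B, Measurable fun ω => ∑' b, B'.indicator (fun b => F b ω) b)

include hj hs hm in
theorem Kern_T_meas (δ : ℝ) (hδ : 0 < δ) (B' : Set B) : MeasurableSet (Kern_T F δ B') := by
  have h1 : Kern_T F δ B' = ⋃ i : ℕ, ⋃ N : ℕ, ⋂ n : ℕ, ⋂ _ : N ≤ n, ⋃ k : ℤ,
      {ω | δ + 1 / ((i : ℝ) + 1) < |∑' b, (B' ∩ Kern_D j n k).indicator (fun b => F b ω) b|} := by
    ext ω
    simp only [Kern_T, mem_ofPred_eq, mem_iUnion, mem_iInter]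
    constructor
    · rintro ⟨b, hb, hbδ⟩
      obtain ⟨i, hi⟩ := exists_nat_one_div_lt (sub_pos.2 hbδ)
      have h2 := (Kern_tail j hj (fun b => F b ω) (hs ω) B' b hb).abs
      have h3 := h2.eventually_const_lt (show δ + 1 / ((i : ℝ) + 1) < |F b ω| by linarith)
      obtain ⟨N, hN⟩ := eventually_atTop.1 h3
      refine ⟨i, N, fun n hn => ⟨⌊(2 : ℝ) ^ n * j b⌋, ?_⟩⟩
      have h4 := hN n hn
      rwa [indicator_indicator] at h4
    · rintro ⟨i, N, h⟩
      by_contra hcon
      push Not at hcon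
      have h2 := Kern_upper j hj (fun b => F b ω) (hs ω) B' δ (1 / ((i : ℝ) + 1)) hδ.le
        (by positivity) hcon
      obtain ⟨n, hn1, hn2⟩ := (h2.and (eventually_ge_atTop N)).exists
      obtain ⟨k, hk⟩ := h n hn2
      exact absurd hk (not_lt.2 (hn1 k))
  rw [h1]
  refine MeasurableSet.iUnion fun i => MeasurableSet.iUnion fun N => MeasurableSet.iInter fun n =>
    MeasurableSet.iInter fun _ => MeasurableSet.iUnion fun k => ?_
  exact measurableSet_lt measurable_const (hm _).abs

/-- the set where exactly one atom with label below `q` is large -/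
def Kern_One (δ : ℝ) (q : ℚ) : Set Ω₂ :=
  {ω | ∃ b, j b < q ∧ δ < |F b ω| ∧ ∀ b', j b' < q → δ < |F b' ω| → b' = b}

include hj hs hm in
theorem Kern_One_meas (δ : ℝ) (hδ : 0 < δ) (q : ℚ) (A : Set ℝ) :
    MeasurableSet (Kern_One j F δ q ∩ Kern_T F δ ({b | j b < q} ∩ j ⁻¹' A)) := by
  refine MeasurableSet.inter ?_ (Kern_T_meas j F hj hs hm δ hδ _)
  have h1 : Kern_One j F δ q = Kern_T F δ {b | j b < q} \
      ⋃ q' : ℚ, (Kern_T F δ {b | j b < q ∧ j b < q'} ∩ Kern_T F δ {b | j b < q ∧ q' < j b}) := by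
    ext ω
    simp only [Kern_One, Kern_T, mem_ofPred_eq, Set.mem_sdiff, mem_iUnion, mem_inter_iff, not_exists]
    constructor
    · rintro ⟨b, h1, h2, h3⟩
      refine ⟨⟨b, h1, h2⟩, ?_⟩
      rintro q' ⟨⟨b1, ⟨h4, h5⟩, h6⟩, b2, ⟨h7, h8⟩, h9⟩
      have e1 := h3 b1 h4 h6
      have e2 := h3 b2 h7 h9
      subst e1
      subst e2
      linarith
    · rintro ⟨⟨b, h1, h2⟩, h3⟩
      refine ⟨b, h1, h2, fun b' h4 h5 => ?_⟩
      by_contra hne
      rcases lt_or_gt_of_ne (fun h => hne (hj h) : j b' ≠ j b) with h6 | h6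
      · obtain ⟨q', h7, h8⟩ := exists_rat_btwn h6
        exact h3 q' ⟨⟨b', ⟨h4, h7⟩, h5⟩, ⟨b, ⟨h1, h8⟩, h2⟩⟩
      · obtain ⟨q', h7, h8⟩ := exists_rat_btwn h6
        exact h3 q' ⟨⟨b, ⟨h1, h7⟩, h2⟩, ⟨b', ⟨h4, h8⟩, h5⟩⟩
  rw [h1]
  exact (Kern_T_meas j F hj hs hm δ hδ _).diff (MeasurableSet.iUnion fun q' =>
    (Kern_T_meas j F hj hs hm δ hδ _).inter (Kern_T_meas j F hj hs hm δ hδ _))

include hj hs hm in
/-- a point-finite family of null functions all of whose subsums are measurable vanishes almost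
everywhere, if the measure carries no total diffuse distribution -/
theorem kern (μ : Measure Ω₂) (hμ : NoTotal μ) (h0 : ∀ b, ∀ᵐ ω ∂μ, F b ω = 0) :
    ∀ᵐ ω ∂μ, ∀ b, F b ω = 0 := by
  classical
  have h1 : ∀ (i : ℕ) (q : ℚ), μ (Kern_One j F (1 / ((i : ℝ) + 1)) q) = 0 := by
    intro i q
    set δ : ℝ := 1 / ((i : ℝ) + 1) with hδ
    have hδ0 : 0 < δ := by rw [hδ]; positivity
    set γ : Ω₂ → ℝ := fun ω => if h : ω ∈ Kern_One j F δ q then j h.choose else 0 with hγ
    have hγ1 : ∀ ω ∈ Kern_One j F δ q, ∃ b, γ ω = j b ∧ j b < q ∧ δ < |F b ω| ∧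
        ∀ b', j b' < q → δ < |F b' ω| → b' = b := by
      intro ω h
      refine ⟨h.choose, ?_, h.choose_spec⟩
      simp only [hγ, dif_pos h]
    refine hμ _ γ (fun A => ?_) fun x => ?_
    · have h2 : Kern_One j F δ q ∩ γ ⁻¹' A =
          Kern_One j F δ q ∩ Kern_T F δ ({b | j b < q} ∩ j ⁻¹' A) := by
        ext ω
        simp only [mem_inter_iff, mem_preimage]
        refine and_congr_right fun h => ?_
        obtain ⟨b, hb1, hb2, hb3, hb4⟩ := hγ1 ω h
        constructor
        · intro h3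
          exact ⟨b, ⟨hb2, by rw [mem_preimage, ← hb1]; exact h3⟩, hb3⟩
        · rintro ⟨b', ⟨h3, h4⟩, h5⟩
          have := hb4 b' h3 h5
          subst this
          rw [hb1]
          exact h4
      rw [h2]
      exact Kern_One_meas j F hj hs hm δ hδ0 q A
    · by_cases hx : ∃ b, j b = x
      · obtain ⟨b, rfl⟩ := hx
        refine measure_mono_null ?_ (h0 b)
        rintro ω ⟨h3, h4⟩ h5
        obtain ⟨b', hb1, hb2, hb3, hb4⟩ := hγ1 ω h3
        have h6 : b' = b := hj (by rw [← hb1]; exact h4)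
        subst h6
        rw [h5, abs_zero] at hb3
        linarith
      · have : Kern_One j F δ q ∩ γ ⁻¹' {x} = ∅ := by
          rw [← subset_empty_iff]
          rintro ω ⟨h3, h4⟩
          obtain ⟨b', hb1, _⟩ := hγ1 ω h3
          exact hx ⟨b', by rw [← hb1]; exact h4⟩
        rw [this, measure_empty]
  have h2 : μ (⋃ i : ℕ, ⋃ q : ℚ, Kern_One j F (1 / ((i : ℝ) + 1)) q) = 0 :=
    measure_iUnion_null fun i => measure_iUnion_null fun q => h1 i q
  rw [ae_iff]
  refine measure_mono_null ?_ h2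
  intro ω hω
  rw [mem_ofPred_eq] at hω
  push Not at hω
  obtain ⟨b, hb⟩ := hω
  obtain ⟨i, hi⟩ := exists_nat_one_div_lt (abs_pos.2 hb)
  have hfin : {b | 1 / ((i : ℝ) + 1) < |F b ω|}.Finite := by
    have h3 := (hs ω).abs.tendsto_cofinite_zero
    have h4 := h3.eventually_lt_const (show (0 : ℝ) < 1 / ((i : ℝ) + 1) by positivity)
    rw [eventually_cofinite] at h4
    exact h4.subset fun x hx => not_lt.2 (le_of_lt hx)
  obtain ⟨b0, hb0, hmin⟩ := Set.exists_min_image _ j hfin ⟨b, hi⟩
  obtain ⟨q, hq1, hq2⟩ : ∃ q : ℚ, j b0 < q ∧ ∀ b' ∈ {b | 1 / ((i : ℝ) + 1) < |F b ω|},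
      b' ≠ b0 → (q : ℝ) < j b' := by
    by_cases hne : ({b | 1 / ((i : ℝ) + 1) < |F b ω|} \ {b0}).Nonempty
    · obtain ⟨b1, hb1, hmin1⟩ := Set.exists_min_image _ j (hfin.subset Set.sdiff_subset) hne
      have h5 : j b0 < j b1 := lt_of_le_of_ne (hmin b1 hb1.1) fun h => hb1.2 (hj h.symm)
      obtain ⟨q, h6, h7⟩ := exists_rat_btwn h5
      exact ⟨q, h6, fun b' h8 h9 => lt_of_lt_of_le h7 (hmin1 b' ⟨h8, h9⟩)⟩
    · obtain ⟨q, h6⟩ := exists_rat_gt (j b0)
      exact ⟨q, h6, fun b' h8 h9 => absurd ⟨b', h8, h9⟩ hne⟩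
  refine mem_iUnion.2 ⟨i, mem_iUnion.2 ⟨q, b0, hq1, hb0, fun b' h3 h4 => ?_⟩⟩
  by_contra hne
  have := hq2 b' h4 hne
  linarith

end Kern

end Pool.Agent.PIP
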