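import Pool.Agent.PIP.K
import Pool.Agent.PIP.Kern

set_option autoImplicit false

open MeasureTheory Set Filter Topology
open scoped ENNReal

namespace Pool.Agent.PIP

namespace Frame

variable {ι Ω : Type} [PartialOrder Ω] (Fr : Frame ι Ω)

include Fr in
theorem Anti_unique (B : Set Ω) (hB : IsAntichain (· ≤ ·) B) (ω b b' : Ω) (hb : b ∈ B)
    (hb' : b' ∈ B) (h : b ≤ ω) (h' : b' ≤ ω) : b = b' := by
  rcases Fr.tree b b' ω h h' with h1 | h1
  · exact hB.eq hb hb' h1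
  · exact (hB.eq hb' hb h1).symm

theorem Anti_norm_P (A : LowerSet Ω) : ‖Fr.P A‖ ≤ 1 :=
  ContinuousLinearMap.opNorm_le_bound _ zero_le_one (fun x => by
    rw [one_mul]
    exact Fr.norm_P_le A x)

/-- for an antichain `B` the functionals `x ↦ ψ (P ⊤ x - P (off {b}) x)`, `b ∈ B`, are
point-finite on `X` -/
theorem anti_finite (B : Set Ω) (hB : IsAntichain (· ≤ ·) B) (ψ : Fr.Amb →L[ℝ] ℝ) (x : Fr.Amb)
    (hx : x ∈ Fr.X) (δ : ℝ) (hδ : 0 < δ) :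
    {b | b ∈ B ∧ δ < |ψ (Fr.P ⊤ x - Fr.P (off {b}) x)|}.Finite := by
  classical
  have hε : 0 < δ / (‖ψ‖ + 1) := by positivity
  obtain ⟨Φ, hΦ⟩ := Fr.P_near x hx _ hε
  refine (Set.Finite.biUnion Φ.finite_toSet (t := fun ω => {b | b ∈ B ∧ b ≤ ω})
    (fun ω _ => ?_)).subset ?_
  · refine Set.Subsingleton.finite ?_
    rintro b ⟨hb, hbω⟩ b' ⟨hb', hbω'⟩
    exact Fr.Anti_unique B hB ω b b' hb hb' hbω hbω'
  · rintro b ⟨hb, hlt⟩
    by_contra hne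
    refine not_le.mpr hlt ?_
    have h1 : ‖Fr.P ⊤ x - Fr.P (off {b}) x‖ ≤ δ / (‖ψ‖ + 1) := by
      refine hΦ _ _ fun ω hω => ?_
      constructor
      · intro _
        rw [mem_off]
        intro b' hb' hle
        rw [mem_singleton_iff] at hb'
        subst hb'
        exact hne (mem_biUnion (Finset.mem_coe.mpr hω) ⟨hb, hle⟩)
      · intro _
        exact LowerSet.mem_top
    calc |ψ (Fr.P ⊤ x - Fr.P (off {b}) x)| ≤ ‖ψ‖ * ‖Fr.P ⊤ x - Fr.P (off {b}) x‖ := by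
          rw [← Real.norm_eq_abs]
          exact ψ.le_opNorm _
      _ ≤ ‖ψ‖ * (δ / (‖ψ‖ + 1)) := mul_le_mul_of_nonneg_left h1 (norm_nonneg _)
      _ ≤ (‖ψ‖ + 1) * (δ / (‖ψ‖ + 1)) := by
          refine mul_le_mul_of_nonneg_right (by linarith) hε.le
      _ = δ := by
          field_simp

/-- the functional `x ↦ ψ (P ⊤ x - P (off (B' ∩ B)) x)` -/
noncomputable def Anti_D (ψ : Fr.Amb →L[ℝ] ℝ) (B B' : Set Ω) : Fr.Amb →L[ℝ] ℝ :=
  ψ.comp (Fr.P ⊤ - Fr.P (off (B' ∩ B)))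

theorem Anti_D_apply (ψ : Fr.Amb →L[ℝ] ℝ) (B B' : Set Ω) (x : Fr.Amb) :
    Fr.Anti_D ψ B B' x = ψ (Fr.P ⊤ x - Fr.P (off (B' ∩ B)) x) := rfl

theorem Anti_D_norm (ψ : Fr.Amb →L[ℝ] ℝ) (B B' : Set Ω) :
    ‖Fr.Anti_D ψ B B'‖ ≤ ‖ψ‖ * 2 := by
  refine (ContinuousLinearMap.opNorm_comp_le _ _).trans ?_
  refine mul_le_mul_of_nonneg_left ?_ (norm_nonneg _)
  refine (norm_sub_le _ _).trans ?_
  have h1 := Fr.Anti_norm_P ⊤
  have h2 := Fr.Anti_norm_P (off (B' ∩ B))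
  linarith

theorem Anti_off_empty : (off (∅ : Set Ω)) = ⊤ := by
  ext ω
  simp only [LowerSet.coe_top, mem_univ, iff_true]
  intro b hb
  exact absurd hb (notMem_empty b)

theorem Anti_D_empty (ψ : Fr.Amb →L[ℝ] ℝ) (B B' : Set Ω) (h : B' ∩ B = ∅) (x : Fr.Amb) :
    Fr.Anti_D ψ B B' x = 0 := by
  rw [Anti_D_apply, h, Anti_off_empty, sub_self, map_zero]

theorem Anti_D_union (ψ : Fr.Amb →L[ℝ] ℝ) (B : Set Ω) (hB : IsAntichain (· ≤ ·) B)
    (B₁ B₂ : Set Ω) (hd : Disjoint B₁ B₂) (x : Fr.Amb) (hx : x ∈ Fr.X) :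
    Fr.Anti_D ψ B (B₁ ∪ B₂) x = Fr.Anti_D ψ B B₁ x + Fr.Anti_D ψ B B₂ x := by
  have h1 : off ((B₁ ∪ B₂) ∩ B) = off (B₁ ∩ B) ⊓ off (B₂ ∩ B) := by
    ext ω
    simp only [LowerSet.coe_inf, mem_inter_iff, SetLike.mem_coe, mem_off]
    constructor
    · intro h
      exact ⟨fun b hb => h b ⟨Or.inl hb.1, hb.2⟩, fun b hb => h b ⟨Or.inr hb.1, hb.2⟩⟩
    · rintro ⟨ha, hb⟩ b ⟨hb1 | hb1, hb2⟩
      · exact ha b ⟨hb1, hb2⟩
      · exact hb b ⟨hb1, hb2⟩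
  have h2 : off (B₁ ∩ B) ⊔ off (B₂ ∩ B) = (⊤ : LowerSet Ω) := by
    ext ω
    simp only [LowerSet.coe_sup, mem_union, SetLike.mem_coe, LowerSet.coe_top, mem_univ, iff_true]
    by_contra hcon
    rw [not_or, mem_off, mem_off] at hcon
    obtain ⟨ha, hb⟩ := hcon
    push Not at ha hb
    obtain ⟨b, hb1, hb2⟩ := ha
    obtain ⟨b', hb1', hb2'⟩ := hb
    have := Fr.Anti_unique B hB ω b b' hb1.2 hb1'.2 hb2 hb2'
    subst this
    exact Set.disjoint_left.mp hd hb1.1 hb1'.1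
  have h3 := Fr.P_sup_inf x hx (off (B₁ ∩ B)) (off (B₂ ∩ B))
  rw [h2] at h3
  rw [Anti_D_apply, Anti_D_apply, Anti_D_apply, h1, ← map_add]
  congr 1
  have h4 : Fr.P (off (B₁ ∩ B) ⊓ off (B₂ ∩ B)) x =
      Fr.P (off (B₁ ∩ B)) x + Fr.P (off (B₂ ∩ B)) x - Fr.P ⊤ x := by
    rw [← h3]
    abel
  rw [h4]
  abel

theorem Anti_hasSum (ψ : Fr.Amb →L[ℝ] ℝ) (B : Set Ω) (hB : IsAntichain (· ≤ ·) B)
    (B' : Set ↥B) (x : Fr.Amb) (hx : x ∈ Fr.X) :
    HasSum (fun b : ↥B => B'.indicator (fun b => Fr.Anti_D ψ B {b.1} x) b)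
      (Fr.Anti_D ψ B (Subtype.val '' B') x) := by
  classical
  have hsum : ∀ s : Finset ↥B, ∑ b ∈ s, B'.indicator (fun b => Fr.Anti_D ψ B {b.1} x) b =
      Fr.Anti_D ψ B (Subtype.val '' ((s : Set ↥B) ∩ B')) x := by
    intro s
    induction s using Finset.induction_on with
    | empty =>
      rw [Finset.sum_empty, Fr.Anti_D_empty ψ B _ (by simp) x]
    | insert a s ha ih =>
      rw [Finset.sum_insert ha, ih]
      by_cases haB : a ∈ B'
      · rw [indicator_of_mem haB]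
        have h1 : Subtype.val '' (((insert a s : Finset ↥B) : Set ↥B) ∩ B') =
            {a.1} ∪ Subtype.val '' ((s : Set ↥B) ∩ B') := by
          rw [Finset.coe_insert, insert_inter_of_mem haB, image_insert_eq, insert_eq]
        rw [h1, Fr.Anti_D_union ψ B hB _ _ ?_ x hx]
        rw [Set.disjoint_singleton_left]
        rintro ⟨b, hb, hba⟩
        have : b = a := Subtype.ext hba
        subst this
        exact ha hb.1
      · rw [indicator_of_notMem haB, zero_add]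
        congr 2
        rw [Finset.coe_insert, insert_inter_of_notMem haB]
  unfold HasSum
  simp only [hsum]
  change Tendsto _ atTop _
  rw [Metric.tendsto_nhds]
  intro δ hδ
  have hε : 0 < δ / 2 / (‖ψ‖ + 1) := by positivity
  obtain ⟨Φ, hΦ⟩ := Fr.P_near x hx _ hε
  have hev : ∀ ω ∈ Φ, ∀ᶠ s : Finset ↥B in atTop,
      (ω ∈ off ((Subtype.val '' ((s : Set ↥B) ∩ B')) ∩ B) ↔ ω ∈ off ((Subtype.val '' B') ∩ B)) := by
    intro ω _
    by_cases h : ω ∈ off ((Subtype.val '' B') ∩ B)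
    · refine Eventually.of_forall fun s => ?_
      refine iff_of_true ?_ h
      rintro b ⟨⟨b', hb', rfl⟩, hb2⟩
      exact h b'.1 ⟨⟨b', hb'.2, rfl⟩, hb2⟩
    · have h' := h
      rw [mem_off] at h'
      push Not at h'
      obtain ⟨b, ⟨⟨b', hb', rfl⟩, hb2⟩, hle⟩ := h'
      filter_upwards [eventually_ge_atTop ({b'} : Finset ↥B)] with s hs
      refine iff_of_false ?_ h
      intro hs'
      exact hs' b'.1 ⟨⟨b', ⟨hs (Finset.mem_singleton_self b'), hb'⟩, rfl⟩, hb2⟩ hle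
  filter_upwards [(Finset.eventually_all Φ).mpr hev] with s hs
  have h1 := hΦ _ _ (fun ω hω => hs ω hω)
  rw [Real.dist_eq, Anti_D_apply, Anti_D_apply, ← map_sub]
  have h2 : Fr.P ⊤ x - Fr.P (off ((Subtype.val '' ((s : Set ↥B) ∩ B')) ∩ B)) x -
      (Fr.P ⊤ x - Fr.P (off ((Subtype.val '' B') ∩ B)) x) =
      -(Fr.P (off ((Subtype.val '' ((s : Set ↥B) ∩ B')) ∩ B)) x -
        Fr.P (off ((Subtype.val '' B') ∩ B)) x) := by abel
  rw [h2, map_neg, abs_neg]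
  calc |ψ (Fr.P (off ((Subtype.val '' ((s : Set ↥B) ∩ B')) ∩ B)) x -
        Fr.P (off ((Subtype.val '' B') ∩ B)) x)|
      ≤ ‖ψ‖ * ‖Fr.P (off ((Subtype.val '' ((s : Set ↥B) ∩ B')) ∩ B)) x -
          Fr.P (off ((Subtype.val '' B') ∩ B)) x‖ := by
        rw [← Real.norm_eq_abs]
        exact ψ.le_opNorm _
    _ ≤ ‖ψ‖ * (δ / 2 / (‖ψ‖ + 1)) := mul_le_mul_of_nonneg_left h1 (norm_nonneg _)
    _ ≤ (‖ψ‖ + 1) * (δ / 2 / (‖ψ‖ + 1)) := by
        refine mul_le_mul_of_nonneg_right (by linarith) hε.le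
    _ = δ / 2 := by
        field_simp
    _ < δ := by linarith

/-- the antichain lemma -/
theorem anti_null {Ω₂ : Type} [MeasurableSpace Ω₂] (μ : Measure Ω₂) (hμ : NoTotal μ)
    (g : Ω₂ → Fr.Amb) (hgX : ∀ ω, g ω ∈ Fr.X)
    (hg : ∀ φ : Fr.Amb →L[ℝ] ℝ, Measurable (fun ω => φ (g ω)))
    (B : Set Ω) (hB : IsAntichain (· ≤ ·) B) (ψ : Fr.Amb →L[ℝ] ℝ)
    (hT : ∀ b ∈ B, (fun ω => ψ (Fr.P ⊤ (g ω) - Fr.P (off {b}) (g ω))) =ᵐ[μ] 0) :
    (fun ω => ψ (Fr.P ⊤ (g ω) - Fr.P (off B) (g ω))) =ᵐ[μ] 0 := by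
  obtain ⟨j, hj⟩ := Fr.inj
  have hS := fun (B' : Set ↥B) ω => Fr.Anti_hasSum ψ B hB B' (g ω) (hgX ω)
  have h := kern (fun b : ↥B => j b.1) (fun b ω => Fr.Anti_D ψ B {b.1} (g ω))
    (hj.comp Subtype.val_injective)
    (fun ω => by
      have := (hS univ ω).summable
      simpa using this)
    (fun B' => by
      have h1 : (fun ω => ∑' b, B'.indicator (fun b : ↥B => Fr.Anti_D ψ B {b.1} (g ω)) b) =
          fun ω => Fr.Anti_D ψ B (Subtype.val '' B') (g ω) := by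
        funext ω
        exact (hS B' ω).tsum_eq
      rw [h1]
      exact hg _) μ hμ
    (fun b => by
      filter_upwards [hT b.1 b.2] with ω hω
      rw [Anti_D_apply, inter_eq_left.mpr (singleton_subset_iff.mpr b.2)]
      exact hω)
  filter_upwards [h] with ω hω
  have h1 := (hS univ ω).tsum_eq
  have h2 : ∀ b : ↥B, (univ : Set ↥B).indicator (fun b => Fr.Anti_D ψ B {b.1} (g ω)) b = 0 := by
    intro b
    rw [indicator_univ]
    exact hω b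
  simp only [h2, tsum_zero] at h1
  have h3 : Subtype.val '' (univ : Set ↥B) = B := by simp
  rw [h3, Anti_D_apply, inter_self] at h1
  exact h1.symm

end Frame

end Pool.Agent.PIP
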