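import Pool.Agent.PIP.Prod

set_option autoImplicit false

open MeasureTheory Set Filter Topology
open scoped ENNReal

namespace Pool.Agent.PIP

lemma Bes_abs_sg (s : S) : |sg s| ≤ 1 := by
  fin_cases s <;> simp [sg]

lemma Bes_measurable_sg : Measurable sg := measurable_of_finite _

lemma Bes_int_P1 (f : S → ℝ) : ∫ s, f s ∂P1 = f 0 / 2 + f 1 / 4 + f 2 / 4 := by
  rw [integral_fintype (Integrable.of_finite)]
  have h : (Finset.univ : Finset S) = {0, 1, 2} := by decide
  rw [h, Finset.sum_insert (by decide), Finset.sum_insert (by decide), Finset.sum_singleton]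
  simp only [P1_real, smul_eq_mul]
  have h1 : ¬ ((1 : S) = 0) := by decide
  have h2 : ¬ ((2 : S) = 0) := by decide
  simp only [h1, h2, if_false, if_true]
  ring

lemma Bes_int_sg : ∫ s, sg s ∂P1 = 0 := by
  rw [Bes_int_P1]
  simp [sg]
  norm_num

lemma Bes_indep (ι : Type) {α β : ι} (h : α ≠ β) (f g : S → ℝ) :
    ∫ x, f (x α) * g (x β) ∂(PS ι) = (∫ s, f s ∂P1) * ∫ s, g s ∂P1 := by
  have hf : Measurable f := measurable_of_finite _
  have hg : Measurable g := measurable_of_finite _
  have hi : ProbabilityTheory.iIndepFun (fun (i : ι) (x : ι → S) => x i) (PS ι) :=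
    ProbabilityTheory.iIndepFun_infinitePi (P := fun _ : ι => P1)
      (X := fun _ x => x) (fun _ => measurable_id)
  have h2 := (hi.indepFun h).comp hf hg
  have h3 := h2.integral_fun_mul_eq_mul_integral
    (hf.comp (measurable_pi_apply α)).aestronglyMeasurable
    (hg.comp (measurable_pi_apply β)).aestronglyMeasurable
  have h4 : ∀ (γ : ι) (k : S → ℝ), ∫ x, k (x γ) ∂(PS ι) = ∫ s, k s ∂P1 := by
    intro γ k
    have hk : Measurable k := measurable_of_finite _
    have hm : (PS ι).map (fun x => x γ) = P1 :=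
      (measurePreserving_eval_infinitePi (fun _ : ι => P1) γ).map_eq
    rw [← hm, integral_map (measurable_pi_apply γ).aemeasurable hk.aestronglyMeasurable]
  simp only [Function.comp] at h3
  rw [h3, h4 α f, h4 β g]

lemma Bes_one (ι : Type) (α : ι) (k : S → ℝ) : ∫ x, k (x α) ∂(PS ι) = ∫ s, k s ∂P1 := by
  have hk : Measurable k := measurable_of_finite _
  have hm : (PS ι).map (fun x => x α) = P1 :=
    (measurePreserving_eval_infinitePi (fun _ : ι => P1) α).map_eq
  rw [← hm, integral_map (measurable_pi_apply α).aemeasurable hk.aestronglyMeasurable]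

section
variable {Ω ι : Type} [MeasurableSpace Ω] (μ : Measure Ω) [IsProbabilityMeasure μ]
  (u : Ω → ι → S) (hu : Measurable u) (hlaw : μ.map u = PS ι)
include hu hlaw

lemma Bes_transfer (k : (ι → S) → ℝ) (hk : Measurable k) :
    ∫ ω, k (u ω) ∂μ = ∫ x, k x ∂(PS ι) := by
  rw [← hlaw, integral_map hu.aemeasurable hk.aestronglyMeasurable]

lemma Bes_two {α β : ι} (h : α ≠ β) (f g : S → ℝ) :
    ∫ ω, f (u ω α) * g (u ω β) ∂μ = (∫ s, f s ∂P1) * ∫ s, g s ∂P1 := by
  have hf : Measurable f := measurable_of_finite _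
  have hg : Measurable g := measurable_of_finite _
  rw [Bes_transfer μ u hu hlaw (fun x => f (x α) * g (x β))
    ((hf.comp (measurable_pi_apply α)).mul (hg.comp (measurable_pi_apply β))), Bes_indep ι h]

lemma Bes_single (α : ι) (k : S → ℝ) : ∫ ω, k (u ω α) ∂μ = ∫ s, k s ∂P1 := by
  have hk : Measurable k := measurable_of_finite _
  rw [Bes_transfer μ u hu hlaw (fun x => k (x α)) (hk.comp (measurable_pi_apply α)), Bes_one]

end

theorem bessel {Ω ι : Type} [MeasurableSpace Ω] (μ : Measure Ω) [IsProbabilityMeasure μ]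
    (u : Ω → ι → S) (hu : Measurable u) (hlaw : μ.map u = PS ι) (A : Set Ω)
    (hA : MeasurableSet A) (δ : ℝ) (hδ : 0 < δ) :
    {α | δ < |∫ ω in A, sg (u ω α) ∂μ|}.Finite := by
  classical
  have hvm : ∀ α, Measurable (fun ω => sg (u ω α)) := fun α =>
    Bes_measurable_sg.comp ((measurable_pi_apply α).comp hu)
  set f : ι → Ω → ℝ := fun α ω => Real.sqrt 2 * sg (u ω α) with hf
  have hfm : ∀ α, Measurable (f α) := fun α => (hvm α).const_mul _
  have hfL : ∀ α, MemLp (f α) 2 μ := fun α =>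
    MemLp.of_bound (hfm α).aestronglyMeasurable (Real.sqrt 2) (Eventually.of_forall (fun ω => by
      rw [Real.norm_eq_abs, abs_mul, abs_of_nonneg (Real.sqrt_nonneg 2)]
      exact mul_le_of_le_one_right (Real.sqrt_nonneg 2) (Bes_abs_sg _)))
  have hone : MemLp (A.indicator (fun _ => (1 : ℝ))) 2 μ :=
    (memLp_const 1).indicator hA
  have hinner : ∀ (g g' : Ω → ℝ) (hg : MemLp g 2 μ) (hg' : MemLp g' 2 μ),
      inner ℝ (hg.toLp g) (hg'.toLp g') = ∫ ω, g ω * g' ω ∂μ := by
    intro g g' hg hg'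
    rw [L2.inner_def]
    refine integral_congr_ae ?_
    filter_upwards [hg.coeFn_toLp, hg'.coeFn_toLp] with ω h3 h4
    rw [h3, h4]
    simp [mul_comm]
  have hsq : Real.sqrt 2 * Real.sqrt 2 = 2 := Real.mul_self_sqrt (by norm_num)
  have horth : Orthonormal ℝ (fun α => (hfL α).toLp (f α)) := by
    rw [orthonormal_iff_ite]
    intro α β
    rw [hinner]
    have h1 : ∀ ω, f α ω * f β ω = 2 * (sg (u ω α) * sg (u ω β)) := by
      intro ω
      simp only [hf]
      calc Real.sqrt 2 * sg (u ω α) * (Real.sqrt 2 * sg (u ω β))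
          = (Real.sqrt 2 * Real.sqrt 2) * (sg (u ω α) * sg (u ω β)) := by ring
        _ = _ := by rw [hsq]
    simp only [h1]
    rw [integral_const_mul]
    by_cases hαβ : α = β
    · subst hαβ
      rw [if_pos rfl, Bes_single μ u hu hlaw α (fun s => sg s * sg s), Bes_int_P1]
      simp [sg]
      norm_num
    · rw [if_neg hαβ, Bes_two μ u hu hlaw hαβ sg sg, Bes_int_sg]
      simp
  have hs := horth.inner_products_summable (hone.toLp _)
  have h2 : ∀ α, ‖inner ℝ ((hfL α).toLp (f α)) (hone.toLp _)‖ ^ 2 =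
      2 * (∫ ω in A, sg (u ω α) ∂μ) ^ 2 := by
    intro α
    rw [hinner]
    have h3 : ∀ ω, f α ω * A.indicator (fun _ => (1 : ℝ)) ω =
        Real.sqrt 2 * A.indicator (fun ω => sg (u ω α)) ω := by
      intro ω
      by_cases h : ω ∈ A
      · simp [hf, h]
      · simp [h]
    simp only [h3]
    rw [integral_const_mul, integral_indicator hA, norm_mul, mul_pow, Real.norm_eq_abs,
      abs_of_nonneg (Real.sqrt_nonneg 2), Real.sq_sqrt (by norm_num), Real.norm_eq_abs, sq_abs]
  simp only [h2] at hs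
  have h4 := hs.tendsto_cofinite_zero
  have h5 : ∀ᶠ α in cofinite, 2 * (∫ ω in A, sg (u ω α) ∂μ) ^ 2 < δ ^ 2 :=
    h4.eventually_lt_const (by positivity)
  refine (Filter.eventually_cofinite.1 h5).subset (fun α hα => ?_)
  simp only [mem_ofPred_eq, not_lt] at hα ⊢
  have h6 : δ ^ 2 ≤ |∫ ω in A, sg (u ω α) ∂μ| ^ 2 := by gcongr
  rw [sq_abs] at h6
  nlinarith [sq_nonneg (∫ ω in A, sg (u ω α) ∂μ)]

open Classical in
theorem int_pos {Ω ι : Type} [MeasurableSpace Ω] (μ : Measure Ω) [IsProbabilityMeasure μ]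
    (u : Ω → ι → S) (hu : Measurable u) (hlaw : μ.map u = PS ι) (α β : ι) :
    ∫ ω in {ω | u ω α = 1}, sg (u ω β) ∂μ = if β = α then 1 / 4 else 0 := by
  have hm : MeasurableSet {ω | u ω α = 1} :=
    ((measurable_pi_apply α).comp hu) (measurableSet_singleton 1)
  set k : S → ℝ := fun s => if s = 1 then 1 else 0 with hk
  have h1 : ∫ ω in {ω | u ω α = 1}, sg (u ω β) ∂μ = ∫ ω, k (u ω α) * sg (u ω β) ∂μ := by
    rw [← integral_indicator hm]
    congr 1
    ext ω
    by_cases h : u ω α = 1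
    · have h' : ω ∈ {ω | u ω α = 1} := h
      rw [indicator_of_mem h']
      simp [hk, h]
    · have h' : ω ∉ {ω | u ω α = 1} := h
      rw [indicator_of_notMem h']
      simp [hk, h]
  rw [h1]
  by_cases hαβ : β = α
  · subst hαβ
    rw [if_pos rfl, Bes_single μ u hu hlaw β (fun s => k s * sg s), Bes_int_P1]
    have h2 : ¬ ((2 : S) = 1) := by decide
    simp [hk, sg, h2]
  · rw [if_neg hαβ, Bes_two μ u hu hlaw (Ne.symm hαβ) k sg, Bes_int_sg, mul_zero]

end Pool.Agent.PIP
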