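import Pool.Agent.PIP.Prod

set_option autoImplicit false

open MeasureTheory Set Filter Topology
open scoped ENNReal

namespace Pool.Agent.PIP

theorem Bo_norm_le {E : Type} [NormedAddCommGroup E] [NormedSpace ℝ E] (V : Submodule ℝ E)
    (d : ℕ → V) (hd : DenseRange d) (φ : ℕ → E →L[ℝ] ℝ) (h1 : ∀ n, ‖φ n‖ ≤ 1)
    (h2 : ∀ n, φ n (d n : E) = ‖(d n : E)‖) (x : V) (M : ℝ) (hx : ∀ n, |φ n (x : E)| ≤ M) :
    ‖x‖ ≤ M := by
  refine le_of_forall_pos_le_add ?_
  intro ε hε
  obtain ⟨n, hn⟩ := hd.exists_dist_lt x (half_pos hε)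
  have h3 : ‖x‖ ≤ ‖d n‖ + ε / 2 := by
    have : ‖x‖ ≤ ‖d n‖ + ‖x - d n‖ := by
      have := norm_add_le (d n) (x - d n)
      simpa using this
    rw [dist_eq_norm] at hn
    linarith
  have h4 : ‖d n‖ ≤ M + ε / 2 := by
    have h5 : (‖d n‖ : ℝ) = φ n (x : E) + φ n ((d n : E) - (x : E)) := by
      rw [map_sub, h2]; simp
    have h6 : |φ n ((d n : E) - (x : E))| ≤ ε / 2 := by
      have h7 := (φ n).le_opNorm ((d n : E) - (x : E))
      have h8 : ‖(d n : E) - (x : E)‖ ≤ ε / 2 := by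
        rw [dist_comm, dist_eq_norm] at hn
        have : ‖(d n : E) - (x : E)‖ = ‖d n - x‖ := rfl
        rw [this]; exact hn.le
      rw [← Real.norm_eq_abs]
      calc ‖φ n ((d n : E) - (x : E))‖ ≤ ‖φ n‖ * ‖(d n : E) - (x : E)‖ := h7
        _ ≤ 1 * (ε / 2) := mul_le_mul (h1 n) h8 (norm_nonneg _) (by norm_num)
        _ = ε / 2 := one_mul _
    have h9 := hx n
    rw [h5]
    have := le_abs_self (φ n (x : E))
    have := le_abs_self (φ n ((d n : E) - (x : E)))
    linarith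
  linarith

/-- Pettis: a scalarly measurable, scalarly bounded function with values in a closed separable
subspace has a weak integral in that subspace -/
theorem pettis_separable {E Ω₂ : Type} [NormedAddCommGroup E] [NormedSpace ℝ E] [CompleteSpace E]
    [MeasurableSpace Ω₂] (μ : Measure Ω₂) [IsProbabilityMeasure μ] (V : Submodule ℝ E)
    (hV : IsClosed (V : Set E)) (hsep : TopologicalSpace.IsSeparable (V : Set E)) (h : Ω₂ → E)
    (hh : ∀ ω, h ω ∈ V) (hm : ∀ φ : E →L[ℝ] ℝ, Measurable (fun ω => φ (h ω))) (M : ℝ)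
    (hb : ∀ φ : E →L[ℝ] ℝ, ∀ᵐ ω ∂μ, |φ (h ω)| ≤ M * ‖φ‖) (A : Set Ω₂) (hA : MeasurableSet A) :
    ∃ w ∈ V, ∀ φ : E →L[ℝ] ℝ, φ w = ∫ ω in A, φ (h ω) ∂μ := by
  haveI : TopologicalSpace.SeparableSpace V := hsep.separableSpace
  haveI : SecondCountableTopology V := UniformSpace.secondCountable_of_separable V
  haveI : CompleteSpace V := hV.completeSpace_coe
  letI : MeasurableSpace V := borel V
  haveI : BorelSpace V := ⟨rfl⟩
  set d : ℕ → V := TopologicalSpace.denseSeq V with hdd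
  have hd : DenseRange d := TopologicalSpace.denseRange_denseSeq V
  have hex : ∀ n, ∃ g : E →L[ℝ] ℝ, ‖g‖ ≤ 1 ∧ g (d n : E) = ‖(d n : E)‖ := by
    intro n
    obtain ⟨g, hg1, hg2⟩ := exists_dual_vector'' ℝ (d n : E)
    exact ⟨g, hg1, by simpa using hg2⟩
  choose φ h1 h2 using hex
  have key := Bo_norm_le V d hd φ h1 h2
  set h' : Ω₂ → V := fun ω => ⟨h ω, hh ω⟩ with hh'
  set g : V → (ℕ → ℝ) := fun x n => φ n (x : E) with hg
  have hgc : Continuous g := by
    refine continuous_pi fun n => ?_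
    exact (φ n).continuous.comp continuous_subtype_val
  have hgi : Function.Injective g := by
    intro x y hxy
    have : ‖x - y‖ ≤ 0 := by
      apply key
      intro n
      have h3 : φ n (x : E) = φ n (y : E) := congrFun hxy n
      have : φ n ((x - y : V) : E) = 0 := by
        rw [Submodule.coe_sub, map_sub, h3, sub_self]
      rw [this]; simp
    exact sub_eq_zero.mp (norm_le_zero_iff.mp this)
  have hge : MeasurableEmbedding g := hgc.measurableEmbedding hgi
  have hmeas : Measurable h' := by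
    rw [← hge.measurable_comp_iff]
    exact measurable_pi_lambda _ fun n => hm (φ n)
  have hbd : ∀ᵐ ω ∂μ, ‖h' ω‖ ≤ |M| := by
    have h3 : ∀ᵐ ω ∂μ, ∀ n, |φ n (h ω)| ≤ M * ‖φ n‖ := ae_all_iff.mpr fun n => hb (φ n)
    filter_upwards [h3] with ω hω
    apply key
    intro n
    calc |φ n (h ω)| ≤ M * ‖φ n‖ := hω n
      _ ≤ |M| * ‖φ n‖ := mul_le_mul_of_nonneg_right (le_abs_self M) (norm_nonneg _)
      _ ≤ |M| * 1 := mul_le_mul_of_nonneg_left (h1 n) (abs_nonneg _)
      _ = |M| := mul_one _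
  have hint : Integrable h' (μ.restrict A) := by
    refine Integrable.of_bound hmeas.aestronglyMeasurable |M| ?_
    exact ae_restrict_of_ae hbd
  refine ⟨((∫ ω in A, h' ω ∂μ : V) : E), (∫ ω in A, h' ω ∂μ : V).2, ?_⟩
  intro ψ
  have := (ψ.comp V.subtypeL).integral_comp_comm hint
  exact this.symm

end Pool.Agent.PIP
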