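import Pool.Agent.PIP.Prod

set_option autoImplicit false

open MeasureTheory Set Filter Topology
open scoped ENNReal

namespace Pool.Agent.PIP

theorem C0_finite {B Ω₂ : Type} [MeasurableSpace Ω₂] (μ : Measure Ω₂) [IsFiniteMeasure μ]
    (F : B → Ω₂ → ℝ) (hF : ∀ b, Measurable (F b))
    (hfin : ∀ ω, ∀ δ > 0, {b | δ < |F b ω|}.Finite) (δ : ℝ) (hδ : 0 < δ) (ε : ℝ≥0∞)
    (hε : 0 < ε) : {b | ε ≤ μ {ω | δ < |F b ω|}}.Finite := by
  by_contra hinf
  have hinf' : {b | ε ≤ μ {ω | δ < |F b ω|}}.Infinite := hinf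
  let s := hinf'.natEmbedding
  let E : ℕ → Set Ω₂ := fun n => {ω | δ < |F (s n).1 ω|}
  have hE : ∀ n, MeasurableSet (E n) := fun n =>
    measurableSet_lt measurable_const (hF (s n).1).abs
  have hEμ : ∀ n, ε ≤ μ (E n) := fun n => (s n).2
  let G : ℕ → Set Ω₂ := fun n => ⋃ k ≥ n, E k
  have hG : Antitone G := by
    intro m n hmn ω hω
    simp only [G, Set.mem_iUnion] at hω ⊢
    obtain ⟨k, hk, h⟩ := hω
    exact ⟨k, le_trans hmn hk, h⟩
  have hGm : ∀ n, MeasurableSet (G n) := fun n =>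
    MeasurableSet.iUnion fun k => MeasurableSet.iUnion fun _ => hE k
  have h1 : μ (⋂ n, G n) = ⨅ n, μ (G n) :=
    hG.measure_iInter (fun n => (hGm n).nullMeasurableSet) ⟨0, measure_ne_top _ _⟩
  have h2 : ε ≤ ⨅ n, μ (G n) := le_iInf fun n => (hEμ n).trans (measure_mono fun ω hω => by
    simp only [G, Set.mem_iUnion]
    exact ⟨n, le_rfl, hω⟩)
  have h3 : (⋂ n, G n) = ∅ := by
    rw [Set.eq_empty_iff_forall_notMem]
    intro ω hω
    have h4 : {k | ω ∈ E k}.Infinite := by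
      refine Set.infinite_of_forall_exists_gt fun n => ?_
      have h5 := Set.mem_iInter.1 hω (n + 1)
      simp only [G, Set.mem_iUnion] at h5
      obtain ⟨k, hk, h6⟩ := h5
      exact ⟨k, h6, hk⟩
    have h7 : ((fun k => (s k).1) '' {k | ω ∈ E k}).Infinite :=
      h4.image (Set.injOn_of_injective (Subtype.val_injective.comp s.injective))
    refine h7 ((hfin ω δ hδ).subset ?_)
    rintro _ ⟨k, hk, rfl⟩
    exact hk
  rw [h3, measure_empty] at h1
  rw [← h1] at h2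
  exact absurd h2 (not_le.2 hε)

/-- a point-finite family of measurable functions has only countably many non-null members -/
theorem countable_nonnull {B Ω₂ : Type} [MeasurableSpace Ω₂] (μ : Measure Ω₂) [IsFiniteMeasure μ]
    (F : B → Ω₂ → ℝ) (hF : ∀ b, Measurable (F b))
    (hfin : ∀ ω, ∀ δ > 0, {b | δ < |F b ω|}.Finite) : {b | ¬ (F b =ᵐ[μ] 0)}.Countable := by
  have hsub : {b | ¬ (F b =ᵐ[μ] 0)} ⊆
      ⋃ n : ℕ, ⋃ m : ℕ, {b | ((m : ℝ≥0∞) + 1)⁻¹ ≤ μ {ω | 1 / ((n : ℝ) + 1) < |F b ω|}} := by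
    intro b hb
    by_contra hcon
    apply hb
    simp only [Set.mem_iUnion, not_exists, Set.mem_ofPred_eq, not_le] at hcon
    have h1 : ∀ n : ℕ, μ {ω | 1 / ((n : ℝ) + 1) < |F b ω|} = 0 := by
      intro n
      by_contra h0
      obtain ⟨m, hm⟩ := ENNReal.exists_inv_nat_lt h0
      have h2 := hcon n m
      have h3 : ((m : ℝ≥0∞) + 1)⁻¹ ≤ (m : ℝ≥0∞)⁻¹ := ENNReal.inv_le_inv.2 le_self_add
      exact absurd (h2.trans_le (h3.trans hm.le)) (lt_irrefl _)
    have h2 : μ {ω | F b ω ≠ 0} = 0 := by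
      refine measure_mono_null ?_ (measure_iUnion_null h1)
      intro ω hω
      have h3 : 0 < |F b ω| := abs_pos.2 hω
      obtain ⟨n, hn⟩ := exists_nat_one_div_lt h3
      exact Set.mem_iUnion.2 ⟨n, hn⟩
    exact h2
  refine Set.Countable.mono hsub ?_
  refine Set.countable_iUnion fun n => Set.countable_iUnion fun m => ?_
  refine (C0_finite μ F hF hfin _ (by positivity) _ ?_).countable
  exact ENNReal.inv_pos.2 (by finiteness)

end Pool.Agent.PIP
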