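import Pool.Agent.PIP.Fr

set_option autoImplicit false

open MeasureTheory Set Filter Topology
open scoped ENNReal

namespace Pool.Agent.PIP

namespace Frame

variable {ι Ω : Type} [PartialOrder Ω] (Fr : Frame ι Ω)

include Fr in
/-- antichains of the lower closure -/
theorem Cnt_antichain (T : Set Ω) (hT : ∀ B ⊆ T, IsAntichain (· ≤ ·) B → B.Countable)
    (B : Set Ω) (hB : B ⊆ {ω | ∃ τ ∈ T, ω ≤ τ}) (hA : IsAntichain (· ≤ ·) B) : B.Countable := by
  classical
  have h : ∀ b ∈ B, ∃ τ ∈ T, b ≤ τ := fun b hb => hB hb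
  choose! g hgT hg using h
  have key : ∀ b ∈ B, ∀ b' ∈ B, g b ≤ g b' → b = b' := by
    intro b hb b' hb' hle
    rcases Fr.tree b b' (g b') ((hg b hb).trans hle) (hg b' hb') with h | h
    · by_contra hne
      exact hA hb hb' hne h
    · by_contra hne
      exact hA hb' hb (fun h => hne h.symm) h
  have hinj : InjOn g B := fun b hb b' hb' h => key b hb b' hb' h.le
  have himg : (g '' B).Countable := by
    apply hT
    · rintro _ ⟨b, hb, rfl⟩
      exact hgT b hb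
    · rintro _ ⟨b, hb, rfl⟩ _ ⟨b', hb', rfl⟩ hne hle
      exact hne (by rw [key b hb b' hb' hle])
  exact Set.countable_of_injective_of_countable_image hinj himg

include Fr in
/-- a non-maximal element of a lower set is an immediate predecessor -/
theorem Cnt_succ {w w' : Ω} (h : w < w') : ∃ a, w < a ∧ a ≤ w' ∧ ∀ b, b < a → b ≤ w := by
  obtain ⟨a, ha, hmin⟩ := Fr.wf w' {a | w < a ∧ a ≤ w'} (fun a ha => ha.2) ⟨w', h, le_rfl⟩
  refine ⟨a, ha.1, ha.2, ?_⟩
  intro b hb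
  rcases Fr.tree b w w' (hb.le.trans ha.2) h.le with h1 | h1
  · exact h1
  · rcases h1.lt_or_eq with h2 | h2
    · exact absurd (hmin b ⟨h2, hb.le.trans ha.2⟩) (not_le_of_gt hb)
    · exact h2.symm.le

include Fr in
/-- a set all of whose antichains are countable generates a countable lower set -/
theorem countable_of_antichains (T : Set Ω)
    (hT : ∀ B ⊆ T, IsAntichain (· ≤ ·) B → B.Countable) : {ω | ∃ τ ∈ T, ω ≤ τ}.Countable := by
  classical
  set T' : Set Ω := {ω | ∃ τ ∈ T, ω ≤ τ} with hT'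
  have hanti := Fr.Cnt_antichain T hT
  have hlow : ∀ a b, a ≤ b → b ∈ T' → a ∈ T' := by
    rintro a b hab ⟨τ, hτ, hb⟩
    exact ⟨τ, hτ, hab.trans hb⟩
  set NM : Set Ω := {w | w ∈ T' ∧ ∃ w' ∈ T', w < w'} with hNM
  have h1 : ∀ w ∈ NM, ∃ a, w < a ∧ a ∈ T' ∧ ∀ b, b < a → b ≤ w := by
    rintro w ⟨_, w', hw', h⟩
    obtain ⟨a, ha1, ha2, ha3⟩ := Fr.Cnt_succ h
    exact ⟨a, ha1, hlow a w' ha2 hw', ha3⟩
  choose! g hg1 hg2 hg3 using h1
  have h2 : ∀ w ∈ NM, ∃ q : ℚ, Fr.lbl w < q ∧ (q : ℝ) < Fr.lbl (g w) := by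
    intro w hw
    exact exists_rat_btwn (Fr.lbl_lt _ _ (hg1 w hw))
  choose! q hq1 hq2 using h2
  have hinj : InjOn g NM := by
    intro a ha b hb hab
    apply le_antisymm
    · exact hg3 b hb a (hab ▸ hg1 a ha)
    · exact hg3 a ha b (hab ▸ hg1 b hb)
  have hNMc : NM.Countable := by
    have hsub : NM ⊆ ⋃ r : ℚ, {w | w ∈ NM ∧ q w = r} := by
      intro w hw
      exact mem_iUnion.2 ⟨q w, hw, rfl⟩
    refine (countable_iUnion ?_).mono hsub
    intro r
    have hinj' : InjOn g {w | w ∈ NM ∧ q w = r} := hinj.mono (fun w hw => hw.1)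
    refine Set.countable_of_injective_of_countable_image hinj' ?_
    apply hanti
    · rintro _ ⟨w, hw, rfl⟩
      exact hg2 w hw.1
    · rintro _ ⟨a, ha, rfl⟩ _ ⟨b, hb, rfl⟩ hne hle
      have hlt : g a < g b := lt_of_le_of_ne hle hne
      have h3 : g a ≤ b := hg3 b hb.1 _ hlt
      have h4 : Fr.lbl (g a) ≤ Fr.lbl b := by
        rcases h3.lt_or_eq with h | h
        · exact (Fr.lbl_lt _ _ h).le
        · rw [h]
      have h5 := hq2 a ha.1
      have h6 := hq1 b hb.1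
      rw [ha.2] at h5
      rw [hb.2] at h6
      linarith
  have hM : {w | w ∈ T' ∧ ¬ ∃ w' ∈ T', w < w'}.Countable := by
    apply hanti
    · exact fun w hw => hw.1
    · intro a ha b hb hne hle
      exact ha.2 ⟨b, hb.1, lt_of_le_of_ne hle hne⟩
  refine (hNMc.union hM).mono ?_
  intro w hw
  by_cases h : ∃ w' ∈ T', w < w'
  · exact Or.inl ⟨hw, h⟩
  · exact Or.inr ⟨hw, h⟩

include Fr in
/-- a lower set is cut out by the antichain of the minimal elements of its complement -/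
theorem exists_min_antichain (C : LowerSet Ω) : ∃ B : Set Ω, IsAntichain (· ≤ ·) B ∧
    (∀ b ∈ B, b ∉ C) ∧ off B = C := by
  refine ⟨{b | b ∉ C ∧ ∀ a, a < b → a ∈ C}, ?_, fun b hb => hb.1, ?_⟩
  · intro a ha b hb hne hle
    exact ha.1 (hb.2 a (lt_of_le_of_ne hle hne))
  · ext w
    change (∀ b ∈ {b | b ∉ C ∧ ∀ a, a < b → a ∈ C}, ¬ b ≤ w) ↔ w ∈ C
    constructor
    · intro h
      by_contra hw
      obtain ⟨b, hb, hmin⟩ := Fr.wf w {a | a ≤ w ∧ a ∉ C} (fun a ha => ha.1) ⟨w, le_rfl, hw⟩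
      refine h b ⟨hb.2, ?_⟩ hb.1
      intro a ha
      by_contra haC
      exact absurd (hmin a ⟨ha.le.trans hb.1, haC⟩) (not_le_of_gt ha)
    · intro hw b hb hle
      exact hb.1 (C.lower hle hw)

end Frame

end Pool.Agent.PIP
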