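import Pool.Agent.PIP.K

set_option autoImplicit false

open MeasureTheory Set Filter Topology
open scoped ENNReal

namespace Pool.Agent.PIP

namespace Frame

variable {ι Ω : Type} [PartialOrder Ω] (Fr : Frame ι Ω)

/-- In a chain of lower sets some member agrees with the union on a given finite set. -/
theorem Zl_exists_mem {c : Set (LowerSet Ω)} (hc : IsChain (· ≤ ·) c) (hne : c.Nonempty)
    (Φ : Finset Ω) : ∃ A ∈ c, ∀ ω ∈ Φ, (ω ∈ sSup c ↔ ω ∈ A) := by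
  classical
  induction Φ using Finset.induction_on with
  | empty =>
    obtain ⟨A, hA⟩ := hne
    exact ⟨A, hA, by simp⟩
  | insert a Φ _ ih =>
    obtain ⟨A, hA, hAΦ⟩ := ih
    by_cases ha : a ∈ sSup c
    · obtain ⟨B, hB, haB⟩ := LowerSet.mem_sSup_iff.1 ha
      rcases hc.total hA hB with h | h
      · refine ⟨B, hB, fun ω hω => ⟨fun h1 => ?_, fun h1 => LowerSet.mem_sSup_iff.2 ⟨B, hB, h1⟩⟩⟩
        rcases Finset.mem_insert.1 hω with h2 | h2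
        · rw [h2]; exact haB
        · exact h ((hAΦ ω h2).1 h1)
      · refine ⟨A, hA, fun ω hω => ⟨fun h1 => ?_, fun h1 => LowerSet.mem_sSup_iff.2 ⟨A, hA, h1⟩⟩⟩
        rcases Finset.mem_insert.1 hω with h2 | h2
        · rw [h2]; exact h haB
        · exact (hAΦ ω h2).1 h1
    · refine ⟨A, hA, fun ω hω => ⟨fun h1 => ?_, fun h1 => LowerSet.mem_sSup_iff.2 ⟨A, hA, h1⟩⟩⟩
      rcases Finset.mem_insert.1 hω with h2 | h2
      · exact absurd (h2 ▸ h1) ha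
      · exact (hAΦ ω h2).1 h1

theorem P_eq_of_cf (x : Fr.Amb) (hx : x ∈ Fr.X) (A0 C : LowerSet Ω) (hAC : A0 ≤ C)
    (hcf : ∀ ω ∈ C, ω ∉ A0 → Fr.cf ω x = 0) : Fr.P C x = Fr.P A0 x := by
  obtain ⟨A, hA0, hA⟩ := zorn_le_nonempty₀
    {A : LowerSet Ω | A0 ≤ A ∧ A ≤ C ∧ Fr.P A x = Fr.P A0 x} (by
      intro c hcs hc B hB
      refine ⟨sSup c, ⟨(hcs hB).1.trans (le_sSup hB), sSup_le fun D hD => (hcs hD).2.1, ?_⟩,
        fun D hD => le_sSup hD⟩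
      rw [← sub_eq_zero, ← norm_le_zero_iff]
      refine le_of_forall_pos_le_add fun ε hε => ?_
      rw [zero_add]
      obtain ⟨Φ, hΦ⟩ := Fr.P_near x hx ε hε
      obtain ⟨D, hD, hDΦ⟩ := Zl_exists_mem hc ⟨B, hB⟩ Φ
      have := hΦ (sSup c) D hDΦ
      rwa [(hcs hD).2.2] at this) A0 ⟨le_rfl, hAC, rfl⟩
  obtain ⟨hA1, hAC1, hAP⟩ := hA.prop
  suffices h : A = C by rw [← h]; exact hAP
  by_contra hne
  have hex : ∃ ω, ω ∈ C ∧ ω ∉ A := by
    by_contra hcon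
    push Not at hcon
    exact hne (le_antisymm hAC1 hcon)
  obtain ⟨ω, hωC, hωA⟩ := hex
  obtain ⟨a, ha, hamin⟩ := Fr.wf ω {a | a ≤ ω ∧ a ∉ A} (fun a ha => ha.1) ⟨ω, le_rfl, hωA⟩
  let A' : LowerSet Ω := ⟨{ω' | ω' ∈ A ∨ ω' = a}, by
    intro b d hdb hb
    rcases hb with hb | hb
    · exact Or.inl (A.lower hdb hb)
    · by_cases hd : d ∈ A
      · exact Or.inl hd
      · exact Or.inr (le_antisymm (hb ▸ hdb) (hamin d ⟨(hb ▸ hdb : d ≤ a).trans ha.1, hd⟩))⟩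
  have hA' : ∀ ω', ω' ∈ A' ↔ ω' ∈ A ∨ ω' = a := fun ω' => Iff.rfl
  have haC : a ∈ C := C.lower ha.1 hωC
  have haA0 : a ∉ A0 := fun h => ha.2 (hA1 h)
  have hstep := Fr.cf_step x hx A A' a hA' ha.2
  rw [hcf a haC haA0, zero_smul, add_zero] at hstep
  have hle : A ≤ A' := fun b hb => Or.inl hb
  have hmem : A' ∈ {A : LowerSet Ω | A0 ≤ A ∧ A ≤ C ∧ Fr.P A x = Fr.P A0 x} := by
    refine ⟨hA1.trans hle, ?_, hstep.trans hAP⟩
    intro b hb
    rcases hb with hb | hb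
    · exact hAC1 hb
    · rw [hb]; exact haC
  have := hA.le_of_ge hmem hle
  exact ha.2 (this (Or.inr rfl))

end Frame

end Pool.Agent.PIP
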