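import Pool.Agent.PIP.Anti
import Pool.Agent.PIP.Zl
import Pool.Agent.PIP.Cnt
import Pool.Agent.PIP.C0

set_option autoImplicit false

open MeasureTheory Set Filter Topology
open scoped ENNReal

namespace Pool.Agent.PIP

namespace Frame

variable {ι Ω : Type} [PartialOrder Ω] (Fr : Frame ι Ω)

/-- the lower set generated by a set -/
def C2_low (T : Set Ω) : LowerSet Ω := ⟨{ω | ∃ τ ∈ T, ω ≤ τ}, fun _ _ h h' => by
  obtain ⟨τ, h1, h2⟩ := h'
  exact ⟨τ, h1, h.trans h2⟩⟩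

theorem C2_mem_low {T : Set Ω} {ω : Ω} : ω ∈ C2_low T ↔ ∃ τ ∈ T, ω ≤ τ := Iff.rfl

include Fr in
theorem C2_low_countable {T : Set Ω} (hT : T.Countable) :
    (C2_low T : Set Ω).Countable := by
  have h : (C2_low T : Set Ω) = ⋃ τ ∈ T, {ω | ω ≤ τ} := by
    ext ω
    simp only [Set.mem_iUnion, exists_prop]
    exact Iff.rfl
  rw [h]
  exact hT.biUnion fun τ _ => Fr.cnt τ

theorem essential {Ω₂ : Type} [MeasurableSpace Ω₂] (μ : Measure Ω₂) [IsProbabilityMeasure μ]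
    (hμ : NoTotal μ) (g : Ω₂ → Fr.Amb) (hgX : ∀ ω, g ω ∈ Fr.X)
    (hg : ∀ φ : Fr.Amb →L[ℝ] ℝ, Measurable (fun ω => φ (g ω))) :
    ∃ A0 : LowerSet Ω, (A0 : Set Ω).Countable ∧ ∀ ψ : Fr.Amb →L[ℝ] ℝ,
      (fun ω => ψ (Fr.P ⊤ (g ω))) =ᵐ[μ] fun ω => ψ (Fr.P A0 (g ω)) := by
  -- the essential nodes of the coefficients
  let A00 : Set Ω := {w | ¬ ((fun ω => Fr.cf w (g ω)) =ᵐ[μ] 0)}
  have hA00 : A00.Countable :=
    countable_nonnull μ (fun w ω => Fr.cf w (g ω)) (fun w => hg (Fr.cf w))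
      (fun ω δ hδ => Fr.cf_finite (g ω) (hgX ω) δ hδ)
  refine ⟨C2_low A00, C2_low_countable Fr hA00, fun ψ => ?_⟩
  -- the essential nodes of `ψ`
  let T : Set Ω := {w | ¬ ((fun ω => ψ (Fr.P ⊤ (g ω) - Fr.P (off {w}) (g ω))) =ᵐ[μ] 0)}
  have hTanti : ∀ B ⊆ T, IsAntichain (· ≤ ·) B → B.Countable := by
    intro B hBT hB
    have h1 := countable_nonnull (B := ↥B) μ
      (fun b ω => ψ (Fr.P ⊤ (g ω) - Fr.P (off {b.1}) (g ω)))
      (fun b => hg (ψ.comp (Fr.P ⊤ - Fr.P (off {b.1}))))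
      (fun ω δ hδ => by
        have h2 := Fr.anti_finite B hB ψ (g ω) (hgX ω) δ hδ
        refine Set.Finite.preimage (f := Subtype.val) Subtype.val_injective.injOn h2 |>.subset ?_
        intro b hb
        exact ⟨b.2, hb⟩)
    have h3 : {b : ↥B | ¬ ((fun ω => ψ (Fr.P ⊤ (g ω) - Fr.P (off {b.1}) (g ω))) =ᵐ[μ] 0)} =
        Set.univ := by
      rw [Set.eq_univ_iff_forall]
      intro b
      exact hBT b.2
    rw [h3] at h1
    exact Set.countable_coe_iff.1 (Set.countable_univ_iff.1 h1)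
  have hT' : (C2_low T : Set Ω).Countable := Fr.countable_of_antichains T hTanti
  let C : LowerSet Ω := C2_low A00 ⊔ C2_low T
  have hC : (C : Set Ω).Countable := by
    rw [LowerSet.coe_sup]
    exact (C2_low_countable Fr hA00).union hT'
  obtain ⟨B, hB, hBC, hoff⟩ := Fr.exists_min_antichain C
  have h1 := Fr.anti_null μ hμ g hgX hg B hB ψ (fun b hb => by
    by_contra hcon
    exact hBC b hb (LowerSet.mem_sup_iff.2 (Or.inr ⟨b, hcon, le_rfl⟩)))
  rw [hoff] at h1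
  have h2 : ∀ᵐ ω ∂μ, ∀ w ∈ (C : Set Ω), w ∉ C2_low A00 → Fr.cf w (g ω) = 0 := by
    rw [ae_ball_iff hC]
    intro w _
    by_cases hw : w ∈ C2_low A00
    · exact Filter.Eventually.of_forall fun ω h => absurd hw h
    · have h3 : (fun ω => Fr.cf w (g ω)) =ᵐ[μ] 0 := by
        by_contra hcon
        exact hw ⟨w, hcon, le_rfl⟩
      filter_upwards [h3] with ω hω _
      exact hω
  filter_upwards [h1, h2] with ω hω1 hω2
  have h3 := Fr.P_eq_of_cf (g ω) (hgX ω) (C2_low A00) C le_sup_left hω2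
  rw [map_sub, h3] at hω1
  exact sub_eq_zero.1 hω1

end Frame

end Pool.Agent.PIP
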