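import Pool.Agent.PIP.Prod

set_option autoImplicit false

open MeasureTheory Set Filter Topology
open scoped ENNReal

namespace Pool.Agent.PIP

/-- weights of convex combinations of the tail `k ≥ n` -/
private def MazG (n : ℕ) : Set (ℕ →₀ ℝ) :=
  {c | (∀ k, 0 ≤ c k) ∧ (∀ k, k < n → c k = 0) ∧ (c.sum fun _ a => a) = 1}

private theorem MazG_single (n : ℕ) : Finsupp.single n (1 : ℝ) ∈ MazG n := by
  refine ⟨fun k => ?_, fun k hk => ?_, ?_⟩
  · rw [Finsupp.single_apply]; split_ifs <;> norm_num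
  · rw [Finsupp.single_apply, if_neg (by omega)]
  · simp

private theorem MazG_mid {n m : ℕ} (hnm : n ≤ m) {c e : ℕ →₀ ℝ} (hc : c ∈ MazG n)
    (he : e ∈ MazG m) : (1 / 2 : ℝ) • (c + e) ∈ MazG n := by
  obtain ⟨c0, c1, c2⟩ := hc
  obtain ⟨e0, e1, e2⟩ := he
  refine ⟨fun k => ?_, fun k hk => ?_, ?_⟩
  · have := c0 k
    have := e0 k
    simp only [Finsupp.smul_apply, Finsupp.add_apply, smul_eq_mul]
    positivity
  · simp only [Finsupp.smul_apply, Finsupp.add_apply, smul_eq_mul]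
    rw [c1 k hk, e1 k (by omega)]
    ring
  · rw [Finsupp.sum_smul_index (fun _ => rfl)]
    rw [Finsupp.sum_add_index' (by simp) (by intros; ring)]
    rw [← Finsupp.mul_sum, ← Finsupp.mul_sum, c2, e2]
    norm_num

/-- convex combinations of tails of a bounded sequence converging almost everywhere -/
theorem convex_tail {Ω₂ : Type} [MeasurableSpace Ω₂] (μ : Measure Ω₂) [IsProbabilityMeasure μ]
    (h : ℕ → Ω₂ → ℝ) (hm : ∀ n, Measurable (h n)) (M : ℝ) (hb : ∀ n, ∀ᵐ ω ∂μ, |h n ω| ≤ M) :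
    ∃ c : ℕ → ℕ →₀ ℝ, (∀ n k, 0 ≤ c n k) ∧ (∀ n k, k < n → c n k = 0) ∧
      (∀ n, ((c n).sum fun _ a => a) = 1) ∧
      ∀ᵐ ω ∂μ, ∃ l, Tendsto (fun n => (c n).sum fun k a => a * h k ω) atTop (𝓝 l) := by
  have hM : 0 ≤ M := by
    obtain ⟨ω, hω⟩ := (hb 0).exists
    exact (abs_nonneg _).trans hω
  have hLp : ∀ n, MemLp (h n) 2 μ := fun n =>
    MemLp.of_bound (hm n).aestronglyMeasurable M (by
      filter_upwards [hb n] with ω hω
      rwa [Real.norm_eq_abs])
  let H : ℕ → Lp ℝ 2 μ := fun n => (hLp n).toLp (h n)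
  have hHn : ∀ n, ‖H n‖ ≤ M := by
    intro n
    have := Lp.norm_le_of_ae_bound (f := H n) hM (by
      filter_upwards [hb n, (hLp n).coeFn_toLp] with ω hω h1
      rw [h1, Real.norm_eq_abs]
      exact hω)
    have h1 : measureUnivNNReal μ = 1 := by
      apply NNReal.coe_injective
      simp [measureUnivNNReal]
    rw [h1] at this
    simpa using this
  let L : (ℕ →₀ ℝ) →ₗ[ℝ] Lp ℝ 2 μ := Finsupp.linearCombination ℝ H
  have hLcoe : ∀ c : ℕ →₀ ℝ, (L c : Ω₂ → ℝ) =ᵐ[μ] fun ω => c.sum fun k a => a * h k ω := by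
    intro c
    induction c using Finsupp.induction_linear with
    | zero =>
      simp only [map_zero]
      filter_upwards [Lp.coeFn_zero ℝ 2 μ] with ω hω
      rw [hω]; simp
    | add f g hf hg =>
      rw [map_add]
      filter_upwards [Lp.coeFn_add (L f) (L g), hf, hg] with ω h1 h2 h3
      rw [h1, Pi.add_apply, h2, h3]
      rw [Finsupp.sum_add_index' (by simp) (by intros; ring)]
    | single k a =>
      have : L (Finsupp.single k a) = a • H k := by
        simp only [L, Finsupp.linearCombination_single]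
      rw [this]
      filter_upwards [Lp.coeFn_smul a (H k), (hLp k).coeFn_toLp] with ω h1 h2
      rw [h1, Pi.smul_apply, h2]
      simp
  let d : ℕ → ℝ := fun n => sInf ((fun c => ‖L c‖) '' MazG n)
  have hbdd : ∀ n, BddBelow ((fun c => ‖L c‖) '' MazG n) := fun n =>
    ⟨0, by rintro _ ⟨c, _, rfl⟩; exact norm_nonneg _⟩
  have hne : ∀ n, ((fun c => ‖L c‖) '' MazG n).Nonempty := fun n => ⟨_, _, MazG_single n, rfl⟩
  have hd0 : ∀ n, 0 ≤ d n := fun n => le_csInf (hne n) (by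
    rintro _ ⟨c, _, rfl⟩; exact norm_nonneg _)
  have hdM : ∀ n, d n ≤ M := fun n => by
    refine (csInf_le (hbdd n) ⟨_, MazG_single n, rfl⟩).trans ?_
    simp only [L, Finsupp.linearCombination_single, one_smul]
    exact hHn n
  have hmono : Monotone d := by
    refine monotone_nat_of_le_succ fun n => csInf_le_csInf (hbdd n) (hne _) ?_
    apply image_mono
    rintro c ⟨c0, c1, c2⟩
    exact ⟨c0, fun k hk => c1 k (by omega), c2⟩
  have hdb : BddAbove (range d) := ⟨M, by rintro _ ⟨n, rfl⟩; exact hdM n⟩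
  have hdt := tendsto_atTop_ciSup hmono hdb
  set D := ⨆ i, d i with hD
  have hdD : ∀ n, d n ≤ D := fun n => le_ciSup hdb n
  have hch : ∀ n : ℕ, ∃ c ∈ MazG n, ‖L c‖ < d n + 1 / ((n : ℝ) + 1) := by
    intro n
    obtain ⟨_, ⟨c, hc, rfl⟩, hlt⟩ := exists_lt_of_csInf_lt (hne n)
      (show d n < d n + 1 / ((n : ℝ) + 1) by
        have : (0 : ℝ) < 1 / ((n : ℝ) + 1) := by positivity
        linarith)
    exact ⟨c, hc, hlt⟩
  choose c hcG hcn using hch
  have hcauchy : CauchySeq fun n => L (c n) := by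
    refine cauchySeq_of_le_tendsto_0
      (fun N => Real.sqrt (4 * (D + 1 / ((N : ℝ) + 1)) ^ 2 - 4 * (d N) ^ 2)) ?_ ?_
    · have key : ∀ N n m : ℕ, N ≤ n → n ≤ m →
          dist (L (c n)) (L (c m)) ≤
            Real.sqrt (4 * (D + 1 / ((N : ℝ) + 1)) ^ 2 - 4 * (d N) ^ 2) := by
        intro N n m hNn hnm
        rw [dist_eq_norm]
        apply Real.le_sqrt_of_sq_le
        have hpar := parallelogram_law_with_norm ℝ (L (c n)) (L (c m))
        have hmid : d n ≤ ‖L ((1 / 2 : ℝ) • (c n + c m))‖ :=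
          csInf_le (hbdd n) ⟨_, MazG_mid hnm (hcG n) (hcG m), rfl⟩
        rw [map_smul, map_add, norm_smul] at hmid
        have hn2 : ‖(1 / 2 : ℝ)‖ = 1 / 2 := by norm_num
        rw [hn2] at hmid
        have hNn' : (1 : ℝ) / ((n : ℝ) + 1) ≤ 1 / ((N : ℝ) + 1) := by
          apply one_div_le_one_div_of_le (by positivity)
          have : (N : ℝ) ≤ n := by exact_mod_cast hNn
          linarith
        have hNm' : (1 : ℝ) / ((m : ℝ) + 1) ≤ 1 / ((N : ℝ) + 1) := by
          apply one_div_le_one_div_of_le (by positivity)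
          have : (N : ℝ) ≤ m := by exact_mod_cast hNn.trans hnm
          linarith
        have h1 : ‖L (c n)‖ ≤ D + 1 / ((N : ℝ) + 1) := by
          have := hcn n; have := hdD n; linarith
        have h2 : ‖L (c m)‖ ≤ D + 1 / ((N : ℝ) + 1) := by
          have := hcn m; have := hdD m; linarith
        have h3 : d N ≤ d n := hmono hNn
        have h4 : 2 * d N ≤ ‖L (c n) + L (c m)‖ := by linarith
        have h5 := hd0 N
        have e1 : ‖L (c n)‖ ^ 2 ≤ (D + 1 / ((N : ℝ) + 1)) ^ 2 :=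
          pow_le_pow_left₀ (norm_nonneg _) h1 2
        have e2 : ‖L (c m)‖ ^ 2 ≤ (D + 1 / ((N : ℝ) + 1)) ^ 2 :=
          pow_le_pow_left₀ (norm_nonneg _) h2 2
        have e3 : (2 * d N) ^ 2 ≤ ‖L (c n) + L (c m)‖ ^ 2 :=
          pow_le_pow_left₀ (by linarith) h4 2
        nlinarith
      intro n m N hn hmN
      rcases le_total n m with h | h
      · exact key N n m hn h
      · rw [dist_comm]
        exact key N m n hmN h
    · have t1 : Tendsto (fun N : ℕ => 1 / ((N : ℝ) + 1)) atTop (𝓝 0) :=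
        tendsto_one_div_add_atTop_nhds_zero_nat
      have t2 : Tendsto (fun N : ℕ => 4 * (D + 1 / ((N : ℝ) + 1)) ^ 2 - 4 * (d N) ^ 2) atTop
          (𝓝 (4 * (D + 0) ^ 2 - 4 * D ^ 2)) :=
        (((tendsto_const_nhds.add t1).pow 2).const_mul 4).sub ((hdt.pow 2).const_mul 4)
      have t3 := (Real.continuous_sqrt.tendsto _).comp t2
      have : Real.sqrt (4 * (D + 0) ^ 2 - 4 * D ^ 2) = 0 := by
        rw [add_zero, sub_self, Real.sqrt_zero]
      rw [this] at t3
      exact t3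
  obtain ⟨f, hf⟩ := cauchySeq_tendsto_of_complete hcauchy
  obtain ⟨ns, hns, hae⟩ := (tendstoInMeasure_of_tendsto_Lp hf).exists_seq_tendsto_ae
  refine ⟨fun n => c (ns n), fun n k => (hcG (ns n)).1 k, fun n k hk =>
    (hcG (ns n)).2.1 k (hk.trans_le (hns.id_le n)), fun n => (hcG (ns n)).2.2, ?_⟩
  have hall : ∀ᵐ ω ∂μ, ∀ n, (L (c n) : Ω₂ → ℝ) ω = (c n).sum fun k a => a * h k ω :=
    ae_all_iff.2 fun n => hLcoe (c n)
  filter_upwards [hae, hall] with ω h1 h2
  refine ⟨f ω, ?_⟩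
  have : (fun n => (c (ns n)).sum fun k a => a * h k ω) =
      fun n => (L (c (ns n)) : Ω₂ → ℝ) ω := by
    funext n; rw [h2]
  rw [this]
  exact h1

/-- cluster functional of a bounded sequence of functionals -/
theorem ulim_dual {E : Type} [NormedAddCommGroup E] [NormedSpace ℝ E] (U : Ultrafilter ℕ)
    (ζ : ℕ → E →L[ℝ] ℝ) (C : ℝ) (h : ∀ n, ‖ζ n‖ ≤ C) :
    ∃ z : E →L[ℝ] ℝ, ∀ x, Tendsto (fun n => ζ n x) (U : Filter ℕ) (𝓝 (z x)) := by
  have h1 : ∀ x, ∃ a ∈ Icc (-(C * ‖x‖)) (C * ‖x‖), Tendsto (fun n => ζ n x) (U : Filter ℕ) (𝓝 a) := by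
    intro x
    have hc : IsCompact (Icc (-(C * ‖x‖)) (C * ‖x‖)) := isCompact_Icc
    have hle : ((U.map fun n => ζ n x : Ultrafilter ℝ) : Filter ℝ) ≤
        𝓟 (Icc (-(C * ‖x‖)) (C * ‖x‖)) := by
      rw [Filter.le_principal_iff]
      show (fun n => ζ n x) ⁻¹' _ ∈ U
      refine Filter.mem_of_superset Filter.univ_mem fun n _ => ?_
      have := ((ζ n).le_opNorm x).trans (mul_le_mul_of_nonneg_right (h n) (norm_nonneg x))
      rw [Real.norm_eq_abs] at this
      exact abs_le.1 this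
    obtain ⟨a, ha, hl⟩ := hc.ultrafilter_le_nhds _ hle
    exact ⟨a, ha, hl⟩
  choose z hz1 hz2 using h1
  let zl : E →ₗ[ℝ] ℝ :=
    { toFun := z
      map_add' := fun x y => by
        refine tendsto_nhds_unique (hz2 (x + y)) ?_
        simp only [map_add]
        exact (hz2 x).add (hz2 y)
      map_smul' := fun a x => by
        refine tendsto_nhds_unique (hz2 (a • x)) ?_
        simp only [map_smul, smul_eq_mul, RingHom.id_apply]
        exact (hz2 x).const_mul a }
  refine ⟨zl.mkContinuous C fun x => ?_, fun x => ?_⟩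
  · rw [Real.norm_eq_abs]
    exact abs_le.2 (hz1 x)
  · exact hz2 x

end Pool.Agent.PIP
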