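import Pool.Agent.PIP.Fr
import Pool.Agent.PIP.Maz

set_option autoImplicit false

open MeasureTheory Set Filter Topology
open scoped ENNReal

namespace Pool.Agent.PIP

namespace Frame

variable {ι Ω : Type} [PartialOrder Ω] (Fr : Frame ι Ω)

/-- evaluation functional -/
noncomputable def C5_ev (i : ι ⊕ ↥Fr.L) : Fr.Amb →L[ℝ] ℝ :=
  LinearMap.mkContinuous
    { toFun := fun x => x i
      map_add' := fun _ _ => rfl
      map_smul' := fun _ _ => rfl } 1 (by
      intro x
      rw [one_mul]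
      exact Fr.norm_apply_le x i)

theorem C5_ev_apply (i : ι ⊕ ↥Fr.L) (x : Fr.Amb) : Fr.C5_ev i x = x i := rfl

theorem C5_ev_norm (i : ι ⊕ ↥Fr.L) : ‖Fr.C5_ev i‖ ≤ 1 :=
  LinearMap.mkContinuous_norm_le _ zero_le_one _

theorem C5_e_ne (α β : ι) (h : α ≠ β) : Fr.e β (Sum.inl α) = 0 := by
  rw [e_apply, if_neg (fun h' => h (Sum.inl_injective h'))]

theorem c0_part {Ω₂ : Type} [MeasurableSpace Ω₂] (μ : Measure Ω₂) [IsProbabilityMeasure μ]
    (g : Ω₂ → Fr.Amb) (hg : ∀ φ : Fr.Amb →L[ℝ] ℝ, Measurable (fun ω => φ (g ω))) (M : ℝ)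
    (hM : ∀ φ : Fr.Amb →L[ℝ] ℝ, ∀ᵐ ω ∂μ, |φ (g ω)| ≤ M * ‖φ‖)
    (E : Set Ω₂) (hE : MeasurableSet E) (x0 : Fr.Amb)
    (h0 : ∀ φ : Fr.Amb →L[ℝ] ℝ, (∀ α, φ (Fr.e α) = 0) → ∫ ω in E, φ (g ω) ∂μ = φ x0)
    (δ : ℝ) (hδ : 0 < δ) :
    {α : ι | δ < |(∫ ω in E, g ω (Sum.inl α) ∂μ) - x0 (Sum.inl α)|}.Finite := by
  classical
  by_contra hinf
  set Fv : ι → ℝ := fun α => (∫ ω in E, g ω (Sum.inl α) ∂μ) - x0 (Sum.inl α) with hFv
  -- bound valid for all functionals of norm at most one
  have hM1 : ∀ φ : Fr.Amb →L[ℝ] ℝ, ‖φ‖ ≤ 1 → ∀ᵐ ω ∂μ, |φ (g ω)| ≤ |M| := by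
    intro φ hφ
    filter_upwards [hM φ] with ω hω
    refine hω.trans ?_
    calc M * ‖φ‖ ≤ |M| * ‖φ‖ := mul_le_mul_of_nonneg_right (le_abs_self M) (norm_nonneg _)
      _ ≤ |M| * 1 := mul_le_mul_of_nonneg_left hφ (abs_nonneg _)
      _ = |M| := mul_one _
  -- sign
  have hs : ∃ s : ℝ, |s| = 1 ∧ {α | δ < s * Fv α}.Infinite := by
    by_contra hno
    have h1 : ¬ {α | δ < (1 : ℝ) * Fv α}.Infinite := fun h => hno ⟨1, by simp, h⟩
    have h2 : ¬ {α | δ < (-1 : ℝ) * Fv α}.Infinite := fun h => hno ⟨-1, by simp, h⟩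
    rw [Set.not_infinite] at h1 h2
    apply hinf
    refine (h1.union h2).subset ?_
    intro α hα
    have hα' : δ < |Fv α| := hα
    rcases lt_abs.mp hα' with h | h
    · left
      change δ < (1 : ℝ) * Fv α
      linarith
    · right
      change δ < (-1 : ℝ) * Fv α
      linarith
  obtain ⟨s, hs1, hs2⟩ := hs
  let a : ℕ ↪ {α | δ < s * Fv α} := hs2.natEmbedding
  set al : ℕ → ι := fun k => ((a k : {α | δ < s * Fv α}) : ι) with hal0
  have hal : ∀ k, δ < s * Fv (al k) := fun k => (a k).2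
  have halinj : Function.Injective al := Subtype.val_injective.comp a.injective
  have hnorm1 : ∀ k, ‖s • Fr.C5_ev (Sum.inl (al k))‖ ≤ 1 := by
    intro k
    rw [norm_smul, Real.norm_eq_abs, hs1, one_mul]
    exact Fr.C5_ev_norm _
  obtain ⟨c, hc0, hctail, hcsum, hconv⟩ := convex_tail μ
    (fun k ω => (s • Fr.C5_ev (Sum.inl (al k))) (g ω)) (fun k => hg _) |M|
    (fun k => hM1 _ (hnorm1 k))
  set ζ : ℕ → Fr.Amb →L[ℝ] ℝ := fun n =>
    (c n).sum fun k r => r • (s • Fr.C5_ev (Sum.inl (al k))) with hζ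
  have hζapp : ∀ n x, ζ n x = (c n).sum fun k r => r * (s * x (Sum.inl (al k))) := by
    intro n x
    simp only [hζ, Finsupp.sum]
    rw [ContinuousLinearMap.sum_apply]
    rfl
  have hζnorm : ∀ n, ‖ζ n‖ ≤ 1 := by
    intro n
    rw [← hcsum n]
    simp only [hζ, Finsupp.sum]
    refine (norm_sum_le _ _).trans ?_
    apply Finset.sum_le_sum
    intro k _
    rw [norm_smul, Real.norm_eq_abs, abs_of_nonneg (hc0 n k)]
    calc c n k * ‖s • Fr.C5_ev (Sum.inl (al k))‖ ≤ c n k * 1 :=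
          mul_le_mul_of_nonneg_left (hnorm1 k) (hc0 n k)
      _ = c n k := mul_one _
  obtain ⟨z, hz⟩ := ulim_dual (hyperfilter ℕ) ζ 1 hζnorm
  -- z vanishes at the unit vectors
  have hze : ∀ β, z (Fr.e β) = 0 := by
    intro β
    have hev : ∀ᶠ n in atTop, ζ n (Fr.e β) = 0 := by
      by_cases hβ : ∃ k0, al k0 = β
      · obtain ⟨k0, hk0⟩ := hβ
        filter_upwards [eventually_gt_atTop k0] with n hn
        rw [hζapp]
        apply Finset.sum_eq_zero
        intro k _
        change (c n) k * (s * Fr.e β (Sum.inl (al k))) = 0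
        by_cases hk : k = k0
        · subst hk
          rw [hctail n k hn, zero_mul]
        · have : al k ≠ β := fun h => hk (halinj (h.trans hk0.symm))
          rw [Fr.C5_e_ne _ _ this, mul_zero, mul_zero]
      · refine Filter.Eventually.of_forall fun n => ?_
        rw [hζapp]
        apply Finset.sum_eq_zero
        intro k _
        change (c n) k * (s * Fr.e β (Sum.inl (al k))) = 0
        rw [Fr.C5_e_ne _ _ (fun h => hβ ⟨k, h⟩), mul_zero, mul_zero]
    have hU : ((hyperfilter ℕ : Ultrafilter ℕ) : Filter ℕ) ≤ atTop := by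
      rw [← Nat.cofinite_eq_atTop]
      exact hyperfilter_le_cofinite
    have h1 : Tendsto (fun n => ζ n (Fr.e β)) ((hyperfilter ℕ : Ultrafilter ℕ) : Filter ℕ)
        (𝓝 0) := by
      refine (tendsto_congr' (hev.filter_mono hU)).mpr tendsto_const_nhds
    exact tendsto_nhds_unique (hz (Fr.e β)) h1
  have hU : ((hyperfilter ℕ : Ultrafilter ℕ) : Filter ℕ) ≤ atTop := by
    rw [← Nat.cofinite_eq_atTop]
    exact hyperfilter_le_cofinite
  -- almost everywhere convergence
  have hae : ∀ᵐ ω ∂μ, Tendsto (fun n => ζ n (g ω)) atTop (𝓝 (z (g ω))) := by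
    filter_upwards [hconv] with ω hω
    obtain ⟨l, hl⟩ := hω
    have hl' : Tendsto (fun n => ζ n (g ω)) atTop (𝓝 l) := by
      refine hl.congr fun n => ?_
      rw [hζapp]
      rfl
    have : z (g ω) = l := tendsto_nhds_unique (hz (g ω)) (hl'.mono_left hU)
    rw [this]
    exact hl'
  have hint : Tendsto (fun n => ∫ ω in E, ζ n (g ω) ∂μ) atTop (𝓝 (∫ ω in E, z (g ω) ∂μ)) := by
    apply tendsto_integral_of_dominated_convergence (fun _ => |M|)
    · intro n
      exact (hg (ζ n)).aestronglyMeasurable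
    · exact integrable_const _
    · intro n
      exact ae_restrict_of_ae (hM1 (ζ n) (hζnorm n))
    · exact ae_restrict_of_ae hae
  have hintg : ∀ φ : Fr.Amb →L[ℝ] ℝ, ‖φ‖ ≤ 1 →
      Integrable (fun ω => φ (g ω)) (μ.restrict E) := by
    intro φ hφ
    refine (integrable_const |M|).mono' (hg φ).aestronglyMeasurable ?_
    exact ae_restrict_of_ae (hM1 φ hφ)
  -- lower bound
  have hlow : ∀ n, δ ≤ (∫ ω in E, ζ n (g ω) ∂μ) - ζ n x0 := by
    intro n
    have e1 : (∫ ω in E, ζ n (g ω) ∂μ) - ζ n x0 =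
        (c n).sum fun k r => r * (s * Fv (al k)) := by
      have e2 : ∫ ω in E, ζ n (g ω) ∂μ =
          (c n).sum fun k r => r * (s * ∫ ω in E, g ω (Sum.inl (al k)) ∂μ) := by
        simp_rw [hζapp]
        simp only [Finsupp.sum]
        rw [integral_finsetSum]
        · apply Finset.sum_congr rfl
          intro k _
          rw [integral_const_mul, integral_const_mul]
        · intro k _
          apply Integrable.const_mul
          apply Integrable.const_mul
          exact hintg (Fr.C5_ev (Sum.inl (al k))) (Fr.C5_ev_norm _)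
      rw [e2, hζapp]
      simp only [Finsupp.sum]
      rw [← Finset.sum_sub_distrib]
      apply Finset.sum_congr rfl
      intro k _
      simp only [hFv]
      ring
    rw [e1]
    calc δ = (c n).sum fun _ r => r * δ := by
          simp only [Finsupp.sum]
          rw [← Finset.sum_mul]
          have := hcsum n
          simp only [Finsupp.sum] at this
          rw [this, one_mul]
      _ ≤ _ := by
          simp only [Finsupp.sum]
          apply Finset.sum_le_sum
          intro k _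
          exact mul_le_mul_of_nonneg_left (hal k).le (hc0 n k)
  have hlim : Tendsto (fun n => (∫ ω in E, ζ n (g ω) ∂μ) - ζ n x0)
      ((hyperfilter ℕ : Ultrafilter ℕ) : Filter ℕ) (𝓝 ((∫ ω in E, z (g ω) ∂μ) - z x0)) :=
    (hint.mono_left hU).sub (hz x0)
  have hge : δ ≤ (∫ ω in E, z (g ω) ∂μ) - z x0 :=
    ge_of_tendsto hlim (Filter.Eventually.of_forall hlow)
  rw [h0 z hze, sub_self] at hge
  linarith

end Frame

end Pool.Agent.PIP
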