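import Mathlib

set_option autoImplicit false

open MeasureTheory Set Cardinal

namespace Pool.Agent.PIP

/-- Ulam: no probability measure on all subsets of a set of cardinality `ℵ₁` vanishes at points -/
theorem ulam {α : Type} [MeasurableSpace α] (hms : ∀ s : Set α, MeasurableSet s)
    (hα : Cardinal.mk α = Cardinal.aleph 1) (m : Measure α) (h1 : m univ = 1) :
    ∃ x, m {x} ≠ 0 := by
  by_contra hcon
  push Not at hcon
  have hfin : IsFiniteMeasure m := ⟨by rw [h1]; exact ENNReal.one_lt_top⟩
  have hcnt : ∀ s : Set α, s.Countable → m s = 0 := by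
    intro s hs
    rw [← biUnion_of_singleton s]
    exact (measure_biUnion_null_iff hs).2 fun x _ => hcon x
  obtain ⟨r, wo, hr⟩ := Cardinal.exists_ord_eq α
  have hc : ∀ x, {y | r y x}.Countable := by
    intro x
    have h2 := Cardinal.card_typein_lt x hr
    rw [hα, Cardinal.lt_aleph_one_iff, Ordinal.card_typein] at h2
    exact Cardinal.le_aleph0_iff_set_countable.1 h2
  have hf : ∀ x, ∃ f : α → ℕ, InjOn f {y | r y x} := fun x =>
    (Set.countable_iff_exists_injOn.1 (hc x))
  choose f hf using hf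
  set A : ℕ → α → Set α := fun n y => {x | r y x ∧ f x y = n} with hA
  have h3 : ∀ y, ∃ n, m (A n y) ≠ 0 := by
    intro y
    by_contra h4
    push Not at h4
    have h5 : m (⋃ n, A n y) = 0 := measure_iUnion_null_iff.2 h4
    have h6 : (univ : Set α) ⊆ (⋃ n, A n y) ∪ ({x | r x y} ∪ {y}) := by
      intro x _
      rcases trichotomous_of r x y with h | h | h
      · exact Or.inr (Or.inl h)
      · exact Or.inr (Or.inr h)
      · exact Or.inl (mem_iUnion.2 ⟨f x y, h, rfl⟩)
    have h7 : m univ ≤ 0 := by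
      calc m univ ≤ m ((⋃ n, A n y) ∪ ({x | r x y} ∪ {y})) := measure_mono h6
        _ ≤ m (⋃ n, A n y) + m ({x | r x y} ∪ {y}) := measure_union_le _ _
        _ = 0 := by rw [h5, hcnt _ ((hc y).union (countable_singleton y)), add_zero]
    rw [h1] at h7
    exact absurd h7 (by simp)
  have h4 : ∀ n, {y | 0 < m (A n y)}.Countable := by
    intro n
    refine Measure.countable_meas_pos_of_disjoint_iUnion (fun y => hms _) ?_
    intro y y' hne
    rw [Function.onFun, Set.disjoint_left]
    rintro x ⟨h5, h6⟩ ⟨h7, h8⟩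
    exact hne (hf x h5 h7 (h6.trans h8.symm))
  have h5 : (univ : Set α).Countable := by
    refine (Set.countable_iUnion h4).mono fun y _ => ?_
    obtain ⟨n, hn⟩ := h3 y
    exact mem_iUnion.2 ⟨n, pos_iff_ne_zero.2 hn⟩
  rw [Set.countable_univ_iff, ← Cardinal.mk_le_aleph0_iff, hα, ← Cardinal.lt_aleph_one_iff] at h5
  exact lt_irrefl _ h5

/-- under CH there is no probability measure on all subsets of `ℝ` vanishing at points -/
theorem nr_of_CH (hCH : Cardinal.continuum.{0} = Cardinal.aleph 1) (m : @Measure ℝ ⊤)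
    (h1 : m univ = 1) : ∃ x, m {x} ≠ 0 :=
  @ulam ℝ ⊤ (fun _ => trivial) (by rw [Cardinal.mk_real, hCH]) m h1

end Pool.Agent.PIP
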