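import Pool.Agent.PIP.Law

set_option autoImplicit false

open MeasureTheory Set Filter Topology ProbabilityTheory
open scoped ENNReal

namespace Pool.Agent.PIP

/-! ## coherence -/

theorem F_upto (m : ℕ) (p : Pth) (r r' : ℝ) (h : r ∈ p.W) (h' : r' ≤ r) :
    F m (p.upto r) r' = F m p r' := by
  ext x
  rw [mem_F, mem_F]
  constructor
  · rintro ⟨h1, h2, i, hi, h3, h4⟩
    refine ⟨h1.1, h2, i, hi, h3, ?_⟩
    by_contra h5
    obtain ⟨y, hy⟩ := nonempty_iff_ne_empty.2 h5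
    by_cases h6 : y ≤ r
    · have : y ∈ (p.upto r).W ∩ Ioo x (dq i) := ⟨⟨hy.1, h6⟩, hy.2⟩
      rw [h4] at this; exact this
    · have : r ∈ (p.upto r).W ∩ Ioo x (dq i) :=
        ⟨⟨h, le_refl r⟩, by linarith, by linarith [hy.2.2]⟩
      rw [h4] at this; exact this
  · rintro ⟨h1, h2, i, hi, h3, h4⟩
    refine ⟨⟨h1, by simp only [mem_Iic]; linarith⟩, h2, i, hi, h3, ?_⟩
    rw [← subset_empty_iff] at h4 ⊢
    exact fun y hy => h4 ⟨hy.1.1, hy.2⟩

theorem G_upto (p : Pth) (r r' : ℝ) (h' : r' ≤ r) (j : ℕ) : (p.upto r).G r' j = p.G r' j := by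
  simp [Pth.upto, h']

theorem val_congr (m : ℕ) (p p' : Pth) (r0 : ℝ) (hF : ∀ r' ≤ r0, F m p r' = F m p' r')
    (hG : ∀ r' ≤ r0, ∀ j, p.G r' j = p'.G r' j) (n : ℕ) :
    ∀ r ≤ r0, (F m p r).card = n → val m p r = val m p' r := by
  induction n using Nat.strong_induction_on with
  | _ n ih =>
    intro r hr hc
    have hv : ∀ r' ∈ F m p r, val m p r' = val m p' r' := by
      intro r' hr'
      have hlt := F_card_lt hr'
      rw [hc] at hlt
      have : r' ≤ r0 := by
        have := (mem_F.1 hr').2.1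
        linarith
      exact ih _ hlt r' this rfl
    rw [val_eq, val_eq m p' r]
    have h1 : ∀ j, evj m p r (val m p) j = evj m p' r (val m p') j := by
      intro j
      rw [evj_congr m p r (val m p) (val m p') hv]
      ext ξ
      simp only [evj, hF r hr, hG r hr j]
    have h2 : ev m p r (val m p) = ev m p' r (val m p') := by
      unfold ev
      simp only [h1]
    unfold stp
    rw [h2, hF r hr]

theorem val_upto (m : ℕ) (p : Pth) (r r' : ℝ) (h : r ∈ p.W) (h' : r' ≤ r) :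
    val m (p.upto r) r' = val m p r' :=
  val_congr m (p.upto r) p r (fun x hx => F_upto m p r x h hx) (fun x hx j => G_upto p r x hx j) _
    r' h' rfl

/-! ## stages exhaust -/

theorem exists_dq {a b : ℝ} (h : a < b) : ∃ i, a < dq i ∧ dq i < b := by
  have := (TopologicalSpace.denseRange_denseSeq ℝ).exists_mem_open isOpen_Ioo (nonempty_Ioo.2 h)
  obtain ⟨i, hi⟩ := this
  exact ⟨i, hi.1, hi.2⟩

theorem exists_gap (p : Pth) (r' : ℝ) : ∃ i, r' < dq i ∧ p.W ∩ Ioo r' (dq i) = ∅ := by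
  by_cases h : (p.W ∩ Ioi r').Nonempty
  · have hwf : (p.W ∩ Ioi r').IsWF := p.wf.mono inter_subset_left
    set b := hwf.min h with hb
    have hbm : b ∈ p.W ∩ Ioi r' := hwf.min_mem h
    obtain ⟨i, hi1, hi2⟩ := exists_dq hbm.2
    refine ⟨i, hi1, ?_⟩
    rw [← subset_empty_iff]
    rintro y ⟨hy1, hy2, hy3⟩
    have : b ≤ y := hwf.min_le h ⟨hy1, hy2⟩
    linarith
  · obtain ⟨i, hi1, _⟩ := exists_dq (show r' < r' + 1 by linarith)
    refine ⟨i, hi1, ?_⟩
    rw [← subset_empty_iff]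
    rintro y ⟨hy1, hy2, hy3⟩
    exact h ⟨y, hy1, hy2⟩

theorem F_eventually (p : Pth) (r r' : ℝ) (h : r' ∈ p.W) (h' : r' < r) :
    ∀ᶠ m in atTop, r' ∈ F m p r := by
  obtain ⟨i, h1, h2⟩ := exists_gap p r'
  filter_upwards [eventually_gt_atTop i] with m hm
  rw [mem_F]
  exact ⟨h, h', i, hm, h1, h2⟩

theorem F_mono {m m' : ℕ} (h : m ≤ m') (p : Pth) (r : ℝ) : F m p r ⊆ F m' p r := by
  intro x hx
  rw [mem_F] at hx ⊢
  obtain ⟨h1, h2, i, hi, h3⟩ := hx
  exact ⟨h1, h2, i, by omega, h3⟩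

theorem F_card_le (m : ℕ) (p : Pth) (r : ℝ) : (F m p r).card ≤ m := by
  classical
  have h : ∀ r' ∈ F m p r, ∃ i < m, r' < dq i ∧ p.W ∩ Ioo r' (dq i) = ∅ :=
    fun r' h => (mem_F.1 h).2.2
  choose! f hf using h
  calc (F m p r).card ≤ (Finset.range m).card := by
        refine Finset.card_le_card_of_injOn f (fun x hx => ?_) ?_
        · simp only [Finset.coe_range, mem_Iio]
          exact (hf x hx).1
        · intro a ha b hb hab
          have ha' := mem_F.1 ha
          have hb' := mem_F.1 hb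
          by_contra hne
          rcases lt_or_gt_of_ne hne with h | h
          · have h1 := (hf a ha).2.2
            have h2 : b ∈ p.W ∩ Ioo a (dq (f a)) := ⟨hb'.1, h, by rw [hab]; exact (hf b hb).2.1⟩
            rw [h1] at h2
            exact h2
          · have h1 := (hf b hb).2.2
            have h2 : a ∈ p.W ∩ Ioo b (dq (f b)) := ⟨ha'.1, h, by rw [← hab]; exact (hf a ha).2.1⟩
            rw [h1] at h2
            exact h2
    _ = m := Finset.card_range m

theorem val_act (p : Pth) (r : ℝ) (h : Act p r) (j : ℕ) (C : Cyl) (hC : C ∈ p.G r j)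
    (hs : ∀ c ∈ C, c.1 ∈ p.W ∧ c.1 < r) :
    ∀ᶠ m in atTop, ∀ ξ, (∀ c ∈ C, val m p c.1 ξ = c.2) → val m p r ξ = 0 := by
  have h1 : ∀ᶠ m in atTop, ∀ c ∈ C, c.1 ∈ F m p r := by
    rw [Finset.eventually_all]
    exact fun c hc => F_eventually p r c.1 (hs c hc).1 (hs c hc).2
  filter_upwards [h1, h j, eventually_gt_atTop j] with m hm1 hm2 hm3 ξ hξ
  rw [val_apply, if_pos]
  exact ⟨j, hm3, hm2, C, hC, fun c hc => ⟨hm1 c hc, hξ c hc⟩⟩

theorem evt_act (p : Pth) (r : ℝ) (h : Act p r) (j : ℕ) (C : Cyl) (hC : C ∈ p.G r j)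
    (hs : ∀ c ∈ C, c.1 ∈ p.W ∧ c.1 < r) :
    ∀ᶠ m in atTop, ∀ ξ, (∀ c ∈ C, val m p c.1 ξ = c.2) → ξ ∈ evt m p r := by
  have h1 : ∀ᶠ m in atTop, ∀ c ∈ C, c.1 ∈ F m p r := by
    rw [Finset.eventually_all]
    exact fun c hc => F_eventually p r c.1 (hs c hc).1 (hs c hc).2
  filter_upwards [h1, h j, eventually_gt_atTop j] with m hm1 hm2 hm3 ξ hξ
  exact ⟨j, hm3, hm2, C, hC, fun c hc => ⟨hm1 c hc, hξ c hc⟩⟩

/-! ## finitely many functions at each stage -/

/-- the functions obtainable by one more step from a set of functions -/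
def nxt (n : ℕ) (A : Set (Xi → S)) : Set (Xi → S) :=
  A ∪ Set.range (fun x : Fin (n + 1) × Set (↥A → S) => open Classical in
    fun ξ : Xi => if (fun w : ↥A => w.1 ξ) ∈ x.2 then (0 : S) else
      thr (qq (PXi.real {ξ : Xi | (fun w : ↥A => w.1 ξ) ∈ x.2})) (ξ x.1))

def Wn : ℕ → Set (Xi → S)
  | 0 => ∅
  | n + 1 => nxt n (Wn n)

theorem Wn_finite (n : ℕ) : (Wn n).Finite := by
  induction n with
  | zero => exact finite_empty
  | succ n ih =>
    have : Finite ↥(Wn n) := ih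
    exact ih.union (finite_range _)

theorem Wn_mono {n n' : ℕ} (h : n ≤ n') : Wn n ⊆ Wn n' := by
  induction h with
  | refl => exact Subset.rfl
  | step _ ih => exact ih.trans subset_union_left

theorem val_mem_Wn (m : ℕ) (p : Pth) (n : ℕ) : ∀ r, (F m p r).card = n →
    val m p r ∈ Wn (n + 1) := by
  classical
  induction n using Nat.strong_induction_on with
  | _ n ih =>
    intro r hr
    have hv : ∀ r' ∈ F m p r, val m p r' ∈ Wn n := by
      intro r' hr'
      have hlt := F_card_lt hr'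
      rw [hr] at hlt
      exact Wn_mono hlt (ih _ hlt r' rfl)
    right
    let V : Set (↥(Wn n) → S) := {x | ∃ j < m, PXi.real (evj m p r (val m p) j) ≤ wt j ∧
      ∃ C ∈ p.G r j, ∀ c ∈ C, ∃ h : c.1 ∈ F m p r, x ⟨val m p c.1, hv _ h⟩ = c.2}
    have hV : ∀ ξ : Xi, ((fun w : ↥(Wn n) => w.1 ξ) ∈ V ↔ ξ ∈ evt m p r) := by
      intro ξ
      simp only [V, evt, ev, evj, mem_ofPred_eq]
      refine exists_congr fun j => and_congr_right fun _ => and_congr_right fun _ =>
        exists_congr fun C => and_congr_right fun _ => forall₂_congr fun c _ => ?_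
      constructor
      · rintro ⟨h1, h2⟩; exact ⟨h1, h2⟩
      · rintro ⟨h1, h2⟩; exact ⟨h1, h2⟩
    refine ⟨(⟨(F m p r).card, by omega⟩, V), ?_⟩
    funext ξ
    have hset : {ξ : Xi | (fun w : ↥(Wn n) => w.1 ξ) ∈ V} = evt m p r := by
      ext ξ; exact hV ξ
    rw [val_apply]
    simp only [hV]
    rfl

theorem finite_val (m : ℕ) : {f : Xi → S | ∃ p r, f = val m p r}.Finite := by
  refine (Wn_finite (m + 1)).subset ?_
  rintro f ⟨p, r, rfl⟩
  exact Wn_mono (by have := F_card_le m p r; omega) (val_mem_Wn m p _ r rfl)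

end Pool.Agent.PIP
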