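import Pool.Agent.PIP.Prod
import Pool.Agent.PIP.Coh

set_option autoImplicit false

open MeasureTheory Set Filter Topology
open scoped ENNReal

namespace Pool.Agent.PIP

theorem Card_countable (p : Pth) : p.W.Countable := by
  classical
  have h : ∀ r' ∈ p.W, ∃ i, r' < dq i ∧ p.W ∩ Ioo r' (dq i) = ∅ := fun r' _ => exists_gap p r'
  choose! f hf using h
  refine Set.MapsTo.countable_of_injOn (f := f) (t := univ) (fun _ _ => mem_univ _) ?_
    countable_univ
  intro a ha b hb hab
  by_contra hne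
  rcases lt_or_gt_of_ne hne with h | h
  · have h2 : b ∈ p.W ∩ Ioo a (dq (f a)) := ⟨hb, h, by rw [hab]; exact (hf b hb).1⟩
    rw [(hf a ha).2] at h2
    exact h2
  · have h2 : a ∈ p.W ∩ Ioo b (dq (f b)) := ⟨ha, h, by rw [← hab]; exact (hf a ha).1⟩
    rw [(hf b hb).2] at h2
    exact h2

theorem Card_enum (p : Pth) : ∃ e : ℕ → Option ℝ, ∀ r, r ∈ p.W ↔ ∃ n, e n = some r := by
  have hc : (insert none (some '' p.W) : Set (Option ℝ)).Countable :=
    ((Card_countable p).image _).insert _
  obtain ⟨e, he⟩ := hc.exists_eq_range ⟨none, mem_insert _ _⟩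
  refine ⟨e, fun r => ?_⟩
  constructor
  · intro h
    have : (some r) ∈ (insert none (some '' p.W) : Set (Option ℝ)) := by
      right
      exact ⟨r, h, rfl⟩
    rw [he] at this
    exact this
  · rintro ⟨n, hn⟩
    have : (some r) ∈ (insert none (some '' p.W) : Set (Option ℝ)) := by
      rw [he]
      exact ⟨n, hn⟩
    rcases this with h | ⟨r', h, h'⟩
    · exact absurd h (by simp)
    · rw [← Option.some_injective _ h']
      exact h

theorem Card_mk_Pth : Cardinal.mk Pth ≤ Cardinal.continuum := by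
  classical
  choose e he using Card_enum
  let c : Pth → (ℕ → Option ℝ × (ℕ → Finset Cyl)) := fun p n =>
    (e p n, fun j => match e p n with
      | none => ∅
      | some r => p.G r j)
  have hinj : Function.Injective c := by
    intro p q hpq
    have h1 : ∀ n, e p n = e q n := fun n => congrArg Prod.fst (congrFun hpq n)
    have hW : p.W = q.W := by
      ext r
      rw [he p r, he q r]
      simp only [h1]
    refine Pth.ext hW ?_
    funext r j
    by_cases hr : r ∈ p.W
    · obtain ⟨n, hn⟩ := (he p r).1 hr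
      have hn' : e q n = some r := by rw [← h1 n]; exact hn
      have h2 := congrFun (congrArg Prod.snd (congrFun hpq n)) j
      simp only [c, hn, hn'] at h2
      exact h2
    · rw [p.off r hr j, q.off r (by rw [← hW]; exact hr) j]
  refine (Cardinal.mk_le_of_injective hinj).trans ?_
  have hCyl : Cardinal.mk Cyl = Cardinal.continuum := by
    have : Infinite (ℝ × S) := inferInstance
    rw [Cardinal.mk_finset_of_infinite, Cardinal.mk_prod]
    simp only [Cardinal.mk_real, Cardinal.lift_id, Cardinal.mk_fin]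
    exact Cardinal.mul_eq_left Cardinal.aleph0_le_continuum
      ((Cardinal.natCast_lt_aleph0).le.trans Cardinal.aleph0_le_continuum) (by norm_num)
  have hF : Cardinal.mk (Finset Cyl) = Cardinal.continuum := by
    rw [Cardinal.mk_finset_of_infinite, hCyl]
  have hO : Cardinal.mk (Option ℝ) = Cardinal.continuum := by
    rw [Cardinal.mk_option, Cardinal.mk_real, Cardinal.add_one_eq Cardinal.aleph0_le_continuum]
  have hFF : Cardinal.mk (ℕ → Finset Cyl) = Cardinal.continuum := by
    rw [Cardinal.mk_arrow]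
    simp [hF]
  rw [Cardinal.mk_arrow, Cardinal.mk_prod]
  simp [hFF, hO]

theorem exists_inj_pth : ∃ j : Pth → ℝ, Function.Injective j := by
  have h : Cardinal.mk Pth ≤ Cardinal.mk ℝ := by
    rw [Cardinal.mk_real]
    exact Card_mk_Pth
  obtain ⟨j⟩ := h
  exact ⟨j, j.injective⟩

theorem exists_inj_idx :
    ∃ j : ((ℕ ↪ ℝ) × RC × (Σ n : ℕ, (Fin n → S))) × Pth → ℝ, Function.Injective j := by
  have h1 : Cardinal.mk (ℕ ↪ ℝ) ≤ Cardinal.continuum := by
    refine (Cardinal.mk_le_of_injective (f := fun a : ℕ ↪ ℝ => (a : ℕ → ℝ))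
      DFunLike.coe_injective).trans ?_
    rw [Cardinal.mk_arrow]
    simp [Cardinal.mk_real]
  have h2 : Cardinal.mk RC ≤ Cardinal.continuum := by
    have : Cardinal.mk (Σ n : ℕ, Finset (Fin n → S)) ≤ Cardinal.aleph0 := Cardinal.mk_le_aleph0
    unfold RC
    rw [Cardinal.mk_arrow]
    simp only [Cardinal.lift_id]
    calc _ ≤ Cardinal.aleph0 ^ Cardinal.mk ℕ := Cardinal.power_le_power_right this
      _ = Cardinal.continuum := by simp
  have h3 : Cardinal.mk (Σ n : ℕ, (Fin n → S)) ≤ Cardinal.continuum :=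
    Cardinal.mk_le_aleph0.trans Cardinal.aleph0_le_continuum
  have h : Cardinal.mk (((ℕ ↪ ℝ) × RC × (Σ n : ℕ, (Fin n → S))) × Pth) ≤ Cardinal.mk ℝ := by
    rw [Cardinal.mk_real, Cardinal.mk_prod, Cardinal.mk_prod, Cardinal.mk_prod]
    simp only [Cardinal.lift_id]
    calc _ ≤ (Cardinal.continuum * (Cardinal.continuum * Cardinal.continuum)) *
          Cardinal.continuum := by
          gcongr
          exact Card_mk_Pth
      _ = Cardinal.continuum := by simp
  obtain ⟨j⟩ := h
  exact ⟨j, j.injective⟩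

/-- no diffuse probability on all subsets of `ℝ`: transfer to a set injecting into `ℝ` -/
theorem nr_transfer (hNR : ∀ m : @Measure ℝ ⊤, m univ = 1 → ∃ x, m {x} ≠ 0) {Ω : Type}
    (j : Ω → ℝ) (hj : Function.Injective j) (m : @Measure Ω ⊤) (hm : @IsFiniteMeasure Ω ⊤ m)
    (h : ∀ x, m {x} = 0) : m = 0 := by
  by_contra hne
  let _ : MeasurableSpace Ω := ⊤
  have hu : m univ ≠ 0 := fun h0 => hne (Measure.measure_univ_eq_zero.1 h0)
  have hfin : m univ ≠ ∞ := measure_ne_top m univ
  have hjm : @Measurable Ω ℝ ⊤ ⊤ j := fun _ _ => trivial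
  let m1 : @Measure ℝ ⊤ := @Measure.map Ω ℝ ⊤ ⊤ j ((m univ)⁻¹ • m)
  have hm1 : ∀ A : Set ℝ, m1 A = (m univ)⁻¹ * m (j ⁻¹' A) := by
    intro A
    have : m1 A = ((m univ)⁻¹ • m) (j ⁻¹' A) := @Measure.map_apply Ω ℝ ⊤ ⊤ _ j hjm A trivial
    rw [this]
    rfl
  obtain ⟨x, hx⟩ := hNR m1 (by
    rw [hm1, preimage_univ, ENNReal.inv_mul_cancel hu hfin])
  apply hx
  rw [hm1]
  by_cases hxr : ∃ w, j w = x
  · obtain ⟨w, rfl⟩ := hxr
    have : j ⁻¹' {j w} = {w} := by
      ext z
      simp only [mem_preimage, mem_singleton_iff]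
      exact ⟨fun hz => hj hz, fun hz => by rw [hz]⟩
    rw [this, h w, mul_zero]
  · have : j ⁻¹' {x} = ∅ := by
      ext z
      simp only [mem_preimage, mem_singleton_iff, mem_empty_iff_false, iff_false]
      exact fun hz => hxr ⟨z, hz⟩
    rw [this]
    simp

end Pool.Agent.PIP
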