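import Mathlib

set_option autoImplicit false

open MeasureTheory Set Filter Topology
open scoped ENNReal

/-! # Definitions for MP_399dec_an (PIP and separability of Pettis integrals)

Paths are countable (automatically) well-ordered sets `W` of reals, each real `r ∈ W` carrying a
code `G r : ℕ → Finset Cyl`; nodes are paths with a greatest element. -/

namespace Pool.Agent.PIP

/-- three letters: `0 ↦ 0`, `1 ↦ 1`, `2 ↦ -1` -/
abbrev S := Fin 3

/-- value of a letter -/
def sg : S → ℝ := ![0, 1, -1]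

/-- the law of a letter: `0` w.p. `1/2`, `±1` w.p. `1/4` each -/
noncomputable def P1 : Measure S :=
  (1 / 2 : ℝ≥0∞) • Measure.dirac 0 + (1 / 4 : ℝ≥0∞) • Measure.dirac 1 +
    (1 / 4 : ℝ≥0∞) • Measure.dirac 2

/-- source of randomness: a sequence of independent uniform variables -/
abbrev Xi := ℕ → ℝ

noncomputable def PXi : Measure Xi :=
  Measure.infinitePi (fun _ : ℕ => (volume.restrict (Icc (0 : ℝ) 1)))

/-- threshold function: a uniform variable is mapped to a letter with `P(0)=q`, `P(±1)=(1-q)/2` -/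
noncomputable def thr (q x : ℝ) : S := if x < q then 0 else if x < (1 + q) / 2 then 1 else 2

noncomputable def qq (v : ℝ) : ℝ := (1 / 2 - v) / (1 - v)

/-- a dense sequence of reals -/
noncomputable def dq (i : ℕ) : ℝ := TopologicalSpace.denseSeq ℝ i

/-- a cylinder condition: prescribed letters at finitely many labels -/
abbrev Cyl := Finset (ℝ × S)

@[ext] structure Pth where
  W : Set ℝ
  G : ℝ → ℕ → Finset Cyl
  wf : W.IsWF
  off : ∀ r, r ∉ W → ∀ j, G r j = ∅

/-- the labels below `r` that are visible at stage `m` -/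
def Fset (m : ℕ) (p : Pth) (r : ℝ) : Set ℝ :=
  {r' | r' ∈ p.W ∧ r' < r ∧ ∃ i < m, r' < dq i ∧ p.W ∩ Ioo r' (dq i) = ∅}

theorem Fset_finite (m : ℕ) (p : Pth) (r : ℝ) : (Fset m p r).Finite := by
  classical
  have h : ∀ r' ∈ Fset m p r, ∃ i < m, r' < dq i ∧ p.W ∩ Ioo r' (dq i) = ∅ := fun r' h => h.2.2
  choose! f hf using h
  refine Set.Finite.of_finite_image (f := f) ((Set.finite_lt_nat m).subset ?_) ?_
  · rintro _ ⟨r', hr', rfl⟩
    exact (hf r' hr').1
  · intro a ha b hb hab
    by_contra hne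
    rcases lt_or_gt_of_ne hne with h | h
    · have h1 := (hf a ha).2.2
      have h2 : b ∈ p.W ∩ Ioo a (dq (f a)) := ⟨hb.1, h, by rw [hab]; exact (hf b hb).2.1⟩
      rw [h1] at h2
      exact h2
    · have h1 := (hf b hb).2.2
      have h2 : a ∈ p.W ∩ Ioo b (dq (f b)) := ⟨ha.1, h, by rw [← hab]; exact (hf a ha).2.1⟩
      rw [h1] at h2
      exact h2

noncomputable def F (m : ℕ) (p : Pth) (r : ℝ) : Finset ℝ := (Fset_finite m p r).toFinset

theorem mem_F {m : ℕ} {p : Pth} {r r' : ℝ} :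
    r' ∈ F m p r ↔ r' ∈ p.W ∧ r' < r ∧ ∃ i < m, r' < dq i ∧ p.W ∩ Ioo r' (dq i) = ∅ := by
  unfold F
  rw [Set.Finite.mem_toFinset]
  rfl

theorem F_card_lt {m : ℕ} {p : Pth} {r r' : ℝ} (h : r' ∈ F m p r) :
    (F m p r').card < (F m p r).card := by
  refine Finset.card_lt_card ⟨?_, ?_⟩
  · intro x hx
    rw [mem_F] at hx h ⊢
    exact ⟨hx.1, hx.2.1.trans h.2.1, hx.2.2⟩
  · intro hs
    have := hs h
    rw [mem_F] at this
    exact lt_irrefl _ this.2.1

/-- weights of the groups of conditions -/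
noncomputable def wt (j : ℕ) : ℝ := (1 / 2) ^ (j + 2)

/-- the event that some condition of the `j`-th group of the code at `r` is met (stage `m`,
predecessor values `v`) -/
def evj (m : ℕ) (p : Pth) (r : ℝ) (v : ℝ → Xi → S) (j : ℕ) : Set Xi :=
  {ξ | ∃ C ∈ p.G r j, ∀ c ∈ C, c.1 ∈ F m p r ∧ v c.1 ξ = c.2}

/-- union of the active groups -/
def ev (m : ℕ) (p : Pth) (r : ℝ) (v : ℝ → Xi → S) : Set Xi :=
  {ξ | ∃ j < m, PXi.real (evj m p r v j) ≤ wt j ∧ ξ ∈ evj m p r v j}

open Classical in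
noncomputable def stp (m : ℕ) (p : Pth) (r : ℝ) (v : ℝ → Xi → S) : Xi → S := fun ξ =>
  if ξ ∈ ev m p r v then 0 else thr (qq (PXi.real (ev m p r v))) (ξ (F m p r).card)

open Classical in
/-- the letter of the node with label `r` of the path `p` at stage `m` -/
noncomputable def val (m : ℕ) (p : Pth) (r : ℝ) : Xi → S :=
  stp m p r (fun r' => if _h : r' ∈ F m p r then val m p r' else fun _ => 0)
termination_by (F m p r).card
decreasing_by exact F_card_lt _h

/-- every group of the code at `r` is eventually active -/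
def Act (p : Pth) (r : ℝ) : Prop :=
  ∀ j, ∀ᶠ m in atTop, PXi.real (evj m p r (val m p) j) ≤ wt j

/-- the laws of the letters converge -/
def Conv (p : Pth) : Prop :=
  ∀ A : Finset ℝ, (A : Set ℝ) ⊆ p.W → ∀ b : ℝ → S,
    ∃ l : ℝ, Tendsto (fun m => PXi.real {ξ | ∀ r ∈ A, val m p r ξ = b r}) atTop (𝓝 l)

def Legit (p : Pth) : Prop := (∀ r ∈ p.W, Act p r) ∧ Conv p

open Classical in
/-- initial segment of a path -/
noncomputable def Pth.upto (p : Pth) (r : ℝ) : Pth where
  W := p.W ∩ Iic r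
  G := fun r' j => if r' ≤ r then p.G r' j else ∅
  wf := p.wf.mono inter_subset_left
  off := by
    intro r' h j
    by_cases h1 : r' ≤ r
    · simp only [h1, if_true]
      exact p.off r' (fun h2 => h ⟨h2, h1⟩) j
    · simp [h1]

noncomputable def Pth.top (p : Pth) : ℝ := sSup p.W

/-- nodes -/
def Y : Set Pth := {p | IsGreatest p.W p.top ∧ Legit p}

/-- the compact set of admissible labellings of the nodes -/
def LL : Set (Pth → S) :=
  {t | (∀ p, t p ≠ 0 → p ∈ Y) ∧ ∀ p ∈ Y, ∀ j, ∀ C ∈ p.G p.top j,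
    (∀ c ∈ C, c.1 ∈ p.W ∧ c.1 < p.top ∧ t (p.upto c.1) = c.2) → t p = 0}

/-- nonnegative finitely additive set functions -/
structure IsFA {T : Type} (μ : Set T → ℝ) : Prop where
  nonneg : ∀ A, 0 ≤ μ A
  add : ∀ A B, Disjoint A B → μ (A ∪ B) = μ A + μ B

end Pool.Agent.PIP
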