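import Pool.Agent.PIP.Pat

set_option autoImplicit false

open MeasureTheory Set Filter Topology
open scoped ENNReal

namespace Pool.Agent.PIP

/-! ## locality -/

theorem Ext_evj (p : Pth) (r : ℝ) (hr : r ∈ p.W) (m j : ℕ) :
    evj m (p.upto r) r (val m (p.upto r)) j = evj m p r (val m p) j := by
  rw [evj_congr m (p.upto r) r (val m (p.upto r)) (val m p)]
  · unfold evj
    rw [F_upto m p r r hr le_rfl, G_upto p r r le_rfl j]
  · intro r' hr'
    rw [F_upto m p r r hr le_rfl] at hr'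
    exact val_upto m p r r' hr (mem_F.1 hr').2.1.le

theorem Ext_act (p : Pth) (r : ℝ) (hr : r ∈ p.W) : Act (p.upto r) r ↔ Act p r := by
  unfold Act
  simp only [Ext_evj p r hr]

/-- approximation by convergent sequences -/
theorem Ext_conv_approx (x : ℕ → ℝ) (h : ∀ ε > 0, ∃ y : ℕ → ℝ, (∃ l, Tendsto y atTop (𝓝 l)) ∧
    ∀ᶠ m in atTop, |x m - y m| ≤ ε) : ∃ l, Tendsto x atTop (𝓝 l) := by
  have hc : CauchySeq x := by
    rw [Metric.cauchySeq_iff']
    intro ε hε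
    obtain ⟨y, ⟨l, hl⟩, hy⟩ := h (ε / 8) (by positivity)
    have h1 : ∀ᶠ m in atTop, |y m - l| < ε / 8 := by
      have := (Metric.tendsto_nhds.1 hl) (ε / 8) (by positivity)
      simpa [Real.dist_eq] using this
    obtain ⟨N, hN⟩ := eventually_atTop.1 (hy.and h1)
    refine ⟨N, fun n hn => ?_⟩
    have h2 := hN n hn
    have h3 := hN N le_rfl
    rw [Real.dist_eq]
    have e1 := abs_le.1 h2.1
    have e2 := abs_lt.1 h2.2
    have e3 := abs_le.1 h3.1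
    have e4 := abs_lt.1 h3.2
    rw [abs_lt]
    constructor <;> linarith [e1.1, e1.2, e2.1, e2.2, e3.1, e3.2, e4.1, e4.2]
  exact cauchySeq_tendsto_of_complete hc

theorem Ext_measurableSet_pat (m : ℕ) (p : Pth) (A : Finset ℝ) (b : ℝ → S) :
    MeasurableSet {ξ | ∀ r ∈ A, val m p r ξ = b r} := by
  have : {ξ | ∀ r ∈ A, val m p r ξ = b r} = ⋂ r ∈ A, val m p r ⁻¹' {b r} := by
    ext ξ; simp
  rw [this]
  exact Finset.measurableSet_biInter _ fun r _ => measurable_val m p r (measurableSet_singleton _)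

open Classical in
/-- probabilities of events depending on finitely many labels converge -/
theorem Ext_conv_pat (p : Pth) (hp : Conv p) (A : Finset ℝ) (hA : (A : Set ℝ) ⊆ p.W)
    (Q : Set (ℝ → S)) : ∃ l, Tendsto
      (fun m => PXi.real {ξ | (fun r => if r ∈ A then val m p r ξ else 0) ∈ Q}) atTop (𝓝 l) := by
  have h1 : ∀ m, PXi.real {ξ | (fun r => if r ∈ A then val m p r ξ else 0) ∈ Q} =
      ∑ b ∈ (pats A).filter (fun b => b ∈ Q), PXi.real {ξ | ∀ r ∈ A, val m p r ξ = b r} := by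
    intro m
    have h2 : {ξ : Xi | (fun r => if r ∈ A then val m p r ξ else 0) ∈ Q} =
        ⋃ b ∈ (pats A).filter (fun b => b ∈ Q), {ξ | ∀ r ∈ A, val m p r ξ = b r} := by
      ext ξ
      simp only [mem_ofPred_eq, mem_iUnion, Finset.mem_filter, exists_prop]
      constructor
      · intro h
        refine ⟨_, ⟨mem_pats.2 (fun r hr => by simp [hr]), h⟩, fun r hr => by simp [hr]⟩
      · rintro ⟨b, ⟨hb, hQ⟩, h⟩
        convert hQ using 1
        funext r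
        by_cases hr : r ∈ A
        · simp [hr, h r hr]
        · simp [hr, mem_pats.1 hb r hr]
    rw [h2, measureReal_biUnion_finset]
    · intro b hb b' hb' hne
      rw [Function.onFun, Set.disjoint_left]
      intro ξ h3 h4
      apply hne
      have hb := mem_pats.1 (Finset.mem_filter.1 hb).1
      have hb' := mem_pats.1 (Finset.mem_filter.1 hb').1
      funext r
      by_cases hr : r ∈ A
      · rw [← h3 r hr, ← h4 r hr]
      · rw [hb r hr, hb' r hr]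
    · intro b _
      exact Ext_measurableSet_pat m p A b
  simp only [h1]
  exact ⟨_, tendsto_finsetSum _ fun b _ => Dl_tendsto p hp A hA b⟩

/-! ## adding a node -/

open Classical in
/-- adding a node at the end -/
noncomputable def snoc (p : Pth) (ρ : ℝ) (Gρ : ℕ → Finset Cyl) : Pth where
  W := insert ρ p.W
  G := fun r j => if r = ρ then Gρ j else p.G r j
  wf := p.wf.insert ρ
  off := by
    intro r hr j
    rw [mem_insert_iff, not_or] at hr
    rw [if_neg hr.1]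
    exact p.off r hr.2 j

theorem snoc_upto (p : Pth) (ρ : ℝ) (hρ : ∀ r ∈ p.W, r < ρ) (Gρ : ℕ → Finset Cyl) (r : ℝ)
    (hr : r ∈ p.W) : (snoc p ρ Gρ).upto r = p.upto r := by
  have h := hρ r hr
  apply Pth.ext
  · change insert ρ p.W ∩ Iic r = p.W ∩ Iic r
    ext x
    simp only [mem_inter_iff, mem_insert_iff, mem_Iic]
    constructor
    · rintro ⟨rfl | h1, h2⟩
      · linarith
      · exact ⟨h1, h2⟩
    · rintro ⟨h1, h2⟩
      exact ⟨Or.inr h1, h2⟩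
  · funext x j
    change (if x ≤ r then (if x = ρ then Gρ j else p.G x j) else ∅) = if x ≤ r then p.G x j else ∅
    by_cases hx : x ≤ r
    · rw [if_pos hx, if_pos hx, if_neg (by intro h1; linarith)]
    · rw [if_neg hx, if_neg hx]

theorem snoc_val (p : Pth) (ρ : ℝ) (hρ : ∀ r ∈ p.W, r < ρ) (Gρ : ℕ → Finset Cyl) (m : ℕ) (r : ℝ)
    (hr : r ∈ p.W) : val m (snoc p ρ Gρ) r = val m p r := by
  rw [← val_upto m (snoc p ρ Gρ) r r (Or.inr hr) le_rfl, snoc_upto p ρ hρ Gρ r hr,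
    val_upto m p r r hr le_rfl]

theorem snoc_F_subset (p : Pth) (ρ : ℝ) (Gρ : ℕ → Finset Cyl) (m : ℕ)
    (r : ℝ) (hr : r ∈ F m (snoc p ρ Gρ) ρ) : r ∈ p.W := by
  have := mem_F.1 hr
  rcases this.1 with h | h
  · linarith [this.2.1]
  · exact h

/-- the cylinder of a pattern -/
noncomputable def gr (A : Finset ℝ) (b : ℝ → S) : Cyl := by
  classical
  exact A.image (fun r => (r, b r))

theorem mem_gr {A : Finset ℝ} {b : ℝ → S} {c : ℝ × S} : c ∈ gr A b ↔ c.1 ∈ A ∧ c.2 = b c.1 := by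
  classical
  unfold gr
  rw [Finset.mem_image]
  constructor
  · rintro ⟨r, h1, rfl⟩
    exact ⟨h1, rfl⟩
  · rintro ⟨h1, h2⟩
    exact ⟨c.1, h1, by rw [← h2]⟩

section
variable (p : Pth) (hp : Legit p) (ρ : ℝ) (hρ : ∀ r ∈ p.W, r < ρ) (Fk : ℕ → Finset ℝ)
  (hFk : ∀ k, (Fk k : Set ℝ) ⊆ p.W) (I : ℕ → Finset (ℕ × (ℝ → S)))
  (hI : ∀ j, ∑ x ∈ I j, Dl p (Fk x.1) x.2 < wt j)

/-- the code built from an indexed family of patterns -/
noncomputable def Gof (Fk : ℕ → Finset ℝ) (I : ℕ → Finset (ℕ × (ℝ → S))) (j : ℕ) : Finset Cyl := by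
  classical
  exact (I j).image (fun x => gr (Fk x.1) x.2)

theorem mem_Gof {Fk : ℕ → Finset ℝ} {I : ℕ → Finset (ℕ × (ℝ → S))} {j : ℕ} {C : Cyl} :
    C ∈ Gof Fk I j ↔ ∃ x ∈ I j, gr (Fk x.1) x.2 = C := by
  classical
  unfold Gof
  rw [Finset.mem_image]

theorem snoc_G (Gρ : ℕ → Finset Cyl) (j : ℕ) : (snoc p ρ Gρ).G ρ j = Gρ j := by
  simp [snoc]

include hp hρ hFk hI in
theorem Ext_snoc_act : Act (snoc p ρ (Gof Fk I)) ρ := by
  intro j
  set p' := snoc p ρ (Gof Fk I) with hp'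
  have h1 : Tendsto (fun m => ∑ x ∈ I j, PXi.real {ξ | ∀ r ∈ Fk x.1, val m p r ξ = x.2 r}) atTop
      (𝓝 (∑ x ∈ I j, Dl p (Fk x.1) x.2)) :=
    tendsto_finsetSum _ fun x _ => Dl_tendsto p hp.2 (Fk x.1) (hFk x.1) x.2
  have h2 := h1.eventually_lt_const (hI j)
  filter_upwards [h2] with m hm
  refine le_trans ?_ hm.le
  have h3 : evj m p' ρ (val m p') j ⊆ ⋃ x ∈ I j, {ξ | ∀ r ∈ Fk x.1, val m p r ξ = x.2 r} := by
    rintro ξ ⟨C, hC, hc⟩
    rw [hp', snoc_G, mem_Gof] at hC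
    obtain ⟨x, hx, rfl⟩ := hC
    simp only [mem_iUnion, exists_prop]
    refine ⟨x, hx, fun r hr => ?_⟩
    have := hc (r, x.2 r) (mem_gr.2 ⟨hr, rfl⟩)
    rw [← snoc_val p ρ hρ (Gof Fk I) m r (hFk x.1 hr)]
    exact this.2
  calc PXi.real (evj m p' ρ (val m p') j)
      ≤ PXi.real (⋃ x ∈ I j, {ξ | ∀ r ∈ Fk x.1, val m p r ξ = x.2 r}) :=
        measureReal_mono h3 (measure_ne_top _ _)
    _ ≤ _ := measureReal_biUnion_finset_le _ _

/-- the first `k` groups -/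
def Ek (m : ℕ) (p : Pth) (Fk : ℕ → Finset ℝ) (I : ℕ → Finset (ℕ × (ℝ → S))) (k : ℕ) : Set Xi :=
  {ξ | ∃ j < k, ∃ x ∈ I j, ∀ r ∈ Fk x.1, val m p r ξ = x.2 r}

include hp hFk in
open Classical in
theorem Ext_Ek_conv (A0 : Finset ℝ) (hA0 : (A0 : Set ℝ) ⊆ p.W) (b : ℝ → S) (k : ℕ) :
    ∃ l, Tendsto (fun m => PXi.real ({ξ | ∀ r ∈ A0, val m p r ξ = b r} ∩ Ek m p Fk I k)) atTop
      (𝓝 l) := by
  set A : Finset ℝ := A0 ∪ (Finset.range k).biUnion (fun j => (I j).biUnion fun x => Fk x.1) with hA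
  set Q : Set (ℝ → S) := {b' | (∀ r ∈ A0, b' r = b r) ∧ ∃ j < k, ∃ x ∈ I j, ∀ r ∈ Fk x.1,
    b' r = x.2 r} with hQ
  have hAW : (A : Set ℝ) ⊆ p.W := by
    intro r hr
    rw [hA, Finset.mem_coe, Finset.mem_union, Finset.mem_biUnion] at hr
    rcases hr with hr | ⟨j, _, hr⟩
    · exact hA0 hr
    · rw [Finset.mem_biUnion] at hr
      obtain ⟨x, _, hr⟩ := hr
      exact hFk _ hr
  obtain ⟨l, hl⟩ := Ext_conv_pat p hp.2 A hAW Q
  refine ⟨l, ?_⟩
  convert hl using 2 with m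
  congr 1
  ext ξ
  simp only [hQ, Ek, mem_inter_iff, mem_ofPred_eq]
  have h1 : ∀ r ∈ A0, (if r ∈ A then val m p r ξ else 0) = val m p r ξ := by
    intro r hr
    rw [if_pos]
    rw [hA, Finset.mem_union]
    exact Or.inl hr
  have h2 : ∀ j < k, ∀ x ∈ I j, ∀ r ∈ Fk x.1, (if r ∈ A then val m p r ξ else 0) = val m p r ξ := by
    intro j hj x hx r hr
    rw [if_pos]
    rw [hA, Finset.mem_union]
    right
    rw [Finset.mem_biUnion]
    exact ⟨j, Finset.mem_range.2 hj, Finset.mem_biUnion.2 ⟨x, hx, hr⟩⟩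
  constructor
  · rintro ⟨h3, j, hj, x, hx, h4⟩
    exact ⟨fun r hr => by rw [h1 r hr]; exact h3 r hr, j, hj, x, hx, fun r hr => by
      rw [h2 j hj x hx r hr]; exact h4 r hr⟩
  · rintro ⟨h3, j, hj, x, hx, h4⟩
    exact ⟨fun r hr => by rw [← h1 r hr]; exact h3 r hr, j, hj, x, hx, fun r hr => by
      rw [← h2 j hj x hx r hr]; exact h4 r hr⟩

include hp hρ hFk hI in
theorem Ext_Ek_near (k : ℕ) : ∀ᶠ m in atTop,
    Ek m p Fk I k ⊆ evt m (snoc p ρ (Gof Fk I)) ρ ∧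
    PXi.real (evt m (snoc p ρ (Gof Fk I)) ρ \ Ek m p Fk I k) ≤ (1 / 2) ^ (k + 1) := by
  classical
  have hact := Ext_snoc_act p hp ρ hρ Fk hFk I hI
  set p' := snoc p ρ (Gof Fk I) with hp'
  have h1 : ∀ᶠ m in atTop, ∀ j ∈ Finset.range k, PXi.real (evj m p' ρ (val m p') j) ≤ wt j := by
    rw [Finset.eventually_all]
    exact fun j _ => hact j
  have h2 : ∀ᶠ m in atTop, ∀ j ∈ Finset.range k, ∀ x ∈ I j, ∀ r ∈ Fk x.1, r ∈ F m p' ρ := by
    rw [Finset.eventually_all]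
    intro j _
    rw [Finset.eventually_all]
    intro x _
    rw [Finset.eventually_all]
    intro r hr
    exact F_eventually p' ρ r (Or.inr (hFk _ hr)) (hρ r (hFk _ hr))
  filter_upwards [h1, h2, eventually_ge_atTop k] with m hm1 hm2 hm3
  have hv : ∀ r ∈ p.W, val m p' r = val m p r := fun r hr => snoc_val p ρ hρ (Gof Fk I) m r hr
  have hE : ∀ j < k, ∀ ξ, (∃ x ∈ I j, ∀ r ∈ Fk x.1, val m p r ξ = x.2 r) ↔
      ξ ∈ evj m p' ρ (val m p') j := by
    intro j hj ξ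
    constructor
    · rintro ⟨x, hx, h⟩
      refine ⟨gr (Fk x.1) x.2, ?_, ?_⟩
      · rw [hp', snoc_G, mem_Gof]
        exact ⟨x, hx, rfl⟩
      · intro c hc
        rw [mem_gr] at hc
        refine ⟨hm2 j (Finset.mem_range.2 hj) x hx _ hc.1, ?_⟩
        rw [hv _ (hFk _ hc.1), h _ hc.1, hc.2]
    · rintro ⟨C, hC, hc⟩
      rw [hp', snoc_G, mem_Gof] at hC
      obtain ⟨x, hx, rfl⟩ := hC
      refine ⟨x, hx, fun r hr => ?_⟩
      have := hc (r, x.2 r) (mem_gr.2 ⟨hr, rfl⟩)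
      rw [← hv r (hFk x.1 hr)]
      exact this.2
  refine ⟨?_, ?_⟩
  · rintro ξ ⟨j, hj, hx⟩
    exact ⟨j, by omega, hm1 j (Finset.mem_range.2 hj), (hE j hj ξ).1 hx⟩
  · have h3 : evt m p' ρ \ Ek m p Fk I k ⊆ ⋃ j ∈ Finset.Ico k m,
        (if PXi.real (evj m p' ρ (val m p') j) ≤ wt j then evj m p' ρ (val m p') j else ∅) := by
      rintro ξ ⟨⟨j, hj1, hj2, hj3⟩, h4⟩
      simp only [mem_iUnion, exists_prop, Finset.mem_Ico]
      refine ⟨j, ⟨?_, hj1⟩, ?_⟩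
      · by_contra h5
        push Not at h5
        exact h4 ⟨j, h5, (hE j h5 ξ).2 hj3⟩
      · rw [if_pos hj2]; exact hj3
    calc PXi.real (evt m p' ρ \ Ek m p Fk I k)
        ≤ PXi.real (⋃ j ∈ Finset.Ico k m,
          (if PXi.real (evj m p' ρ (val m p') j) ≤ wt j then evj m p' ρ (val m p') j else ∅)) :=
          measureReal_mono h3 (measure_ne_top _ _)
      _ ≤ ∑ j ∈ Finset.Ico k m, PXi.real
          (if PXi.real (evj m p' ρ (val m p') j) ≤ wt j then evj m p' ρ (val m p') j else ∅) :=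
          measureReal_biUnion_finset_le _ _
      _ ≤ ∑ j ∈ Finset.Ico k m, wt j := by
          refine Finset.sum_le_sum fun j _ => ?_
          split_ifs with h
          · exact h
          · simp only [measureReal_empty]; exact (wt_pos j).le
      _ ≤ (1 / 2) ^ (k + 1) := by
          rw [Finset.sum_Ico_eq_sub _ hm3, sum_wt, sum_wt]
          have : (0 : ℝ) < (1 / 2) ^ (m + 1) := by positivity
          linarith

include hp hρ hFk hI in
theorem Ext_evt_conv (A0 : Finset ℝ) (hA0 : (A0 : Set ℝ) ⊆ p.W) (b : ℝ → S) :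
    ∃ l, Tendsto (fun m => PXi.real ({ξ | ∀ r ∈ A0, val m p r ξ = b r} ∩
      evt m (snoc p ρ (Gof Fk I)) ρ)) atTop (𝓝 l) := by
  apply Ext_conv_approx
  intro ε hε
  obtain ⟨k, hk⟩ : ∃ k : ℕ, ((1 : ℝ) / 2) ^ (k + 1) ≤ ε := by
    obtain ⟨k, hk⟩ := exists_pow_lt_of_lt_one hε (by norm_num : (1 : ℝ) / 2 < 1)
    refine ⟨k, le_trans ?_ hk.le⟩
    exact pow_le_pow_of_le_one (by norm_num) (by norm_num) (Nat.le_succ k)
  refine ⟨_, Ext_Ek_conv p hp Fk hFk I A0 hA0 b k, ?_⟩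
  filter_upwards [Ext_Ek_near p hp ρ hρ Fk hFk I hI k] with m hm
  obtain ⟨h1, h2⟩ := hm
  set p' := snoc p ρ (Gof Fk I) with hp'
  set B : Set Xi := {ξ | ∀ r ∈ A0, val m p r ξ = b r} with hB
  have h3 : PXi.real (B ∩ Ek m p Fk I k) ≤ PXi.real (B ∩ evt m p' ρ) :=
    measureReal_mono (inter_subset_inter_right B h1) (measure_ne_top _ _)
  have h4 : PXi.real (B ∩ evt m p' ρ) ≤
      PXi.real (B ∩ Ek m p Fk I k) + PXi.real (evt m p' ρ \ Ek m p Fk I k) := by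
    refine le_trans (measureReal_mono ?_ (measure_ne_top _ _)) (measureReal_union_le _ _)
    rintro ξ ⟨h5, h6⟩
    by_cases h7 : ξ ∈ Ek m p Fk I k
    · exact Or.inl ⟨h5, h7⟩
    · exact Or.inr ⟨h6, h7⟩
  rw [abs_le]
  constructor
  · have : (0 : ℝ) < (1 / 2) ^ (k + 1) := by positivity
    linarith
  · linarith

include hρ in
theorem Ext_prob (Gρ : ℕ → Finset Cyl) (A0 : Finset ℝ) (hA0 : (A0 : Set ℝ) ⊆ p.W) (b : ℝ → S) :
    ∀ᶠ m in atTop, ∀ s : S,
      PXi.real {ξ | ∀ r ∈ insert ρ A0, val m (snoc p ρ Gρ) r ξ = Function.update b ρ s r} =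
      (if s = 0 then PXi.real ({ξ | ∀ r ∈ A0, val m p r ξ = b r} ∩ evt m (snoc p ρ Gρ) ρ) +
          qq (PXi.real (evt m (snoc p ρ Gρ) ρ)) *
            PXi.real ({ξ | ∀ r ∈ A0, val m p r ξ = b r} \ evt m (snoc p ρ Gρ) ρ)
        else (1 - qq (PXi.real (evt m (snoc p ρ Gρ) ρ))) / 2 *
          PXi.real ({ξ | ∀ r ∈ A0, val m p r ξ = b r} \ evt m (snoc p ρ Gρ) ρ)) := by
  set p' := snoc p ρ Gρ with hp'
  have h1 : ∀ᶠ m in atTop, ∀ r ∈ A0, r ∈ F m p' ρ := by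
    rw [Finset.eventually_all]
    exact fun r hr => F_eventually p' ρ r (Or.inr (hA0 hr)) (hρ r (hA0 hr))
  filter_upwards [h1] with m hm s
  have hv : ∀ r ∈ p.W, val m p' r = val m p r := fun r hr => snoc_val p ρ hρ Gρ m r hr
  rw [← real_inter_val m p' ρ {ξ | ∀ r ∈ A0, val m p r ξ = b r} (Ext_measurableSet_pat m p A0 b)
    ?_ s]
  · congr 1
    ext ξ
    simp only [mem_ofPred_eq, mem_inter_iff, Finset.mem_insert, forall_eq_or_imp,
      Function.update_self]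
    rw [and_comm]
    refine and_congr_left fun _ => forall₂_congr fun r hr => ?_
    have h2 : r ≠ ρ := (hρ r (hA0 hr)).ne
    rw [hv r (hA0 hr), Function.update_of_ne h2]
  · intro ξ ξ' h
    simp only [mem_ofPred_eq]
    refine forall₂_congr fun r hr => ?_
    rw [← hv r (hA0 hr), val_dep m p' r ξ ξ' (fun i hi => h i (lt_of_le_of_lt hi
      (F_card_lt (hm r hr))))]

include hp hρ hFk hI in
theorem Ext_snoc_conv (A0 : Finset ℝ) (hA0 : (A0 : Set ℝ) ⊆ p.W) (b : ℝ → S) :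
    ∃ l, Tendsto (fun m => PXi.real {ξ | ∀ r ∈ insert ρ A0,
      val m (snoc p ρ (Gof Fk I)) r ξ = b r}) atTop (𝓝 l) := by
  set p' := snoc p ρ (Gof Fk I) with hp'
  obtain ⟨l1, hl1⟩ := Ext_evt_conv p hp ρ hρ Fk hFk I hI A0 hA0 b
  obtain ⟨l2, hl2⟩ := Ext_evt_conv p hp ρ hρ Fk hFk I hI ∅ (by simp) b
  have hl3 := Dl_tendsto p hp.2 A0 hA0 b
  rw [← hp'] at hl1 hl2
  have hl2' : Tendsto (fun m => PXi.real (evt m p' ρ)) atTop (𝓝 l2) := by
    refine hl2.congr fun m => ?_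
    congr 1
    ext ξ
    simp
  have hl2b : l2 ≤ 1 / 2 := le_of_tendsto' hl2' fun m => real_evt_le m p' ρ
  have hq : Tendsto (fun m => qq (PXi.real (evt m p' ρ))) atTop (𝓝 (qq l2)) := by
    unfold qq
    exact (tendsto_const_nhds.sub hl2').div (tendsto_const_nhds.sub hl2')
      (by intro h; linarith)
  have hd : Tendsto (fun m => PXi.real ({ξ | ∀ r ∈ A0, val m p r ξ = b r} \ evt m p' ρ)) atTop
      (𝓝 (Dl p A0 b - l1)) := by
    refine (hl3.sub hl1).congr fun m => ?_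
    have := measureReal_inter_add_sdiff (μ := PXi) (s := {ξ | ∀ r ∈ A0, val m p r ξ = b r})
      (measurableSet_evt m p' ρ)
    linarith
  have hprob := Ext_prob p ρ hρ (Gof Fk I) A0 hA0 b
  rw [← hp'] at hprob
  have hup : Function.update b ρ (b ρ) = b := Function.update_eq_self ρ b
  by_cases hs : b ρ = 0
  · refine ⟨l1 + qq l2 * (Dl p A0 b - l1), ((hl1.add (hq.mul hd)).congr' ?_)⟩
    filter_upwards [hprob] with m hm
    have := hm (b ρ)
    rw [hup, if_pos hs] at this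
    exact this.symm
  · refine ⟨(1 - qq l2) / 2 * (Dl p A0 b - l1),
      ((((tendsto_const_nhds.sub hq).div_const 2).mul hd).congr' ?_)⟩
    filter_upwards [hprob] with m hm
    have := hm (b ρ)
    rw [hup, if_neg hs] at this
    exact this.symm

include hp hρ hFk hI in
theorem Ext_snoc_legit : Legit (snoc p ρ (Gof Fk I)) := by
  classical
  constructor
  · rintro r (rfl | hr)
    · exact Ext_snoc_act p hp r hρ Fk hFk I hI
    · rw [← Ext_act (snoc p ρ (Gof Fk I)) r (show r ∈ insert ρ p.W from Or.inr hr), snoc_upto p ρ hρ (Gof Fk I) r hr, Ext_act p r hr]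
      exact hp.1 r hr
  · intro A hA b
    by_cases hρA : ρ ∈ A
    · have h1 : A = insert ρ (A.erase ρ) := (Finset.insert_erase hρA).symm
      have h2 : ((A.erase ρ : Finset ℝ) : Set ℝ) ⊆ p.W := by
        intro x hx
        rw [Finset.mem_coe, Finset.mem_erase] at hx
        rcases hA hx.2 with h3 | h3
        · exact absurd h3 hx.1
        · exact h3
      rw [h1]
      exact Ext_snoc_conv p hp ρ hρ Fk hFk I hI _ h2 b
    · have h2 : (A : Set ℝ) ⊆ p.W := by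
        intro x hx
        rcases hA hx with h3 | h3
        · exact absurd (h3 ▸ hx) hρA
        · exact h3
      obtain ⟨l, hl⟩ := hp.2 A h2 b
      refine ⟨l, hl.congr fun m => ?_⟩
      congr 1
      ext ξ
      simp only [mem_ofPred_eq]
      refine forall₂_congr fun r hr => ?_
      rw [snoc_val p ρ hρ (Gof Fk I) m r (h2 hr)]

include hρ in
theorem Ext_snoc_sym (Gρ : ℕ → Finset Cyl) (A0 : Finset ℝ) (hA0 : (A0 : Set ℝ) ⊆ p.W)
    (b : ℝ → S) :
    Dl (snoc p ρ Gρ) (insert ρ A0) (Function.update b ρ 1) =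
      Dl (snoc p ρ Gρ) (insert ρ A0) (Function.update b ρ 2) := by
  unfold Dl limUnder
  congr 1
  refine Filter.map_congr ?_
  filter_upwards [Ext_prob p ρ hρ Gρ A0 hA0 b] with m hm
  rw [hm 1, hm 2, if_neg (by decide), if_neg (by decide)]

end

/-! ## finitely additive set functions -/

theorem Ext_fa_empty {T : Type} (ν : Set T → ℝ) (hν : IsFA ν) : ν ∅ = 0 := by
  have := hν.add ∅ ∅ (disjoint_empty _)
  rw [union_empty] at this
  linarith

theorem Ext_fa_le_univ {T : Type} (ν : Set T → ℝ) (hν : IsFA ν) (A : Set T) : ν A ≤ ν univ := by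
  have := hν.add A Aᶜ disjoint_compl_right
  rw [union_compl_self] at this
  linarith [hν.nonneg Aᶜ]

theorem Ext_fa_sum {T J : Type} (ν : Set T → ℝ) (hν : IsFA ν) (s : Finset J) (c : J → Set T)
    (hd : ∀ i ∈ s, ∀ j ∈ s, i ≠ j → Disjoint (c i) (c j)) :
    ∑ i ∈ s, ν (c i) = ν (⋃ i ∈ s, c i) := by
  classical
  induction s using Finset.induction_on with
  | empty => simp [Ext_fa_empty ν hν]
  | insert a s ha ih =>
    rw [Finset.sum_insert ha, Finset.set_biUnion_insert, hν.add, ih]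
    · exact fun i hi j hj => hd i (Finset.mem_insert_of_mem hi) j (Finset.mem_insert_of_mem hj)
    · rw [Set.disjoint_iUnion₂_right]
      intro i hi
      exact hd a (Finset.mem_insert_self a s) i (Finset.mem_insert_of_mem hi)
        (fun h => ha (h ▸ hi))

theorem Ext_fa_sum_le {T J : Type} (ν : Set T → ℝ) (hν : IsFA ν) (s : Finset J) (c : J → Set T)
    (hd : ∀ i ∈ s, ∀ j ∈ s, i ≠ j → Disjoint (c i) (c j)) : ∑ i ∈ s, ν (c i) ≤ ν univ := by
  rw [Ext_fa_sum ν hν s c hd]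
  exact Ext_fa_le_univ ν hν _

/-! ## heavy patterns -/

/-- heavy patterns at level `k` -/
def heavy (p : Pth) (ρ : ℝ) (ν : Set (Pth → S) → ℝ) (k : ℕ) (b : ℝ → S) : Prop :=
  Dl p (F k p ρ) b < ν (cyl p (F k p ρ) b)

theorem Ext_cyl_congr (p : Pth) (A : Finset ℝ) (b b' : ℝ → S) (h : ∀ r ∈ A, b r = b' r) :
    cyl p A b = cyl p A b' := by
  ext t
  simp only [cyl, mem_ofPred_eq]
  refine and_congr_right fun _ => forall₂_congr fun r hr => ?_
  rw [h r hr]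

theorem Ext_heavy_congr (p : Pth) (ρ : ℝ) (ν : Set (Pth → S) → ℝ) (k : ℕ) (b b' : ℝ → S)
    (h : ∀ r ∈ F k p ρ, b r = b' r) : heavy p ρ ν k b ↔ heavy p ρ ν k b' := by
  unfold heavy
  rw [Dl_congr p _ b b' h, Ext_cyl_congr p _ b b' h]

open Classical in
/-- minimal heavy patterns of level `k` -/
noncomputable def Ah (p : Pth) (ρ : ℝ) (ν : Set (Pth → S) → ℝ) (k : ℕ) : Finset (ℝ → S) :=
  (pats (F k p ρ)).filter (fun b => heavy p ρ ν k b ∧ ∀ l < k, ¬ heavy p ρ ν l b)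

theorem mem_Ah {p : Pth} {ρ : ℝ} {ν : Set (Pth → S) → ℝ} {k : ℕ} {b : ℝ → S} :
    b ∈ Ah p ρ ν k ↔ (∀ r, r ∉ F k p ρ → b r = 0) ∧ heavy p ρ ν k b ∧
      ∀ l < k, ¬ heavy p ρ ν l b := by
  classical
  unfold Ah
  rw [Finset.mem_filter, mem_pats]

theorem Ext_Ah_disjoint (p : Pth) (ρ : ℝ) (ν : Set (Pth → S) → ℝ) (k k' : ℕ) (b b' : ℝ → S)
    (hb : b ∈ Ah p ρ ν k) (hb' : b' ∈ Ah p ρ ν k') (hne : (k, b) ≠ (k', b')) :
    Disjoint (cyl p (F k p ρ) b) (cyl p (F k' p ρ) b') := by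
  wlog hle : k ≤ k' generalizing k k' b b'
  · exact (this k' k b' b hb' hb (fun h => hne h.symm) (by omega)).symm
  rw [Set.disjoint_left]
  rintro t ⟨_, h1⟩ ⟨_, h2⟩
  rw [mem_Ah] at hb hb'
  have h3 : ∀ r ∈ F k p ρ, b r = b' r := fun r hr => by
    rw [← h1 r hr, ← h2 r (F_mono hle p ρ hr)]
  rcases hle.lt_or_eq with h4 | h4
  · exact hb'.2.2 k h4 ((Ext_heavy_congr p ρ ν k b b' h3).1 hb.2.1)
  · subst h4
    apply hne
    have : b = b' := by
      funext r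
      by_cases hr : r ∈ F k p ρ
      · exact h3 r hr
      · rw [hb.1 r hr, hb'.1 r hr]
    rw [this]

theorem Ext_F_subset (p : Pth) (ρ : ℝ) (k : ℕ) : (F k p ρ : Set ℝ) ⊆ p.W :=
  fun _ hr => (mem_F.1 (Finset.mem_coe.1 hr)).1

theorem Ext_S_le (p : Pth) (ρ : ℝ) (ν : Set (Pth → S) → ℝ) (hν : IsFA ν) (K : ℕ) :
    ∑ k ∈ Finset.range K, ∑ b ∈ Ah p ρ ν k, Dl p (F k p ρ) b ≤ ν univ := by
  classical
  set I : Finset (ℕ × (ℝ → S)) :=
    (Finset.range K).biUnion (fun k => (Ah p ρ ν k).image fun b => (k, b)) with hI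
  have hmem : ∀ x : ℕ × (ℝ → S), x ∈ I ↔ x.1 ∈ Finset.range K ∧ x.2 ∈ Ah p ρ ν x.1 := by
    rintro ⟨k, b⟩
    rw [hI, Finset.mem_biUnion]
    constructor
    · rintro ⟨k', h1, h2⟩
      rw [Finset.mem_image] at h2
      obtain ⟨b', h3, h4⟩ := h2
      rw [Prod.mk.injEq] at h4
      obtain ⟨rfl, rfl⟩ := h4
      exact ⟨h1, h3⟩
    · rintro ⟨h1, h2⟩
      exact ⟨k, h1, Finset.mem_image.2 ⟨b, h2, rfl⟩⟩
  rw [← Finset.sum_finset_product I (Finset.range K) (fun k => Ah p ρ ν k) hmem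
    (f := fun x => Dl p (F x.1 p ρ) x.2)]
  refine le_trans (Finset.sum_le_sum fun x hx => ?_)
    (Ext_fa_sum_le ν hν I (fun x => cyl p (F x.1 p ρ) x.2) ?_)
  · exact (mem_Ah.1 ((hmem x).1 hx).2).2.1.le
  · intro x hx y hy hxy
    exact Ext_Ah_disjoint p ρ ν x.1 y.1 x.2 y.2 ((hmem x).1 hx).2 ((hmem y).1 hy).2 hxy

/-- choice of the grouping -/
theorem Ext_group (s : ℕ → ℝ) (h0 : ∀ k, 0 ≤ s k) (h1 : ∀ K, ∑ k ∈ Finset.range K, s k ≤ 1 / 8) :
    ∃ n : ℕ → ℕ, n 0 = 0 ∧ StrictMono n ∧ ∀ j, ∑ k ∈ Finset.Ico (n j) (n (j + 1)), s k < wt j := by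
  have hs : Summable s := summable_of_sum_range_le h0 h1
  have ht := hs.hasSum.tendsto_sum_nat
  have h2 : ∀ j, ∃ N, ∀ n ≥ N, ∀ n' ≥ n, ∑ k ∈ Finset.Ico n n', s k < wt j := by
    intro j
    obtain ⟨N, hN⟩ := eventually_atTop.1 (ht.eventually_const_lt
      (show (∑' k, s k) - wt j < ∑' k, s k by linarith [wt_pos j]))
    refine ⟨N, fun n hn n' hn' => ?_⟩
    rw [Finset.sum_Ico_eq_sub _ hn']
    have h3 := hN n hn
    have h4 : ∑ k ∈ Finset.range n', s k ≤ ∑' k, s k := hs.sum_le_tsum _ fun k _ => h0 k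
    linarith
  choose N hN using h2
  refine ⟨fun j => Nat.rec 0 (fun j n => max (n + 1) (N (j + 1))) j, rfl, ?_, ?_⟩
  · refine strictMono_nat_of_lt_succ fun j => ?_
    exact lt_of_lt_of_le (Nat.lt_succ_self _) (le_max_left _ _)
  · set n : ℕ → ℕ := fun j => Nat.rec 0 (fun j n => max (n + 1) (N (j + 1))) j with hn
    intro j
    rcases j with _ | j
    · have h3 : ∑ k ∈ Finset.Ico (n 0) (n 1), s k ≤ 1 / 8 := by
        have : n 0 = 0 := rfl
        rw [this]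
        simpa using h1 (n 1)
      have h4 : wt 0 = 1 / 4 := by unfold wt; norm_num
      rw [h4]
      linarith
    · refine hN (j + 1) (n (j + 1)) (le_max_right _ _) _ ?_
      exact le_trans (Nat.le_succ _) (le_max_left _ _)

theorem Ext_find (n : ℕ → ℕ) (h0 : n 0 = 0) (hn : StrictMono n) (K : ℕ) :
    ∃ j, n j ≤ K ∧ K < n (j + 1) := by
  induction K with
  | zero => exact ⟨0, by omega, by have := hn (show 0 < 0 + 1 by omega); omega⟩
  | succ K ih =>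
    obtain ⟨j, h1, h2⟩ := ih
    by_cases h3 : K + 1 < n (j + 1)
    · exact ⟨j, by omega, h3⟩
    · refine ⟨j + 1, by omega, ?_⟩
      have := hn (show j + 1 < j + 1 + 1 by omega)
      omega

/-- the one step extension of a legitimate path -/
theorem extend (p : Pth) (hp : Legit p) (ρ : ℝ) (hρ : ∀ r ∈ p.W, r < ρ)
    (ν : Set (Pth → S) → ℝ) (hν : IsFA ν) (hν1 : ν univ ≤ 1 / 8) :
    ∃ p' : Pth, p'.W = insert ρ p.W ∧ (∀ r ∈ p.W, p'.upto r = p.upto r) ∧ Legit p' ∧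
      (∀ A : Finset ℝ, (A : Set ℝ) ⊆ p.W → ∀ b : ℝ → S,
        Dl p' (insert ρ A) (Function.update b ρ 1) = Dl p' (insert ρ A) (Function.update b ρ 2)) ∧
      ∀ k b, ν (cyl p (F k p ρ) b) ≤ Dl p (F k p ρ) b ∨ ∀ t ∈ cyl p (F k p ρ) b, t p' = 0 := by
  classical
  obtain ⟨n, hn0, hn, hns⟩ := Ext_group (fun k => ∑ b ∈ Ah p ρ ν k, Dl p (F k p ρ) b)
    (fun k => Finset.sum_nonneg fun b _ => Dl_nonneg p hp.2 _ (Ext_F_subset p ρ k) b)
    (fun K => (Ext_S_le p ρ ν hν K).trans hν1)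
  set I : ℕ → Finset (ℕ × (ℝ → S)) := fun j =>
    (Finset.Ico (n j) (n (j + 1))).biUnion (fun k => (Ah p ρ ν k).image fun b => (k, b)) with hI
  have hmem : ∀ j, ∀ x : ℕ × (ℝ → S), x ∈ I j ↔
      x.1 ∈ Finset.Ico (n j) (n (j + 1)) ∧ x.2 ∈ Ah p ρ ν x.1 := by
    rintro j ⟨k, b⟩
    rw [hI, Finset.mem_biUnion]
    constructor
    · rintro ⟨k', h1, h2⟩
      rw [Finset.mem_image] at h2
      obtain ⟨b', h3, h4⟩ := h2
      rw [Prod.mk.injEq] at h4
      obtain ⟨rfl, rfl⟩ := h4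
      exact ⟨h1, h3⟩
    · rintro ⟨h1, h2⟩
      exact ⟨k, h1, Finset.mem_image.2 ⟨b, h2, rfl⟩⟩
  set Fk : ℕ → Finset ℝ := fun k => F k p ρ with hFk
  have hFkW : ∀ k, (Fk k : Set ℝ) ⊆ p.W := fun k => Ext_F_subset p ρ k
  have hIs : ∀ j, ∑ x ∈ I j, Dl p (Fk x.1) x.2 < wt j := by
    intro j
    rw [Finset.sum_finset_product (I j) (Finset.Ico (n j) (n (j + 1)))
      (fun k => Ah p ρ ν k) (hmem j) (f := fun x => Dl p (Fk x.1) x.2)]
    exact hns j
  set p' := snoc p ρ (Gof Fk I) with hp'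
  have hleg : Legit p' := Ext_snoc_legit p hp ρ hρ Fk hFkW I hIs
  refine ⟨p', rfl, fun r hr => snoc_upto p ρ hρ (Gof Fk I) r hr, hleg,
    fun A hA b => Ext_snoc_sym p ρ hρ (Gof Fk I) A hA b, ?_⟩
  have hgr : IsGreatest p'.W ρ := by
    refine ⟨Or.inl rfl, ?_⟩
    rintro r (rfl | hr)
    · exact le_rfl
    · exact (hρ r hr).le
  have htop : p'.top = ρ := hgr.csSup_eq
  have hY : p' ∈ Y := ⟨by rw [htop]; exact hgr, hleg⟩
  intro k b
  by_cases hb : ν (cyl p (F k p ρ) b) ≤ Dl p (F k p ρ) b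
  · exact Or.inl hb
  right
  have hex : ∃ l, l ≤ k ∧ heavy p ρ ν l b := ⟨k, le_rfl, not_le.1 hb⟩
  set l := Nat.find hex with hl
  obtain ⟨hlk, hlh⟩ := Nat.find_spec hex
  rw [← hl] at hlk hlh
  have hlm : ∀ l' < l, ¬ heavy p ρ ν l' b := fun l' hl' h =>
    Nat.find_min hex hl' ⟨by omega, h⟩
  set b' : ℝ → S := fun r => if r ∈ F l p ρ then b r else 0 with hb'
  have hbb : ∀ l' ≤ l, ∀ r ∈ F l' p ρ, b r = b' r := by
    intro l' hl' r hr
    simp only [hb', if_pos (F_mono hl' p ρ hr)]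
  have hbA : b' ∈ Ah p ρ ν l := by
    rw [mem_Ah]
    refine ⟨fun r hr => by simp only [hb', if_neg hr],
      (Ext_heavy_congr p ρ ν l b b' (hbb l le_rfl)).1 hlh, fun l' hl' h => ?_⟩
    exact hlm l' hl' ((Ext_heavy_congr p ρ ν l' b b' (hbb l' hl'.le)).2 h)
  obtain ⟨j, hj1, hj2⟩ := Ext_find n hn0 hn l
  rintro t ⟨htL, ht⟩
  have hC : gr (Fk l) b' ∈ p'.G p'.top j := by
    rw [htop, hp', snoc_G, mem_Gof]
    exact ⟨(l, b'), (hmem j _).2 ⟨Finset.mem_Ico.2 ⟨hj1, hj2⟩, hbA⟩, rfl⟩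
  refine htL.2 p' hY j _ hC ?_
  intro c hc
  rw [mem_gr] at hc
  have hcW : c.1 ∈ p.W := hFkW l hc.1
  refine ⟨Or.inr hcW, by rw [htop]; exact hρ _ hcW, ?_⟩
  rw [hp', snoc_upto p ρ hρ (Gof Fk I) _ hcW, ht _ (F_mono hlk p ρ hc.1), hc.2]
  exact hbb l le_rfl _ hc.1

end Pool.Agent.PIP
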