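import Pool.Agent.PIP.Fr

set_option autoImplicit false

open MeasureTheory Set Filter Topology
open scoped ENNReal

namespace Pool.Agent.PIP

/-- Jordan decomposition of a bounded finitely additive set function -/
theorem fa_jordan {T : Type} (m : Set T → ℝ) (hadd : ∀ A B, Disjoint A B → m (A ∪ B) = m A + m B)
    (C : ℝ) (hC : ∀ A, |m A| ≤ C) :
    ∃ m1 m2 : Set T → ℝ, IsFA m1 ∧ IsFA m2 ∧ ∀ A, m A = m1 A - m2 A := by
  have h0 : m ∅ = 0 := by
    have := hadd ∅ ∅ (disjoint_bot_left)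
    rw [union_self] at this
    linarith
  have hbdd : ∀ A : Set T, BddAbove (m '' {B | B ⊆ A}) := by
    intro A
    refine ⟨C, ?_⟩
    rintro _ ⟨B, -, rfl⟩
    exact (le_abs_self _).trans (hC B)
  have hne : ∀ A : Set T, (m '' {B | B ⊆ A}).Nonempty := fun A => ⟨m ∅, ∅, empty_subset A, rfl⟩
  have hle : ∀ A B : Set T, B ⊆ A → m B ≤ sSup (m '' {B | B ⊆ A}) := fun A B hB =>
    le_csSup (hbdd A) ⟨B, hB, rfl⟩
  have hadd1 : ∀ A A' : Set T, Disjoint A A' → sSup (m '' {B | B ⊆ A ∪ A'}) =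
      sSup (m '' {B | B ⊆ A}) + sSup (m '' {B | B ⊆ A'}) := by
    intro A A' hd
    apply le_antisymm
    · refine csSup_le (hne _) ?_
      rintro _ ⟨B, hB, rfl⟩
      have h1 : B = (B ∩ A) ∪ (B ∩ A') := by
        rw [← inter_union_distrib_left]
        exact (inter_eq_self_of_subset_left hB).symm
      have h2 : Disjoint (B ∩ A) (B ∩ A') := hd.mono inter_subset_right inter_subset_right
      rw [h1, hadd _ _ h2]
      exact add_le_add (hle _ _ inter_subset_right) (hle _ _ inter_subset_right)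
    · rw [← le_sub_iff_add_le]
      refine csSup_le (hne _) ?_
      rintro _ ⟨B, hB, rfl⟩
      rw [le_sub_iff_add_le, add_comm, ← le_sub_iff_add_le]
      refine csSup_le (hne _) ?_
      rintro _ ⟨B', hB', rfl⟩
      rw [le_sub_iff_add_le, add_comm]
      rw [← hadd B B' (hd.mono hB hB')]
      exact hle _ _ (union_subset_union hB hB')
  refine ⟨fun A => sSup (m '' {B | B ⊆ A}), fun A => sSup (m '' {B | B ⊆ A}) - m A,
    ⟨fun A => ?_, hadd1⟩, ⟨fun A => ?_, fun A B hd => ?_⟩, fun A => ?_⟩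
  · rw [← h0]
    exact hle A ∅ (empty_subset A)
  · rw [sub_nonneg]
    exact hle A A subset_rfl
  · rw [hadd1 A B hd, hadd A B hd]
    ring
  · ring

namespace Frame

variable {ι Ω : Type} [PartialOrder Ω] (Fr : Frame ι Ω)

open Classical in
/-- the indicator function of a set of labellings -/
noncomputable def FA_ind (A : Set (Ω → S)) : Fr.Amb :=
  Fr.vec (Sum.elim (fun _ => 0) (fun t => if t.1 ∈ A then 1 else 0)) 1 (by
    rintro (α | t)
    · simp
    · simp only [Sum.elim_inr]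
      split_ifs <;> simp)

@[simp] theorem FA_ind_inl (A : Set (Ω → S)) (α : ι) : Fr.FA_ind A (Sum.inl α) = 0 := rfl

open Classical in
@[simp] theorem FA_ind_inr (A : Set (Ω → S)) (t : ↥Fr.L) :
    Fr.FA_ind A (Sum.inr t) = if t.1 ∈ A then 1 else 0 := rfl

theorem FA_ind_norm (A : Set (Ω → S)) : ‖Fr.FA_ind A‖ ≤ 1 := by
  classical
  refine Fr.norm_le zero_le_one ?_
  rintro (α | t)
  · simp
  · rw [FA_ind_inr]
    split_ifs <;> simp

theorem FA_ind_union (A B : Set (Ω → S)) (h : Disjoint A B) :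
    Fr.FA_ind (A ∪ B) = Fr.FA_ind A + Fr.FA_ind B := by
  classical
  ext i
  rcases i with α | t
  · change (0 : ℝ) = 0 + 0
    simp
  · change Fr.FA_ind (A ∪ B) (Sum.inr t) = Fr.FA_ind A (Sum.inr t) + Fr.FA_ind B (Sum.inr t)
    rw [FA_ind_inr, FA_ind_inr, FA_ind_inr]
    by_cases h1 : t.1 ∈ A
    · have h2 : t.1 ∉ B := fun h2 => Set.disjoint_left.1 h h1 h2
      simp [h1, h2]
    · by_cases h2 : t.1 ∈ B
      · simp [h1, h2]
      · simp [h1, h2]

theorem FA_v_eq (ω : Ω) :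
    Fr.v ω = Fr.FA_ind {t ∈ Fr.L | t ω = 1} - Fr.FA_ind {t ∈ Fr.L | t ω = 2} := by
  classical
  ext i
  rcases i with α | t
  · change (0 : ℝ) = 0 - 0
    simp
  · change Fr.v ω (Sum.inr t) = Fr.FA_ind {t ∈ Fr.L | t ω = 1} (Sum.inr t) -
      Fr.FA_ind {t ∈ Fr.L | t ω = 2} (Sum.inr t)
    rw [v_inr, FA_ind_inr, FA_ind_inr]
    have ht : t.1 ∈ Fr.L := t.2
    simp only [mem_ofPred_eq, ht, true_and]
    have hs : t.1 ω = 0 ∨ t.1 ω = 1 ∨ t.1 ω = 2 := by
      generalize t.1 ω = s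
      fin_cases s <;> simp
    rcases hs with h | h | h <;> simp [h, sg]

/-- bounded functionals at the vectors `v ω` -/
theorem fa_decomp (φ : Fr.Amb →L[ℝ] ℝ) : ∃ m1 m2 : Set (Ω → S) → ℝ, IsFA m1 ∧ IsFA m2 ∧
    ∀ ω, φ (Fr.v ω) =
      (m1 {t ∈ Fr.L | t ω = 1} - m1 {t ∈ Fr.L | t ω = 2}) -
      (m2 {t ∈ Fr.L | t ω = 1} - m2 {t ∈ Fr.L | t ω = 2}) := by
  obtain ⟨m1, m2, h1, h2, h3⟩ := fa_jordan (fun A => φ (Fr.FA_ind A)) (fun A B h => by
    rw [FA_ind_union Fr A B h, map_add]) ‖φ‖ (fun A => by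
    have := φ.le_opNorm (Fr.FA_ind A)
    rw [Real.norm_eq_abs] at this
    calc |φ (Fr.FA_ind A)| ≤ ‖φ‖ * ‖Fr.FA_ind A‖ := this
      _ ≤ ‖φ‖ * 1 := by
        gcongr
        exact Fr.FA_ind_norm A
      _ = ‖φ‖ := mul_one _)
  refine ⟨m1, m2, h1, h2, fun ω => ?_⟩
  rw [FA_v_eq, map_sub, h3, h3]
  ring

end Frame

end Pool.Agent.PIP
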