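import Pool.Agent.PIP.Prod

set_option autoImplicit false

open MeasureTheory Set Filter Topology
open scoped ENNReal

namespace Pool.Agent.PIP

/-- termwise integration of an `ℓ¹` combination of a (possibly uncountable) family of bounded
measurable functions -/
theorem integral_l1 {ι Ω₂ : Type} [MeasurableSpace Ω₂] (μ : Measure Ω₂) [IsProbabilityMeasure μ]
    (h : Ω₂ → ι → ℝ) (hm : ∀ α, Measurable (fun ω => h ω α)) (M : ℝ)
    (hM : ∀ α, ∀ᵐ ω ∂μ, |h ω α| ≤ M) (c : ι → ℝ) (hc : Summable fun α => |c α|) (E : Set Ω₂) :
    Integrable (fun ω => ∑' α, c α * h ω α) μ ∧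
    ∫ ω in E, (∑' α, c α * h ω α) ∂μ = ∑' α, c α * ∫ ω in E, h ω α ∂μ := by
  classical
  set s : Set ι := Function.support c with hs
  have hsc : s.Countable := by
    have := hc.countable_support
    have h1 : Function.support (fun α => |c α|) = s := by
      ext α
      simp [hs]
    rwa [h1] at this
  have : Countable s := hsc.to_subtype
  have hts : ∀ x : ι → ℝ, ∑' α, c α * x α = ∑' α : s, c α * x α := by
    intro x
    refine (tsum_subtype_eq_of_support_subset (f := fun α => c α * x α) (s := s) ?_).symm
    intro α hα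
    exact left_ne_zero_of_mul hα
  have hcs : Summable fun α : s => |c α| := hc.subtype s
  have hall : ∀ᵐ ω ∂μ, ∀ α : s, |h ω α| ≤ M := ae_all_iff.2 (fun α => hM α)
  have hsum : ∀ ω, (∀ α : s, |h ω α| ≤ M) → Summable (fun α : s => |c α * h ω α|) := by
    intro ω hω
    refine Summable.of_nonneg_of_le (fun α => abs_nonneg _) (fun α => ?_) (hcs.mul_right M)
    rw [abs_mul]
    exact mul_le_mul_of_nonneg_left (hω α) (abs_nonneg _)
  have hmeas : AEStronglyMeasurable (fun ω => ∑' α : s, c α * h ω α) μ := by
    refine aestronglyMeasurable_of_tendsto_ae (u := (atTop : Filter (Finset s)))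
      (f := fun t ω => ∑ α ∈ t, c α * h ω α) ?_ ?_
    · intro t
      exact (Finset.measurable_sum t (fun α _ => (hm α).const_mul _)).aestronglyMeasurable
    · filter_upwards [hall] with ω hω
      exact (hsum ω hω).of_abs.hasSum
  simp only [hts]
  have hFint : ∀ α : s, Integrable (fun ω => c α * h ω α) μ := by
    intro α
    refine Integrable.of_bound ((hm α).const_mul _).aestronglyMeasurable (|c α| * M) ?_
    filter_upwards [hM α] with ω hω
    rw [Real.norm_eq_abs, abs_mul]
    exact mul_le_mul_of_nonneg_left hω (abs_nonneg _)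
  constructor
  · refine Integrable.of_bound hmeas (∑' α : s, |c α| * M) ?_
    filter_upwards [hall] with ω hω
    have h1 := hsum ω hω
    calc ‖∑' α : s, c α * h ω α‖ ≤ ∑' α : s, ‖c α * h ω α‖ := norm_tsum_le_tsum_norm h1
      _ ≤ ∑' α : s, |c α| * M := by
        refine Summable.tsum_le_tsum (fun α => ?_) h1 (hcs.mul_right M)
        rw [Real.norm_eq_abs, abs_mul]
        exact mul_le_mul_of_nonneg_left (hω α) (abs_nonneg _)
  · have h2 := integral_tsum_of_summable_integral_norm (μ := μ.restrict E)
      (F := fun (α : s) ω => c α * h ω α) (fun α => (hFint α).restrict) ?_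
    · rw [← h2]
      refine tsum_congr fun α => ?_
      exact integral_const_mul _ _
    · refine Summable.of_nonneg_of_le (fun α => integral_nonneg fun ω => norm_nonneg _)
        (fun α => ?_) (hcs.mul_right M)
      calc ∫ ω in E, ‖c α * h ω α‖ ∂μ ≤ ∫ ω, ‖c α * h ω α‖ ∂μ :=
            setIntegral_le_integral (hFint α).norm (ae_of_all _ fun ω => norm_nonneg _)
        _ ≤ ∫ _ω, |c α| * M ∂μ := by
            refine integral_mono_ae (hFint α).norm (integrable_const _) ?_
            filter_upwards [hM α] with ω hω
            rw [Real.norm_eq_abs, abs_mul]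
            exact mul_le_mul_of_nonneg_left hω (abs_nonneg _)
        _ = |c α| * M := by simp

end Pool.Agent.PIP
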