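import Pool.Agent.PIP.Prod

set_option autoImplicit false

open MeasureTheory Set Filter Topology
open scoped ENNReal

namespace Pool.Agent.PIP

/-- the outer measure `Z ↦ inf_{A ∈ J} PS (u '' (Z \ A))` -/
noncomputable def Meas_outer {ι Ω : Type} (u : Ω → ι → S) (J : Set (Set Ω)) (h0 : ∅ ∈ J)
    (hU : ∀ A : ℕ → Set Ω, (∀ n, A n ∈ J) → (⋃ n, A n) ∈ J) : OuterMeasure Ω where
  measureOf Z := ⨅ A : J, PS ι (u '' (Z \ (A : Set Ω)))
  empty := by
    refine le_antisymm ?_ zero_le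
    refine (iInf_le _ (⟨∅, h0⟩ : J)).trans ?_
    simp
  mono := by
    intro Z Z' h
    refine iInf_mono fun A => measure_mono (image_mono ?_)
    exact sdiff_subset_sdiff_left h
  iUnion_nat := by
    intro Z _
    have : Nonempty J := ⟨⟨∅, h0⟩⟩
    refine ENNReal.le_of_forall_pos_le_add ?_
    intro ε hε _
    obtain ⟨δ, hδ, hδs⟩ := ENNReal.exists_pos_sum_of_countable' (ε := (ε : ℝ≥0∞))
      (by simpa using hε.ne') ℕ
    have hfin : ∀ n, (⨅ A : J, PS ι (u '' (Z n \ (A : Set Ω)))) ≠ ∞ := fun n =>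
      ((iInf_le _ (⟨∅, h0⟩ : J)).trans_lt (measure_lt_top _ _)).ne
    have hex : ∀ n, ∃ A : J, PS ι (u '' (Z n \ (A : Set Ω))) <
        (⨅ A : J, PS ι (u '' (Z n \ (A : Set Ω)))) + δ n := by
      intro n
      exact exists_lt_of_ciInf_lt (ENNReal.lt_add_right (hfin n) (hδ n).ne')
    choose A hA using hex
    have hAU : (⋃ n, (A n : Set Ω)) ∈ J := hU _ (fun n => (A n).2)
    calc (⨅ A : J, PS ι (u '' ((⋃ n, Z n) \ (A : Set Ω))))
        ≤ PS ι (u '' ((⋃ n, Z n) \ (⋃ n, (A n : Set Ω)))) := iInf_le _ (⟨_, hAU⟩ : J)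
      _ ≤ PS ι (⋃ n, u '' (Z n \ (A n : Set Ω))) := by
          refine measure_mono ?_
          rintro _ ⟨x, ⟨hx, hx'⟩, rfl⟩
          obtain ⟨n, hn⟩ := mem_iUnion.1 hx
          exact mem_iUnion.2 ⟨n, x, ⟨hn, fun h => hx' (mem_iUnion.2 ⟨n, h⟩)⟩, rfl⟩
      _ ≤ ∑' n, PS ι (u '' (Z n \ (A n : Set Ω))) := measure_iUnion_le _
      _ ≤ ∑' n, ((⨅ A : J, PS ι (u '' (Z n \ (A : Set Ω)))) + δ n) :=
          ENNReal.tsum_le_tsum fun n => (hA n).le
      _ = (∑' n, ⨅ A : J, PS ι (u '' (Z n \ (A : Set Ω)))) + ∑' n, δ n := ENNReal.tsum_add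
      _ ≤ (∑' n, ⨅ A : J, PS ι (u '' (Z n \ (A : Set Ω)))) + ε := by gcongr

theorem exists_measure {ι Ω : Type} (u : Ω → ι → S) (J : Set (Set Ω)) (h0 : ∅ ∈ J)
    (hU : ∀ A : ℕ → Set Ω, (∀ n, A n ∈ J) → (⋃ n, A n) ∈ J)
    (hJ : ∀ A ∈ J, ∀ B : Set (ι → S), MeasurableSet B → PS ι B ≠ 0 → ∃ ω, ω ∉ A ∧ u ω ∈ B) :
    ∃ (mΩ : MeasurableSpace Ω) (μ : Measure Ω), IsProbabilityMeasure μ ∧ μ.IsComplete ∧
      Measurable u ∧ μ.map u = PS ι ∧ ∀ A ∈ J, μ A = 0 := by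
  have : Nonempty J := ⟨⟨∅, h0⟩⟩
  set m : OuterMeasure Ω := Meas_outer u J h0 hU with hm
  have mdef : ∀ Z, m Z = ⨅ A : J, PS ι (u '' (Z \ (A : Set Ω))) := fun Z => rfl
  have hnull : ∀ Z, m Z = 0 → MeasurableSet[m.caratheodory] Z := by
    intro Z hZ
    rw [OuterMeasure.isCaratheodory_iff_le]
    intro t
    have h1 : m (t ∩ Z) = 0 := le_antisymm (hZ ▸ measure_mono inter_subset_right) zero_le
    rw [h1, zero_add]
    exact measure_mono sdiff_subset
  have hmeas : ∀ B : Set (ι → S), MeasurableSet B → MeasurableSet[m.caratheodory] (u ⁻¹' B) := by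
    intro B hB
    rw [OuterMeasure.isCaratheodory_iff_le]
    intro t
    rw [mdef t]
    refine le_iInf fun A => ?_
    rw [← measure_inter_add_sdiff (u '' (t \ (A : Set Ω))) hB]
    refine add_le_add ?_ ?_
    · refine (iInf_le _ A).trans (measure_mono ?_)
      rintro _ ⟨x, ⟨⟨hx, hxB⟩, hxA⟩, rfl⟩
      exact ⟨⟨x, ⟨hx, hxA⟩, rfl⟩, hxB⟩
    · refine (iInf_le _ A).trans (measure_mono ?_)
      rintro _ ⟨x, ⟨⟨hx, hxB⟩, hxA⟩, rfl⟩
      exact ⟨⟨x, ⟨hx, hxA⟩, rfl⟩, hxB⟩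
  have hlaw : ∀ B : Set (ι → S), MeasurableSet B → m (u ⁻¹' B) = PS ι B := by
    intro B hB
    refine le_antisymm ?_ ?_
    · rw [mdef]
      refine (iInf_le _ (⟨∅, h0⟩ : J)).trans (measure_mono ?_)
      rintro _ ⟨x, ⟨hx, _⟩, rfl⟩
      exact hx
    · rw [mdef]
      refine le_iInf fun A => ?_
      set E := toMeasurable (PS ι) (u '' (u ⁻¹' B \ (A : Set Ω))) with hE
      have hEm : MeasurableSet E := measurableSet_toMeasurable _ _
      have hE1 : PS ι E = PS ι (u '' (u ⁻¹' B \ (A : Set Ω))) := measure_toMeasurable _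
      have hz : PS ι (B \ E) = 0 := by
        by_contra hne
        obtain ⟨ω, hωA, hωB⟩ := hJ A A.2 (B \ E) (hB.diff hEm) hne
        exact hωB.2 (subset_toMeasurable _ _ ⟨ω, ⟨hωB.1, hωA⟩, rfl⟩)
      rw [← hE1]
      calc PS ι B ≤ PS ι (E ∪ B \ E) := measure_mono (by
            intro x hx
            by_cases h : x ∈ E
            · exact Or.inl h
            · exact Or.inr ⟨hx, h⟩)
        _ ≤ PS ι E + PS ι (B \ E) := measure_union_le _ _
        _ = PS ι E := by rw [hz, add_zero]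
  have hμm : ∀ Z, MeasurableSet[m.caratheodory] Z →
      (@OuterMeasure.toMeasure Ω m.caratheodory m le_rfl) Z = m Z := fun Z hZ =>
    @toMeasure_apply Ω m.caratheodory m le_rfl Z hZ
  refine ⟨m.caratheodory, @OuterMeasure.toMeasure Ω m.caratheodory m le_rfl, ?_, ?_, ?_, ?_, ?_⟩
  · refine @IsProbabilityMeasure.mk Ω m.caratheodory _ ?_
    rw [hμm _ (@MeasurableSet.univ Ω m.caratheodory), ← preimage_univ (f := u),
      hlaw _ MeasurableSet.univ]
    exact measure_univ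
  · refine @Measure.IsComplete.mk Ω m.caratheodory _ ?_
    intro Z hZ
    refine hnull Z (le_antisymm ?_ zero_le)
    rw [← hZ]
    exact @le_toMeasure_apply Ω m.caratheodory m le_rfl Z
  · exact fun B hB => hmeas B hB
  · refine @Measure.ext _ _ _ _ ?_
    intro B hB
    have hu : @Measurable Ω (ι → S) m.caratheodory _ u := fun B hB => hmeas B hB
    rw [@Measure.map_apply Ω (ι → S) m.caratheodory _ _ _ hu B hB, hμm _ (hmeas B hB), hlaw B hB]
  · intro A hA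
    have h1 : m A = 0 := by
      refine le_antisymm ?_ zero_le
      rw [mdef]
      refine (iInf_le _ (⟨A, hA⟩ : J)).trans ?_
      simp
    rw [hμm _ (hnull A h1), h1]

end Pool.Agent.PIP
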