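import Pool.Agent.PIP.Split
import Pool.Agent.PIP.Meas
import Pool.Agent.PIP.FA
import Pool.Agent.PIP.Bes
import Pool.Agent.PIP.L1

set_option autoImplicit false

open MeasureTheory Set Filter Topology
open scoped ENNReal

namespace Pool.Agent.PIP

namespace Frame

variable {ι Ω : Type} [PartialOrder Ω] (Fr : Frame ι Ω)

/-- the function with values in the subspace -/
noncomputable def fX (ω : Ω) : ↥Fr.X := ⟨Fr.f ω, Fr.f_mem ω⟩

/-- the ideal of sets covered by countably many supports of functionals -/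
def NS_J : Set (Set Ω) :=
  {A | ∃ ψ : ℕ → (Fr.Amb →L[ℝ] ℝ), A ⊆ ⋃ i, {ω | ψ i (Fr.v ω) ≠ 0}}

theorem NS_J_empty : (∅ : Set Ω) ∈ Fr.NS_J := ⟨fun _ => 0, empty_subset _⟩

theorem NS_J_iUnion (A : ℕ → Set Ω) (h : ∀ n, A n ∈ Fr.NS_J) : (⋃ n, A n) ∈ Fr.NS_J := by
  choose ψ hψ using h
  refine ⟨fun k => ψ (Nat.unpair k).1 (Nat.unpair k).2, ?_⟩
  refine iUnion_subset fun n => (hψ n).trans ?_
  refine iUnion_subset fun i => ?_
  intro ω hω
  refine mem_iUnion.2 ⟨Nat.pair n i, ?_⟩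
  simpa using hω

theorem NS_J_avoid (hFO : Fr.FO) (A : Set Ω) (hA : A ∈ Fr.NS_J) (B : Set (ι → S))
    (hB : MeasurableSet B) (hB0 : PS ι B ≠ 0) : ∃ ω, ω ∉ A ∧ Fr.u ω ∈ B := by
  obtain ⟨ψ, hψ⟩ := hA
  choose m1 m2 h1 h2 hm using fun i => Fr.fa_decomp (ψ i)
  obtain ⟨ω, hω, hu⟩ := hFO (fun k => if k % 2 = 0 then m1 (k / 2) else m2 (k / 2))
    (by intro k; split_ifs; exacts [h1 _, h2 _]) B hB hB0
  refine ⟨ω, fun hωA => ?_, hu⟩
  obtain ⟨i, hi⟩ := mem_iUnion.1 (hψ hωA)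
  apply hi
  rw [hm i ω]
  have e1 := hω (2 * i)
  have e2 := hω (2 * i + 1)
  have a1 : 2 * i % 2 = 0 := by omega
  have a2 : 2 * i / 2 = i := by omega
  have a3 : ¬ ((2 * i + 1) % 2 = 0) := by omega
  have a4 : (2 * i + 1) / 2 = i := by omega
  simp only [a1, a2, a3, a4, if_true, if_false] at e1 e2
  rw [e1, e2]
  ring

/-- evaluation at a coordinate -/
noncomputable def NS_ev (i : ι ⊕ ↥Fr.L) : Fr.Amb →L[ℝ] ℝ :=
  LinearMap.mkContinuous
    { toFun := fun x => x i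
      map_add' := fun _ _ => rfl
      map_smul' := fun _ _ => rfl } 1 (by
    intro x
    rw [one_mul]
    exact Fr.norm_apply_le x i)

theorem NS_ev_apply (i : ι ⊕ ↥Fr.L) (x : Fr.Amb) : Fr.NS_ev i x = x i := rfl

theorem NS_sg_le (s : S) : |sg s| ≤ 1 := by fin_cases s <;> simp [sg]

theorem NS_int {mΩ : MeasurableSpace Ω} (μ : Measure Ω) [IsProbabilityMeasure μ]
    (hu : Measurable Fr.u) (hnull : ∀ A ∈ Fr.NS_J, μ A = 0) (φ : Fr.Amb →L[ℝ] ℝ) :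
    Integrable (fun ω => φ (Fr.f ω)) μ ∧
    ∀ E : Set Ω, ∫ ω in E, φ (Fr.f ω) ∂μ = ∑' α, φ (Fr.e α) * ∫ ω in E, sg (Fr.u ω α) ∂μ := by
  obtain ⟨hs, ψ, hψ⟩ := Fr.split φ
  have hm : ∀ α, Measurable (fun ω => sg (Fr.u ω α)) := fun α =>
    (measurable_of_finite sg).comp ((measurable_pi_apply α).comp hu)
  have hL := fun E => integral_l1 μ (fun ω α => sg (Fr.u ω α)) hm 1
    (fun α => Eventually.of_forall fun ω => NS_sg_le _) (fun α => φ (Fr.e α)) hs E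
  have h0 : μ {ω | ψ (Fr.v ω) ≠ 0} = 0 := by
    refine hnull _ ⟨fun _ => ψ, ?_⟩
    intro ω hω
    exact mem_iUnion.2 ⟨0, hω⟩
  have hae : (fun ω => φ (Fr.f ω)) =ᵐ[μ] fun ω => ∑' α, φ (Fr.e α) * sg (Fr.u ω α) := by
    have h1 : ∀ᵐ ω ∂μ, ψ (Fr.v ω) = 0 := by
      rw [ae_iff]
      exact h0
    filter_upwards [h1] with ω hω
    have h2 := hψ (Fr.f ω) (Fr.f_mem ω)
    have h3 : Fr.P ⊤ (Fr.f ω) = Fr.v ω := rfl
    rw [h3, hω, add_zero] at h2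
    rw [h2]
    rfl
  refine ⟨(hL univ).1.congr hae.symm, fun E => ?_⟩
  rw [← (hL E).2]
  exact integral_congr_ae (ae_restrict_of_ae hae)

theorem NS_ext (φ : ↥Fr.X →L[ℝ] ℝ) : ∃ Φ : Fr.Amb →L[ℝ] ℝ, ∀ x : ↥Fr.X, Φ x = φ x := by
  obtain ⟨g, hg, _⟩ := exists_extension_norm_eq Fr.X φ
  exact ⟨g, hg⟩

theorem nonsep [Uncountable ι] (hFO : Fr.FO) :
    ∃ (mΩ : MeasurableSpace Ω) (μ : Measure Ω), IsProbabilityMeasure μ ∧ μ.IsComplete ∧
      (∀ φ : ↥Fr.X →L[ℝ] ℝ, Integrable (fun ω => φ (Fr.fX ω)) μ) ∧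
      (∀ A : Set Ω, MeasurableSet A →
        ∃ x : ↥Fr.X, ∀ φ : ↥Fr.X →L[ℝ] ℝ, φ x = ∫ ω in A, φ (Fr.fX ω) ∂μ) ∧
      ¬ TopologicalSpace.IsSeparable
          {x : ↥Fr.X | ∃ A : Set Ω, MeasurableSet A ∧
            ∀ φ : ↥Fr.X →L[ℝ] ℝ, φ x = ∫ ω in A, φ (Fr.fX ω) ∂μ} := by
  classical
  obtain ⟨mΩ, μ, hP, hc, hu, hlaw, hnull⟩ := exists_measure Fr.u Fr.NS_J Fr.NS_J_empty
    Fr.NS_J_iUnion (Fr.NS_J_avoid hFO)
  have hP' : IsProbabilityMeasure μ := hP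
  have key := fun φ => Fr.NS_int μ hu hnull φ
  have hpet : ∀ A : Set Ω, MeasurableSet A →
        ∃ x : ↥Fr.X, ∀ φ : ↥Fr.X →L[ℝ] ℝ, φ x = ∫ ω in A, φ (Fr.fX ω) ∂μ := by
    intro A hA
    obtain ⟨x, hx, hφx⟩ := Fr.exists_c0 (fun α => ∫ ω in A, sg (Fr.u ω α) ∂μ)
      (fun δ hδ => bessel μ Fr.u hu hlaw A hA δ hδ)
    refine ⟨⟨x, hx⟩, fun φ => ?_⟩
    obtain ⟨Φ, hΦ⟩ := Fr.NS_ext φ
    have h1 : φ ⟨x, hx⟩ = Φ x := (hΦ ⟨x, hx⟩).symm
    have h2 : ∀ ω, φ (Fr.fX ω) = Φ (Fr.f ω) := fun ω => (hΦ (Fr.fX ω)).symm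
    simp only [h1, h2]
    rw [hφx, (key Φ).2 A]
  refine ⟨mΩ, μ, hP, hc, ?_, hpet, ?_⟩
  · intro φ
    obtain ⟨Φ, hΦ⟩ := Fr.NS_ext φ
    have h2 : ∀ ω, φ (Fr.fX ω) = Φ (Fr.f ω) := fun ω => (hΦ (Fr.fX ω)).symm
    simp only [h2]
    exact (key Φ).1
  · rintro ⟨c, hcc, hsub⟩
    have hA : ∀ α : ι, MeasurableSet {ω | Fr.u ω α = 1} := fun α =>
      ((measurable_pi_apply α).comp hu) (measurableSet_singleton (1 : S))
    choose x hx using fun α => hpet _ (hA α)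
    have hco : ∀ α β : ι, (x α : Fr.Amb) (Sum.inl β) = if β = α then 1 / 4 else 0 := by
      intro α β
      have h1 := hx α ((Fr.NS_ev (Sum.inl β)).comp Fr.X.subtypeL)
      rw [← int_pos μ Fr.u hu hlaw α β]
      exact h1
    have hcl : ∀ α, x α ∈ closure c := fun α => hsub ⟨_, hA α, hx α⟩
    have hd : ∀ α, ∃ y ∈ c, dist (x α) y < 1 / 8 := fun α =>
      Metric.mem_closure_iff.1 (hcl α) (1 / 8) (by norm_num)
    choose y hyc hy using hd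
    have hinj : Function.Injective y := by
      intro α β hab
      by_contra hne
      have h1 : dist (x α) (x β) < 1 / 4 := by
        have := dist_triangle_right (x α) (x β) (y α)
        have h3 := hy α
        have h4 := hy β
        rw [← hab] at h4
        linarith
      have h2 : (1 : ℝ) / 4 ≤ dist (x α) (x β) := by
        rw [dist_eq_norm]
        have h5 := Fr.norm_apply_le ((x α : Fr.Amb) - (x β : Fr.Amb)) (Sum.inl α)
        have h6 : ((x α : Fr.Amb) - (x β : Fr.Amb)) (Sum.inl α) = 1 / 4 := by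
          have : ((x α : Fr.Amb) - (x β : Fr.Amb)) (Sum.inl α) =
            (x α : Fr.Amb) (Sum.inl α) - (x β : Fr.Amb) (Sum.inl α) := rfl
          rw [this, hco, hco, if_pos rfl, if_neg hne, sub_zero]
        rw [h6] at h5
        have h7 : |(1 / 4 : ℝ)| = 1 / 4 := abs_of_pos (by norm_num)
        rw [h7] at h5
        exact h5
      linarith
    have hcount : Countable ι := by
      have : Countable ↥c := hcc.to_subtype
      exact Function.Injective.countable (f := fun α => (⟨y α, hyc α⟩ : ↥c))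
        (fun α β h => hinj (congrArg Subtype.val h))
    exact not_countable hcount

end Frame

end Pool.Agent.PIP
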