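import Pool.Agent.PIP.K4

set_option autoImplicit false

open MeasureTheory Set Filter Topology
open scoped ENNReal

namespace Pool.Agent.PIP

namespace Frame

variable {ι Ω : Type} [PartialOrder Ω] (Fr : Frame ι Ω)

theorem Split_e_inl_self (α : ι) : Fr.e α (Sum.inl α) = 1 := by
  rw [e_apply, if_pos rfl]

theorem Split_e_inl_ne {α β : ι} (h : α ≠ β) : Fr.e α (Sum.inl β) = 0 := by
  rw [e_apply, if_neg]
  intro h'
  exact h (Sum.inl.inj h').symm

theorem Split_e_inr (α : ι) (t : ↥Fr.L) : Fr.e α (Sum.inr t) = 0 := by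
  rw [e_apply, if_neg (by simp)]

/-- evaluation of a finite combination of unit vectors -/
theorem Split_sum_apply (s : Finset ι) (c : ι → ℝ) (i : ι ⊕ ↥Fr.L) :
    (∑ α ∈ s, c α • Fr.e α) i = ∑ α ∈ s, c α * Fr.e α i := by
  classical
  induction s using Finset.induction_on with
  | empty => simp
  | insert a s ha ih =>
    rw [Finset.sum_insert ha, Finset.sum_insert ha, ← ih]
    rfl

theorem Split_norm_sum_le (s : Finset ι) (c : ι → ℝ) (C : ℝ) (hC : 0 ≤ C)
    (h : ∀ α ∈ s, |c α| ≤ C) : ‖∑ α ∈ s, c α • Fr.e α‖ ≤ C := by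
  classical
  refine Fr.norm_le hC ?_
  intro i
  rw [Fr.Split_sum_apply]
  rcases i with β | t
  · by_cases hβ : β ∈ s
    · rw [Finset.sum_eq_single_of_mem β hβ (by
        intro b _ hb
        rw [Fr.Split_e_inl_ne hb, mul_zero]), Fr.Split_e_inl_self, mul_one]
      exact h β hβ
    · rw [Finset.sum_eq_zero (by
        intro b hb
        have hne : b ≠ β := fun hh => hβ (hh ▸ hb)
        rw [Fr.Split_e_inl_ne hne, mul_zero]), abs_zero]
      exact hC
  · rw [Finset.sum_eq_zero (by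
      intro b _
      rw [Fr.Split_e_inr, mul_zero]), abs_zero]
    exact hC

theorem Split_summable (φ : Fr.Amb →L[ℝ] ℝ) : Summable (fun α => |φ (Fr.e α)|) := by
  classical
  refine summable_of_sum_le (c := ‖φ‖) (fun α => abs_nonneg _) ?_
  intro s
  have h1 : φ (∑ α ∈ s, (SignType.sign (φ (Fr.e α)) : ℝ) • Fr.e α) = ∑ α ∈ s, |φ (Fr.e α)| := by
    rw [map_sum]
    refine Finset.sum_congr rfl ?_
    intro α _
    rw [map_smul, smul_eq_mul, sign_mul_self]
  have h2 : ‖∑ α ∈ s, (SignType.sign (φ (Fr.e α)) : ℝ) • Fr.e α‖ ≤ 1 := by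
    refine Fr.Split_norm_sum_le s _ 1 zero_le_one ?_
    intro α _
    rcases lt_trichotomy (φ (Fr.e α)) 0 with h | h | h
    · simp [sign_neg h]
    · simp [h]
    · simp [sign_pos h]
  calc ∑ α ∈ s, |φ (Fr.e α)| = φ (∑ α ∈ s, (SignType.sign (φ (Fr.e α)) : ℝ) • Fr.e α) := h1.symm
    _ ≤ ‖φ (∑ α ∈ s, (SignType.sign (φ (Fr.e α)) : ℝ) • Fr.e α)‖ := le_abs_self _
    _ ≤ ‖φ‖ * ‖∑ α ∈ s, (SignType.sign (φ (Fr.e α)) : ℝ) • Fr.e α‖ := φ.le_opNorm _
    _ ≤ ‖φ‖ * 1 := mul_le_mul_of_nonneg_left h2 (norm_nonneg _)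
    _ = ‖φ‖ := mul_one _

theorem Split_summable_apply (c : ι → ℝ) (hc : Summable (fun α => |c α|)) (x : Fr.Amb) :
    Summable (fun α => c α * x (Sum.inl α)) := by
  refine Summable.of_norm_bounded (hc.mul_right ‖x‖) ?_
  intro α
  rw [norm_mul]
  exact mul_le_mul_of_nonneg_left (Fr.norm_apply_le x _) (norm_nonneg _)

/-- the functional `x ↦ ∑' c α x α` -/
noncomputable def Split_fun (c : ι → ℝ) (hc : Summable (fun α => |c α|)) : Fr.Amb →L[ℝ] ℝ :=
  LinearMap.mkContinuous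
    { toFun := fun x => ∑' α, c α * x (Sum.inl α)
      map_add' := by
        intro x y
        rw [← (Fr.Split_summable_apply c hc x).tsum_add (Fr.Split_summable_apply c hc y)]
        refine tsum_congr ?_
        intro α
        change c α * (x (Sum.inl α) + y (Sum.inl α)) = _
        ring
      map_smul' := by
        intro r x
        rw [RingHom.id_apply, smul_eq_mul, ← tsum_mul_left]
        refine tsum_congr ?_
        intro α
        change c α * (r * x (Sum.inl α)) = _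
        ring } (∑' α, |c α|) (by
      intro x
      change ‖∑' α, c α * x (Sum.inl α)‖ ≤ _
      rw [← tsum_mul_right]
      refine tsum_of_norm_bounded (hc.mul_right ‖x‖).hasSum ?_
      intro α
      rw [norm_mul]
      exact mul_le_mul_of_nonneg_left (Fr.norm_apply_le x _) (norm_nonneg _))

theorem Split_fun_apply (c : ι → ℝ) (hc : Summable (fun α => |c α|)) (x : Fr.Amb) :
    Fr.Split_fun c hc x = ∑' α, c α * x (Sum.inl α) := rfl

theorem split (φ : Fr.Amb →L[ℝ] ℝ) : Summable (fun α => |φ (Fr.e α)|) ∧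
    ∃ ψ : Fr.Amb →L[ℝ] ℝ, ∀ x ∈ Fr.X,
      φ x = (∑' α, φ (Fr.e α) * x (Sum.inl α)) + ψ (Fr.P ⊤ x) := by
  have hs := Fr.Split_summable φ
  refine ⟨hs, ?_⟩
  obtain ⟨ψ, hψ⟩ := Fr.factor (φ - Fr.Split_fun _ hs) (by
    intro β
    rw [sub_apply, Fr.Split_fun_apply, tsum_eq_single β (by
      intro α hα
      rw [Fr.Split_e_inl_ne hα.symm, mul_zero]), Fr.Split_e_inl_self, mul_one, sub_self])
  refine ⟨ψ, ?_⟩
  intro x hx
  rw [← hψ x hx, sub_apply, Fr.Split_fun_apply]
  ring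

theorem Split_summable_c0 (F : ι → ℝ) (hF : ∀ δ > 0, {α | δ < |F α|}.Finite) :
    Summable (fun α => F α • Fr.e α) := by
  classical
  rw [summable_iff_vanishing_norm]
  intro ε hε
  refine ⟨(hF (ε / 2) (half_pos hε)).toFinset, ?_⟩
  intro t ht
  refine lt_of_le_of_lt (Fr.Split_norm_sum_le t F (ε / 2) (half_pos hε).le ?_) (half_lt_self hε)
  intro α hα
  by_contra hcon
  exact Finset.disjoint_left.1 ht hα ((Set.Finite.mem_toFinset _).2 (not_le.1 hcon))

theorem exists_c0 (F : ι → ℝ) (hF : ∀ δ > 0, {α | δ < |F α|}.Finite) :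
    ∃ x ∈ Fr.X, ∀ φ : Fr.Amb →L[ℝ] ℝ, φ x = ∑' α, φ (Fr.e α) * F α := by
  have hs := (Fr.Split_summable_c0 F hF).hasSum
  refine ⟨∑' α, F α • Fr.e α, ?_, ?_⟩
  · have hcl : IsClosed (Fr.X : Set Fr.Amb) := Submodule.isClosed_topologicalClosure _
    refine hcl.mem_of_tendsto hs (Filter.Eventually.of_forall ?_)
    intro s
    exact Submodule.sum_mem _ (fun α _ => Submodule.smul_mem _ _ (Fr.e_mem α))
  · intro φ
    have h1 := (hs.mapL φ).tsum_eq
    rw [← h1]
    refine tsum_congr ?_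
    intro α
    rw [map_smul, smul_eq_mul, mul_comm]

end Frame

end Pool.Agent.PIP
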