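import Pool.Agent.PIP.C2
import Pool.Agent.PIP.C5
import Pool.Agent.PIP.Bo
import Pool.Agent.PIP.Split
import Pool.Agent.PIP.L1

set_option autoImplicit false

open MeasureTheory Set Filter Topology
open scoped ENNReal

namespace Pool.Agent.PIP

/-- the Pettis integrability property, for functions on complete probability spaces which carry no
total diffuse distribution -/
def PIPprop (X : Type) [NormedAddCommGroup X] [NormedSpace ℝ X] : Prop :=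
  ∀ (Ω : Type) [MeasurableSpace Ω] (μ : Measure Ω),
      IsProbabilityMeasure μ → μ.IsComplete → NoTotal μ → ∀ g : Ω → X,
        (∀ φ : X →L[ℝ] ℝ, Measurable (fun ω => φ (g ω))) →
        (∃ M : ℝ, ∀ φ : X →L[ℝ] ℝ, ∀ᵐ ω ∂μ, |φ (g ω)| ≤ M * ‖φ‖) →
        ((∀ φ : X →L[ℝ] ℝ, Integrable (fun ω => φ (g ω)) μ) ∧
          ∀ A : Set Ω, MeasurableSet A →
            ∃ x : X, ∀ φ : X →L[ℝ] ℝ, φ x = ∫ ω in A, φ (g ω) ∂μ)

namespace Frame

variable {ι Ω : Type} [PartialOrder Ω] (Fr : Frame ι Ω)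

/-- coordinate functionals -/
noncomputable def PipX_ev (i : ι ⊕ ↥Fr.L) : Fr.Amb →L[ℝ] ℝ :=
  LinearMap.mkContinuous
    { toFun := fun x => x i
      map_add' := fun _ _ => rfl
      map_smul' := fun _ _ => rfl } 1 (by
      intro x
      rw [one_mul]
      exact Fr.norm_apply_le x i)

theorem PipX_ev_apply (i : ι ⊕ ↥Fr.L) (x : Fr.Amb) : Fr.PipX_ev i x = x i := rfl

theorem PipX_ev_norm (i : ι ⊕ ↥Fr.L) : ‖Fr.PipX_ev i‖ ≤ 1 :=
  LinearMap.mkContinuous_norm_le _ (by norm_num) _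

/-- the closed span of the `v ω`, `ω ∈ A` -/
noncomputable def PipX_V (A : LowerSet Ω) : Submodule ℝ Fr.Amb :=
  (Submodule.span ℝ (Fr.v '' (A : Set Ω))).topologicalClosure

theorem PipX_P_mem (A : LowerSet Ω) (x : Fr.Amb) (hx : x ∈ Fr.X) : Fr.P A x ∈ Fr.PipX_V A := by
  have h1 : ∀ y ∈ Submodule.span ℝ (range Fr.e ∪ range Fr.f), Fr.P A y ∈
      Submodule.span ℝ (Fr.v '' (A : Set Ω)) := by
    intro y hy
    induction hy using Submodule.span_induction with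
    | mem y hy =>
      rcases hy with ⟨α, rfl⟩ | ⟨ω, rfl⟩
      · rw [P_e]; exact Submodule.zero_mem _
      · classical
        rw [P_f]
        split_ifs with h
        · exact Submodule.subset_span ⟨ω, h, rfl⟩
        · exact Submodule.zero_mem _
    | zero => rw [map_zero]; exact Submodule.zero_mem _
    | add a b _ _ ha hb => rw [map_add]; exact Submodule.add_mem _ ha hb
    | smul c a _ ha => rw [map_smul]; exact Submodule.smul_mem _ _ ha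
  have h2 : x ∈ closure (Submodule.span ℝ (range Fr.e ∪ range Fr.f) : Set Fr.Amb) := hx
  have h3 : MapsTo (Fr.P A) (Submodule.span ℝ (range Fr.e ∪ range Fr.f) : Set Fr.Amb)
      (Submodule.span ℝ (Fr.v '' (A : Set Ω)) : Set Fr.Amb) := h1
  exact h3.closure (Fr.P A).continuous h2

theorem PipX_V_sep (A : LowerSet Ω) (hA : (A : Set Ω).Countable) :
    TopologicalSpace.IsSeparable (Fr.PipX_V A : Set Fr.Amb) := by
  have h1 : TopologicalSpace.IsSeparable (Fr.v '' (A : Set Ω)) := (hA.image _).isSeparable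
  have h2 := (h1.span (R := ℝ)).closure
  exact h2

theorem PipX_V_le (A : LowerSet Ω) : Fr.PipX_V A ≤
    (Submodule.span ℝ (range Fr.v)).topologicalClosure :=
  Submodule.topologicalClosure_mono (Submodule.span_mono (image_subset_range _ _))

theorem PipX_aux {Ω₂ : Type} [MeasurableSpace Ω₂] (μ : Measure Ω₂) [IsProbabilityMeasure μ]
    (hμ : NoTotal μ) (G : Ω₂ → Fr.Amb) (hGX : ∀ ω, G ω ∈ Fr.X)
    (hG : ∀ φ : Fr.Amb →L[ℝ] ℝ, Measurable (fun ω => φ (G ω))) (M : ℝ) (hM0 : 0 ≤ M)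
    (hM : ∀ φ : Fr.Amb →L[ℝ] ℝ, ∀ᵐ ω ∂μ, |φ (G ω)| ≤ M * ‖φ‖)
    (E : Set Ω₂) (hE : MeasurableSet E) :
    ∃ x ∈ Fr.X, ∀ φ : Fr.Amb →L[ℝ] ℝ, φ x = ∫ ω in E, φ (G ω) ∂μ := by
  obtain ⟨A0, hA0, hess⟩ := Fr.essential μ hμ G hGX hG
  have hint : ∀ φ : Fr.Amb →L[ℝ] ℝ, Integrable (fun ω => φ (G ω)) μ := by
    intro φ
    refine Integrable.of_bound (hG φ).aestronglyMeasurable (M * ‖φ‖) ?_
    simpa [Real.norm_eq_abs] using hM φ
  -- the weak integral of `P A0 G`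
  obtain ⟨w, hwV, hw⟩ := pettis_separable μ (Fr.PipX_V A0) (Submodule.isClosed_topologicalClosure _)
    (Fr.PipX_V_sep A0 hA0) (fun ω => Fr.P A0 (G ω)) (fun ω => Fr.PipX_P_mem A0 _ (hGX ω))
    (fun φ => hG (φ.comp (Fr.P A0))) (M * ‖Fr.P A0‖) (by
      intro φ
      filter_upwards [hM (φ.comp (Fr.P A0))] with ω hω
      calc |φ (Fr.P A0 (G ω))| ≤ M * ‖φ.comp (Fr.P A0)‖ := hω
        _ ≤ M * (‖φ‖ * ‖Fr.P A0‖) :=
            mul_le_mul_of_nonneg_left (ContinuousLinearMap.opNorm_comp_le _ _) hM0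
        _ = M * ‖Fr.P A0‖ * ‖φ‖ := by ring) E hE
  obtain ⟨x0, hx0X, hx0⟩ := Fr.lift_P w (Fr.PipX_V_le A0 hwV)
  have hPtop : ∀ ψ : Fr.Amb →L[ℝ] ℝ, ∫ ω in E, ψ (Fr.P ⊤ (G ω)) ∂μ = ψ (Fr.P ⊤ x0) := by
    intro ψ
    rw [hx0, hw ψ]
    exact integral_congr_ae (ae_restrict_of_ae (hess ψ))
  have h0 : ∀ φ : Fr.Amb →L[ℝ] ℝ, (∀ α, φ (Fr.e α) = 0) → ∫ ω in E, φ (G ω) ∂μ = φ x0 := by
    intro φ hφ
    obtain ⟨ψ, hψ⟩ := Fr.factor φ hφ
    rw [hψ x0 hx0X, ← hPtop ψ]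
    congr 1
    funext ω
    exact hψ _ (hGX ω)
  have hfin := Fr.c0_part μ G hG M hM E hE x0 h0
  obtain ⟨x1, hx1X, hx1⟩ := Fr.exists_c0
    (fun α => (∫ ω in E, G ω (Sum.inl α) ∂μ) - x0 (Sum.inl α)) (fun δ hδ => hfin δ hδ)
  refine ⟨x0 + x1, Fr.X.add_mem hx0X hx1X, ?_⟩
  intro φ
  obtain ⟨hsum, ψ, hψ⟩ := Fr.split φ
  have hmc : ∀ α, Measurable (fun ω => G ω (Sum.inl α)) := fun α => hG (Fr.PipX_ev (Sum.inl α))
  have hbc : ∀ α, ∀ᵐ ω ∂μ, |G ω (Sum.inl α)| ≤ M := by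
    intro α
    filter_upwards [hM (Fr.PipX_ev (Sum.inl α))] with ω hω
    calc |G ω (Sum.inl α)| ≤ M * ‖Fr.PipX_ev (Sum.inl α)‖ := hω
      _ ≤ M * 1 := mul_le_mul_of_nonneg_left (Fr.PipX_ev_norm _) hM0
      _ = M := mul_one M
  obtain ⟨hI1, hI2⟩ := integral_l1 μ (fun ω α => G ω (Sum.inl α)) hmc M hbc
    (fun α => φ (Fr.e α)) hsum E
  have hIb : ∀ α, |∫ ω in E, G ω (Sum.inl α) ∂μ| ≤ M := by
    intro α
    have h1 := norm_setIntegral_le_of_norm_le_const_ae (μ := μ) (s := E) (C := M)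
      (f := fun ω => G ω (Sum.inl α)) (measure_lt_top μ E)
      ((ae_restrict_of_ae (hbc α)))
    rw [Real.norm_eq_abs] at h1
    refine h1.trans ?_
    calc M * μ.real E ≤ M * 1 := mul_le_mul_of_nonneg_left measureReal_le_one hM0
      _ = M := mul_one M
  -- summability
  have hs1 : Summable (fun α => φ (Fr.e α) * ∫ ω in E, G ω (Sum.inl α) ∂μ) := by
    refine Summable.of_norm_bounded (g := fun α => |φ (Fr.e α)| * M) (hsum.mul_right M) ?_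
    intro α
    rw [Real.norm_eq_abs, abs_mul]
    exact mul_le_mul_of_nonneg_left (hIb α) (abs_nonneg _)
  have hs2 : Summable (fun α => φ (Fr.e α) * x0 (Sum.inl α)) := by
    refine Summable.of_norm_bounded (g := fun α => |φ (Fr.e α)| * ‖x0‖) (hsum.mul_right _) ?_
    intro α
    rw [Real.norm_eq_abs, abs_mul]
    exact mul_le_mul_of_nonneg_left (Fr.norm_apply_le x0 _) (abs_nonneg _)
  have e1 : φ (x0 + x1) = (∑' α, φ (Fr.e α) * ∫ ω in E, G ω (Sum.inl α) ∂μ)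
      + ψ (Fr.P ⊤ x0) := by
    rw [map_add, hx1 φ, hψ x0 hx0X]
    have : (fun α => φ (Fr.e α) * ((∫ ω in E, G ω (Sum.inl α) ∂μ) - x0 (Sum.inl α))) =
        fun α => φ (Fr.e α) * (∫ ω in E, G ω (Sum.inl α) ∂μ) - φ (Fr.e α) * x0 (Sum.inl α) := by
      funext α; ring
    rw [this, hs1.tsum_sub hs2]
    ring
  have e2 : ∫ ω in E, φ (G ω) ∂μ = (∫ ω in E, (∑' α, φ (Fr.e α) * G ω (Sum.inl α)) ∂μ)
      + ∫ ω in E, ψ (Fr.P ⊤ (G ω)) ∂μ := by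
    have e3 : ∫ ω in E, ((∑' α, φ (Fr.e α) * G ω (Sum.inl α)) + ψ (Fr.P ⊤ (G ω))) ∂μ =
        (∫ ω in E, (∑' α, φ (Fr.e α) * G ω (Sum.inl α)) ∂μ) + ∫ ω in E, ψ (Fr.P ⊤ (G ω)) ∂μ :=
      integral_add hI1.integrableOn (hint (ψ.comp (Fr.P ⊤))).integrableOn
    rw [← e3]
    congr 1
    funext ω
    exact hψ _ (hGX ω)
  rw [e1, e2, hPtop ψ, hI2]

theorem pip : PIPprop ↥Fr.X := by
  intro Ω₂ _ μ hμ _ hμN g hg hM
  obtain ⟨M, hM⟩ := hM
  haveI := hμ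
  refine ⟨?_, ?_⟩
  · intro φ
    refine Integrable.of_bound (hg φ).aestronglyMeasurable (M * ‖φ‖) ?_
    simpa [Real.norm_eq_abs] using hM φ
  · intro E hE
    have hG : ∀ φ : Fr.Amb →L[ℝ] ℝ, Measurable (fun ω => φ ((g ω : Fr.Amb))) :=
      fun φ => hg (φ.comp Fr.X.subtypeL)
    have hM' : ∀ φ : Fr.Amb →L[ℝ] ℝ, ∀ᵐ ω ∂μ, |φ ((g ω : Fr.Amb))| ≤ |M| * ‖φ‖ := by
      intro φ
      filter_upwards [hM (φ.comp Fr.X.subtypeL)] with ω hω
      have h1 : ‖φ.comp Fr.X.subtypeL‖ ≤ ‖φ‖ := by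
        calc ‖φ.comp Fr.X.subtypeL‖ ≤ ‖φ‖ * ‖Fr.X.subtypeL‖ :=
              ContinuousLinearMap.opNorm_comp_le _ _
          _ ≤ ‖φ‖ * 1 := mul_le_mul_of_nonneg_left (Submodule.norm_subtypeL_le _) (norm_nonneg _)
          _ = ‖φ‖ := mul_one _
      calc |φ ((g ω : Fr.Amb))| ≤ M * ‖φ.comp Fr.X.subtypeL‖ := hω
        _ ≤ |M| * ‖φ.comp Fr.X.subtypeL‖ :=
            mul_le_mul_of_nonneg_right (le_abs_self M) (ContinuousLinearMap.opNorm_nonneg _)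
        _ ≤ |M| * ‖φ‖ := mul_le_mul_of_nonneg_left h1 (abs_nonneg _)
    obtain ⟨x, hx, hx2⟩ := Fr.PipX_aux μ hμN (fun ω => (g ω : Fr.Amb)) (fun ω => (g ω).2) hG |M|
      (abs_nonneg M) hM' E hE
    refine ⟨⟨x, hx⟩, ?_⟩
    intro φ
    obtain ⟨φ', hφ', -⟩ := exists_extension_norm_eq Fr.X φ
    rw [← hφ' ⟨x, hx⟩]
    change φ' x = _
    rw [hx2 φ']
    congr 1
    funext ω
    exact hφ' (g ω)

end Frame

end Pool.Agent.PIP
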