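import Pool.Agent.PIP.Om
import Pool.Agent.PIP.NS
import Pool.Agent.PIP.PipX

set_option autoImplicit false

open MeasureTheory Set Filter Topology
open scoped ENNReal

namespace Pool.Agent.PIP

theorem final :
    ∃ (X : Type) (_ : NormedAddCommGroup X) (_ : NormedSpace ℝ X) (_ : CompleteSpace X),
      PIPprop X ∧
      ∃ (Ω : Type) (_ : MeasurableSpace Ω) (μ : Measure Ω) (f : Ω → X),
        IsProbabilityMeasure μ ∧ μ.IsComplete ∧
        (∀ φ : X →L[ℝ] ℝ, Integrable (fun ω => φ (f ω)) μ) ∧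
        (∀ A : Set Ω, MeasurableSet A →
            ∃ x : X, ∀ φ : X →L[ℝ] ℝ, φ x = ∫ ω in A, φ (f ω) ∂μ) ∧
        ¬ TopologicalSpace.IsSeparable
          {x : X | ∃ A : Set Ω, MeasurableSet A ∧
            ∀ φ : X →L[ℝ] ℝ, φ x = ∫ ω in A, φ (f ω) ∂μ} := by
  obtain ⟨Ω, _, Fr, hFO⟩ := exists_frame
  have h : CompleteSpace ↥Fr.X := by
    unfold Frame.X
    infer_instance
  obtain ⟨mΩ, μ, h1, h2, h3, h4, h5⟩ := Fr.nonsep hFO
  exact ⟨↥Fr.X, _, _, h, Fr.pip, Ω, mΩ, μ, Fr.fX, h1, h2, h3, h4, h5⟩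

end Pool.Agent.PIP
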