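import Pool.Agent.PIP.Prod

set_option autoImplicit false

open MeasureTheory Set Filter Topology
open scoped ENNReal

namespace Pool.Agent.PIP

open Classical in
/-- a frame: a tree `Ω` of countable well-ordered branches with real labels, a set `L` of
labellings of `Ω` by letters which is closed under restriction to lower sets and contains the
ultrafilter limits of the columns of `u`. -/
structure Frame (ι Ω : Type) [PartialOrder Ω] where
  lbl : Ω → ℝ
  lbl_lt : ∀ a b, a < b → lbl a < lbl b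
  tree : ∀ a b c : Ω, a ≤ c → b ≤ c → a ≤ b ∨ b ≤ a
  wf : ∀ (c : Ω) (A : Set Ω), (∀ a ∈ A, a ≤ c) → A.Nonempty → ∃ a ∈ A, ∀ b ∈ A, a ≤ b
  cnt : ∀ c : Ω, {a | a ≤ c}.Countable
  L : Set (Ω → S)
  zero : (fun _ => 0) ∈ L
  low : ∀ t ∈ L, ∀ A : LowerSet Ω, (fun ω => if ω ∈ A then t ω else 0) ∈ L
  pt : ∀ ω, ∃ t ∈ L, t ω = 1 ∧ ∀ ω', t ω' ≠ 0 → ω' ≤ ω
  u : Ω → ι → S
  lim : ∀ (U : Ultrafilter ι), (U : Filter ι) ≤ cofinite → ∀ t : Ω → S,
    (∀ ω, ∀ᶠ α in (U : Filter ι), u ω α = t ω) → t ∈ L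
  inj : ∃ j : Ω → ℝ, Function.Injective j

namespace Frame

variable {ι Ω : Type} [PartialOrder Ω] (Fr : Frame ι Ω)

/-- the ambient space of bounded functions -/
abbrev Amb : Type := lp (fun _ : ι ⊕ ↥Fr.L => ℝ) ∞

/-- bounded functions -/
def vec (x : ι ⊕ ↥Fr.L → ℝ) (C : ℝ) (h : ∀ i, |x i| ≤ C) : Fr.Amb :=
  ⟨x, memℓp_infty ⟨C, by rintro _ ⟨i, rfl⟩; exact h i⟩⟩

open Classical in
/-- unit vectors -/
noncomputable def e (α : ι) : Fr.Amb :=
  Fr.vec (fun i => if i = Sum.inl α then 1 else 0) 1 (by intro i; split_ifs <;> simp)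

/-- the function -/
noncomputable def f (ω : Ω) : Fr.Amb :=
  Fr.vec (Sum.elim (fun α => sg (Fr.u ω α)) (fun t => sg (t.1 ω))) 1 (by
    have h : ∀ s : S, |sg s| ≤ 1 := by intro s; fin_cases s <;> simp [sg]
    rintro (α | t) <;> exact h _)

/-- the space -/
noncomputable def X : Submodule ℝ Fr.Amb :=
  (Submodule.span ℝ (range Fr.e ∪ range Fr.f)).topologicalClosure

open Classical in
/-- restriction of a labelling to a lower set -/
noncomputable def cut (A : LowerSet Ω) (t : ↥Fr.L) : ↥Fr.L :=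
  ⟨fun ω => if ω ∈ A then t.1 ω else 0, Fr.low t.1 t.2 A⟩

theorem norm_apply_le (x : Fr.Amb) (i : ι ⊕ ↥Fr.L) : |x i| ≤ ‖x‖ := by
  have := lp.norm_apply_le_norm (by simp : (∞ : ℝ≥0∞) ≠ 0) x i
  simpa using this

theorem norm_le {x : Fr.Amb} {C : ℝ} (hC : 0 ≤ C) (h : ∀ i, |x i| ≤ C) : ‖x‖ ≤ C :=
  lp.norm_le_of_forall_le hC (by simpa using h)

/-- the projections -/
noncomputable def P (A : LowerSet Ω) : Fr.Amb →L[ℝ] Fr.Amb :=
  LinearMap.mkContinuous
    { toFun := fun x => Fr.vec (Sum.elim (fun _ => 0) (fun t => x (Sum.inr (Fr.cut A t)))) ‖x‖ (by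
        rintro (α | t)
        · simp
        · exact Fr.norm_apply_le x _)
      map_add' := by
        intro x y
        ext i
        rcases i with α | t
        · change (0 : ℝ) = 0 + 0
          simp
        · rfl
      map_smul' := by
        intro c x
        ext i
        rcases i with α | t
        · change (0 : ℝ) = c • 0
          simp
        · rfl } 1 (by
      intro x
      rw [one_mul]
      refine Fr.norm_le (norm_nonneg _) ?_
      rintro (α | t)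
      · change |(0 : ℝ)| ≤ _
        simp
      · exact Fr.norm_apply_le x _)

@[simp] theorem P_inl (A : LowerSet Ω) (x : Fr.Amb) (α : ι) : Fr.P A x (Sum.inl α) = 0 := rfl

@[simp] theorem P_inr (A : LowerSet Ω) (x : Fr.Amb) (t : ↥Fr.L) :
    Fr.P A x (Sum.inr t) = x (Sum.inr (Fr.cut A t)) := rfl

theorem norm_P_le (A : LowerSet Ω) (x : Fr.Amb) : ‖Fr.P A x‖ ≤ ‖x‖ := by
  refine Fr.norm_le (norm_nonneg _) ?_
  rintro (α | t)
  · simp
  · exact Fr.norm_apply_le x _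

/-- the vectors `v ω = P ⊤ (f ω)` -/
noncomputable def v (ω : Ω) : Fr.Amb := Fr.P ⊤ (Fr.f ω)

open Classical in
theorem e_apply (α : ι) (i : ι ⊕ ↥Fr.L) : Fr.e α i = if i = Sum.inl α then 1 else 0 := rfl

@[simp] theorem f_inl (ω : Ω) (α : ι) : Fr.f ω (Sum.inl α) = sg (Fr.u ω α) := rfl

@[simp] theorem f_inr (ω : Ω) (t : ↥Fr.L) : Fr.f ω (Sum.inr t) = sg (t.1 ω) := rfl

open Classical in
@[simp] theorem cut_apply (A : LowerSet Ω) (t : ↥Fr.L) (ω : Ω) :
    (Fr.cut A t).1 ω = if ω ∈ A then t.1 ω else 0 := rfl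

@[simp] theorem cut_top (t : ↥Fr.L) : Fr.cut ⊤ t = t := by
  apply Subtype.ext
  funext ω
  simp

@[simp] theorem v_inl (ω : Ω) (α : ι) : Fr.v ω (Sum.inl α) = 0 := rfl

@[simp] theorem v_inr (ω : Ω) (t : ↥Fr.L) : Fr.v ω (Sum.inr t) = sg (t.1 ω) := by
  unfold v
  simp

@[simp] theorem P_e (A : LowerSet Ω) (α : ι) : Fr.P A (Fr.e α) = 0 := by
  ext i
  rcases i with β | t
  · rw [P_inl]; simp
  · rw [P_inr, e_apply, if_neg (by simp)]
    simp

open Classical in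
theorem P_f (A : LowerSet Ω) (ω : Ω) : Fr.P A (Fr.f ω) = if ω ∈ A then Fr.v ω else 0 := by
  ext i
  rcases i with β | t
  · split_ifs <;> simp
  · rw [P_inr, f_inr, cut_apply]
    split_ifs
    · simp
    · simp [sg]

theorem e_mem (α : ι) : Fr.e α ∈ Fr.X :=
  Submodule.le_topologicalClosure _ (Submodule.subset_span (Or.inl ⟨α, rfl⟩))

theorem f_mem (ω : Ω) : Fr.f ω ∈ Fr.X :=
  Submodule.le_topologicalClosure _ (Submodule.subset_span (Or.inr ⟨ω, rfl⟩))

/-- the complement of the upper set generated by `B` -/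
def off (B : Set Ω) : LowerSet Ω := ⟨{ω | ∀ b ∈ B, ¬ b ≤ ω}, fun _ _ h h' b hb hb' =>
  h' b hb (hb'.trans h)⟩

theorem mem_off {B : Set Ω} {ω : Ω} : ω ∈ off B ↔ ∀ b ∈ B, ¬ b ≤ ω := Iff.rfl

/-- every sequence of finitely additive set functions is unbiased somewhere, with prescribed `u` -/
def FO : Prop := ∀ μ : ℕ → Set (Ω → S) → ℝ, (∀ i, IsFA (μ i)) →
  ∀ B : Set (ι → S), MeasurableSet B → PS ι B ≠ 0 →
    ∃ ω, (∀ i, μ i {t ∈ Fr.L | t ω = 1} = μ i {t ∈ Fr.L | t ω = 2}) ∧ Fr.u ω ∈ B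

end Frame

end Pool.Agent.PIP
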