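import Pool.Agent.PIP.Pat

set_option autoImplicit false

open MeasureTheory Set Filter Topology
open scoped ENNReal

namespace Pool.Agent.PIP

/-- the key identity: the decrement is nonnegative, and `D (z1 - z2)^2 ≤ 8 z sqrt (z D) dec` -/
theorem Hell_key (z0 z1 z2 D0 D1 : ℝ) (h0 : 0 ≤ z0) (h1 : 0 ≤ z1) (h2 : 0 ≤ z2)
    (hD0 : 0 ≤ D0) (hD1 : 0 ≤ D1) :
    0 ≤ Real.sqrt ((z0 + z1 + z2) * (D0 + D1 + D1)) -
        (Real.sqrt (z0 * D0) + Real.sqrt (z1 * D1) + Real.sqrt (z2 * D1)) ∧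
    (D0 + D1 + D1) * (z1 - z2) ^ 2 ≤ 8 * (z0 + z1 + z2) *
      Real.sqrt ((z0 + z1 + z2) * (D0 + D1 + D1)) *
      (Real.sqrt ((z0 + z1 + z2) * (D0 + D1 + D1)) -
        (Real.sqrt (z0 * D0) + Real.sqrt (z1 * D1) + Real.sqrt (z2 * D1))) := by
  obtain ⟨a0, ha0, rfl⟩ : ∃ a, 0 ≤ a ∧ a ^ 2 = z0 := ⟨Real.sqrt z0, Real.sqrt_nonneg _, Real.sq_sqrt h0⟩
  obtain ⟨a1, ha1, rfl⟩ : ∃ a, 0 ≤ a ∧ a ^ 2 = z1 := ⟨Real.sqrt z1, Real.sqrt_nonneg _, Real.sq_sqrt h1⟩
  obtain ⟨a2, ha2, rfl⟩ : ∃ a, 0 ≤ a ∧ a ^ 2 = z2 := ⟨Real.sqrt z2, Real.sqrt_nonneg _, Real.sq_sqrt h2⟩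
  obtain ⟨d0, hd0, rfl⟩ : ∃ a, 0 ≤ a ∧ a ^ 2 = D0 := ⟨Real.sqrt D0, Real.sqrt_nonneg _, Real.sq_sqrt hD0⟩
  obtain ⟨d1, hd1, rfl⟩ : ∃ a, 0 ≤ a ∧ a ^ 2 = D1 := ⟨Real.sqrt D1, Real.sqrt_nonneg _, Real.sq_sqrt hD1⟩
  have e : ∀ a d : ℝ, 0 ≤ a → 0 ≤ d → Real.sqrt (a ^ 2 * d ^ 2) = a * d := by
    intro a d ha hd
    rw [← mul_pow, Real.sqrt_sq (mul_nonneg ha hd)]
  obtain ⟨z, hz0, hz⟩ : ∃ z, 0 ≤ z ∧ z ^ 2 = a0 ^ 2 + a1 ^ 2 + a2 ^ 2 :=
    ⟨Real.sqrt _, Real.sqrt_nonneg _, Real.sq_sqrt (by positivity)⟩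
  obtain ⟨D, hD, hDD⟩ : ∃ z, 0 ≤ z ∧ z ^ 2 = d0 ^ 2 + d1 ^ 2 + d1 ^ 2 :=
    ⟨Real.sqrt _, Real.sqrt_nonneg _, Real.sq_sqrt (by positivity)⟩
  rw [e a0 d0 ha0 hd0, e a1 d1 ha1 hd1, e a2 d1 ha2 hd1, ← hz, ← hDD, e z D hz0 hD]
  -- the decrement times `2 z D` is a sum of squares
  have hid : 2 * (z * D) * (z * D - (a0 * d0 + a1 * d1 + a2 * d1)) =
      (a0 * D - z * d0) ^ 2 + (a1 * D - z * d1) ^ 2 + (a2 * D - z * d1) ^ 2 := by
    have : (a0 * D - z * d0) ^ 2 + (a1 * D - z * d1) ^ 2 + (a2 * D - z * d1) ^ 2 =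
      D ^ 2 * (a0 ^ 2 + a1 ^ 2 + a2 ^ 2) + z ^ 2 * (d0 ^ 2 + d1 ^ 2 + d1 ^ 2) -
        2 * (z * D) * (a0 * d0 + a1 * d1 + a2 * d1) := by ring
    rw [this, ← hz, ← hDD]; ring
  have hcs : a0 * d0 + a1 * d1 + a2 * d1 ≤ z * D := by
    have hzD : 0 ≤ z * D := mul_nonneg hz0 hD
    apply abs_le_of_sq_le_sq' _ hzD |>.2
    have : (z * D) ^ 2 = (a0 ^ 2 + a1 ^ 2 + a2 ^ 2) * (d0 ^ 2 + d1 ^ 2 + d1 ^ 2) := by
      rw [mul_pow, hz, hDD]
    rw [this]
    nlinarith [sq_nonneg (a0 * d1 - a1 * d0), sq_nonneg (a0 * d1 - a2 * d0),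
      sq_nonneg (a1 * d1 - a2 * d1)]
  refine ⟨by linarith, ?_⟩
  have h3 : D ^ 2 * (a1 - a2) ^ 2 ≤ 4 * (z * D) * (z * D - (a0 * d0 + a1 * d1 + a2 * d1)) := by
    nlinarith [sq_nonneg (a0 * D - z * d0), sq_nonneg ((a1 * D - z * d1) + (a2 * D - z * d1))]
  have h4 : (a1 ^ 2 - a2 ^ 2) ^ 2 ≤ (a1 - a2) ^ 2 * (2 * z ^ 2) := by
    have : (a1 ^ 2 - a2 ^ 2) ^ 2 = (a1 - a2) ^ 2 * (a1 + a2) ^ 2 := by ring
    rw [this]
    apply mul_le_mul_of_nonneg_left _ (sq_nonneg _)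
    rw [hz]
    nlinarith [sq_nonneg (a1 - a2), sq_nonneg a0]
  calc D ^ 2 * (a1 ^ 2 - a2 ^ 2) ^ 2 ≤ D ^ 2 * ((a1 - a2) ^ 2 * (2 * z ^ 2)) :=
        mul_le_mul_of_nonneg_left h4 (sq_nonneg _)
    _ = (D ^ 2 * (a1 - a2) ^ 2) * (2 * z ^ 2) := by ring
    _ ≤ (4 * (z * D) * (z * D - (a0 * d0 + a1 * d1 + a2 * d1))) * (2 * z ^ 2) :=
        mul_le_mul_of_nonneg_right h3 (by positivity)
    _ = _ := by ring

/-- the elementary inequality -/
theorem hell_ineq (z0 z1 z2 D0 D1 M : ℝ) (h0 : 0 ≤ z0) (h1 : 0 ≤ z1) (h2 : 0 ≤ z2)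
    (hD0 : 0 ≤ D0) (hD1 : 0 ≤ D1) (hM : 0 ≤ M)
    (hz : z0 + z1 + z2 ≤ M * (D0 + D1 + D1) ∨ (z1 = 0 ∧ z2 = 0)) :
    (z1 - z2) ^ 2 ≤ 8 * (M * Real.sqrt M) * (D0 + D1 + D1) *
      (Real.sqrt ((z0 + z1 + z2) * (D0 + D1 + D1)) -
        (Real.sqrt (z0 * D0) + Real.sqrt (z1 * D1) + Real.sqrt (z2 * D1))) := by
  obtain ⟨hdec, hkey⟩ := Hell_key z0 z1 z2 D0 D1 h0 h1 h2 hD0 hD1
  set dec := Real.sqrt ((z0 + z1 + z2) * (D0 + D1 + D1)) -
        (Real.sqrt (z0 * D0) + Real.sqrt (z1 * D1) + Real.sqrt (z2 * D1)) with hdecdef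
  have hDn : 0 ≤ D0 + D1 + D1 := by positivity
  have hzn : 0 ≤ z0 + z1 + z2 := by positivity
  rcases hz with hz | ⟨rfl, rfl⟩
  · rcases hDn.eq_or_lt with hD | hD
    · rw [← hD, mul_zero] at hz
      have e1 : z1 = 0 := by linarith
      have e2 : z2 = 0 := by linarith
      rw [e1, e2, ← hD]; simp
    · have hs : Real.sqrt ((z0 + z1 + z2) * (D0 + D1 + D1)) ≤ Real.sqrt M * (D0 + D1 + D1) := by
        have h5 : (z0 + z1 + z2) * (D0 + D1 + D1) ≤ M * (D0 + D1 + D1) ^ 2 := by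
          have := mul_le_mul_of_nonneg_right hz hDn
          linarith [this, sq (D0 + D1 + D1)]
        calc Real.sqrt ((z0 + z1 + z2) * (D0 + D1 + D1)) ≤ Real.sqrt (M * (D0 + D1 + D1) ^ 2) :=
              Real.sqrt_le_sqrt h5
          _ = Real.sqrt M * (D0 + D1 + D1) := by
              rw [Real.sqrt_mul hM, Real.sqrt_sq hDn]
      have h6 : (D0 + D1 + D1) * (z1 - z2) ^ 2 ≤ (D0 + D1 + D1) *
          (8 * (M * Real.sqrt M) * (D0 + D1 + D1) * dec) := by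
        refine hkey.trans ?_
        have h7 : (z0 + z1 + z2) * Real.sqrt ((z0 + z1 + z2) * (D0 + D1 + D1)) ≤
            (M * (D0 + D1 + D1)) * (Real.sqrt M * (D0 + D1 + D1)) :=
          mul_le_mul hz hs (Real.sqrt_nonneg _) (by positivity)
        calc 8 * (z0 + z1 + z2) * Real.sqrt ((z0 + z1 + z2) * (D0 + D1 + D1)) * dec
            = ((z0 + z1 + z2) * Real.sqrt ((z0 + z1 + z2) * (D0 + D1 + D1))) * (8 * dec) := by ring
          _ ≤ ((M * (D0 + D1 + D1)) * (Real.sqrt M * (D0 + D1 + D1))) * (8 * dec) :=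
              mul_le_mul_of_nonneg_right h7 (by positivity)
          _ = _ := by ring
      exact le_of_mul_le_mul_left h6 hD
  · have : 0 ≤ 8 * (M * Real.sqrt M) * (D0 + D1 + D1) * dec :=
      mul_nonneg (mul_nonneg (mul_nonneg (by norm_num) (mul_nonneg hM (Real.sqrt_nonneg _))) hDn)
        hdec
    simpa using this

/-- summing a cylinder over the letters at the nodes of `A` -/
theorem Hell_sum_cyl (μ : Set (Pth → S) → ℝ) (hμ : IsFA μ) (p' : Pth) (ρ : ℝ) (s : S)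
    (A : Finset ℝ) : ρ ∉ A →
    ∑ b ∈ pats A, μ (cyl p' (insert ρ A) (Function.update b ρ s)) =
      μ {t | t ∈ LL ∧ t (p'.upto ρ) = s} := by
  classical
  induction A using Finset.induction_on with
  | empty =>
    intro _
    have h0 : pats ∅ = {fun _ => 0} := by
      ext b
      rw [mem_pats, Finset.mem_singleton]
      constructor
      · intro h; funext r; exact h r (Finset.notMem_empty r)
      · rintro rfl r _; rfl
    rw [h0, Finset.sum_singleton]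
    congr 1
    ext t
    simp only [cyl, mem_ofPred_eq, insert_empty_eq, Finset.mem_singleton, forall_eq,
      Function.update_self]
  | insert a A ha ih =>
    intro hρ
    rw [Finset.mem_insert, not_or] at hρ
    rw [sum_pats_insert ha, ← ih hρ.2]
    refine Finset.sum_congr rfl fun b _ => ?_
    rw [cyl_insert μ hμ p' (insert ρ A) a (by
      rw [Finset.mem_insert, not_or]; exact ⟨fun h => hρ.1 h.symm, ha⟩)]
    refine Finset.sum_congr rfl fun s' _ => ?_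
    rw [Finset.insert_comm, Function.update_comm hρ.1]

/-- a biased node strictly decreases the Hellinger affinity -/
theorem hell_decrease (p : Pth) (hp : Legit p) (ρ : ℝ) (hρ : ∀ r ∈ p.W, r < ρ) (p' : Pth)
    (hW : p'.W = insert ρ p.W) (hup : ∀ r ∈ p.W, p'.upto r = p.upto r) (hp' : Legit p')
    (hsym : ∀ A : Finset ℝ, (A : Set ℝ) ⊆ p.W → ∀ b : ℝ → S,
        Dl p' (insert ρ A) (Function.update b ρ 1) = Dl p' (insert ρ A) (Function.update b ρ 2))
    (μ : Set (Pth → S) → ℝ) (hμ : IsFA μ) (M : ℝ) (hM : 0 ≤ M)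
    (hcov : ∀ k b, μ (cyl p (F k p ρ) b) ≤ M * Dl p (F k p ρ) b ∨
      ∀ t ∈ cyl p (F k p ρ) b, t p' = 0)
    (hb : μ {t ∈ LL | t p' = 1} ≠ μ {t ∈ LL | t p' = 2}) : Hl μ p' < Hl μ p := by
  classical
  have hup' : p'.upto ρ = p' := by
    apply upto_of_forall_le
    intro x hx
    rw [hW] at hx
    rcases hx with rfl | hx
    · exact le_rfl
    · exact (hρ x hx).le
  have hρW : ρ ∉ p.W := fun h => lt_irrefl _ (hρ ρ h)
  set δ := μ {t ∈ LL | t p' = 1} - μ {t ∈ LL | t p' = 2} with hδ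
  have hδ0 : δ ≠ 0 := sub_ne_zero.2 hb
  -- the main inequality at a stage
  have main : ∀ k, δ ^ 2 ≤ (8 * (M * Real.sqrt M)) *
      (hel μ p (F k p ρ) - hel μ p' (insert ρ (F k p ρ))) := by
    intro k
    set A := F k p ρ with hA
    have hAW : (A : Set ℝ) ⊆ p.W := fun r hr => (mem_F.1 hr).1
    have hρA : ρ ∉ A := fun h => hρW (hAW h)
    have hAW' : ((insert ρ A : Finset ℝ) : Set ℝ) ⊆ p'.W := by
      rw [Finset.coe_insert, hW]
      exact insert_subset_insert hAW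
    have hcong : ∀ r ∈ A, r ∈ p'.W ∧ r ∈ p.W ∧ p'.upto r = p.upto r := fun r hr =>
      ⟨by rw [hW]; exact Or.inr (hAW hr), hAW hr, hup r (hAW hr)⟩
    have hcyl : ∀ b, cyl p' A b = cyl p A b := by
      intro b
      ext t
      simp only [cyl, mem_ofPred_eq]
      refine and_congr_right fun _ => forall₂_congr fun r hr => ?_
      rw [(hcong r hr).2.2]
    set z : (ℝ → S) → S → ℝ := fun b s => μ (cyl p' (insert ρ A) (Function.update b ρ s)) with hz
    set D : (ℝ → S) → S → ℝ := fun b s => Dl p' (insert ρ A) (Function.update b ρ s) with hD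
    have hz0 : ∀ b s, 0 ≤ z b s := fun b s => hμ.nonneg _
    have hD0 : ∀ b s, 0 ≤ D b s := fun b s => Dl_nonneg p' hp'.2 _ hAW' _
    have hzs : ∀ b, μ (cyl p A b) = z b 0 + z b 1 + z b 2 := by
      intro b
      rw [← hcyl b, cyl_insert μ hμ p' A ρ hρA b, Fin.sum_univ_three]
    have hDs : ∀ b, Dl p A b = D b 0 + D b 1 + D b 1 := by
      intro b
      rw [← Dl_of_upto p' p A hcong b, Dl_insert p' hp'.2 A ρ hρA hAW' b, Fin.sum_univ_three]
      have := hsym A hAW b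
      simp only [hD]
      rw [← this]
    have h12 : ∀ b, D b 2 = D b 1 := fun b => (hsym A hAW b).symm
    set dec : (ℝ → S) → ℝ := fun b => Real.sqrt (μ (cyl p A b) * Dl p A b) -
      (Real.sqrt (z b 0 * D b 0) + Real.sqrt (z b 1 * D b 1) + Real.sqrt (z b 2 * D b 2)) with hdec
    have hsum : ∑ b ∈ pats A, dec b = hel μ p A - hel μ p' (insert ρ A) := by
      have e1 : hel μ p' (insert ρ A) = ∑ b ∈ pats A, (Real.sqrt (z b 0 * D b 0) +
          Real.sqrt (z b 1 * D b 1) + Real.sqrt (z b 2 * D b 2)) := by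
        unfold hel
        rw [sum_pats_insert hρA]
        refine Finset.sum_congr rfl fun b _ => ?_
        rw [Fin.sum_univ_three]
      rw [e1]
      unfold hel
      rw [← Finset.sum_sub_distrib]
    have hineq : ∀ b ∈ pats A, (z b 1 - z b 2) ^ 2 ≤
        Dl p A b * ((8 * (M * Real.sqrt M)) * dec b) := by
      intro b _
      have h3 : z b 0 + z b 1 + z b 2 ≤ M * (D b 0 + D b 1 + D b 1) ∨ (z b 1 = 0 ∧ z b 2 = 0) := by
        rcases hcov k b with h | h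
        · left
          rw [← hzs, ← hDs]
          exact h
        · right
          have h4 : ∀ s : S, s ≠ 0 → z b s = 0 := by
            intro s hs
            have h5 : cyl p' (insert ρ A) (Function.update b ρ s) = ∅ := by
              rw [← subset_empty_iff]
              rintro t ⟨ht, ht'⟩
              have h6 : t p' = s := by
                have := ht' ρ (Finset.mem_insert_self _ _)
                rwa [hup', Function.update_self] at this
              have h7 : t ∈ cyl p A b := by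
                refine ⟨ht, fun r hr => ?_⟩
                have := ht' r (Finset.mem_insert_of_mem hr)
                rw [Function.update_of_ne (by rintro rfl; exact hρA hr)] at this
                rw [← (hcong r hr).2.2]
                exact this
              exact hs (h6.symm.trans (h t h7))
            simp only [hz, h5]
            have := hμ.add ∅ ∅ (disjoint_bot_left)
            rw [union_self] at this
            linarith
          exact ⟨h4 1 (by decide), h4 2 (by decide)⟩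
      have h8 := hell_ineq (z b 0) (z b 1) (z b 2) (D b 0) (D b 1) M (hz0 b 0) (hz0 b 1) (hz0 b 2)
        (hD0 b 0) (hD0 b 1) hM h3
      rw [← hzs, ← hDs] at h8
      simp only [hdec, h12]
      calc _ ≤ _ := h8
        _ = _ := by ring
    have hdec0 : ∀ b, 0 ≤ dec b := by
      intro b
      have := (Hell_key (z b 0) (z b 1) (z b 2) (D b 0) (D b 1) (hz0 b 0) (hz0 b 1) (hz0 b 2)
        (hD0 b 0) (hD0 b 1)).1
      rw [← hzs, ← hDs] at this
      simp only [hdec, h12]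
      exact this
    have hC : 0 ≤ 8 * (M * Real.sqrt M) := by positivity
    have hcs := Finset.sum_sq_le_sum_mul_sum_of_sq_le_mul (pats A)
      (r := fun b => z b 1 - z b 2) (f := fun b => Dl p A b)
      (g := fun b => (8 * (M * Real.sqrt M)) * dec b)
      (fun b _ => Dl_nonneg p hp.2 A hAW b) (fun b _ => mul_nonneg hC (hdec0 b)) hineq
    rw [Dl_sum p hp.2 A hAW, one_mul, ← Finset.mul_sum, hsum, Finset.sum_sub_distrib] at hcs
    have e1 := Hell_sum_cyl μ hμ p' ρ 1 A hρA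
    have e2 := Hell_sum_cyl μ hμ p' ρ 2 A hρA
    rw [hup'] at e1 e2
    simp only [hz] at hcs
    rw [e1, e2] at hcs
    exact hcs
  have hCpos : 0 < 8 * (M * Real.sqrt M) := by
    have hC : 0 ≤ 8 * (M * Real.sqrt M) := by positivity
    rcases hC.eq_or_lt with h | h
    · have := main 0
      rw [← h, zero_mul] at this
      have h2 : 0 < δ ^ 2 := by positivity
      linarith
    · exact h
  have hgap : 0 < δ ^ 2 / (8 * (M * Real.sqrt M)) := by positivity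
  have hle : Hl μ p' + δ ^ 2 / (8 * (M * Real.sqrt M)) ≤ Hl μ p := by
    have : Nonempty {A : Finset ℝ // (A : Set ℝ) ⊆ p.W} := ⟨⟨∅, by simp⟩⟩
    refine le_ciInf fun A => ?_
    have hev : ∀ᶠ k in atTop, ∀ r ∈ A.1, r ∈ F k p ρ := by
      rw [Finset.eventually_all]
      exact fun r hr => F_eventually p ρ r (A.2 hr) (hρ r (A.2 hr))
    obtain ⟨k, hk⟩ := hev.exists
    have hAW : ((F k p ρ : Finset ℝ) : Set ℝ) ⊆ p.W := fun r hr => (mem_F.1 hr).1
    have h1 := hel_mono μ hμ p hp.2 A.1 (F k p ρ) hk hAW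
    have h2 := Hl_le μ p' (insert ρ (F k p ρ)) (by
      rw [Finset.coe_insert, hW]
      exact insert_subset_insert hAW)
    have h3 : δ ^ 2 / (8 * (M * Real.sqrt M)) ≤
        hel μ p (F k p ρ) - hel μ p' (insert ρ (F k p ρ)) := by
      rw [div_le_iff₀ hCpos, mul_comm]
      exact main k
    linarith
  linarith

end Pool.Agent.PIP
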