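import Pool.Agent.PIP.Fr

set_option autoImplicit false

open MeasureTheory Set Filter Topology
open scoped ENNReal

namespace Pool.Agent.PIP

namespace Frame

variable {ι Ω : Type} [PartialOrder Ω] (Fr : Frame ι Ω)

theorem eqOn_X {F : Type} [NormedAddCommGroup F] [NormedSpace ℝ F] (T1 T2 : Fr.Amb →L[ℝ] F)
    (he : ∀ α, T1 (Fr.e α) = T2 (Fr.e α)) (hf : ∀ ω, T1 (Fr.f ω) = T2 (Fr.f ω)) (x : Fr.Amb)
    (hx : x ∈ Fr.X) : T1 x = T2 x := by
  have hle : Fr.X ≤ LinearMap.ker ((T1 - T2 : Fr.Amb →L[ℝ] F) : Fr.Amb →ₗ[ℝ] F) := by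
    apply Submodule.topologicalClosure_minimal
    · rw [Submodule.span_le]
      rintro y (⟨α, rfl⟩ | ⟨ω, rfl⟩)
      · change (T1 - T2) (Fr.e α) = 0
        rw [ContinuousLinearMap.sub_apply, he α, sub_self]
      · change (T1 - T2) (Fr.f ω) = 0
        rw [ContinuousLinearMap.sub_apply, hf ω, sub_self]
    · exact (T1 - T2).isClosed_ker
  have h : (T1 - T2) x = 0 := hle hx
  rw [ContinuousLinearMap.sub_apply] at h
  exact sub_eq_zero.mp h

theorem K_approx (x : Fr.Amb) (hx : x ∈ Fr.X) (ε : ℝ) (hε : 0 < ε) :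
    ∃ y ∈ Submodule.span ℝ (range Fr.e ∪ range Fr.f), ‖x - y‖ < ε := by
  have hx' : x ∈ closure (Submodule.span ℝ (range Fr.e ∪ range Fr.f) : Set Fr.Amb) := hx
  obtain ⟨y, hy, hxy⟩ := Metric.mem_closure_iff.mp hx' ε hε
  exact ⟨y, hy, by rwa [dist_eq_norm] at hxy⟩

theorem P_near (x : Fr.Amb) (hx : x ∈ Fr.X) (ε : ℝ) (hε : 0 < ε) :
    ∃ Φ : Finset Ω, ∀ A A' : LowerSet Ω, (∀ ω ∈ Φ, (ω ∈ A ↔ ω ∈ A')) →
      ‖Fr.P A x - Fr.P A' x‖ ≤ ε := by
  classical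
  obtain ⟨y, hy, hxy⟩ := Fr.K_approx x hx (ε / 2) (by positivity)
  have hΦ : ∃ Φ : Finset Ω, ∀ A A' : LowerSet Ω, (∀ ω ∈ Φ, (ω ∈ A ↔ ω ∈ A')) →
      Fr.P A y = Fr.P A' y := by
    clear hxy
    induction hy using Submodule.span_induction with
    | mem z hz =>
      rcases hz with ⟨α, rfl⟩ | ⟨ω, rfl⟩
      · exact ⟨∅, fun A A' _ => by rw [P_e, P_e]⟩
      · refine ⟨{ω}, fun A A' h => ?_⟩
        have h1 := h ω (Finset.mem_singleton_self _)
        rw [P_f, P_f]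
        by_cases h2 : ω ∈ A
        · rw [if_pos h2, if_pos (h1.mp h2)]
        · rw [if_neg h2, if_neg (fun h3 => h2 (h1.mpr h3))]
    | zero => exact ⟨∅, fun A A' _ => by rw [map_zero, map_zero]⟩
    | add z w _ _ h1 h2 =>
      obtain ⟨Φ1, h1⟩ := h1
      obtain ⟨Φ2, h2⟩ := h2
      refine ⟨Φ1 ∪ Φ2, fun A A' h => ?_⟩
      rw [map_add, map_add, h1 A A' (fun ω hω => h ω (Finset.mem_union_left _ hω)),
        h2 A A' (fun ω hω => h ω (Finset.mem_union_right _ hω))]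
    | smul c z _ h1 =>
      obtain ⟨Φ1, h1⟩ := h1
      refine ⟨Φ1, fun A A' h => ?_⟩
      rw [map_smul, map_smul, h1 A A' h]
  obtain ⟨Φ, hΦ⟩ := hΦ
  refine ⟨Φ, fun A A' h => ?_⟩
  have e : Fr.P A x - Fr.P A' x = Fr.P A (x - y) - Fr.P A' (x - y) := by
    rw [map_sub, map_sub, hΦ A A' h]
    abel
  rw [e]
  calc ‖Fr.P A (x - y) - Fr.P A' (x - y)‖ ≤ ‖Fr.P A (x - y)‖ + ‖Fr.P A' (x - y)‖ :=
        norm_sub_le _ _
    _ ≤ ‖x - y‖ + ‖x - y‖ := add_le_add (Fr.norm_P_le A _) (Fr.norm_P_le A' _)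
    _ ≤ ε := by linarith

theorem P_sup_inf (x : Fr.Amb) (hx : x ∈ Fr.X) (A A' : LowerSet Ω) :
    Fr.P (A ⊔ A') x + Fr.P (A ⊓ A') x = Fr.P A x + Fr.P A' x := by
  classical
  have h := Fr.eqOn_X (Fr.P (A ⊔ A') + Fr.P (A ⊓ A')) (Fr.P A + Fr.P A') ?_ ?_ x hx
  · simpa using h
  · intro α
    simp
  · intro ω
    rw [ContinuousLinearMap.add_apply, ContinuousLinearMap.add_apply, P_f, P_f, P_f, P_f]
    by_cases h1 : ω ∈ A <;> by_cases h2 : ω ∈ A' <;>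
      simp [LowerSet.mem_sup_iff, LowerSet.mem_inf_iff, h1, h2]

/-- evaluation functional -/
noncomputable def K_ev (i : ι ⊕ ↥Fr.L) : Fr.Amb →L[ℝ] ℝ :=
  LinearMap.mkContinuous
    { toFun := fun x => x i
      map_add' := fun _ _ => rfl
      map_smul' := fun _ _ => rfl } 1 (by
      intro x
      rw [one_mul]
      exact Fr.norm_apply_le x i)

theorem K_ev_apply (i : ι ⊕ ↥Fr.L) (x : Fr.Amb) : Fr.K_ev i x = x i := rfl

/-- strict lower set -/
def K_below (ω : Ω) : LowerSet Ω := ⟨{ω' | ω' < ω}, fun _ _ h h' => lt_of_le_of_lt h h'⟩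

theorem K_mem_below (ω ω' : Ω) : ω' ∈ K_below ω ↔ ω' < ω := Iff.rfl

/-- coefficient functionals: `cf ω (f ω') = δ`, `cf ω (e α) = 0` -/
theorem exists_cf : ∃ cf : Ω → (Fr.Amb →L[ℝ] ℝ), (∀ ω x, |cf ω x| ≤ 2 * ‖x‖) ∧
    (∀ ω α, cf ω (Fr.e α) = 0) ∧ (∀ ω, cf ω (Fr.f ω) = 1) ∧
    (∀ ω ω', ω ≠ ω' → cf ω (Fr.f ω') = 0) := by
  classical
  choose t ht1 ht2 ht3 using Fr.pt
  refine ⟨fun ω => Fr.K_ev (Sum.inr ⟨t ω, ht1 ω⟩) -
    Fr.K_ev (Sum.inr (Fr.cut (K_below ω) ⟨t ω, ht1 ω⟩)), ?_, ?_, ?_, ?_⟩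
  · intro ω x
    rw [ContinuousLinearMap.sub_apply, K_ev_apply, K_ev_apply]
    refine (abs_sub _ _).trans ?_
    have h1 := Fr.norm_apply_le x (Sum.inr ⟨t ω, ht1 ω⟩)
    have h2 := Fr.norm_apply_le x (Sum.inr (Fr.cut (K_below ω) ⟨t ω, ht1 ω⟩))
    linarith
  · intro ω α
    rw [ContinuousLinearMap.sub_apply, K_ev_apply, K_ev_apply, e_apply, e_apply,
      if_neg (by simp), if_neg (by simp), sub_zero]
  · intro ω
    rw [ContinuousLinearMap.sub_apply, K_ev_apply, K_ev_apply, f_inr, f_inr, cut_apply,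
      if_neg (by rw [K_mem_below]; exact lt_irrefl _)]
    rw [show (⟨t ω, ht1 ω⟩ : ↥Fr.L).1 ω = t ω ω from rfl, ht2 ω]
    simp [sg]
  · intro ω ω' hne
    rw [ContinuousLinearMap.sub_apply, K_ev_apply, K_ev_apply, f_inr, f_inr, cut_apply]
    by_cases h : ω' ∈ K_below ω
    · rw [if_pos h, sub_self]
    · rw [if_neg h]
      have h0 : t ω ω' = 0 := by
        by_contra h1
        have h2 := ht3 ω ω' h1
        exact h (lt_of_le_of_ne h2 hne.symm)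
      rw [show (⟨t ω, ht1 ω⟩ : ↥Fr.L).1 ω' = t ω ω' from rfl, h0, sub_self]

noncomputable def cf : Ω → (Fr.Amb →L[ℝ] ℝ) := Fr.exists_cf.choose

theorem K_cf_le (ω : Ω) (x : Fr.Amb) : |Fr.cf ω x| ≤ 2 * ‖x‖ := Fr.exists_cf.choose_spec.1 ω x

theorem K_cf_e (ω : Ω) (α : ι) : Fr.cf ω (Fr.e α) = 0 := Fr.exists_cf.choose_spec.2.1 ω α

theorem K_cf_self (ω : Ω) : Fr.cf ω (Fr.f ω) = 1 := Fr.exists_cf.choose_spec.2.2.1 ω

theorem K_cf_ne (ω ω' : Ω) (h : ω ≠ ω') : Fr.cf ω (Fr.f ω') = 0 :=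
  Fr.exists_cf.choose_spec.2.2.2 ω ω' h

theorem cf_step (x : Fr.Amb) (hx : x ∈ Fr.X) (A A' : LowerSet Ω) (ω : Ω)
    (h : ∀ ω', ω' ∈ A' ↔ ω' ∈ A ∨ ω' = ω) (h' : ω ∉ A) :
    Fr.P A' x = Fr.P A x + Fr.cf ω x • Fr.v ω := by
  classical
  have h2 := Fr.eqOn_X (Fr.P A') (Fr.P A + (Fr.cf ω).smulRight (Fr.v ω)) ?_ ?_ x hx
  · rw [h2, ContinuousLinearMap.add_apply, ContinuousLinearMap.smulRight_apply]
  · intro α
    rw [ContinuousLinearMap.add_apply, ContinuousLinearMap.smulRight_apply, P_e, P_e, K_cf_e,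
      zero_smul, add_zero]
  · intro ω'
    rw [ContinuousLinearMap.add_apply, ContinuousLinearMap.smulRight_apply, P_f, P_f]
    by_cases he : ω' = ω
    · subst he
      rw [if_pos ((h ω').mpr (Or.inr rfl)), if_neg h', K_cf_self, one_smul, zero_add]
    · rw [K_cf_ne _ _ _ (Ne.symm he), zero_smul, add_zero]
      by_cases h3 : ω' ∈ A
      · rw [if_pos h3, if_pos ((h ω').mpr (Or.inl h3))]
      · rw [if_neg h3, if_neg (fun h4 => ((h ω').mp h4).elim h3 he)]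

theorem cf_finite (x : Fr.Amb) (hx : x ∈ Fr.X) (δ : ℝ) (hδ : 0 < δ) :
    {ω | δ < |Fr.cf ω x|}.Finite := by
  classical
  obtain ⟨y, hy, hxy⟩ := Fr.K_approx x hx (δ / 2) (by positivity)
  have hfin : {ω | Fr.cf ω y ≠ 0}.Finite := by
    clear hxy
    induction hy using Submodule.span_induction with
    | mem z hz =>
      rcases hz with ⟨α, rfl⟩ | ⟨ω', rfl⟩
      · refine Set.finite_empty.subset ?_
        intro ω hω
        exact hω (Fr.K_cf_e ω α)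
      · refine (Set.finite_singleton ω').subset ?_
        intro ω hω
        by_contra hne
        exact hω (Fr.K_cf_ne ω ω' hne)
    | zero =>
      refine Set.finite_empty.subset ?_
      intro ω hω
      exact hω (map_zero _)
    | add z w _ _ h1 h2 =>
      refine (h1.union h2).subset ?_
      intro ω hω
      by_contra hne
      rw [Set.mem_union, not_or] at hne
      have h3 : Fr.cf ω z = 0 := by_contra fun h => hne.1 h
      have h4 : Fr.cf ω w = 0 := by_contra fun h => hne.2 h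
      exact hω (by rw [map_add, h3, h4, add_zero])
    | smul c z _ h1 =>
      refine h1.subset ?_
      intro ω hω h3
      exact hω (by rw [map_smul, h3, smul_zero])
  refine hfin.subset ?_
  intro ω hω h0
  have h1 : Fr.cf ω x = Fr.cf ω (x - y) := by rw [map_sub, h0, sub_zero]
  have h2 := Fr.K_cf_le ω (x - y)
  rw [Set.mem_setOf_eq, h1] at hω
  linarith

end Frame

end Pool.Agent.PIP
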