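import Pool.Agent.PIP.Fr

set_option autoImplicit false

open MeasureTheory Set Filter Topology
open scoped ENNReal

namespace Pool.Agent.PIP

namespace Frame

variable {ι Ω : Type} [PartialOrder Ω] (Fr : Frame ι Ω)

/-- elements of `X` are approximated by elements of the span of the generators -/
theorem K4_approx {x : Fr.Amb} (hx : x ∈ Fr.X) {ε : ℝ} (hε : 0 < ε) :
    ∃ y ∈ Submodule.span ℝ (range Fr.e ∪ range Fr.f), ‖x - y‖ < ε := by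
  have hx' : x ∈ closure (Submodule.span ℝ (range Fr.e ∪ range Fr.f) : Set Fr.Amb) := hx
  obtain ⟨y, hy, hd⟩ := Metric.mem_closure_iff.1 hx' ε hε
  exact ⟨y, hy, by rwa [dist_eq_norm] at hd⟩

theorem coord_finite (x : Fr.Amb) (hx : x ∈ Fr.X) (δ : ℝ) (hδ : 0 < δ) :
    {α : ι | ‖Fr.P ⊤ x‖ + δ < |x (Sum.inl α)|}.Finite := by
  by_contra hinf
  have hinf' : {α : ι | ‖Fr.P ⊤ x‖ + δ < |x (Sum.inl α)|}.Infinite := hinf
  have hne := hinf'.cofinite_inf_principal_neBot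
  let U : Ultrafilter ι := Ultrafilter.of (cofinite ⊓ 𝓟 {α : ι | ‖Fr.P ⊤ x‖ + δ < |x (Sum.inl α)|})
  have hU : (U : Filter ι) ≤ cofinite ⊓ 𝓟 {α : ι | ‖Fr.P ⊤ x‖ + δ < |x (Sum.inl α)|} :=
    Ultrafilter.of_le _
  have hUc : (U : Filter ι) ≤ cofinite := hU.trans inf_le_left
  have hUS : ∀ᶠ α in (U : Filter ι), ‖Fr.P ⊤ x‖ + δ < |x (Sum.inl α)| :=
    (hU.trans inf_le_right) (mem_principal_self _)
  have hex : ∀ ω, ∃ s : S, ∀ᶠ α in (U : Filter ι), Fr.u ω α = s := by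
    intro ω
    have h1 : ∀ᶠ α in (U : Filter ι), ∃ s ∈ (univ : Set S), Fr.u ω α = s :=
      Eventually.of_forall fun α => ⟨_, mem_univ _, rfl⟩
    obtain ⟨s, _, hs⟩ := (Ultrafilter.eventually_exists_mem_iff (finite_univ)).1 h1
    exact ⟨s, hs⟩
  choose t ht using hex
  have htL : t ∈ Fr.L := Fr.lim U hUc t ht
  have hspan : ∀ y ∈ Submodule.span ℝ (range Fr.e ∪ range Fr.f),
      Tendsto (fun α => y (Sum.inl α)) (U : Filter ι) (𝓝 (y (Sum.inr ⟨t, htL⟩))) := by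
    intro y hy
    induction hy using Submodule.span_induction with
    | mem y hy =>
      rcases hy with ⟨β, rfl⟩ | ⟨ω, rfl⟩
      · have h1 : ∀ᶠ α in (U : Filter ι), Fr.e β (Sum.inl α) = Fr.e β (Sum.inr ⟨t, htL⟩) := by
          have h2 : ∀ᶠ α in (U : Filter ι), α ≠ β := hUc (by simp)
          filter_upwards [h2] with α hα
          rw [e_apply, e_apply, if_neg (by simpa using hα), if_neg (by simp)]
        exact tendsto_const_nhds.congr' (h1.mono fun α h => h.symm)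
      · have h1 : ∀ᶠ α in (U : Filter ι), Fr.f ω (Sum.inl α) = Fr.f ω (Sum.inr ⟨t, htL⟩) := by
          filter_upwards [ht ω] with α hα
          rw [f_inl, f_inr, hα]
        exact tendsto_const_nhds.congr' (h1.mono fun α h => h.symm)
    | zero =>
      exact tendsto_const_nhds
    | add y z _ _ hy hz =>
      exact hy.add hz
    | smul c y _ hy =>
      exact hy.const_mul c
  obtain ⟨y, hy, hxy⟩ := Fr.K4_approx hx (show 0 < δ / 3 by positivity)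
  have h1 := (hspan y hy).eventually (Metric.ball_mem_nhds _ (show 0 < δ / 3 by positivity))
  obtain ⟨α, hα1, hα2⟩ := (hUS.and h1).exists
  have h2 : |y (Sum.inl α) - y (Sum.inr ⟨t, htL⟩)| < δ / 3 := by
    exact hα2
  have h3 := Fr.norm_apply_le (x - y) (Sum.inl α)
  have h4 := Fr.norm_apply_le (x - y) (Sum.inr ⟨t, htL⟩)
  have h5 := Fr.norm_apply_le (Fr.P ⊤ x) (Sum.inr ⟨t, htL⟩)
  rw [P_inr, cut_top] at h5
  have e1 : (x - y) (Sum.inl α) = x (Sum.inl α) - y (Sum.inl α) := rfl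
  have e2 : (x - y) (Sum.inr ⟨t, htL⟩) = x (Sum.inr ⟨t, htL⟩) - y (Sum.inr ⟨t, htL⟩) := rfl
  rw [e1] at h3
  rw [e2] at h4
  have h6 : |x (Sum.inl α)| ≤ |x (Sum.inl α) - y (Sum.inl α)| +
      |y (Sum.inl α) - y (Sum.inr ⟨t, htL⟩)| + |x (Sum.inr ⟨t, htL⟩) - y (Sum.inr ⟨t, htL⟩)| +
      |x (Sum.inr ⟨t, htL⟩)| := by
    have a1 := abs_add_le (x (Sum.inl α) - y (Sum.inl α)) (y (Sum.inl α))
    have a2 := abs_add_le (y (Sum.inl α) - y (Sum.inr ⟨t, htL⟩)) (y (Sum.inr ⟨t, htL⟩))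
    have a3 := abs_add_le (-(x (Sum.inr ⟨t, htL⟩) - y (Sum.inr ⟨t, htL⟩)))
      (x (Sum.inr ⟨t, htL⟩))
    rw [abs_neg] at a3
    rw [sub_add_cancel] at a1 a2
    rw [show -(x (Sum.inr ⟨t, htL⟩) - y (Sum.inr ⟨t, htL⟩)) + x (Sum.inr ⟨t, htL⟩) =
      y (Sum.inr ⟨t, htL⟩) by ring] at a3
    linarith
  linarith

/-- subtraction of finitely many coordinates -/
theorem K4_trim (x : Fr.Amb) (hx : x ∈ Fr.X) (δ : ℝ) (hδ : 0 < δ) :
    ∃ s : Finset ι, ‖x - ∑ α ∈ s, x (Sum.inl α) • Fr.e α‖ ≤ ‖Fr.P ⊤ x‖ + δ := by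
  classical
  refine ⟨(Fr.coord_finite x hx δ hδ).toFinset, ?_⟩
  refine Fr.norm_le (by positivity) ?_
  have hsum : ∀ i, (x - ∑ α ∈ (Fr.coord_finite x hx δ hδ).toFinset, x (Sum.inl α) • Fr.e α) i =
      x i - ∑ α ∈ (Fr.coord_finite x hx δ hδ).toFinset, x (Sum.inl α) * Fr.e α i := by
    intro i
    rw [lp.coeFn_sub, Pi.sub_apply, lp.coeFn_sum, Finset.sum_apply]
    rfl
  rintro (β | t)
  · rw [hsum]
    simp only [e_apply, Sum.inl.injEq, mul_ite, mul_one, mul_zero]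
    rw [Finset.sum_ite_eq]
    split_ifs with h
    · rw [sub_self, abs_zero]; positivity
    · rw [sub_zero]
      rw [Set.Finite.mem_toFinset] at h
      exact not_lt.1 h
  · rw [hsum]
    have : ∑ α ∈ (Fr.coord_finite x hx δ hδ).toFinset, x (Sum.inl α) * Fr.e α (Sum.inr t) = 0 := by
      refine Finset.sum_eq_zero fun α _ => ?_
      rw [e_apply, if_neg (by simp), mul_zero]
    rw [this, sub_zero]
    have h5 := Fr.norm_apply_le (Fr.P ⊤ x) (Sum.inr t)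
    rw [P_inr, cut_top] at h5
    linarith

theorem K4_bound (φ : Fr.Amb →L[ℝ] ℝ) (hφ : ∀ α, φ (Fr.e α) = 0) (x : Fr.Amb) (hx : x ∈ Fr.X) :
    |φ x| ≤ ‖φ‖ * ‖Fr.P ⊤ x‖ := by
  have key : ∀ δ : ℝ, 0 < δ → |φ x| ≤ ‖φ‖ * (‖Fr.P ⊤ x‖ + δ) := by
    intro δ hδ
    obtain ⟨s, hs⟩ := Fr.K4_trim x hx δ hδ
    have h1 : φ x = φ (x - ∑ α ∈ s, x (Sum.inl α) • Fr.e α) := by
      rw [map_sub, map_sum, Finset.sum_eq_zero, sub_zero]
      intro α _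
      rw [map_smul, hφ, smul_zero]
    rw [h1, ← Real.norm_eq_abs]
    exact (φ.le_opNorm _).trans (mul_le_mul_of_nonneg_left hs (norm_nonneg _))
  refine le_of_forall_pos_le_add fun ε hε => ?_
  have h := key (ε / (‖φ‖ + 1)) (by positivity)
  have h2 : ‖φ‖ * (ε / (‖φ‖ + 1)) ≤ ε := by
    rw [mul_div_assoc', div_le_iff₀ (by positivity)]
    nlinarith [norm_nonneg φ]
  linarith [mul_add ‖φ‖ ‖Fr.P ⊤ x‖ (ε / (‖φ‖ + 1))]

/-- a functional vanishing at the unit vectors factors through `P ⊤` -/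
theorem factor (φ : Fr.Amb →L[ℝ] ℝ) (hφ : ∀ α, φ (Fr.e α) = 0) :
    ∃ ψ : Fr.Amb →L[ℝ] ℝ, ∀ x ∈ Fr.X, φ x = ψ (Fr.P ⊤ x) := by
  let g : ↥Fr.X →ₗ[ℝ] Fr.Amb := (Fr.P ⊤ : Fr.Amb →ₗ[ℝ] Fr.Amb) ∘ₗ Fr.X.subtype
  let f : ↥Fr.X →ₗ[ℝ] ℝ := (φ : Fr.Amb →ₗ[ℝ] ℝ) ∘ₗ Fr.X.subtype
  have hgf : ∀ x : ↥Fr.X, |f x| ≤ ‖φ‖ * ‖g x‖ := fun x => Fr.K4_bound φ hφ x x.2
  have hker : LinearMap.ker g ≤ LinearMap.ker f := by
    intro x hx
    rw [LinearMap.mem_ker] at hx ⊢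
    have h := hgf x
    rw [hx, norm_zero, mul_zero] at h
    exact abs_eq_zero.1 (le_antisymm h (abs_nonneg _))
  let h : ↥(LinearMap.range g) →ₗ[ℝ] ℝ :=
    (LinearMap.ker g).liftQ f hker ∘ₗ (g.quotKerEquivRange.symm : _ →ₗ[ℝ] _)
  have hh : ∀ x : ↥Fr.X, h ⟨g x, LinearMap.mem_range_self g x⟩ = f x := by
    intro x
    have h1 : g.quotKerEquivRange.symm ⟨g x, LinearMap.mem_range_self g x⟩ =
        Submodule.Quotient.mk x := by
      rw [LinearEquiv.symm_apply_eq]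
      rfl
    show (LinearMap.ker g).liftQ f hker
      (g.quotKerEquivRange.symm ⟨g x, LinearMap.mem_range_self g x⟩) = f x
    rw [h1]
    rfl
  have hb : ∀ w : ↥(LinearMap.range g), ‖h w‖ ≤ ‖φ‖ * ‖w‖ := by
    rintro ⟨w, x, rfl⟩
    rw [hh]
    exact hgf x
  let H : ↥(LinearMap.range g) →L[ℝ] ℝ := h.mkContinuous ‖φ‖ hb
  obtain ⟨ψ, hψ, -⟩ := exists_extension_norm_eq (LinearMap.range g) H
  refine ⟨ψ, fun x hx => ?_⟩
  have h2 := hψ ⟨g ⟨x, hx⟩, LinearMap.mem_range_self g ⟨x, hx⟩⟩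
  have h3 : H ⟨g ⟨x, hx⟩, LinearMap.mem_range_self g ⟨x, hx⟩⟩ = f ⟨x, hx⟩ := hh ⟨x, hx⟩
  rw [h3] at h2
  exact h2.symm

theorem K4_lift_span (w : Fr.Amb) (hw : w ∈ Submodule.span ℝ (range Fr.v)) :
    ∃ x ∈ Fr.X, Fr.P ⊤ x = w := by
  induction hw using Submodule.span_induction with
  | mem w hw =>
    obtain ⟨ω, rfl⟩ := hw
    exact ⟨Fr.f ω, Fr.f_mem ω, rfl⟩
  | zero => exact ⟨0, Fr.X.zero_mem, map_zero _⟩
  | add y z _ _ hy hz =>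
    obtain ⟨a, ha, rfl⟩ := hy
    obtain ⟨b, hb, rfl⟩ := hz
    exact ⟨a + b, Fr.X.add_mem ha hb, map_add _ _ _⟩
  | smul c y _ hy =>
    obtain ⟨a, ha, rfl⟩ := hy
    exact ⟨c • a, Fr.X.smul_mem c ha, map_smul _ _ _⟩

theorem lift_P (w : Fr.Amb) (hw : w ∈ (Submodule.span ℝ (range Fr.v)).topologicalClosure) :
    ∃ x ∈ Fr.X, Fr.P ⊤ x = w := by
  have hcl : IsClosed (Fr.X : Set Fr.Amb) := Submodule.isClosed_topologicalClosure _
  have : CompleteSpace ↥Fr.X := hcl.completeSpace_coe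
  let g : ↥Fr.X →ₗ[ℝ] Fr.Amb := (Fr.P ⊤ : Fr.Amb →ₗ[ℝ] Fr.Amb) ∘ₗ Fr.X.subtype
  let F : NormedAddGroupHom ↥Fr.X Fr.Amb :=
    { toFun := g
      map_add' := g.map_add
      bound' := ⟨1, fun x => by rw [one_mul]; exact Fr.norm_P_le ⊤ x⟩ }
  have hyp : F.SurjectiveOnWith (Submodule.span ℝ (range Fr.v)).toAddSubgroup 2 := by
    intro h hh
    by_cases h0 : h = 0
    · exact ⟨0, by rw [map_zero, h0], by simp⟩
    · obtain ⟨x, hx, rfl⟩ := Fr.K4_lift_span h hh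
      have hpos : 0 < ‖Fr.P ⊤ x‖ := norm_pos_iff.2 h0
      obtain ⟨s, hs⟩ := Fr.K4_trim x hx ‖Fr.P ⊤ x‖ hpos
      refine ⟨⟨x - ∑ α ∈ s, x (Sum.inl α) • Fr.e α, Fr.X.sub_mem hx
        (Fr.X.sum_mem fun α _ => Fr.X.smul_mem _ (Fr.e_mem α))⟩, ?_, ?_⟩
      · show Fr.P ⊤ (x - ∑ α ∈ s, x (Sum.inl α) • Fr.e α) = Fr.P ⊤ x
        rw [map_sub, map_sum, Finset.sum_eq_zero, sub_zero]
        intro α _
        rw [map_smul, P_e, smul_zero]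
      · show ‖x - ∑ α ∈ s, x (Sum.inl α) • Fr.e α‖ ≤ 2 * ‖Fr.P ⊤ x‖
        linarith
  have h2 := controlled_closure_of_complete (f := F) (by norm_num : (0:ℝ) < 2)
    (by norm_num : (0:ℝ) < 1) hyp
  obtain ⟨x, hx, -⟩ := h2 w hw
  exact ⟨x, x.2, hx⟩

end Frame

end Pool.Agent.PIP
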