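import Pool.Agent.PIP.Val

set_option autoImplicit false

open MeasureTheory Set Filter Topology ProbabilityTheory
open scoped ENNReal

namespace Pool.Agent.PIP

instance instProbU : IsProbabilityMeasure (volume.restrict (Icc (0 : ℝ) 1)) := by
  constructor
  simp

instance : IsProbabilityMeasure PXi := by
  unfold PXi
  infer_instance

theorem indep_coord (k : ℕ) (A : Set Xi) (hA : MeasurableSet A)
    (hd : ∀ ξ ξ' : Xi, (∀ i < k, ξ i = ξ' i) → (ξ ∈ A ↔ ξ' ∈ A)) (T : Set ℝ)
    (hT : MeasurableSet T) :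
    PXi.real (A ∩ {ξ | ξ k ∈ T}) = PXi.real A * (volume.restrict (Icc (0 : ℝ) 1)).real T := by
  classical
  have hind : iIndepFun (fun (i : ℕ) (ξ : Xi) => ξ i) PXi :=
    iIndepFun_infinitePi (P := fun _ : ℕ => (volume.restrict (Icc (0 : ℝ) 1)))
      (X := fun _ x => x) (fun _ => measurable_id)
  have h2 := hind.indepFun_finset (Finset.range k) {k} (by simp) (fun i => measurable_pi_apply i)
  -- reconstruct
  let e : ((i : Finset.range k) → ℝ) → Xi := fun x i => if h : i ∈ Finset.range k then x ⟨i, h⟩ else 0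
  have he : Measurable e := by
    refine measurable_pi_lambda _ fun i => ?_
    by_cases h : i ∈ Finset.range k
    · simp only [e, h, dif_pos]
      exact measurable_pi_apply _
    · simp only [e, h, dif_neg, not_false_eq_true]
      exact measurable_const
  have hA' : A = (fun (ξ : Xi) (i : Finset.range k) => ξ i) ⁻¹' (e ⁻¹' A) := by
    ext ξ
    simp only [mem_preimage]
    apply hd
    intro i hi
    simp [e, hi]
  have hT' : {ξ : Xi | ξ k ∈ T} = (fun (ξ : Xi) (i : ({k} : Finset ℕ)) => ξ i) ⁻¹'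
      {x | x ⟨k, by simp⟩ ∈ T} := by
    ext ξ; simp
  have hTm : MeasurableSet {x : (i : ({k} : Finset ℕ)) → ℝ | x ⟨k, by simp⟩ ∈ T} :=
    (measurable_pi_apply (X := fun _ : ({k} : Finset ℕ) => ℝ) ⟨k, by simp⟩) hT
  have h3 := h2.measure_inter_preimage_eq_mul (e ⁻¹' A)
    {x : (i : ({k} : Finset ℕ)) → ℝ | x ⟨k, by simp⟩ ∈ T} (he hA) hTm
  rw [← hA', ← hT'] at h3
  have h4 : PXi {ξ : Xi | ξ k ∈ T} = (volume.restrict (Icc (0 : ℝ) 1)) T := by
    exact (measurePreserving_eval_infinitePi
      (fun _ : ℕ => (volume.restrict (Icc (0 : ℝ) 1))) k).measure_preimage hT.nullMeasurableSet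
  rw [Measure.real, h3, h4, ENNReal.toReal_mul]
  rfl

theorem wt_pos (j : ℕ) : 0 < wt j := by unfold wt; positivity

theorem sum_wt (m : ℕ) : ∑ j ∈ Finset.range m, wt j = 1 / 2 - (1 / 2) ^ (m + 1) := by
  induction m with
  | zero => norm_num
  | succ n ih => rw [Finset.sum_range_succ, ih]; unfold wt; ring

theorem real_evt_le (m : ℕ) (p : Pth) (r : ℝ) : PXi.real (evt m p r) ≤ 1 / 2 := by
  classical
  have h1 : evt m p r ⊆ ⋃ j ∈ (Finset.range m).filter
      (fun j => PXi.real (evj m p r (val m p) j) ≤ wt j), evj m p r (val m p) j := by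
    intro ξ hξ
    simp only [evt, ev, mem_ofPred_eq] at hξ
    obtain ⟨j, h1, h2, h3⟩ := hξ
    simp only [mem_iUnion, Finset.mem_filter, Finset.mem_range, exists_prop]
    exact ⟨j, ⟨h1, h2⟩, h3⟩
  calc PXi.real (evt m p r) ≤ PXi.real (⋃ j ∈ (Finset.range m).filter
      (fun j => PXi.real (evj m p r (val m p) j) ≤ wt j), evj m p r (val m p) j) :=
        measureReal_mono h1 (measure_ne_top _ _)
    _ ≤ ∑ j ∈ (Finset.range m).filter (fun j => PXi.real (evj m p r (val m p) j) ≤ wt j),
        PXi.real (evj m p r (val m p) j) := measureReal_biUnion_finset_le _ _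
    _ ≤ ∑ j ∈ (Finset.range m).filter (fun j => PXi.real (evj m p r (val m p) j) ≤ wt j), wt j :=
        Finset.sum_le_sum fun j hj => (Finset.mem_filter.1 hj).2
    _ ≤ ∑ j ∈ Finset.range m, wt j :=
        Finset.sum_le_sum_of_subset_of_nonneg (Finset.filter_subset _ _) fun j _ _ => (wt_pos j).le
    _ ≤ 1 / 2 := by
        rw [sum_wt]
        have : (0 : ℝ) ≤ (1 / 2) ^ (m + 1) := by positivity
        linarith

theorem qq_mem {v : ℝ} (h0 : 0 ≤ v) (h1 : v ≤ 1 / 2) : 0 ≤ qq v ∧ qq v ≤ 1 / 2 := by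
  unfold qq
  have h2 : 0 < 1 - v := by linarith
  constructor
  · apply div_nonneg <;> linarith
  · rw [div_le_iff₀ h2]; linarith

theorem vol_thr {q : ℝ} (h0 : 0 ≤ q) (h1 : q ≤ 1) (s : S) :
    (volume.restrict (Icc (0 : ℝ) 1)).real {x | thr q x = s} =
      if s = 0 then q else (1 - q) / 2 := by
  have hm : MeasurableSet {x | thr q x = s} := measurable_thr q (measurableSet_singleton s)
  rw [measureReal_restrict_apply hm]
  have hs : s = 0 ∨ s = 1 ∨ s = 2 := by
    fin_cases s <;> simp
  rcases hs with rfl | rfl | rfl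
  · have : {x | thr q x = 0} ∩ Icc (0 : ℝ) 1 = Ico 0 q := by
      ext x
      simp only [thr, mem_inter_iff, mem_ofPred_eq, mem_Icc, mem_Ico]
      by_cases h : x < q
      · simp only [h, if_true, true_and, and_true]
        constructor
        · exact fun h => h.1
        · exact fun h2 => ⟨h2, by linarith⟩
      · by_cases h' : x < (1 + q) / 2
        · simp [h, h']
        · simp [h, h']
    rw [this]
    simp [h0]
  · have : {x | thr q x = 1} ∩ Icc (0 : ℝ) 1 = Ico q ((1 + q) / 2) := by
      ext x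
      simp only [thr, mem_inter_iff, mem_ofPred_eq, mem_Icc, mem_Ico]
      by_cases h : x < q
      · simp [h]
      · by_cases h' : x < (1 + q) / 2
        · simp only [h, h', if_true, if_false, true_and, and_true]
          constructor
          · exact fun _ => not_lt.1 h
          · intro _
            exact ⟨by linarith [not_lt.1 h], by linarith⟩
        · simp [h, h']
    rw [this]
    have : q ≤ (1 + q) / 2 := by linarith
    simp only [Real.volume_real_Ico_of_le this, one_ne_zero, if_false]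
    ring
  · have : {x | thr q x = 2} ∩ Icc (0 : ℝ) 1 = Icc ((1 + q) / 2) 1 := by
      ext x
      simp only [thr, mem_inter_iff, mem_ofPred_eq, mem_Icc]
      by_cases h : x < q
      · have h3 : ¬ ((1 + q) / 2 ≤ x) := by intro h4; linarith
        simp [h, h3]
      · by_cases h' : x < (1 + q) / 2
        · have h3 : ¬ ((1 + q) / 2 ≤ x) := not_le.2 h'
          simp [h, h', h3]
        · simp only [h, h', if_false, true_and]
          constructor
          · exact fun h4 => ⟨not_lt.1 h', h4.2⟩
          · exact fun h4 => ⟨by linarith [not_lt.1 h'], h4.2⟩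
    rw [this]
    have h3 : (1 + q) / 2 ≤ 1 := by linarith
    have h4 : ¬ ((2 : S) = 0) := by decide
    simp only [Real.volume_real_Icc_of_le h3, h4, if_false]
    ring

theorem real_inter_val (m : ℕ) (p : Pth) (r : ℝ) (A : Set Xi) (hA : MeasurableSet A)
    (hd : ∀ ξ ξ' : Xi, (∀ i < (F m p r).card, ξ i = ξ' i) → (ξ ∈ A ↔ ξ' ∈ A)) (s : S) :
    PXi.real (A ∩ {ξ | val m p r ξ = s}) =
      (if s = 0 then PXi.real (A ∩ evt m p r) + qq (PXi.real (evt m p r)) * PXi.real (A \ evt m p r)
        else (1 - qq (PXi.real (evt m p r))) / 2 * PXi.real (A \ evt m p r)) := by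
  set q := qq (PXi.real (evt m p r)) with hq
  set k := (F m p r).card with hk
  have hq01 := qq_mem (v := PXi.real (evt m p r)) measureReal_nonneg (real_evt_le m p r)
  rw [← hq] at hq01
  have hE := measurableSet_evt m p r
  have hD := indep_coord k (A \ evt m p r) (hA.diff hE) (by
    intro ξ ξ' h
    simp only [Set.mem_sdiff]
    rw [hd ξ ξ' h, evt_dep m p r ξ ξ' h]) {x | thr q x = s}
    (measurable_thr q (measurableSet_singleton s))
  rw [vol_thr hq01.1 (by linarith) s] at hD
  have h1 : (A \ evt m p r) ∩ {ξ | ξ k ∈ {x | thr q x = s}} =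
      (A \ evt m p r) ∩ {ξ | val m p r ξ = s} := by
    ext ξ
    simp only [mem_inter_iff, Set.mem_sdiff, mem_ofPred_eq]
    constructor
    · rintro ⟨⟨h1, h2⟩, h3⟩
      refine ⟨⟨h1, h2⟩, ?_⟩
      rw [val_apply, if_neg h2]; exact h3
    · rintro ⟨⟨h1, h2⟩, h3⟩
      refine ⟨⟨h1, h2⟩, ?_⟩
      rw [val_apply, if_neg h2] at h3; exact h3
  rw [h1] at hD
  have hvm : MeasurableSet {ξ | val m p r ξ = s} := measurable_val m p r (measurableSet_singleton s)
  have h2 : PXi.real (A ∩ {ξ | val m p r ξ = s}) =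
      PXi.real ((A ∩ evt m p r) ∩ {ξ | val m p r ξ = s}) +
      PXi.real ((A \ evt m p r) ∩ {ξ | val m p r ξ = s}) := by
    rw [← measureReal_union ?_ ((hA.diff hE).inter hvm)]
    · congr 1
      ext ξ
      simp only [mem_inter_iff, Set.mem_sdiff, mem_union, mem_ofPred_eq]
      tauto
    · rw [Set.disjoint_left]
      rintro ξ ⟨⟨_, h1⟩, _⟩ ⟨⟨_, h2⟩, _⟩
      exact h2 h1
  rw [h2, hD]
  by_cases hs : s = 0
  · subst hs
    have h3 : (A ∩ evt m p r) ∩ {ξ | val m p r ξ = 0} = A ∩ evt m p r := by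
      ext ξ
      simp only [mem_inter_iff, mem_ofPred_eq, and_iff_left_iff_imp]
      rintro ⟨_, h⟩
      rw [val_apply, if_pos h]
    rw [h3]
    simp only [if_true]
    ring
  · have h3 : (A ∩ evt m p r) ∩ {ξ | val m p r ξ = s} = ∅ := by
      ext ξ
      simp only [mem_inter_iff, mem_ofPred_eq, mem_empty_iff_false, iff_false, not_and]
      rintro ⟨_, h⟩
      rw [val_apply, if_pos h]
      exact fun h => hs h.symm
    rw [h3]
    simp only [measureReal_empty, hs, if_false, zero_add]
    ring

theorem real_val (m : ℕ) (p : Pth) (r : ℝ) (s : S) :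
    PXi.real {ξ | val m p r ξ = s} = if s = 0 then 1 / 2 else 1 / 4 := by
  have h := real_inter_val m p r univ MeasurableSet.univ (fun _ _ _ => Iff.rfl) s
  rw [univ_inter, univ_inter] at h
  rw [h]
  set v := PXi.real (evt m p r) with hv
  have hv1 := real_evt_le m p r
  have hv0 : 0 ≤ v := measureReal_nonneg
  have h2 : PXi.real (univ \ evt m p r) = 1 - v := by
    rw [← compl_eq_univ_sdiff, probReal_compl_eq_one_sub (measurableSet_evt m p r)]
  rw [h2]
  have h3 : (1 - v) ≠ 0 := by
    have : v ≤ 1 / 2 := hv1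
    intro h; linarith
  unfold qq
  by_cases hs : s = 0
  · simp only [hs, if_true]
    field_simp
    ring
  · simp only [hs, if_false]
    field_simp
    ring

theorem P1_real (s : S) : P1.real {s} = if s = 0 then 1 / 2 else 1 / 4 := by
  have hs : s = 0 ∨ s = 1 ∨ s = 2 := by
    fin_cases s <;> simp
  have h4 : ((4 : ℝ≥0∞)⁻¹).toReal = 1 / 4 := by simp
  have h2 : ((2 : ℝ≥0∞)⁻¹).toReal = 1 / 2 := by simp
  rcases hs with rfl | rfl | rfl
  · simp [P1, Measure.real]
  · simp [P1, Measure.real]
  · simp [P1, Measure.real]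

instance : IsProbabilityMeasure P1 := by
  constructor
  simp only [P1, Measure.coe_add, Measure.coe_smul, Pi.add_apply, Pi.smul_apply, measure_univ,
    smul_eq_mul, mul_one]
  rw [one_div, one_div]
  have : (4 : ℝ≥0∞)⁻¹ + 4⁻¹ = 2⁻¹ := by
    rw [← ENNReal.toReal_eq_toReal_iff' (by simp) (by simp)]
    rw [ENNReal.toReal_add (by simp) (by simp)]
    simp; norm_num
  rw [add_assoc, this]
  exact ENNReal.inv_two_add_inv_two

theorem map_val (m : ℕ) (p : Pth) (r : ℝ) : PXi.map (val m p r) = P1 := by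
  have hp : IsProbabilityMeasure (PXi.map (val m p r)) :=
    Measure.isProbabilityMeasure_map (measurable_val m p r).aemeasurable
  refine Measure.ext_of_singleton fun s => ?_
  have h1 : (PXi.map (val m p r)).real {s} = P1.real {s} := by
    rw [map_measureReal_apply (measurable_val m p r) (measurableSet_singleton s), P1_real]
    exact real_val m p r s
  exact (measureReal_eq_measureReal_iff).1 h1

end Pool.Agent.PIP
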