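import Pool.Agent.PIP.Coh

set_option autoImplicit false

open MeasureTheory Set Filter Topology
open scoped ENNReal

namespace Pool.Agent.PIP

theorem Pt_evj_upto (m : ℕ) (p : Pth) (r r' : ℝ) (h : r ∈ p.W) (h' : r' ≤ r) (j : ℕ) :
    evj m (p.upto r) r' (val m (p.upto r)) j = evj m p r' (val m p) j := by
  have hF : F m (p.upto r) r' = F m p r' := F_upto m p r r' h h'
  have hG : (p.upto r).G r' j = p.G r' j := G_upto p r r' h' j
  ext ξ
  simp only [evj, mem_ofPred_eq, hF, hG]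
  constructor
  · rintro ⟨C, hC, hc⟩
    refine ⟨C, hC, fun c hcC => ⟨(hc c hcC).1, ?_⟩⟩
    have h1 := (mem_F.1 (hc c hcC).1).2.1
    rw [← val_upto m p r c.1 h (by linarith)]
    exact (hc c hcC).2
  · rintro ⟨C, hC, hc⟩
    refine ⟨C, hC, fun c hcC => ⟨(hc c hcC).1, ?_⟩⟩
    have h1 := (mem_F.1 (hc c hcC).1).2.1
    rw [val_upto m p r c.1 h (by linarith)]
    exact (hc c hcC).2

theorem Pt_act_upto (p : Pth) (r r' : ℝ) (h : r ∈ p.W) (h' : r' ≤ r) (hA : Act p r') :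
    Act (p.upto r) r' := by
  intro j
  filter_upwards [hA j] with m hm
  rw [Pt_evj_upto m p r r' h h' j]
  exact hm

theorem Pt_legit_upto (p : Pth) (r : ℝ) (h : r ∈ p.W) (hL : Legit p) : Legit (p.upto r) := by
  refine ⟨fun r' hr' => ?_, fun A hA b => ?_⟩
  · have h1 : r' ∈ p.W ∩ Iic r := hr'
    exact Pt_act_upto p r r' h h1.2 (hL.1 r' h1.1)
  · have hA1 : ∀ r' ∈ A, r' ∈ p.W ∧ r' ≤ r := fun r' hr' => by
      have h1 : r' ∈ p.W ∩ Iic r := hA hr'
      exact h1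
    obtain ⟨l, hl⟩ := hL.2 A (fun r' hr' => (hA1 r' hr').1) b
    refine ⟨l, ?_⟩
    refine hl.congr fun m => ?_
    congr 1
    ext ξ
    simp only [mem_ofPred_eq]
    refine forall₂_congr fun r' hr' => ?_
    rw [val_upto m p r r' h (hA1 r' hr').2]

theorem Pt_greatest_upto (p : Pth) (r : ℝ) (h : r ∈ p.W) : IsGreatest (p.upto r).W r :=
  ⟨⟨h, le_refl r⟩, fun _ hx => hx.2⟩

theorem Pt_top_upto (p : Pth) (r : ℝ) (h : r ∈ p.W) : (p.upto r).top = r :=
  (Pt_greatest_upto p r h).csSup_eq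

theorem Pt_upto_mem_Y (p : Pth) (r : ℝ) (h : r ∈ p.W) (hL : Legit p) : p.upto r ∈ Y := by
  refine ⟨?_, Pt_legit_upto p r h hL⟩
  rw [Pt_top_upto p r h]
  exact Pt_greatest_upto p r h

theorem Pt_upto_upto (p : Pth) (r r' : ℝ) (h' : r' ≤ r) : (p.upto r).upto r' = p.upto r' := by
  apply Pth.ext
  · change (p.W ∩ Iic r) ∩ Iic r' = p.W ∩ Iic r'
    ext x
    simp only [mem_inter_iff, mem_Iic]
    constructor
    · rintro ⟨⟨h1, _⟩, h3⟩; exact ⟨h1, h3⟩
    · rintro ⟨h1, h3⟩; exact ⟨⟨h1, h3.trans h'⟩, h3⟩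
  · funext x j
    by_cases hx : x ≤ r'
    · simp [Pth.upto, hx, hx.trans h']
    · simp [Pth.upto, hx]

theorem Pt_upto_self (p : Pth) (r : ℝ) (h : IsGreatest p.W r) : p.upto r = p := by
  apply Pth.ext
  · change p.W ∩ Iic r = p.W
    exact inter_eq_left.2 fun x hx => h.2 hx
  · funext x j
    by_cases hx : x ≤ r
    · simp [Pth.upto, hx]
    · have h1 : p.G x j = ∅ := p.off x (fun h2 => hx (h.2 h2)) j
      simp [Pth.upto, hx, h1]

theorem Pt_exists_notin (m : ℕ) (p : Pth) (r : ℝ) : ∃ ξ : Xi, ξ ∉ evt m p r := by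
  by_contra hcon
  push Not at hcon
  have h1 : evt m p r = univ := eq_univ_of_forall hcon
  have h2 := real_evt_le m p r
  rw [h1, probReal_univ] at h2
  norm_num at h2

theorem Pt_ulim (g : ℕ → S) : ∃ s : S, ∀ᶠ m in (hyperfilter ℕ : Filter ℕ), g m = s := by
  obtain ⟨s, hs⟩ := Ultrafilter.eq_pure_of_finite ((hyperfilter ℕ).map g)
  refine ⟨s, ?_⟩
  have h1 : {x : S | x = s} ∈ (hyperfilter ℕ).map g := by
    rw [hs]
    exact Ultrafilter.mem_pure.2 rfl
  exact h1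

theorem exists_pt (y : Pth) (hy : y ∈ Y) :
    ∃ t ∈ LL, t y = 1 ∧ ∀ p, t p ≠ 0 → ∃ r ∈ y.W, p = y.upto r := by
  classical
  have hG := hy.1
  have hL := hy.2
  have hU : (hyperfilter ℕ : Filter ℕ) ≤ atTop := by
    have h1 := hyperfilter_le_cofinite (α := ℕ)
    rw [Nat.cofinite_eq_atTop] at h1
    exact h1
  choose ξ hξ using fun m => Pt_exists_notin m y y.top
  choose L hLim using fun r => Pt_ulim (fun m => val m y r (ξ m))
  have hyy : y.upto y.top = y := Pt_upto_self y y.top hG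
  set t : Pth → S := fun p => if p = y then 1 else
    if ∃ r ∈ y.W, p = y.upto r then L p.top else 0 with ht
  have hty : t y = 1 := by simp [ht]
  have htr : ∀ r ∈ y.W, r ≠ y.top → t (y.upto r) = L r := by
    intro r hr hne
    have h1 : y.upto r ≠ y := by
      intro h2
      apply hne
      have h3 := Pt_top_upto y r hr
      rw [h2] at h3
      exact h3.symm
    have h4 : ∃ r' ∈ y.W, y.upto r = y.upto r' := ⟨r, hr, rfl⟩
    simp only [ht, h1, if_false, h4, if_true]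
    rw [Pt_top_upto y r hr]
  have hsupp : ∀ p, t p ≠ 0 → ∃ r ∈ y.W, p = y.upto r := by
    intro p hp
    by_cases h1 : p = y
    · exact ⟨y.top, hG.1, by rw [hyy, h1]⟩
    · by_contra h2
      apply hp
      simp only [ht, h1, if_false, h2]
  refine ⟨t, ⟨fun p hp => ?_, fun p hp j C hC hc => ?_⟩, hty, hsupp⟩
  · obtain ⟨r, hr, rfl⟩ := hsupp p hp
    exact Pt_upto_mem_Y y r hr hL
  · by_contra hne
    obtain ⟨r0, hr0, rfl⟩ := hsupp p hne
    rw [Pt_top_upto y r0 hr0] at hC hc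
    rw [G_upto y r0 r0 le_rfl j] at hC
    have hle : r0 ≤ y.top := hG.2 hr0
    have hc1 : ∀ c ∈ C, c.1 ∈ y.W ∧ c.1 < r0 := fun c hcC => ⟨(hc c hcC).1.1, (hc c hcC).2.1⟩
    have hc2 : ∀ c ∈ C, L c.1 = c.2 := by
      intro c hcC
      have h1 := (hc c hcC).2.2
      rw [Pt_upto_upto y r0 c.1 (hc1 c hcC).2.le, htr c.1 (hc1 c hcC).1
        (ne_of_lt (lt_of_lt_of_le (hc1 c hcC).2 hle))] at h1
      exact h1
    have hev : ∀ᶠ m in (hyperfilter ℕ : Filter ℕ), ∀ c ∈ C, val m y c.1 (ξ m) = c.2 := by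
      rw [Finset.eventually_all]
      intro c hcC
      filter_upwards [hLim c.1] with m hm
      rw [hm, hc2 c hcC]
    by_cases h0 : r0 = y.top
    · subst h0
      have h1 := (evt_act y y.top (hL.1 _ hr0) j C hC hc1).filter_mono hU
      obtain ⟨m, hm1, hm2⟩ := (h1.and hev).exists
      exact hξ m (hm1 (ξ m) hm2)
    · have h1 := (val_act y r0 (hL.1 _ hr0) j C hC hc1).filter_mono hU
      obtain ⟨m, ⟨hm1, hm2⟩, hm3⟩ := ((h1.and hev).and (hLim r0)).exists
      apply hne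
      rw [htr r0 hr0 h0, ← hm3]
      exact hm1 (ξ m) hm2

end Pool.Agent.PIP
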