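import Pool.Agent.PIP.Prod

set_option autoImplicit false

open MeasureTheory Set Filter Topology
open scoped ENNReal

namespace Pool.Agent.PIP

/-- slowly growing indices: `μ_j → ∞` with `∑ K (μ_j) a_j < ∞` -/
theorem Real_slow (a : ℕ → ℝ≥0∞) (ha : ∑' j, a j ≠ ∞) (K : ℕ → ℕ) :
    ∃ mu : ℕ → ℕ, Tendsto mu atTop atTop ∧ ∑' j, (K (mu j) : ℝ≥0∞) * a j ≠ ∞ := by
  classical
  have htail : ∀ k : ℕ, ∃ N : ℕ, (K k : ℝ≥0∞) * ∑' j, a (j + N) ≤ (2⁻¹ : ℝ≥0∞) ^ k := by
    intro k
    have h1 := ENNReal.tendsto_sum_nat_add a ha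
    have h2 : Tendsto (fun N => (K k : ℝ≥0∞) * ∑' j, a (j + N)) atTop (𝓝 ((K k : ℝ≥0∞) * 0)) :=
      ENNReal.Tendsto.const_mul h1 (Or.inr (ENNReal.natCast_ne_top _))
    rw [mul_zero] at h2
    have h3 : (0 : ℝ≥0∞) < (2⁻¹ : ℝ≥0∞) ^ k := by
      exact ENNReal.pow_pos (by simp) k
    exact ((h2.eventually (ge_mem_nhds h3))).exists
  choose N hN using htail
  let N' : ℕ → ℕ := fun k => if k = 0 then 0 else N k
  let mu : ℕ → ℕ := fun j => Nat.findGreatest (fun k => N' k ≤ j) j
  have hmu : ∀ j, N' (mu j) ≤ j := fun j =>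
    Nat.findGreatest_spec (P := fun k => N' k ≤ j) (Nat.zero_le j) (by simp [N'])
  refine ⟨mu, ?_, ?_⟩
  · rw [tendsto_atTop]
    intro B
    filter_upwards [eventually_ge_atTop B, eventually_ge_atTop (N' B)] with j h1 h2
    exact Nat.le_findGreatest h1 h2
  · have h1 : ∀ j, (K (mu j) : ℝ≥0∞) * a j =
        ∑' k, if mu j = k then (K k : ℝ≥0∞) * a j else 0 := by
      intro j
      rw [tsum_eq_single (mu j)]
      · simp
      · intro k hk
        rw [if_neg (Ne.symm hk)]
    have h2 : ∀ k, (∑' j, if mu j = k then (K k : ℝ≥0∞) * a j else 0) ≤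
        (if k = 0 then (K 0 : ℝ≥0∞) * ∑' j, a j else 0) + (2⁻¹ : ℝ≥0∞) ^ k := by
      intro k
      by_cases hk : k = 0
      · subst hk
        rw [if_pos rfl]
        refine le_trans ?_ (le_self_add)
        rw [← ENNReal.tsum_mul_left]
        apply ENNReal.tsum_le_tsum
        intro j
        split_ifs
        · exact le_rfl
        · exact zero_le
      · rw [if_neg hk, zero_add]
        refine le_trans ?_ (hN k)
        have h3 : (∑' j, if mu j = k then (K k : ℝ≥0∞) * a j else 0) ≤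
            ∑' j, if N k ≤ j then (K k : ℝ≥0∞) * a j else 0 := by
          apply ENNReal.tsum_le_tsum
          intro j
          by_cases h4 : mu j = k
          · have h5 := hmu j
            rw [h4] at h5
            simp only [N', if_neg hk] at h5
            rw [if_pos h4, if_pos h5]
          · rw [if_neg h4]
            exact zero_le
        refine h3.trans (le_of_eq ?_)
        rw [← Summable.sum_add_tsum_nat_add' (k := N k) ENNReal.summable,
          ← ENNReal.tsum_mul_left]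
        rw [Finset.sum_eq_zero, zero_add]
        · apply tsum_congr
          intro j
          rw [if_pos (by omega)]
        · intro j hj
          rw [Finset.mem_range] at hj
          rw [if_neg (by omega)]
    have h3 : ∑' j, (K (mu j) : ℝ≥0∞) * a j ≤
        ∑' k, ((if k = 0 then (K 0 : ℝ≥0∞) * ∑' j, a j else 0) + (2⁻¹ : ℝ≥0∞) ^ k) := by
      calc ∑' j, (K (mu j) : ℝ≥0∞) * a j
          = ∑' j, ∑' k, (if mu j = k then (K k : ℝ≥0∞) * a j else 0) := tsum_congr h1
        _ = ∑' k, ∑' j, (if mu j = k then (K k : ℝ≥0∞) * a j else 0) := ENNReal.tsum_comm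
        _ ≤ _ := ENNReal.tsum_le_tsum h2
    refine ne_top_of_le_ne_top ?_ h3
    rw [ENNReal.tsum_add, ENNReal.tsum_geometric]
    apply ENNReal.add_ne_top.2
    constructor
    · rw [tsum_ite_eq]
      exact ENNReal.mul_ne_top (ENNReal.natCast_ne_top _) ha
    · rw [ENNReal.one_sub_inv_two, inv_inv]
      simp

theorem realization (Wf : ℕ → Set (Xi → S)) (hfin : ∀ m, (Wf m).Finite)
    (hmeas : ∀ m, ∀ f ∈ Wf m, Measurable f) (hlaw : ∀ m, ∀ f ∈ Wf m, PXi.map f = P1)
    (R : RC) (hR : Summable fun j => (PS ℕ).real (R.set j)) :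
    ∃ M : ℕ → ℕ, Tendsto M atTop atTop ∧ ∃ ξ : ℕ → Xi, ∀ f : ℕ → (Xi → S), (∀ m, f m ∈ Wf m) →
      {j | (fun n => f (M n) (ξ n)) ∈ R.set j}.Finite := by
  classical
  by_cases hne : ∀ m, (Wf m).Nonempty
  swap
  · push Not at hne
    obtain ⟨m, hm⟩ := hne
    refine ⟨id, tendsto_id, fun _ _ => 0, fun f hf => ?_⟩
    have := hf m
    rw [hm] at this
    exact absurd this (notMem_empty _)
  choose f0 hf0 using hne
  let W' : ℕ → Finset (Xi → S) := fun m => (hfin m).toFinset
  have hW' : ∀ m f, f ∈ W' m ↔ f ∈ Wf m := fun m f => Set.Finite.mem_toFinset _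
  let K : ℕ → ℕ := fun k => ∏ i : Fin (k + 1), (W' i).card
  have ha : ∑' j, PS ℕ (R.set j) ≠ ∞ := by
    have := hR.tsum_ofReal_ne_top
    have h : ∀ j, ENNReal.ofReal ((PS ℕ).real (R.set j)) = PS ℕ (R.set j) :=
      fun j => ofReal_measureReal (measure_ne_top _ _)
    simpa only [h] using this
  obtain ⟨mu, hmu, hK⟩ := Real_slow (fun j => PS ℕ (R.set j)) ha K
  let M : ℕ → ℕ := fun n => Nat.findGreatest (fun B => ∀ j, n < (R j).1 → B ≤ mu j) n
  have hM : ∀ n j, n < (R j).1 → M n ≤ mu j := fun n =>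
    Nat.findGreatest_spec (P := fun B => ∀ j, n < (R j).1 → B ≤ mu j) (Nat.zero_le n)
      (fun _ _ => Nat.zero_le _)
  have hMt : Tendsto M atTop atTop := by
    rw [tendsto_atTop]
    intro B
    have h1 : {j | mu j < B}.Finite := by
      have := hmu.eventually_ge_atTop B
      rw [eventually_atTop] at this
      obtain ⟨J, hJ⟩ := this
      refine (Set.finite_lt_nat J).subset (fun j hj => ?_)
      by_contra h
      exact absurd (hJ j (not_lt.1 h)) (not_le.2 hj)
    obtain ⟨n0, hn0⟩ := (h1.image (fun j => (R j).1)).bddAbove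
    filter_upwards [eventually_ge_atTop n0, eventually_ge_atTop B] with n hn hB
    apply Nat.le_findGreatest hB
    intro j hj
    by_contra h
    have h2 : (R j).1 ≤ n0 := hn0 ⟨j, not_le.1 h, rfl⟩
    omega
  refine ⟨M, hMt, ?_⟩
  let Q : Measure (ℕ → Xi) := Measure.infinitePi (fun _ => PXi)
  let ext : (k : ℕ) → (Fin (k + 1) → Xi → S) → ℕ → Xi → S :=
    fun k g m => if h : m < k + 1 then g ⟨m, h⟩ else f0 m
  let T : (ℕ → Xi → S) → (ℕ → Xi) → (ℕ → S) := fun f ξ n => f (M n) (ξ n)
  have hRm : ∀ j, MeasurableSet (R.set j) := by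
    intro j
    have h1 : Measurable (fun c : ℕ → S => fun i : Fin (R j).1 => c i) :=
      measurable_pi_lambda _ (fun i => measurable_pi_apply _)
    exact h1 ((R j).2 : Set (Fin (R j).1 → S)).toFinite.measurableSet
  have hT : ∀ f : ℕ → Xi → S, (∀ m, f m ∈ Wf m) → ∀ B, MeasurableSet B →
      Q (T f ⁻¹' B) = PS ℕ B := by
    intro f hf B hB
    have h1 := Measure.infinitePi_map_pi (μ := fun _ : ℕ => PXi) (f := fun n => f (M n))
      (fun n => hmeas _ _ (hf (M n)))
    have h2 : (fun n => PXi.map (f (M n))) = fun _ => P1 := funext fun n => hlaw _ _ (hf _)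
    rw [h2] at h1
    have h3 : Measurable (T f) :=
      measurable_pi_lambda _ (fun n => (hmeas _ _ (hf (M n))).comp (measurable_pi_apply n))
    rw [← Measure.map_apply h3 hB]
    show (Measure.map (fun x i => f (M i) (x i)) Q) B = _
    unfold PS
    rw [← h1]
  let E : ℕ → Set (ℕ → Xi) := fun j =>
    ⋃ g ∈ Fintype.piFinset (fun i : Fin (mu j + 1) => W' i), T (ext (mu j) g) ⁻¹' (R.set j)
  have hE : ∀ j, Q (E j) ≤ (K (mu j) : ℝ≥0∞) * PS ℕ (R.set j) := by
    intro j
    calc Q (E j) ≤ ∑ g ∈ Fintype.piFinset (fun i : Fin (mu j + 1) => W' i),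
          Q (T (ext (mu j) g) ⁻¹' (R.set j)) := measure_biUnion_finset_le _ _
      _ = ∑ g ∈ Fintype.piFinset (fun i : Fin (mu j + 1) => W' i), PS ℕ (R.set j) := by
          apply Finset.sum_congr rfl
          intro g hg
          apply hT _ _ _ (hRm j)
          intro m
          by_cases h : m < mu j + 1
          · simp only [ext, dif_pos h]
            exact (hW' _ _).1 (Fintype.mem_piFinset.1 hg ⟨m, h⟩)
          · simp only [ext, dif_neg h]
            exact hf0 m
      _ = _ := by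
          rw [Finset.sum_const, Fintype.card_piFinset, nsmul_eq_mul]
  have hsum : ∑' j, Q (E j) ≠ ∞ := ne_top_of_le_ne_top hK (ENNReal.tsum_le_tsum hE)
  have hQ : IsProbabilityMeasure Q := by
    show IsProbabilityMeasure (Measure.infinitePi (fun _ : ℕ => PXi))
    infer_instance
  obtain ⟨ξ, hξ⟩ := (ae_eventually_notMem hsum).exists
  refine ⟨ξ, fun f hf => ?_⟩
  rw [eventually_atTop] at hξ
  obtain ⟨J, hJ⟩ := hξ
  refine (Set.finite_lt_nat J).subset (fun j hj => ?_)
  by_contra h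
  apply hJ j (not_lt.1 h)
  simp only [E, mem_iUnion]
  refine ⟨fun i => f i, Fintype.mem_piFinset.2 (fun i => (hW' _ _).2 (hf _)), ?_⟩
  have h1 : (fun i : Fin (R j).1 => T (ext (mu j) (fun i => f i)) ξ i) =
      fun i : Fin (R j).1 => f (M i) (ξ i) := by
    funext i
    have h2 : M i < mu j + 1 := Nat.lt_succ_of_le (hM i j i.2)
    simp only [T, ext, dif_pos h2]
  show (fun i : Fin (R j).1 => T (ext (mu j) (fun i => f i)) ξ i) ∈ (R j).2
  rw [h1]
  exact hj

end Pool.Agent.PIP
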