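import Pool.Agent.PIP.Prod

set_option autoImplicit false

open MeasureTheory Set Filter Topology
open scoped ENNReal

namespace Pool.Agent.PIP

open Classical in
/-- extension of a sequence along an injection -/
noncomputable def exta (a : ℕ ↪ ℝ) (c : ℕ → S) : ℝ → S :=
  fun α => if h : ∃ n, a n = α then c h.choose else 0

theorem exta_apply (a : ℕ ↪ ℝ) (c : ℕ → S) (n : ℕ) : exta a c (a n) = c n := by
  have h : ∃ k, a k = a n := ⟨n, rfl⟩
  unfold exta
  rw [dif_pos h]
  exact congrArg c (a.injective h.choose_spec)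

theorem Red_measurable_exta (a : ℕ ↪ ℝ) : Measurable (exta a) := by
  rw [measurable_pi_iff]
  intro α
  unfold exta
  by_cases h : ∃ n, a n = α
  · simp only [dif_pos h]
    exact measurable_pi_apply _
  · simp only [dif_neg h]
    exact measurable_const

/-- Measurable sets depend on countably many coordinates. -/
theorem Red_countable (B : Set (ℝ → S)) (hB : MeasurableSet B) :
    ∃ I : Set ℝ, I.Countable ∧ ∀ x y : ℝ → S, (∀ i ∈ I, x i = y i) → (x ∈ B ↔ y ∈ B) := by
  let M : MeasurableSpace (ℝ → S) :=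
    { MeasurableSet' := fun B => ∃ I : Set ℝ, I.Countable ∧
        ∀ x y : ℝ → S, (∀ i ∈ I, x i = y i) → (x ∈ B ↔ y ∈ B)
      measurableSet_empty := ⟨∅, countable_empty, fun x y _ => by simp⟩
      measurableSet_compl := by
        rintro B ⟨I, hI, h⟩
        exact ⟨I, hI, fun x y hxy => not_congr (h x y hxy)⟩
      measurableSet_iUnion := by
        intro f hf
        choose I hI h using hf
        refine ⟨⋃ n, I n, countable_iUnion hI, fun x y hxy => ?_⟩
        rw [mem_iUnion, mem_iUnion]
        exact exists_congr fun n => h n x y fun i hi => hxy i (mem_iUnion.mpr ⟨n, hi⟩) }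
  have hle : (MeasurableSpace.pi : MeasurableSpace (ℝ → S)) ≤ M := by
    refine iSup_le fun α => ?_
    rintro _ ⟨s, _, rfl⟩
    refine ⟨{α}, countable_singleton α, fun x y hxy => ?_⟩
    rw [mem_preimage, mem_preimage, hxy α rfl]
  exact hle B hB

/-- an injective enumeration covering a given countable set -/
theorem Red_enum (I : Set ℝ) (hI : I.Countable) : ∃ a : ℕ ↪ ℝ, ∀ i ∈ I, ∃ n, a n = i := by
  have h1 : (I ∪ range (fun n : ℕ => (n : ℝ))).Countable := hI.union (countable_range _)
  have h2 : (I ∪ range (fun n : ℕ => (n : ℝ))).Infinite :=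
    (infinite_range_of_injective Nat.cast_injective).mono subset_union_right
  obtain ⟨e⟩ := Set.countable_infinite_iff_nonempty_denumerable.mp ⟨h1, h2⟩
  have E := @Denumerable.eqv _ e
  refine ⟨E.symm.toEmbedding.trans (Function.Embedding.subtype _), fun i hi => ?_⟩
  refine ⟨E ⟨i, Or.inl hi⟩, ?_⟩
  rw [Function.Embedding.trans_apply, Equiv.coe_toEmbedding, Equiv.symm_apply_apply]
  rfl

/-- the law of a subfamily -/
theorem Red_map (a : ℕ ↪ ℝ) : (PS ℝ).map (fun x n => x (a n)) = PS ℕ := by
  classical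
  unfold PS
  apply Measure.eq_infinitePi
  intro s t ht
  rw [Measure.map_apply (by fun_prop) (MeasurableSet.pi s.countable_toSet fun i _ => ht i)]
  have h1 : (fun (x : ℝ → S) (n : ℕ) => x (a n)) ⁻¹' (Set.pi (s : Set ℕ) t) =
      Set.pi ((s.map a : Finset ℝ) : Set ℝ) (Function.extend a t (fun _ => univ)) := by
    ext x
    simp only [mem_preimage, Set.mem_pi, Finset.mem_coe, Finset.mem_map]
    constructor
    · rintro h _ ⟨n, hn, rfl⟩
      rw [a.injective.extend_apply]
      exact h n hn
    · intro h n hn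
      have := h (a n) ⟨n, hn, rfl⟩
      rw [a.injective.extend_apply] at this
      exact this
  rw [h1, Measure.infinitePi_pi, Finset.prod_map]
  · refine Finset.prod_congr rfl fun n _ => ?_
    rw [a.injective.extend_apply]
  · intro i hi
    obtain ⟨n, _, rfl⟩ := Finset.mem_map.mp hi
    rw [a.injective.extend_apply]
    exact ht n

/-- a measurable set of positive measure is seen on countably many coordinates -/
theorem reduce (B : Set (ℝ → S)) (hB : MeasurableSet B) (h0 : PS ℝ B ≠ 0) :
    ∃ a : ℕ ↪ ℝ, MeasurableSet {c : ℕ → S | exta a c ∈ B} ∧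
      PS ℕ {c : ℕ → S | exta a c ∈ B} ≠ 0 := by
  obtain ⟨I, hI, h⟩ := Red_countable B hB
  obtain ⟨a, ha⟩ := Red_enum I hI
  have hm : MeasurableSet {c : ℕ → S | exta a c ∈ B} := Red_measurable_exta a hB
  refine ⟨a, hm, ?_⟩
  rw [← Red_map a, Measure.map_apply (by fun_prop) hm]
  have h1 : (fun (x : ℝ → S) (n : ℕ) => x (a n)) ⁻¹' {c : ℕ → S | exta a c ∈ B} = B := by
    ext x
    show exta a (fun n => x (a n)) ∈ B ↔ x ∈ B
    apply h
    intro i hi
    obtain ⟨n, rfl⟩ := ha i hi
    rw [exta_apply]
  rw [h1]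
  exact h0

end Pool.Agent.PIP
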