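import Pool.Agent.PIP.Prod

set_option autoImplicit false

open MeasureTheory Set Filter Topology ProbabilityTheory
open scoped ENNReal

namespace Pool.Agent.PIP

/-- the saturation of a set under finite modifications -/
def Tail_sat (B : Set (ℕ → S)) : Set (ℕ → S) := {c | ∃ s, modi s c ∈ B}

theorem Tail_sat_eq (B : Set (ℕ → S)) (n : ℕ) :
    Tail_sat B = ⋃ s : {s : Σ n : ℕ, (Fin n → S) // n ≤ s.1}, (modi s.1) ⁻¹' B := by
  ext c
  simp only [Tail_sat, mem_ofPred_eq, mem_iUnion, mem_preimage, Subtype.exists, exists_prop]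
  constructor
  · rintro ⟨s, hs⟩
    refine ⟨⟨max n s.1, fun k => if h : (k : ℕ) < s.1 then s.2 ⟨k, h⟩ else c k⟩,
      le_max_left _ _, ?_⟩
    convert hs using 1
    funext k
    unfold modi
    by_cases h1 : k < s.1
    · have h2 : k < max n s.1 := lt_max_of_lt_right h1
      simp [h1]
    · by_cases h2 : k < n
      · simp [h1, h2]
      · simp [h1, h2]
  · rintro ⟨s, -, hs⟩
    exact ⟨s, hs⟩

theorem Tail_meas_modi (n : ℕ) (s : Σ n : ℕ, (Fin n → S)) (hs : n ≤ s.1) :
    Measurable[⨆ i ≥ n, MeasurableSpace.comap (fun c : ℕ → S => c i) inferInstance]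
      (modi s) := by
  rw [@measurable_pi_iff]
  intro k
  unfold modi
  by_cases h : k < s.1
  · simp only [h, dif_pos]
    exact measurable_const
  · simp only [h, dif_neg, not_false_eq_true]
    have h1 : n ≤ k := hs.trans (not_lt.1 h)
    have h2 : MeasurableSpace.comap (fun c : ℕ → S => c k) inferInstance ≤
        ⨆ i ≥ n, MeasurableSpace.comap (fun c : ℕ → S => c i) inferInstance :=
      le_iSup₂_of_le k h1 le_rfl
    exact (comap_measurable (fun c : ℕ → S => c k)).mono h2 le_rfl

theorem Tail_sat_meas (B : Set (ℕ → S)) (hB : MeasurableSet B) :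
    MeasurableSet[limsup (fun i : ℕ => MeasurableSpace.comap (fun c : ℕ → S => c i) inferInstance)
      atTop] (Tail_sat B) := by
  rw [limsup_eq_iInf_iSup_of_nat, MeasurableSpace.measurableSet_iInf]
  intro n
  rw [Tail_sat_eq B n]
  refine MeasurableSet.iUnion fun s => ?_
  exact Tail_meas_modi n s.1 s.2 hB

theorem Tail_null (B : Set (ℕ → S)) (hB : MeasurableSet B) (h0 : PS ℕ B ≠ 0) :
    PS ℕ (Tail_sat B)ᶜ = 0 := by
  have hle : ∀ i : ℕ, MeasurableSpace.comap (fun c : ℕ → S => c i) inferInstance ≤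
      (inferInstance : MeasurableSpace (ℕ → S)) := fun i => (measurable_pi_apply i).comap_le
  have hind : iIndepFun (fun (i : ℕ) (ξ : ℕ → S) => ξ i) (PS ℕ) :=
    iIndepFun_infinitePi (P := fun _ : ℕ => P1)
      (X := fun _ x => x) (fun _ => measurable_id)
  have h1 := measure_zero_or_one_of_measurableSet_limsup_atTop hle hind (Tail_sat_meas B hB)
  have hsub : B ⊆ Tail_sat B := by
    intro c hc
    refine ⟨⟨0, fun i => i.elim0⟩, ?_⟩
    have : modi ⟨0, fun i => i.elim0⟩ c = c := by
      funext k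
      simp [modi]
    rw [this]
    exact hc
  have h2 : PS ℕ (Tail_sat B) ≠ 0 := fun h => h0 (measure_mono_null hsub h)
  have h3 : PS ℕ (Tail_sat B) = 1 := h1.resolve_left h2
  have hm : MeasurableSet (Tail_sat B) := by
    rw [Tail_sat_eq B 0]
    refine MeasurableSet.iUnion fun s => ?_
    have hle2 : (⨆ i ≥ 0, MeasurableSpace.comap (fun c : ℕ → S => c i) inferInstance) ≤
      (inferInstance : MeasurableSpace (ℕ → S)) := iSup₂_le fun i _ => hle i
    exact ((Tail_meas_modi 0 s.1 s.2).mono hle2 le_rfl) hB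
  exact (prob_compl_eq_zero_iff hm).2 h3

/-- the set of points whose cylinder of length `n` is contained in `U` -/
def Tail_V (U : Set (ℕ → S)) (n : ℕ) : Set (ℕ → S) :=
  {c | ∀ d : ℕ → S, (∀ i < n, d i = c i) → d ∈ U}

theorem Tail_V_mono (U : Set (ℕ → S)) : Monotone (Tail_V U) := by
  intro m n hmn c hc d hd
  exact hc d fun i hi => hd i (hi.trans_le hmn)

theorem Tail_V_union (U : Set (ℕ → S)) (hU : IsOpen U) : ⋃ n, Tail_V U n = U := by
  ext c
  simp only [mem_iUnion]
  constructor
  · rintro ⟨n, hn⟩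
    exact hn c fun i _ => rfl
  · intro hc
    rw [isOpen_pi_iff] at hU
    obtain ⟨I, u, hu, hs⟩ := hU c hc
    refine ⟨I.sup id + 1, fun d hd => hs ?_⟩
    intro i hi
    have h1 : i < I.sup id + 1 := Nat.lt_succ_of_le (Finset.le_sup (f := id) hi)
    rw [hd i h1]
    exact (hu i hi).2

/-- a set depending on the first `n` coordinates only -/
def Tail_dep (n : ℕ) (A : Set (ℕ → S)) : Prop :=
  ∀ c d : ℕ → S, (∀ i < n, d i = c i) → (c ∈ A ↔ d ∈ A)

open Classical in
/-- the code of such a set -/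
noncomputable def Tail_code (n : ℕ) (A : Set (ℕ → S)) : Σ n : ℕ, Finset (Fin n → S) :=
  ⟨n, Finset.univ.filter fun w => (fun i => if h : i < n then w ⟨i, h⟩ else 0) ∈ A⟩

theorem Tail_code_set (n : ℕ) (A : Set (ℕ → S)) (hA : Tail_dep n A) :
    {c : ℕ → S | (fun i : Fin (Tail_code n A).1 => c i) ∈ (Tail_code n A).2} = A := by
  classical
  ext c
  have h1 : (c ∈ {c : ℕ → S | (fun i : Fin (Tail_code n A).1 => c i) ∈ (Tail_code n A).2}) ↔
      (fun i : ℕ => if h : i < n then c i else 0) ∈ A := by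
    show (fun i : Fin n => c i) ∈ (Finset.univ.filter fun w : Fin n → S =>
      (fun i => if h : i < n then w ⟨i, h⟩ else 0) ∈ A) ↔ _
    rw [Finset.mem_filter]
    simp
  rw [h1]
  refine hA _ _ ?_
  intro i hi
  simp [hi]

theorem Tail_V_dep (U : Set (ℕ → S)) (m n : ℕ) (hmn : m ≤ n) : Tail_dep n (Tail_V U m) := by
  intro c d hcd
  constructor
  · intro h e he
    exact h e fun i hi => (he i hi).trans (hcd i (hi.trans_le hmn))
  · intro h e he
    exact h e fun i hi => (he i hi).trans (hcd i (hi.trans_le hmn)).symm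

theorem Tail_dis_dep (U : Set (ℕ → S)) (n : ℕ) : Tail_dep n (disjointed (Tail_V U) n) := by
  intro c d hcd
  rcases n with _ | n
  · rw [disjointed_zero]
    exact Tail_V_dep U 0 0 le_rfl c d hcd
  · rw [(Tail_V_mono U).disjointed_add_one]
    exact and_congr (Tail_V_dep U (n + 1) (n + 1) le_rfl c d hcd)
      (not_congr (Tail_V_dep U n (n + 1) (Nat.le_succ n) c d hcd))

theorem Tail_dep_meas (n : ℕ) (A : Set (ℕ → S)) (hA : Tail_dep n A) : MeasurableSet A := by
  rw [← Tail_code_set n A hA]
  have h : Measurable fun (c : ℕ → S) (i : Fin (Tail_code n A).1) => c i :=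
    measurable_pi_lambda _ fun i => measurable_pi_apply _
  exact h (Finset.measurableSet _)

theorem tail_code (B : Set (ℕ → S)) (hB : MeasurableSet B) (h0 : PS ℕ B ≠ 0) :
    ∃ R : RC, (Summable fun j => (PS ℕ).real (R.set j)) ∧
      ∀ c : ℕ → S, {j | c ∈ R.set j}.Finite → ∃ s, modi s c ∈ B := by
  have hN := Tail_null B hB h0
  have hU : ∀ k : ℕ, ∃ U : Set (ℕ → S), (Tail_sat B)ᶜ ⊆ U ∧ IsOpen U ∧
      PS ℕ U < ENNReal.ofReal ((1 / 2) ^ k) := by
    intro k
    refine Set.exists_isOpen_lt_of_lt _ _ ?_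
    rw [hN]
    exact ENNReal.ofReal_pos.2 (by positivity)
  choose U hU1 hU2 hU3 using hU
  let Z : ℕ × ℕ → Set (ℕ → S) := fun p => disjointed (Tail_V (U p.1)) p.2
  let R : RC := fun j => Tail_code (Nat.unpair j).2 (Z (Nat.unpair j))
  have hR : ∀ j, R.set j = Z (Nat.unpair j) := by
    intro j
    exact Tail_code_set _ _ (Tail_dis_dep _ _)
  refine ⟨R, ?_, ?_⟩
  · have hs : Summable fun p : ℕ × ℕ => (PS ℕ).real (Z p) := by
      have hk : ∀ k, HasSum (fun n => (PS ℕ).real (Z (k, n))) ((PS ℕ).real (U k)) := by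
        intro k
        have hm : ∀ n, MeasurableSet (Z (k, n)) := fun n => Tail_dep_meas n _ (Tail_dis_dep _ _)
        have h1 : HasSum (fun n => (PS ℕ) (Z (k, n))) ((PS ℕ) (U k)) := by
          have h2 : U k = ⋃ n, Z (k, n) := by
            have : (⋃ n, Z (k, n)) = ⋃ n, disjointed (Tail_V (U k)) n := rfl
            rw [this, iUnion_disjointed, Tail_V_union _ (hU2 k)]
          rw [h2, measure_iUnion (disjoint_disjointed _) hm]
          exact ENNReal.summable.hasSum
        have h3 := ENNReal.hasSum_toReal (f := fun n => (PS ℕ) (Z (k, n)))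
          (by rw [h1.tsum_eq]; exact measure_ne_top _ _)
        rw [← ENNReal.tsum_toReal_eq (fun n => measure_ne_top _ _), h1.tsum_eq] at h3
        exact h3
      rw [summable_prod_of_nonneg (fun p => measureReal_nonneg)]
      refine ⟨fun k => (hk k).summable, ?_⟩
      refine Summable.of_nonneg_of_le (fun k => tsum_nonneg fun n => measureReal_nonneg) ?_
        summable_geometric_two
      intro k
      rw [(hk k).tsum_eq]
      exact ENNReal.toReal_le_of_le_ofReal (by positivity) (hU3 k).le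
    have h2 := (Nat.pairEquiv.symm.summable_iff (f := fun p : ℕ × ℕ => (PS ℕ).real (Z p))).2 hs
    refine h2.congr fun j => ?_
    rw [hR]
    rfl
  · intro c hfin
    by_contra hc
    have hcN : c ∈ (Tail_sat B)ᶜ := hc
    have h1 : ∀ k, ∃ n, c ∈ Z (k, n) := by
      intro k
      have h2 : c ∈ U k := hU1 k hcN
      rw [← Tail_V_union _ (hU2 k), ← iUnion_disjointed] at h2
      simpa using h2
    choose n hn using h1
    have hinj : Function.Injective fun k => Nat.pair k (n k) := by
      intro k k' h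
      have h2 := congrArg Nat.unpair h
      simp only [Nat.unpair_pair] at h2
      exact (Prod.ext_iff.1 h2).1
    refine (Set.infinite_range_of_injective hinj).mono ?_ hfin
    rintro _ ⟨k, rfl⟩
    show c ∈ R.set _
    rw [hR, Nat.unpair_pair]
    exact hn k

end Pool.Agent.PIP
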