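import Pool.Agent.PIP.Ext
import Pool.Agent.PIP.Hell

set_option autoImplicit false

open MeasureTheory Set Filter Topology
open scoped ENNReal

namespace Pool.Agent.PIP

/-! ## the order on paths -/

/-- end extension -/
def Zorn_le (p q : Pth) : Prop := ∀ r ∈ p.W, r ∈ q.W ∧ q.upto r = p.upto r

theorem Zorn_le_refl (p : Pth) : Zorn_le p p := fun _ hr => ⟨hr, rfl⟩

theorem Zorn_le_trans {p q s : Pth} (h1 : Zorn_le p q) (h2 : Zorn_le q s) : Zorn_le p s := by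
  intro r hr
  obtain ⟨h3, h4⟩ := h1 r hr
  obtain ⟨h5, h6⟩ := h2 r h3
  exact ⟨h5, h6.trans h4⟩

theorem Zorn_init {p q : Pth} (h : Zorn_le p q) {r r' : ℝ} (hr : r ∈ p.W) (hr' : r' ∈ q.W)
    (hle : r' ≤ r) : r' ∈ p.W := by
  have h1 : r' ∈ (q.upto r).W := ⟨hr', hle⟩
  rw [(h r hr).2] at h1
  exact h1.1

theorem Zorn_G {p q : Pth} (h : Zorn_le p q) {r : ℝ} (hr : r ∈ p.W) (j : ℕ) :
    q.G r j = p.G r j := by
  rw [← G_upto q r r le_rfl j, (h r hr).2, G_upto p r r le_rfl j]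

theorem Zorn_chain_init {c : Set Pth} (hc : ∀ p ∈ c, ∀ q ∈ c, Zorn_le p q ∨ Zorn_le q p)
    {p q : Pth} (hp : p ∈ c) (hq : q ∈ c) {r r' : ℝ} (hr : r ∈ p.W) (hr' : r' ∈ q.W)
    (hle : r' ≤ r) : r' ∈ p.W := by
  rcases hc p hp q hq with h | h
  · exact Zorn_init h hr hr' hle
  · exact (h r' hr').1

theorem Zorn_chain_G {c : Set Pth} (hc : ∀ p ∈ c, ∀ q ∈ c, Zorn_le p q ∨ Zorn_le q p)
    {p q : Pth} (hp : p ∈ c) (hq : q ∈ c) {r : ℝ} (hr : r ∈ p.W) (hr' : r ∈ q.W) (j : ℕ) :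
    q.G r j = p.G r j := by
  rcases hc p hp q hq with h | h
  · exact Zorn_G h hr j
  · exact (Zorn_G h hr' j).symm

theorem Zorn_wf {c : Set Pth} (hc : ∀ p ∈ c, ∀ q ∈ c, Zorn_le p q ∨ Zorn_le q p) :
    (⋃ p ∈ c, p.W).IsWF := by
  rw [Set.isWF_iff_no_descending_seq]
  intro f hf hr
  have h0 := hr 0
  simp only [mem_iUnion, exists_prop] at h0
  obtain ⟨p, hp, h0⟩ := h0
  have h1 := (Set.isWF_iff_no_descending_seq.1 p.wf) f hf
  apply h1
  intro n
  have h2 := hr n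
  simp only [mem_iUnion, exists_prop] at h2
  obtain ⟨q, hq, h2⟩ := h2
  exact Zorn_chain_init hc hp hq h0 h2 (hf.antitone (Nat.zero_le n))

open Classical in
/-- union of a chain of paths -/
noncomputable def Zorn_sup (c : Set Pth) (hc : ∀ p ∈ c, ∀ q ∈ c, Zorn_le p q ∨ Zorn_le q p) :
    Pth where
  W := ⋃ p ∈ c, p.W
  G := fun r j => if h : ∃ p ∈ c, r ∈ p.W then h.choose.G r j else ∅
  wf := Zorn_wf hc
  off := by
    intro r hr j
    rw [dif_neg]
    rintro ⟨p, hp, h⟩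
    exact hr (by simp only [mem_iUnion, exists_prop]; exact ⟨p, hp, h⟩)

theorem Zorn_sup_G (c : Set Pth) (hc : ∀ p ∈ c, ∀ q ∈ c, Zorn_le p q ∨ Zorn_le q p)
    {p : Pth} (hp : p ∈ c) {r : ℝ} (hr : r ∈ p.W) (j : ℕ) :
    (Zorn_sup c hc).G r j = p.G r j := by
  have h : ∃ p ∈ c, r ∈ p.W := ⟨p, hp, hr⟩
  have h1 : (Zorn_sup c hc).G r j = h.choose.G r j := by
    unfold Zorn_sup
    exact dif_pos h
  rw [h1]
  exact Zorn_chain_G hc hp h.choose_spec.1 hr h.choose_spec.2 j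

theorem Zorn_le_sup (c : Set Pth) (hc : ∀ p ∈ c, ∀ q ∈ c, Zorn_le p q ∨ Zorn_le q p)
    {p : Pth} (hp : p ∈ c) : Zorn_le p (Zorn_sup c hc) := by
  intro r hr
  have hW : ∀ x, x ∈ (Zorn_sup c hc).W ↔ ∃ q ∈ c, x ∈ q.W := by
    intro x
    show x ∈ (⋃ p ∈ c, p.W) ↔ _
    simp only [mem_iUnion, exists_prop]
  refine ⟨(hW r).2 ⟨p, hp, hr⟩, ?_⟩
  have hin : ∀ x ≤ r, x ∈ (Zorn_sup c hc).W → x ∈ p.W := by
    intro x hx h
    obtain ⟨q, hq, h⟩ := (hW x).1 h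
    exact Zorn_chain_init hc hp hq hr h hx
  apply Pth.ext
  · ext x
    show x ∈ (Zorn_sup c hc).W ∩ Iic r ↔ x ∈ p.W ∩ Iic r
    constructor
    · rintro ⟨h1, h2⟩
      exact ⟨hin x h2 h1, h2⟩
    · rintro ⟨h1, h2⟩
      exact ⟨(hW x).2 ⟨p, hp, h1⟩, h2⟩
  · funext x j
    by_cases hx : x ≤ r
    · rw [G_upto _ _ _ hx, G_upto _ _ _ hx]
      by_cases hxp : x ∈ p.W
      · exact Zorn_sup_G c hc hp hxp j
      · rw [p.off x hxp j, (Zorn_sup c hc).off x (fun h => hxp (hin x hx h)) j]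
    · simp [Pth.upto, hx]

/-- the abstract growth argument -/
theorem Zorn_main (Ψ : Pth → ℝ)
    (hmono : ∀ p : Pth, ∀ r ∈ p.W, Ψ (p.upto r) ≤ Ψ p)
    (hstep : ∀ p : Pth, Legit p → ∀ ρ, (∀ r ∈ p.W, r < ρ) → ∃ p' : Pth,
      p'.W = insert ρ p.W ∧ (∀ r ∈ p.W, p'.upto r = p.upto r) ∧ Legit p' ∧ Ψ p < Ψ p') :
    False := by
  classical
  let P : Set Pth := {p | Legit p ∧ ∀ r ∈ p.W, r < Ψ (p.upto r)}
  have hz : ∃ m : P, ∀ a : P, Zorn_le m.1 a.1 → Zorn_le a.1 m.1 := by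
    refine exists_maximal_of_chains_bounded (r := fun a b : P => Zorn_le a.1 b.1) ?_
      (fun h1 h2 => Zorn_le_trans h1 h2)
    intro c hc
    have hc' : ∀ p ∈ (Subtype.val '' c), ∀ q ∈ (Subtype.val '' c),
        Zorn_le p q ∨ Zorn_le q p := by
      rintro _ ⟨p, hp, rfl⟩ _ ⟨q, hq, rfl⟩
      by_cases h : p = q
      · subst h
        exact Or.inl (Zorn_le_refl _)
      · exact hc hp hq h
    have hW : ∀ x, x ∈ (Zorn_sup _ hc').W ↔ ∃ q ∈ c, x ∈ q.1.W := by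
      intro x
      show x ∈ (⋃ p ∈ (Subtype.val '' c), p.W) ↔ _
      simp only [mem_iUnion, exists_prop, mem_image]
      constructor
      · rintro ⟨_, ⟨q, hq, rfl⟩, h⟩
        exact ⟨q, hq, h⟩
      · rintro ⟨q, hq, h⟩
        exact ⟨_, ⟨q, hq, rfl⟩, h⟩
    have hup : ∀ x, ∀ q ∈ c, x ∈ q.1.W → (Zorn_sup _ hc').upto x = q.1.upto x := by
      intro x q hq hx
      exact (Zorn_le_sup _ hc' (p := q.1) ⟨q, hq, rfl⟩ x hx).2
    have hP : (Zorn_sup _ hc') ∈ P := by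
      refine ⟨(legit_iff _).2 ?_, ?_⟩
      · intro r hr
        obtain ⟨q, hq, h⟩ := (hW r).1 hr
        rw [hup r q hq h]
        exact (legit_iff _).1 q.2.1 r h
      · intro r hr
        obtain ⟨q, hq, h⟩ := (hW r).1 hr
        rw [hup r q hq h]
        exact q.2.2 r h
    refine ⟨⟨_, hP⟩, ?_⟩
    intro a ha
    exact Zorn_le_sup _ hc' ⟨a, ha, rfl⟩
  obtain ⟨⟨p, hp⟩, hmax⟩ := hz
  have hρ : ∀ r ∈ p.W, r < Ψ p := fun r hr => lt_of_lt_of_le (hp.2 r hr) (hmono p r hr)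
  obtain ⟨p', hW, hup, hL, hlt⟩ := hstep p hp.1 (Ψ p) hρ
  have hP' : p' ∈ P := by
    refine ⟨hL, ?_⟩
    intro r hr
    rw [hW] at hr
    rcases hr with rfl | hr
    · have h1 : p'.upto (Ψ p) = p' := by
        apply upto_of_forall_le
        intro x hx
        rw [hW] at hx
        rcases hx with rfl | hx
        · exact le_rfl
        · exact (hρ x hx).le
      rw [h1]
      exact hlt
    · rw [hup r hr]
      exact hp.2 r hr
  have h1 : Zorn_le p p' := fun r hr => ⟨by rw [hW]; exact Or.inr hr, hup r hr⟩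
  have h2 := hmax ⟨p', hP'⟩ h1
  have h3 : Ψ p ∈ p'.W := by rw [hW]; exact Or.inl rfl
  exact lt_irrefl _ (hρ _ (h2 _ h3).1)

/-! ## finitely additive set functions -/

theorem Zorn_fa_mono {T : Type} {μ : Set T → ℝ} (h : IsFA μ) {A B : Set T} (hAB : A ⊆ B) :
    μ A ≤ μ B := by
  have h1 := h.add A (B \ A) disjoint_sdiff_self_right
  rw [union_sdiff_cancel hAB] at h1
  linarith [h.nonneg (B \ A)]

theorem Zorn_fa_smul {T : Type} {μ : Set T → ℝ} (h : IsFA μ) {c : ℝ} (hc : 0 ≤ c) :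
    IsFA (fun A => c * μ A) := by
  constructor
  · intro A
    exact mul_nonneg hc (h.nonneg A)
  · intro A B hAB
    show c * μ (A ∪ B) = c * μ A + c * μ B
    rw [h.add A B hAB]; ring

theorem Zorn_Hl_le {μ : Set (Pth → S) → ℝ} {p p' : Pth} {ρ : ℝ} (hW : p'.W = insert ρ p.W)
    (hup : ∀ r ∈ p.W, p'.upto r = p.upto r) : Hl μ p' ≤ Hl μ p := by
  have hne : Nonempty {A : Finset ℝ // (A : Set ℝ) ⊆ p.W} := ⟨⟨∅, by simp⟩⟩
  refine le_ciInf fun A => ?_
  have h1 : hel μ p' A.1 = hel μ p A.1 := by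
    apply hel_of_upto
    intro r hr
    have hr' : r ∈ p.W := A.2 hr
    exact ⟨by rw [hW]; exact Or.inr hr', hr', hup r hr'⟩
  rw [← h1]
  apply Hl_le
  intro r hr
  rw [hW]
  exact Or.inr (A.2 hr)

/-- some node is unbiased for countably many finitely additive set functions -/
theorem nonsmall (μ : ℕ → Set (Pth → S) → ℝ) (h : ∀ i, IsFA (μ i)) :
    ∃ y ∈ Y, ∀ i, μ i {t ∈ LL | t y = 1} = μ i {t ∈ LL | t y = 2} := by
  by_contra hcon
  push Not at hcon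
  -- normalisation
  have hc0 : ∀ i, 0 < 1 / (1 + μ i univ) := by
    intro i
    have := (h i).nonneg univ
    positivity
  let κ : ℕ → Set (Pth → S) → ℝ := fun i A => 1 / (1 + μ i univ) * μ i A
  have hκ : ∀ i, IsFA (κ i) := fun i => Zorn_fa_smul (h i) (hc0 i).le
  have hκ1 : ∀ i, κ i univ ≤ 1 := by
    intro i
    show 1 / (1 + μ i univ) * μ i univ ≤ 1
    have h1 := (h i).nonneg univ
    rw [one_div, inv_mul_le_iff₀ (by linarith)]
    linarith
  have hκA : ∀ i A, κ i A ≤ 1 := fun i A => (Zorn_fa_mono (hκ i) (subset_univ A)).trans (hκ1 i)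
  have hκ0 : ∀ i A, 0 ≤ κ i A := fun i A => (hκ i).nonneg A
  have hbias : ∀ y ∈ Y, ∃ i, κ i {t ∈ LL | t y = 1} ≠ κ i {t ∈ LL | t y = 2} := by
    intro y hy
    obtain ⟨i, hi⟩ := hcon y hy
    refine ⟨i, fun h1 => hi ?_⟩
    exact mul_left_cancel₀ (hc0 i).ne' h1
  -- the common dominating set function
  have hsw : Summable (fun i : ℕ => ((1 : ℝ) / 2) ^ (i + 4)) := by
    have := (summable_geometric_of_lt_one (by norm_num : (0 : ℝ) ≤ 1 / 2) (by norm_num)).mul_left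
      (((1 : ℝ) / 2) ^ 4)
    refine this.congr fun i => ?_
    rw [pow_add]; ring
  have hsum : ∀ A, Summable (fun i : ℕ => ((1 : ℝ) / 2) ^ (i + 4) * κ i A) := by
    intro A
    refine Summable.of_nonneg_of_le (fun i => mul_nonneg (by positivity) (hκ0 i A)) (fun i => ?_) hsw
    have : (0 : ℝ) < (1 / 2) ^ (i + 4) := by positivity
    nlinarith [hκA i A]
  let ν : Set (Pth → S) → ℝ := fun A => ∑' i : ℕ, ((1 : ℝ) / 2) ^ (i + 4) * κ i A
  have hν : IsFA ν := by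
    constructor
    · intro A
      exact tsum_nonneg fun i => mul_nonneg (by positivity) (hκ0 i A)
    · intro A B hAB
      show ∑' i : ℕ, ((1 : ℝ) / 2) ^ (i + 4) * κ i (A ∪ B) = _
      rw [← (hsum A).tsum_add (hsum B)]
      refine tsum_congr fun i => ?_
      rw [(hκ i).add A B hAB]; ring
  have hν1 : ν univ ≤ 1 / 8 := by
    have h1 : ν univ ≤ ∑' i : ℕ, ((1 : ℝ) / 2) ^ (i + 4) := by
      refine (hsum univ).tsum_le_tsum (fun i => ?_) hsw
      have : (0 : ℝ) < (1 / 2) ^ (i + 4) := by positivity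
      nlinarith [hκ1 i]
    have h2 : ∑' i : ℕ, ((1 : ℝ) / 2) ^ (i + 4) = 1 / 8 := by
      have h3 : ∀ i : ℕ, ((1 : ℝ) / 2) ^ (i + 4) = (1 / 2) ^ 4 * (1 / 2) ^ i := by
        intro i; rw [pow_add]; ring
      rw [tsum_congr h3, tsum_mul_left, tsum_geometric_of_lt_one (by norm_num) (by norm_num)]
      norm_num
    linarith
  have hνκ : ∀ i A, κ i A ≤ (2 : ℝ) ^ (i + 4) * ν A := by
    intro i A
    have h1 : ((1 : ℝ) / 2) ^ (i + 4) * κ i A ≤ ν A :=
      (hsum A).le_tsum i fun j _ => mul_nonneg (by positivity) (hκ0 j A)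
    have h2 : (2 : ℝ) ^ (i + 4) * (((1 : ℝ) / 2) ^ (i + 4) * κ i A) = κ i A := by
      rw [← mul_assoc, ← mul_pow]; norm_num
    rw [← h2]
    exact mul_le_mul_of_nonneg_left h1 (by positivity)
  -- the potential
  have hH0 : ∀ i p, 0 ≤ Hl (κ i) p := fun i p => Hl_nonneg _ _
  have hH1 : ∀ i p, Hl (κ i) p ≤ 1 := fun i p => Hl_le_one _ (hκ i) (hκ1 i) p
  have hsg : Summable (fun i : ℕ => ((1 : ℝ) / 2) ^ i) :=
    summable_geometric_of_lt_one (by norm_num) (by norm_num)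
  have hsH : ∀ p, Summable (fun i : ℕ => ((1 : ℝ) / 2) ^ i * Hl (κ i) p) := by
    intro p
    refine Summable.of_nonneg_of_le (fun i => mul_nonneg (by positivity) (hH0 i p)) (fun i => ?_) hsg
    have : (0 : ℝ) < (1 / 2) ^ i := by positivity
    nlinarith [hH1 i p]
  refine Zorn_main (fun p => - ∑' i : ℕ, ((1 : ℝ) / 2) ^ i * Hl (κ i) p) ?_ ?_
  · intro p r hr
    show - ∑' i : ℕ, ((1 : ℝ) / 2) ^ i * Hl (κ i) (p.upto r) ≤
      - ∑' i : ℕ, ((1 : ℝ) / 2) ^ i * Hl (κ i) p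
    rw [neg_le_neg_iff]
    refine (hsH p).tsum_le_tsum (fun i => ?_) (hsH _)
    exact mul_le_mul_of_nonneg_left (Hl_upto _ p r hr) (by positivity)
  · intro p hp ρ hρ
    obtain ⟨p', hW, hup, hL, hsym, hcov⟩ := extend p hp ρ hρ ν hν hν1
    refine ⟨p', hW, hup, hL, ?_⟩
    have hg : IsGreatest p'.W ρ := by
      refine ⟨by rw [hW]; exact Or.inl rfl, ?_⟩
      intro x hx
      rw [hW] at hx
      rcases hx with rfl | hx
      · exact le_rfl
      · exact (hρ x hx).le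
    have hY : p' ∈ Y := by
      refine ⟨?_, hL⟩
      unfold Pth.top
      rw [hg.csSup_eq]
      exact hg
    obtain ⟨i, hi⟩ := hbias p' hY
    show - ∑' i : ℕ, ((1 : ℝ) / 2) ^ i * Hl (κ i) p <
      - ∑' i : ℕ, ((1 : ℝ) / 2) ^ i * Hl (κ i) p'
    rw [neg_lt_neg_iff]
    have hdec : Hl (κ i) p' < Hl (κ i) p := by
      refine hell_decrease p hp ρ hρ p' hW hup hL hsym (κ i) (hκ i) ((2 : ℝ) ^ (i + 4))
        (by positivity) ?_ hi
      intro k b
      rcases hcov k b with h1 | h1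
      · left
        exact (hνκ i _).trans (mul_le_mul_of_nonneg_left h1 (by positivity))
      · exact Or.inr h1
    refine Summable.tsum_lt_tsum (i := i) (fun j => ?_) ?_ (hsH p') (hsH p)
    · exact mul_le_mul_of_nonneg_left (Zorn_Hl_le hW hup) (by positivity)
    · exact mul_lt_mul_of_pos_left hdec (by positivity)

end Pool.Agent.PIP
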