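import Pool.Agent.PIP.Fr
import Pool.Agent.PIP.Zorn
import Pool.Agent.PIP.Pt
import Pool.Agent.PIP.Real
import Pool.Agent.PIP.Tail
import Pool.Agent.PIP.Red
import Pool.Agent.PIP.Card

set_option autoImplicit false

open MeasureTheory Set Filter Topology
open scoped ENNReal

namespace Pool.Agent.PIP

/-! ## the order on nodes -/

/-- modifications of finitely many letters -/
abbrev Om_Md : Type := Σ n : ℕ, (Fin n → S)

/-- the set of the trees -/
abbrev Om_I : Type := (ℕ ↪ ℝ) × RC × Om_Md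

/-- the index set -/
structure Om_T : Type where
  x : Om_I
  y : Pth
  mem : y ∈ Y

theorem Om_T_ext {a b : Om_T} (h : a.x = b.x) (h' : a.y = b.y) : a = b := by
  cases a; cases b; simp only at h h'; subst h; subst h'; rfl

/-- order of nodes -/
def Om_le (p q : Pth) : Prop := ∃ r ∈ q.W, p = q.upto r

theorem Om_top_mem {p : Pth} (hp : p ∈ Y) : p.top ∈ p.W := hp.1.1

theorem Om_le_top {p : Pth} (hp : p ∈ Y) {r : ℝ} (hr : r ∈ p.W) : r ≤ p.top := hp.1.2 hr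

theorem Om_upto_top {p : Pth} (hp : p ∈ Y) : p.upto p.top = p :=
  upto_of_forall_le p p.top fun _ hx => Om_le_top hp hx

theorem Om_le_refl {p : Pth} (hp : p ∈ Y) : Om_le p p := ⟨p.top, Om_top_mem hp, (Om_upto_top hp).symm⟩

theorem Om_le_trans {p q s : Pth} (h : Om_le p q) (h' : Om_le q s) : Om_le p s := by
  obtain ⟨r, hr, rfl⟩ := h
  obtain ⟨r', hr', rfl⟩ := h'
  have h1 : r ∈ s.W ∧ r ≤ r' := hr
  exact ⟨r, h1.1, upto_upto s r' r h1.2⟩

theorem Om_le_top_le {p q : Pth} (hq : q ∈ Y) (h : Om_le p q) : p.top ≤ q.top := by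
  obtain ⟨r, hr, rfl⟩ := h
  rw [top_upto q r hr]
  exact Om_le_top hq hr

theorem Om_eq_of_le {p q : Pth} (hq : q ∈ Y) (h : Om_le p q) (h' : p.top = q.top) : p = q := by
  obtain ⟨r, hr, rfl⟩ := h
  rw [top_upto q r hr] at h'
  rw [h']
  exact Om_upto_top hq

instance Om_order : PartialOrder Om_T where
  le a b := a.x = b.x ∧ Om_le a.y b.y
  le_refl a := ⟨rfl, Om_le_refl a.mem⟩
  le_trans a b c h h' := ⟨h.1.trans h'.1, Om_le_trans h.2 h'.2⟩
  le_antisymm a b h h' := by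
    refine Om_T_ext h.1 (Om_eq_of_le b.mem h.2 ?_)
    exact le_antisymm (Om_le_top_le b.mem h.2) (Om_le_top_le a.mem h'.2)

theorem Om_le_def (a b : Om_T) : a ≤ b ↔ a.x = b.x ∧ Om_le a.y b.y := Iff.rfl

theorem Om_lbl_lt (a b : Om_T) (h : a < b) : a.y.top < b.y.top := by
  refine lt_of_le_of_ne (Om_le_top_le b.mem h.le.2) fun h' => ?_
  exact h.ne (Om_T_ext h.le.1 (Om_eq_of_le b.mem h.le.2 h'))

theorem Om_tree (a b c : Om_T) (h : a ≤ c) (h' : b ≤ c) : a ≤ b ∨ b ≤ a := by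
  obtain ⟨h1, r, hr, h2⟩ := h
  obtain ⟨h1', r', hr', h2'⟩ := h'
  rcases le_total r r' with hrr | hrr
  · refine Or.inl ⟨h1.trans h1'.symm, r, ?_, ?_⟩
    · rw [h2']; exact ⟨hr, hrr⟩
    · rw [h2', upto_upto _ _ _ hrr]; exact h2
  · refine Or.inr ⟨h1'.trans h1.symm, r', ?_, ?_⟩
    · rw [h2]; exact ⟨hr', hrr⟩
    · rw [h2, upto_upto _ _ _ hrr]; exact h2'

theorem Om_wf (c : Om_T) (A : Set Om_T) (hA : ∀ a ∈ A, a ≤ c) (hne : A.Nonempty) :
    ∃ a ∈ A, ∀ b ∈ A, a ≤ b := by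
  have hsub : (fun a : Om_T => a.y.top) '' A ⊆ c.y.W := by
    rintro _ ⟨a, ha, rfl⟩
    obtain ⟨_, r, hr, h2⟩ := hA a ha
    simp only [h2, top_upto _ _ hr]
    exact hr
  have hwf : ((fun a : Om_T => a.y.top) '' A).IsWF := c.y.wf.mono hsub
  obtain ⟨a, ha, ha'⟩ := hwf.min_mem (hne.image _)
  refine ⟨a, ha, fun b hb => ?_⟩
  have h1 : a.y.top ≤ b.y.top := by
    have := hwf.min_le (hne.image _) ⟨b, hb, rfl⟩
    simp only at ha'
    rw [ha']
    exact this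
  rcases Om_tree a b c (hA a ha) (hA b hb) with h | h
  · exact h
  · have h2 := Om_le_top_le a.mem h.2
    have h3 : b = a := Om_T_ext h.1 (Om_eq_of_le a.mem h.2 (le_antisymm h2 h1))
    rw [h3]

theorem Om_W_countable (p : Pth) : p.W.Countable := by
  choose f hf using exists_gap p
  rw [← Set.countable_coe_iff]
  have hinj : Function.Injective (fun r : p.W => f r.1) := by
    intro a b hab
    simp only at hab
    by_contra hne
    have hne' : a.1 ≠ b.1 := fun h => hne (Subtype.ext h)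
    rcases lt_or_gt_of_ne hne' with h | h
    · have h1 := (hf a.1).2
      have h2 : b.1 ∈ p.W ∩ Ioo a.1 (dq (f a.1)) := ⟨b.2, h, by rw [hab]; exact (hf b.1).1⟩
      rw [h1] at h2
      exact h2
    · have h1 := (hf b.1).2
      have h2 : a.1 ∈ p.W ∩ Ioo b.1 (dq (f b.1)) := ⟨a.2, h, by rw [← hab]; exact (hf a.1).1⟩
      rw [h1] at h2
      exact h2
  exact hinj.countable

theorem Om_cnt (c : Om_T) : {a | a ≤ c}.Countable := by
  have h1 : {a : Om_T | a ≤ c} ⊆ (fun a : Om_T => a.y) ⁻¹' ((fun r => c.y.upto r) '' c.y.W) := by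
    rintro a ⟨_, r, hr, h2⟩
    exact ⟨r, hr, h2.symm⟩
  have hinj : InjOn (fun a : Om_T => a.y) {a | a ≤ c} := by
    intro a ha b hb hab
    exact Om_T_ext (ha.1.trans hb.1.symm) hab
  refine Set.MapsTo.countable_of_injOn (f := fun a : Om_T => a.y) (t := (fun r => c.y.upto r) '' c.y.W)
    (fun a ha => h1 ha) hinj ((Om_W_countable c.y).image _)

/-! ## the set of labellings -/

open Classical in
/-- fibres -/
noncomputable def Om_fib (x : Om_I) (t : Om_T → S) : Pth → S :=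
  fun p => if h : p ∈ Y then t ⟨x, p, h⟩ else 0

theorem Om_fib_apply (x : Om_I) (t : Om_T → S) (p : Pth) (h : p ∈ Y) :
    Om_fib x t p = t ⟨x, p, h⟩ := by
  unfold Om_fib
  rw [dif_pos h]

theorem Om_fib_of_not (x : Om_I) (t : Om_T → S) (p : Pth) (h : p ∉ Y) :
    Om_fib x t p = 0 := by
  unfold Om_fib
  rw [dif_neg h]

def Om_L : Set (Om_T → S) := {t | ∀ x, Om_fib x t ∈ LL}

theorem Om_mem_LL {x : Om_I} {t : Om_T → S} :
    Om_fib x t ∈ LL ↔ ∀ p, ∀ hp : p ∈ Y, ∀ j, ∀ C ∈ p.G p.top j,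
      (∀ c ∈ C, c.1 ∈ p.W ∧ c.1 < p.top ∧ ∀ h : p.upto c.1 ∈ Y, t ⟨x, p.upto c.1, h⟩ = c.2) →
      t ⟨x, p, hp⟩ = 0 := by
  constructor
  · rintro ⟨_, h2⟩ p hp j C hC hc
    rw [← Om_fib_apply x t p hp]
    refine h2 p hp j C hC fun c hcC => ?_
    obtain ⟨h3, h4, h5⟩ := hc c hcC
    refine ⟨h3, h4, ?_⟩
    have h6 : p.upto c.1 ∈ Y := upto_mem_Y p hp.2 c.1 h3
    rw [Om_fib_apply x t _ h6]
    exact h5 h6
  · intro h
    refine ⟨fun p hp => ?_, fun p hp j C hC hc => ?_⟩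
    · by_contra h1
      exact hp (Om_fib_of_not x t p h1)
    · rw [Om_fib_apply x t p hp]
      refine h p hp j C hC fun c hcC => ?_
      obtain ⟨h3, h4, h5⟩ := hc c hcC
      refine ⟨h3, h4, fun h6 => ?_⟩
      rw [← Om_fib_apply x t _ h6]
      exact h5

theorem Om_zero : (fun _ => 0) ∈ Om_L := by
  intro x
  rw [Om_mem_LL]
  intros
  rfl

open Classical in
theorem Om_low (t : Om_T → S) (ht : t ∈ Om_L) (A : LowerSet Om_T) :
    (fun ω => if ω ∈ A then t ω else 0) ∈ Om_L := by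
  intro x
  rw [Om_mem_LL]
  intro p hp j C hC hc
  by_cases h : (⟨x, p, hp⟩ : Om_T) ∈ A
  · rw [if_pos h]
    have h1 := ht x
    rw [Om_mem_LL] at h1
    refine h1 p hp j C hC fun c hcC => ?_
    obtain ⟨h3, h4, h5⟩ := hc c hcC
    refine ⟨h3, h4, fun h6 => ?_⟩
    have h7 := h5 h6
    have h8 : (⟨x, p.upto c.1, h6⟩ : Om_T) ∈ A := by
      refine A.lower (a := ⟨x, p, hp⟩) ?_ h
      exact ⟨rfl, c.1, h3, rfl⟩
    rw [if_pos h8] at h7
    exact h7
  · rw [if_neg h]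

open Classical in
theorem Om_pt (ω : Om_T) : ∃ t ∈ Om_L, t ω = 1 ∧ ∀ ω', t ω' ≠ 0 → ω' ≤ ω := by
  obtain ⟨t0, ht0, h1, h2⟩ := exists_pt ω.y ω.mem
  refine ⟨fun ω' => if ω'.x = ω.x then t0 ω'.y else 0, ?_, ?_, ?_⟩
  · intro x
    rw [Om_mem_LL]
    intro p hp j C hC hc
    simp only at hc ⊢
    by_cases hx : x = ω.x
    · rw [if_pos hx]
      refine ht0.2 p hp j C hC fun c hcC => ?_
      obtain ⟨h3, h4, h5⟩ := hc c hcC
      have h6 : p.upto c.1 ∈ Y := upto_mem_Y p hp.2 c.1 h3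
      have h7 := h5 h6
      rw [if_pos hx] at h7
      exact ⟨h3, h4, h7⟩
    · rw [if_neg hx]
  · simp only [if_true]
    exact h1
  · intro ω' h
    simp only at h
    by_cases hx : ω'.x = ω.x
    · rw [if_pos hx] at h
      obtain ⟨r, hr, h3⟩ := h2 _ h
      exact ⟨hx, r, hr, h3⟩
    · rw [if_neg hx] at h
      exact absurd rfl h

/-! ## the function `u` -/

/-- all values at stage `m` -/
def Om_Wf (m : ℕ) : Set (Xi → S) := {f | ∃ p r, f = val m p r}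

theorem Om_real (R : RC) : ∃ (M : ℕ → ℕ) (ξ : ℕ → Xi), Tendsto M atTop atTop ∧
    ((Summable fun j => (PS ℕ).real (R.set j)) → ∀ f : ℕ → (Xi → S), (∀ m, f m ∈ Om_Wf m) →
      {j | (fun n => f (M n) (ξ n)) ∈ R.set j}.Finite) := by
  by_cases hR : Summable fun j => (PS ℕ).real (R.set j)
  · obtain ⟨M, hM, ξ, h⟩ := realization Om_Wf finite_val (by
      rintro m _ ⟨p, r, rfl⟩
      exact measurable_val m p r) (by
      rintro m _ ⟨p, r, rfl⟩
      exact map_val m p r) R hR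
    exact ⟨M, ξ, hM, fun _ => h⟩
  · exact ⟨id, fun _ _ => 0, tendsto_id, fun h => absurd h hR⟩

noncomputable def Om_M (R : RC) : ℕ → ℕ := (Om_real R).choose

noncomputable def Om_xi (R : RC) : ℕ → Xi := (Om_real R).choose_spec.choose

theorem Om_M_tendsto (R : RC) : Tendsto (Om_M R) atTop atTop :=
  (Om_real R).choose_spec.choose_spec.1

theorem Om_M_spec (R : RC) (hR : Summable fun j => (PS ℕ).real (R.set j)) (f : ℕ → (Xi → S))
    (hf : ∀ m, f m ∈ Om_Wf m) : {j | (fun n => f (Om_M R n) (Om_xi R n)) ∈ R.set j}.Finite :=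
  (Om_real R).choose_spec.choose_spec.2 hR f hf

noncomputable def Om_c (R : RC) (y : Pth) : ℕ → S :=
  fun n => val (Om_M R n) y y.top (Om_xi R n)

/-- the letters of the tree `x` at the node `y` -/
noncomputable def Om_v (x : Om_I) (y : Pth) : ℝ → S := exta x.1 (modi x.2.2 (Om_c x.2.1 y))

noncomputable def Om_u (ω : Om_T) : ℝ → S := Om_v ω.x ω.y

theorem Om_exta_of_not (a : ℕ ↪ ℝ) (c : ℕ → S) (α : ℝ) (h : ∀ n, a n ≠ α) : exta a c α = 0 := by
  unfold exta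
  rw [dif_neg]
  rintro ⟨n, hn⟩
  exact h n hn

theorem Om_modi_of_ge (s : Om_Md) (c : ℕ → S) (k : ℕ) (h : s.1 ≤ k) : modi s c k = c k := by
  unfold modi
  rw [dif_neg (not_lt.2 h)]

theorem Om_v_apply (x : Om_I) (y : Pth) (n : ℕ) (h : x.2.2.1 ≤ n) :
    Om_v x y (x.1 n) = val (Om_M x.2.1 n) y y.top (Om_xi x.2.1 n) := by
  unfold Om_v
  rw [exta_apply, Om_modi_of_ge _ _ _ h]
  rfl

theorem Om_lim (U : Ultrafilter ℝ) (hU : (U : Filter ℝ) ≤ cofinite) (t : Om_T → S)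
    (ht : ∀ ω, ∀ᶠ α in (U : Filter ℝ), Om_u ω α = t ω) : t ∈ Om_L := by
  intro x
  rw [Om_mem_LL]
  intro p hp j C hC hc
  have h1 : ∀ᶠ α in (U : Filter ℝ), Om_v x p α = t ⟨x, p, hp⟩ := ht ⟨x, p, hp⟩
  by_cases hr : Set.range x.1 ∈ (U : Filter ℝ)
  · -- eventually in the range
    have h2 : ∀ᶠ α in (U : Filter ℝ), ∀ c ∈ C, Om_v x (p.upto c.1) α = c.2 := by
      rw [Finset.eventually_all]
      intro c hcC
      obtain ⟨h3, h4, h5⟩ := hc c hcC
      have h6 : p.upto c.1 ∈ Y := upto_mem_Y p hp.2 c.1 h3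
      have h7 : ∀ᶠ α in (U : Filter ℝ), Om_v x (p.upto c.1) α = t ⟨x, p.upto c.1, h6⟩ :=
        ht ⟨x, p.upto c.1, h6⟩
      filter_upwards [h7] with α hα
      rw [hα]
      exact h5 h6
    have h3 : ∀ᶠ m in atTop, ∀ ξ, (∀ c ∈ C, val m p c.1 ξ = c.2) → val m p p.top ξ = 0 :=
      val_act p p.top (hp.2.1 p.top (Om_top_mem hp)) j C hC fun c hcC => ⟨(hc c hcC).1, (hc c hcC).2.1⟩
    have h4 : ∀ᶠ n in atTop, x.2.2.1 ≤ n ∧ ∀ ξ, (∀ c ∈ C, val (Om_M x.2.1 n) p c.1 ξ = c.2) →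
        val (Om_M x.2.1 n) p p.top ξ = 0 :=
      (eventually_ge_atTop _).and ((Om_M_tendsto x.2.1).eventually h3)
    obtain ⟨N, hN⟩ := eventually_atTop.1 h4
    have h5 : ∀ᶠ α in (U : Filter ℝ), α ∉ x.1 '' (Iio N) := by
      apply hU
      rw [mem_cofinite]
      have : {α | α ∉ x.1 '' (Iio N)}ᶜ = x.1 '' (Iio N) := by
        ext α; simp
      rw [show ({α | α ∉ x.1 '' (Iio N)} : Set ℝ)ᶜ = x.1 '' (Iio N) from this]
      exact (finite_Iio N).image _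
    have h6 : ∀ᶠ α in (U : Filter ℝ), α ∈ Set.range x.1 := hr
    obtain ⟨α, ⟨⟨hα1, hα2⟩, hα3⟩, hα4⟩ := (((h1.and h2).and h5).and h6).exists
    obtain ⟨n, rfl⟩ := hα4
    have hn : N ≤ n := by
      by_contra hlt
      exact hα3 ⟨n, not_le.1 hlt, rfl⟩
    obtain ⟨h7, h8⟩ := hN n hn
    rw [← hα1, Om_v_apply x p n h7]
    apply h8
    intro c hcC
    have h9 := hα2 c hcC
    rw [Om_v_apply x _ n h7, top_upto p c.1 (hc c hcC).1,
      val_upto _ p c.1 c.1 (hc c hcC).1 le_rfl] at h9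
    exact h9
  · have h2 : ∀ᶠ α in (U : Filter ℝ), α ∈ (Set.range x.1)ᶜ := by
      exact Ultrafilter.compl_mem_iff_notMem.2 hr
    obtain ⟨α, hα1, hα2⟩ := (h1.and h2).exists
    rw [← hα1]
    refine Om_exta_of_not _ _ _ fun n hn => hα2 ⟨n, hn⟩

/-! ## the frame -/

theorem Om_inj : ∃ j : Om_T → ℝ, Function.Injective j := by
  obtain ⟨j, hj⟩ := exists_inj_idx
  refine ⟨fun ω : Om_T => j (ω.x, ω.y), ?_⟩
  intro a b hab
  have := hj hab
  rw [Prod.mk.injEq] at this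
  exact Om_T_ext this.1 this.2

noncomputable def Om_frame : Frame ℝ Om_T where
  lbl := fun ω => ω.y.top
  lbl_lt := Om_lbl_lt
  tree := Om_tree
  wf := Om_wf
  cnt := Om_cnt
  L := Om_L
  zero := Om_zero
  low := Om_low
  pt := Om_pt
  u := Om_u
  lim := Om_lim
  inj := Om_inj

theorem Om_FO : Om_frame.FO := by
  intro μ hμ B hB h0
  obtain ⟨a, hB', h0'⟩ := reduce B hB h0
  obtain ⟨R, hR, hR'⟩ := tail_code _ hB' h0'
  have : Nonempty Om_Md := ⟨⟨0, Fin.elim0⟩⟩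
  obtain ⟨e⟩ : Nonempty (ℕ ≃ ℕ × Om_Md) := nonempty_equiv_of_countable
  let μ' : ℕ → Set (Pth → S) → ℝ := fun k A =>
    μ (e k).1 {t | t ∈ Om_L ∧ Om_fib (a, R, (e k).2) t ∈ A}
  have hμ' : ∀ k, IsFA (μ' k) := by
    intro k
    refine ⟨fun A => (hμ _).nonneg _, fun A A' hd => ?_⟩
    simp only [μ']
    rw [← (hμ (e k).1).add]
    · congr 1
      ext t
      simp only [mem_union, mem_ofPred_eq]
      tauto
    · rw [Set.disjoint_left]
      rintro t ⟨_, h1⟩ ⟨_, h2⟩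
      exact Set.disjoint_left.1 hd h1 h2
  obtain ⟨y, hy, hbal⟩ := nonsmall μ' hμ'
  have hfin := Om_M_spec R hR (fun m => val m y y.top) (fun m => ⟨y, y.top, rfl⟩)
  obtain ⟨s, hs⟩ := hR' _ hfin
  refine ⟨⟨(a, R, s), y, hy⟩, fun i => ?_, hs⟩
  have h1 := hbal (e.symm (i, s))
  simp only [μ', Equiv.apply_symm_apply] at h1
  have h2 : ∀ l : S, {t | t ∈ Om_L ∧ Om_fib (a, R, s) t ∈ {t | t ∈ LL ∧ t y = l}} =
      {t | t ∈ Om_frame.L ∧ t ⟨(a, R, s), y, hy⟩ = l} := by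
    intro l
    ext t
    simp only [mem_ofPred_eq]
    constructor
    · rintro ⟨h3, _, h4⟩
      refine ⟨h3, ?_⟩
      rw [Om_fib_apply _ _ _ hy] at h4
      exact h4
    · rintro ⟨h3, h4⟩
      refine ⟨h3, h3 _, ?_⟩
      rw [Om_fib_apply _ _ _ hy]
      exact h4
  rw [h2, h2] at h1
  exact h1

theorem exists_frame : ∃ (Ω : Type) (_ : PartialOrder Ω) (Fr : Frame ℝ Ω), Fr.FO :=
  ⟨Om_T, Om_order, Om_frame, Om_FO⟩

end Pool.Agent.PIP
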