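import Pool.Agent.PIP.Coh

set_option autoImplicit false

open MeasureTheory Set Filter Topology
open scoped ENNReal

namespace Pool.Agent.PIP

/-! ## paths -/

theorem upto_upto (p : Pth) (r r' : ℝ) (h : r' ≤ r) : (p.upto r).upto r' = p.upto r' := by
  ext x
  · simp only [Pth.upto, mem_inter_iff, mem_Iic]
    constructor
    · rintro ⟨⟨h1, _⟩, h2⟩; exact ⟨h1, h2⟩
    · rintro ⟨h1, h2⟩; exact ⟨⟨h1, h2.trans h⟩, h2⟩
  · rename_i j c
    by_cases hx : x ≤ r'
    · simp [Pth.upto, hx, hx.trans h]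
    · simp [Pth.upto, hx]

theorem top_upto (p : Pth) (r : ℝ) (h : r ∈ p.W) : (p.upto r).top = r := by
  have : IsGreatest (p.upto r).W r := ⟨⟨h, le_refl r⟩, fun x hx => hx.2⟩
  exact this.csSup_eq

theorem upto_of_forall_le (p : Pth) (r : ℝ) (h : ∀ x ∈ p.W, x ≤ r) : p.upto r = p := by
  ext x
  · simp only [Pth.upto, mem_inter_iff, mem_Iic]
    exact ⟨fun h1 => h1.1, fun h1 => ⟨h1, h x h1⟩⟩
  · rename_i j c
    by_cases hx : x ≤ r
    · simp [Pth.upto, hx]
    · have h1 : x ∉ p.W := fun h2 => hx (h x h2)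
      simp [Pth.upto, hx, p.off x h1 j]

theorem Pat_evj_upto (m : ℕ) (p : Pth) (r r' : ℝ) (h : r ∈ p.W) (h' : r' ≤ r) (j : ℕ) :
    evj m (p.upto r) r' (val m (p.upto r)) j = evj m p r' (val m p) j := by
  rw [evj_congr m (p.upto r) r' (val m (p.upto r)) (val m p)
    (fun x hx => val_upto m p r x h (by have := (mem_F.1 hx).2.1; linarith)) j]
  ext ξ
  simp only [evj, F_upto m p r r' h h', G_upto p r r' h' j]

theorem Pat_act_upto (p : Pth) (r r' : ℝ) (h : r ∈ p.W) (h' : r' ≤ r) :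
    Act (p.upto r) r' ↔ Act p r' := by
  unfold Act
  simp only [Pat_evj_upto _ p r r' h h']

theorem Pat_set_upto (m : ℕ) (p : Pth) (r : ℝ) (h : r ∈ p.W) (A : Finset ℝ)
    (hA : ∀ x ∈ A, x ≤ r) (b : ℝ → S) :
    {ξ | ∀ x ∈ A, val m (p.upto r) x ξ = b x} = {ξ | ∀ x ∈ A, val m p x ξ = b x} := by
  ext ξ
  simp only [mem_ofPred_eq]
  exact forall₂_congr fun x hx => by rw [val_upto m p r x h (hA x hx)]

theorem legit_iff (p : Pth) : Legit p ↔ ∀ r ∈ p.W, Legit (p.upto r) := by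
  constructor
  · intro hp r hr
    refine ⟨fun r' hr' => (Pat_act_upto p r r' hr hr'.2).2 (hp.1 r' hr'.1), ?_⟩
    intro A hA b
    obtain ⟨l, hl⟩ := hp.2 A (fun x hx => (hA hx).1) b
    refine ⟨l, ?_⟩
    have : (fun m => PXi.real {ξ | ∀ r_1 ∈ A, val m (p.upto r) r_1 ξ = b r_1}) =
        (fun m => PXi.real {ξ | ∀ r ∈ A, val m p r ξ = b r}) := by
      funext m
      rw [Pat_set_upto m p r hr A (fun x hx => (hA hx).2) b]
    rw [this]
    exact hl
  · intro hp
    refine ⟨fun r hr => (Pat_act_upto p r r hr le_rfl).1 ((hp r hr).1 r ⟨hr, le_refl r⟩), ?_⟩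
    intro A hA b
    rcases A.eq_empty_or_nonempty with rfl | hne
    · refine ⟨1, ?_⟩
      simp
    · set r := A.max' hne with hr
      have hrA : r ∈ A := A.max'_mem hne
      have hrW : r ∈ p.W := hA hrA
      have hle : ∀ x ∈ A, x ≤ r := fun x hx => A.le_max' x hx
      obtain ⟨l, hl⟩ := (hp r hrW).2 A (fun x hx => ⟨hA hx, hle x hx⟩) b
      refine ⟨l, ?_⟩
      have : (fun m => PXi.real {ξ | ∀ r_1 ∈ A, val m (p.upto r) r_1 ξ = b r_1}) =
          (fun m => PXi.real {ξ | ∀ r ∈ A, val m p r ξ = b r}) := by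
        funext m
        rw [Pat_set_upto m p r hrW A hle b]
      rw [← this]
      exact hl

theorem upto_mem_Y (p : Pth) (hp : Legit p) (r : ℝ) (hr : r ∈ p.W) : p.upto r ∈ Y := by
  refine ⟨?_, (legit_iff p).1 hp r hr⟩
  rw [top_upto p r hr]
  exact ⟨⟨hr, le_refl r⟩, fun x hx => hx.2⟩

/-! ## patterns -/

/-- patterns on `A`, extended by `0` -/
noncomputable def pats (A : Finset ℝ) : Finset (ℝ → S) := by
  classical
  exact Finset.univ.image (fun (b : ↥A → S) (r : ℝ) => if h : r ∈ A then b ⟨r, h⟩ else 0)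

theorem mem_pats {A : Finset ℝ} {b : ℝ → S} : b ∈ pats A ↔ ∀ r, r ∉ A → b r = 0 := by
  classical
  unfold pats
  simp only [Finset.mem_image, Finset.mem_univ, true_and]
  constructor
  · rintro ⟨c, rfl⟩ r hr
    simp [hr]
  · intro h
    refine ⟨fun r => b r.1, ?_⟩
    funext r
    by_cases hr : r ∈ A
    · simp [hr]
    · simp [hr, h r hr]

theorem sum_pats_insert {A : Finset ℝ} {a : ℝ} (ha : a ∉ A) (g : (ℝ → S) → ℝ) :
    ∑ b ∈ pats (insert a A), g b = ∑ b ∈ pats A, ∑ s : S, g (Function.update b a s) := by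
  classical
  rw [← Finset.sum_product' (pats A) Finset.univ (fun b s => g (Function.update b a s))]
  symm
  refine Finset.sum_nbij' (fun x => Function.update x.1 a x.2)
    (fun b => (Function.update b a 0, b a)) ?_ ?_ ?_ ?_ ?_
  · rintro ⟨b, s⟩ hx
    rw [Finset.mem_product] at hx
    have hb := mem_pats.1 hx.1
    rw [mem_pats]
    intro r hr
    rw [Finset.mem_insert, not_or] at hr
    simp only [Function.update_of_ne hr.1]
    exact hb r hr.2
  · intro b hb
    rw [mem_pats] at hb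
    rw [Finset.mem_product]
    refine ⟨?_, Finset.mem_univ _⟩
    rw [mem_pats]
    intro r hr
    by_cases h : r = a
    · subst h; simp
    · simp only [Function.update_of_ne h]
      exact hb r (by rw [Finset.mem_insert, not_or]; exact ⟨h, hr⟩)
  · rintro ⟨b, s⟩ hx
    rw [Finset.mem_product] at hx
    have hb := mem_pats.1 hx.1
    ext r
    · by_cases h : r = a
      · subst h
        have h3 : b r = 0 := hb r ha
        simp [h3]
      · simp [Function.update_of_ne h]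
    · simp
  · intro b _
    simp
  · intro x _
    rfl

/-! ## the limit law -/

/-- limit probability of a pattern -/
noncomputable def Dl (p : Pth) (A : Finset ℝ) (b : ℝ → S) : ℝ :=
  limUnder atTop (fun m => PXi.real {ξ | ∀ r ∈ A, val m p r ξ = b r})

theorem Dl_tendsto (p : Pth) (hp : Conv p) (A : Finset ℝ) (hA : (A : Set ℝ) ⊆ p.W) (b : ℝ → S) :
    Tendsto (fun m => PXi.real {ξ | ∀ r ∈ A, val m p r ξ = b r}) atTop (𝓝 (Dl p A b)) :=
  tendsto_nhds_limUnder (hp A hA b)

theorem Dl_nonneg (p : Pth) (hp : Conv p) (A : Finset ℝ) (hA : (A : Set ℝ) ⊆ p.W) (b : ℝ → S) :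
    0 ≤ Dl p A b :=
  ge_of_tendsto' (Dl_tendsto p hp A hA b) fun _ => measureReal_nonneg

theorem Dl_congr (p : Pth) (A : Finset ℝ) (b b' : ℝ → S) (h : ∀ r ∈ A, b r = b' r) :
    Dl p A b = Dl p A b' := by
  unfold Dl
  congr 1
  funext m
  congr 1
  ext ξ
  simp only [mem_ofPred_eq]
  exact forall₂_congr fun r hr => by rw [h r hr]

theorem Dl_empty (p : Pth) (b : ℝ → S) : Dl p ∅ b = 1 := by
  unfold Dl
  apply Tendsto.limUnder_eq
  simp

theorem Pat_measurableSet (m : ℕ) (p : Pth) (A : Finset ℝ) (b : ℝ → S) :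
    MeasurableSet {ξ | ∀ r ∈ A, val m p r ξ = b r} := by
  have : {ξ | ∀ r ∈ A, val m p r ξ = b r} = ⋂ r ∈ A, val m p r ⁻¹' {b r} := by
    ext ξ; simp
  rw [this]
  exact Finset.measurableSet_biInter _ fun r _ =>
    measurable_val m p r (measurableSet_singleton _)

theorem Pat_real_insert (m : ℕ) (p : Pth) (A : Finset ℝ) (a : ℝ) (ha : a ∉ A) (b : ℝ → S) :
    PXi.real {ξ | ∀ r ∈ A, val m p r ξ = b r} =
      ∑ s : S, PXi.real {ξ | ∀ r ∈ insert a A, val m p r ξ = Function.update b a s r} := by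
  classical
  set B := {ξ | ∀ r ∈ A, val m p r ξ = b r} with hB
  have hBm : MeasurableSet B := Pat_measurableSet m p A b
  have h1 : ∀ s : S, {ξ | ∀ r ∈ insert a A, val m p r ξ = Function.update b a s r} =
      B ∩ {ξ | val m p a ξ = s} := by
    intro s
    ext ξ
    simp only [hB, mem_inter_iff, mem_ofPred_eq, Finset.forall_mem_insert,
      Function.update_self]
    rw [and_comm]
    refine and_congr_left fun _ => forall₂_congr fun r hr => ?_
    have hne : r ≠ a := fun h => ha (by rw [← h]; exact hr)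
    rw [Function.update_of_ne hne]
  have hvm : ∀ s : S, MeasurableSet {ξ | val m p a ξ = s} := fun s =>
    measurable_val m p a (measurableSet_singleton s)
  have h2 : B = ⋃ s ∈ (Finset.univ : Finset S), B ∩ {ξ | val m p a ξ = s} := by
    ext ξ; simp
  conv_lhs => rw [h2]
  rw [measureReal_biUnion_finset]
  · exact Finset.sum_congr rfl fun s _ => by rw [h1 s]
  · intro s _ s' _ hss
    refine Set.disjoint_left.2 ?_
    rintro ξ ⟨_, h3⟩ ⟨_, h4⟩
    exact hss (h3.symm.trans h4)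
  · exact fun s _ => hBm.inter (hvm s)

theorem Dl_insert (p : Pth) (hp : Conv p) (A : Finset ℝ) (a : ℝ) (ha : a ∉ A)
    (hA : ((insert a A : Finset ℝ) : Set ℝ) ⊆ p.W) (b : ℝ → S) :
    Dl p A b = ∑ s : S, Dl p (insert a A) (Function.update b a s) := by
  have hA' : (A : Set ℝ) ⊆ p.W := fun x hx => hA (by simp at hx ⊢; exact Or.inr hx)
  have h1 := Dl_tendsto p hp A hA' b
  have h2 : Tendsto (fun m => ∑ s : S, PXi.real {ξ | ∀ r ∈ insert a A,
      val m p r ξ = Function.update b a s r}) atTop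
      (𝓝 (∑ s : S, Dl p (insert a A) (Function.update b a s))) :=
    tendsto_finsetSum _ fun s _ => Dl_tendsto p hp (insert a A) hA (Function.update b a s)
  refine tendsto_nhds_unique h1 (h2.congr fun m => ?_)
  exact (Pat_real_insert m p A a ha b).symm

theorem Pat_pats_empty : pats ∅ = {fun _ => 0} := by
  ext b
  rw [mem_pats, Finset.mem_singleton]
  constructor
  · intro h; funext r; exact h r (by simp)
  · rintro rfl; simp

theorem Dl_sum (p : Pth) (hp : Conv p) (A : Finset ℝ) (hA : (A : Set ℝ) ⊆ p.W) :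
    ∑ b ∈ pats A, Dl p A b = 1 := by
  classical
  induction A using Finset.induction_on with
  | empty => rw [Pat_pats_empty, Finset.sum_singleton, Dl_empty]
  | insert a A ha ih =>
    rw [sum_pats_insert ha, ← ih (fun x hx => hA (by simp at hx ⊢; exact Or.inr hx))]
    exact Finset.sum_congr rfl fun b _ => (Dl_insert p hp A a ha hA b).symm

theorem Pat_val_of_upto (m : ℕ) (p q : Pth) (r : ℝ) (hp : r ∈ p.W) (hq : r ∈ q.W)
    (h : p.upto r = q.upto r) : val m p r = val m q r := by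
  rw [← val_upto m p r r hp le_rfl, h, val_upto m q r r hq le_rfl]

/-- the limit law depends only on the initial segments -/
theorem Dl_of_upto (p q : Pth) (A : Finset ℝ)
    (h : ∀ r ∈ A, r ∈ p.W ∧ r ∈ q.W ∧ p.upto r = q.upto r) (b : ℝ → S) :
    Dl p A b = Dl q A b := by
  unfold Dl
  congr 1
  funext m
  congr 1
  ext ξ
  simp only [mem_ofPred_eq]
  exact forall₂_congr fun r hr => by
    rw [Pat_val_of_upto m p q r (h r hr).1 (h r hr).2.1 (h r hr).2.2]

/-! ## cylinders in the compact set `LL` and Hellinger sums -/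

def cyl (p : Pth) (A : Finset ℝ) (b : ℝ → S) : Set (Pth → S) :=
  {t | t ∈ LL ∧ ∀ r ∈ A, t (p.upto r) = b r}

theorem Pat_fa_mono {T : Type} {μ : Set T → ℝ} (hμ : IsFA μ) {A B : Set T} (h : A ⊆ B) :
    μ A ≤ μ B := by
  have h1 : μ B = μ A + μ (B \ A) := by
    rw [← hμ.add A (B \ A) disjoint_sdiff_self_right, union_sdiff_self, union_eq_right.2 h]
  have h2 := hμ.nonneg (B \ A)
  linarith

theorem cyl_insert (μ : Set (Pth → S) → ℝ) (hμ : IsFA μ) (p : Pth) (A : Finset ℝ) (a : ℝ)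
    (ha : a ∉ A) (b : ℝ → S) :
    μ (cyl p A b) = ∑ s : S, μ (cyl p (insert a A) (Function.update b a s)) := by
  classical
  have h1 : ∀ s : S, cyl p (insert a A) (Function.update b a s) =
      cyl p A b ∩ {t | t (p.upto a) = s} := by
    intro s
    ext t
    simp only [cyl, mem_inter_iff, mem_ofPred_eq, Finset.forall_mem_insert,
      Function.update_self]
    have h2 : (∀ x ∈ A, t (p.upto x) = Function.update b a s x) ↔
        (∀ x ∈ A, t (p.upto x) = b x) := by
      refine forall₂_congr fun r hr => ?_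
      have hne : r ≠ a := fun h => ha (by rw [← h]; exact hr)
      rw [Function.update_of_ne hne]
    rw [h2]
    tauto
  have hd : ∀ s s' : S, s ≠ s' → Disjoint (cyl p A b ∩ {t | t (p.upto a) = s})
      (cyl p A b ∩ {t | t (p.upto a) = s'}) := by
    intro s s' hss
    refine Set.disjoint_left.2 ?_
    rintro t ⟨_, h3⟩ ⟨_, h4⟩
    exact hss (h3.symm.trans h4)
  simp only [h1]
  rw [Fin.sum_univ_three, ← hμ.add _ _ (hd 0 1 (by decide)), ← hμ.add]
  · congr 1
    ext t
    simp only [mem_union, mem_inter_iff, mem_ofPred_eq]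
    constructor
    · intro ht
      have : ∀ s : S, s = 0 ∨ s = 1 ∨ s = 2 := by decide
      rcases this (t (p.upto a)) with h | h | h
      · exact Or.inl (Or.inl ⟨ht, h⟩)
      · exact Or.inl (Or.inr ⟨ht, h⟩)
      · exact Or.inr ⟨ht, h⟩
    · rintro ((h | h) | h) <;> exact h.1
  · rw [Set.disjoint_union_left]
    exact ⟨hd 0 2 (by decide), hd 1 2 (by decide)⟩

/-- Hellinger sum -/
noncomputable def hel (μ : Set (Pth → S) → ℝ) (p : Pth) (A : Finset ℝ) : ℝ :=
  ∑ b ∈ pats A, Real.sqrt (μ (cyl p A b) * Dl p A b)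

/-- Hellinger affinity -/
noncomputable def Hl (μ : Set (Pth → S) → ℝ) (p : Pth) : ℝ :=
  ⨅ A : {A : Finset ℝ // (A : Set ℝ) ⊆ p.W}, hel μ p A.1

theorem Pat_hel_insert (μ : Set (Pth → S) → ℝ) (hμ : IsFA μ) (p : Pth) (hp : Conv p)
    (A : Finset ℝ) (a : ℝ) (ha : a ∉ A) (hA : ((insert a A : Finset ℝ) : Set ℝ) ⊆ p.W) :
    hel μ p (insert a A) ≤ hel μ p A := by
  unfold hel
  rw [sum_pats_insert ha]
  refine Finset.sum_le_sum fun b _ => ?_
  rw [cyl_insert μ hμ p A a ha b, Dl_insert p hp A a ha hA b]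
  have h1 : ∀ s : S, 0 ≤ μ (cyl p (insert a A) (Function.update b a s)) := fun s => hμ.nonneg _
  have h2 : ∀ s : S, 0 ≤ Dl p (insert a A) (Function.update b a s) := fun s =>
    Dl_nonneg p hp _ hA _
  rw [Real.sqrt_mul (Finset.sum_nonneg fun s _ => h1 s)]
  calc ∑ s : S, Real.sqrt (μ (cyl p (insert a A) (Function.update b a s)) *
        Dl p (insert a A) (Function.update b a s))
      = ∑ s : S, Real.sqrt (μ (cyl p (insert a A) (Function.update b a s))) *
        Real.sqrt (Dl p (insert a A) (Function.update b a s)) :=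
        Finset.sum_congr rfl fun s _ => Real.sqrt_mul (h1 s) _
    _ ≤ _ := Real.sum_sqrt_mul_sqrt_le _ (fun s => h1 s) (fun s => h2 s)

theorem hel_mono (μ : Set (Pth → S) → ℝ) (hμ : IsFA μ) (p : Pth) (hp : Conv p)
    (A A' : Finset ℝ) (h : A ⊆ A') (hA : (A' : Set ℝ) ⊆ p.W) : hel μ p A' ≤ hel μ p A := by
  classical
  have key : ∀ B : Finset ℝ, ((A ∪ B : Finset ℝ) : Set ℝ) ⊆ p.W →
      hel μ p (A ∪ B) ≤ hel μ p A := by
    intro B
    induction B using Finset.induction_on with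
    | empty => intro _; rw [Finset.union_empty]
    | insert a B _ ih =>
      intro hB
      rw [Finset.union_insert] at hB ⊢
      have hB' : ((A ∪ B : Finset ℝ) : Set ℝ) ⊆ p.W := fun x hx =>
        hB (Finset.mem_coe.2 (Finset.mem_insert_of_mem (Finset.mem_coe.1 hx)))
      by_cases h2 : a ∈ A ∪ B
      · rw [Finset.insert_eq_of_mem h2]
        exact ih hB'
      · exact (Pat_hel_insert μ hμ p hp (A ∪ B) a h2 hB).trans (ih hB')
  have h3 : A ∪ A' = A' := Finset.union_eq_right.2 h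
  have h4 := key A'
  rw [h3] at h4
  exact h4 hA

theorem hel_of_upto (μ : Set (Pth → S) → ℝ) (p q : Pth) (A : Finset ℝ)
    (h : ∀ r ∈ A, r ∈ p.W ∧ r ∈ q.W ∧ p.upto r = q.upto r) : hel μ p A = hel μ q A := by
  unfold hel
  refine Finset.sum_congr rfl fun b _ => ?_
  have h1 : cyl p A b = cyl q A b := by
    ext t
    simp only [cyl, mem_ofPred_eq]
    exact and_congr_right fun _ => forall₂_congr fun r hr => by rw [(h r hr).2.2]
  rw [h1, Dl_of_upto p q A h b]

theorem Pat_hel_nonneg (μ : Set (Pth → S) → ℝ) (p : Pth) (A : Finset ℝ) : 0 ≤ hel μ p A :=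
  Finset.sum_nonneg fun _ _ => Real.sqrt_nonneg _

theorem Hl_nonneg (μ : Set (Pth → S) → ℝ) (p : Pth) : 0 ≤ Hl μ p :=
  Real.iInf_nonneg fun A => Pat_hel_nonneg μ p A.1

theorem Hl_le (μ : Set (Pth → S) → ℝ) (p : Pth) (A : Finset ℝ) (hA : (A : Set ℝ) ⊆ p.W) :
    Hl μ p ≤ hel μ p A := by
  refine ciInf_le (f := fun A : {A : Finset ℝ // (A : Set ℝ) ⊆ p.W} => hel μ p A.1) ?_ ⟨A, hA⟩
  refine ⟨0, ?_⟩
  rintro _ ⟨B, rfl⟩
  exact Pat_hel_nonneg μ p B.1

theorem Hl_le_one (μ : Set (Pth → S) → ℝ) (hμ : IsFA μ) (h1 : μ univ ≤ 1) (p : Pth) :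
    Hl μ p ≤ 1 := by
  refine (Hl_le μ p ∅ (by simp)).trans ?_
  unfold hel
  rw [Pat_pats_empty, Finset.sum_singleton, Dl_empty, mul_one]
  refine Real.sqrt_le_one.2 ?_
  exact (Pat_fa_mono hμ (subset_univ _)).trans h1

theorem Hl_upto (μ : Set (Pth → S) → ℝ) (p : Pth) (r : ℝ) (hr : r ∈ p.W) :
    Hl μ p ≤ Hl μ (p.upto r) := by
  have : Nonempty {A : Finset ℝ // (A : Set ℝ) ⊆ (p.upto r).W} := ⟨⟨∅, by simp⟩⟩
  refine le_ciInf ?_
  rintro ⟨A, hA⟩
  rw [hel_of_upto μ (p.upto r) p A (fun x hx => ⟨hA hx, (hA hx).1, upto_upto p r x (hA hx).2⟩)]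
  exact Hl_le μ p A (fun x hx => (hA hx).1)

end Pool.Agent.PIP
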