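import Pool.Agent.PIP.Law

set_option autoImplicit false

open MeasureTheory Set Filter Topology
open scoped ENNReal

namespace Pool.Agent.PIP

/-- the product law on families of letters -/
noncomputable def PS (ι : Type) : Measure (ι → S) := Measure.infinitePi (fun _ : ι => P1)

instance (ι : Type) : IsProbabilityMeasure (PS ι) := by
  unfold PS
  infer_instance

/-- codes of sequences of clopen sets -/
abbrev RC := ℕ → Σ n : ℕ, Finset (Fin n → S)

def RC.set (R : RC) (j : ℕ) : Set (ℕ → S) := {c | (fun i : Fin (R j).1 => c i) ∈ (R j).2}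

/-- replace the first letters of a sequence -/
def modi (s : Σ n : ℕ, (Fin n → S)) (c : ℕ → S) : ℕ → S :=
  fun k => if h : k < s.1 then s.2 ⟨k, h⟩ else c k

end Pool.Agent.PIP
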