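import Pool.Agent.PIP.Defs

set_option autoImplicit false

open MeasureTheory Set Filter Topology
open scoped ENNReal

namespace Pool.Agent.PIP

theorem evj_congr (m : ℕ) (p : Pth) (r : ℝ) (v v' : ℝ → Xi → S)
    (h : ∀ r' ∈ F m p r, v r' = v' r') (j : ℕ) : evj m p r v j = evj m p r v' j := by
  ext ξ
  simp only [evj, mem_ofPred_eq]
  constructor
  · rintro ⟨C, hC, hc⟩
    exact ⟨C, hC, fun c hcC => ⟨(hc c hcC).1, by rw [← h _ (hc c hcC).1]; exact (hc c hcC).2⟩⟩
  · rintro ⟨C, hC, hc⟩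
    exact ⟨C, hC, fun c hcC => ⟨(hc c hcC).1, by rw [h _ (hc c hcC).1]; exact (hc c hcC).2⟩⟩

theorem stp_congr (m : ℕ) (p : Pth) (r : ℝ) (v v' : ℝ → Xi → S)
    (h : ∀ r' ∈ F m p r, v r' = v' r') : stp m p r v = stp m p r v' := by
  have h1 : ev m p r v = ev m p r v' := by
    unfold ev
    simp only [evj_congr m p r v v' h]
  unfold stp
  rw [h1]

theorem val_eq (m : ℕ) (p : Pth) (r : ℝ) : val m p r = stp m p r (val m p) := by
  rw [val]
  apply stp_congr
  intro r' hr'
  simp [hr']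

/-- the event that the code at `r` forces `0` at stage `m` -/
def evt (m : ℕ) (p : Pth) (r : ℝ) : Set Xi := ev m p r (val m p)

open Classical in
theorem val_apply (m : ℕ) (p : Pth) (r : ℝ) (ξ : Xi) : val m p r ξ =
    if ξ ∈ evt m p r then 0 else thr (qq (PXi.real (evt m p r))) (ξ (F m p r).card) := by
  conv_lhs => rw [val_eq]
  rfl

/-- the events depend on the earlier coordinates only -/
theorem dep_aux (m : ℕ) (p : Pth) (n : ℕ) : ∀ r : ℝ, (F m p r).card = n →
    ∀ ξ ξ' : Xi, ((∀ i < n, ξ i = ξ' i) → (ξ ∈ evt m p r ↔ ξ' ∈ evt m p r)) ∧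
      ((∀ i ≤ n, ξ i = ξ' i) → val m p r ξ = val m p r ξ') := by
  induction n using Nat.strong_induction_on with
  | _ n ih =>
    intro r hr ξ ξ'
    have key : (∀ i < n, ξ i = ξ' i) → (ξ ∈ evt m p r ↔ ξ' ∈ evt m p r) := by
      intro h
      have hv : ∀ r' ∈ F m p r, val m p r' ξ = val m p r' ξ' := by
        intro r' hr'
        have hlt := F_card_lt hr'
        rw [hr] at hlt
        exact ((ih _ hlt r' rfl ξ ξ').2) (fun i hi => h i (lt_of_le_of_lt hi hlt))
      have he : ∀ j, (ξ ∈ evj m p r (val m p) j ↔ ξ' ∈ evj m p r (val m p) j) := by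
        intro j
        simp only [evj, mem_ofPred_eq]
        constructor
        · rintro ⟨C, hC, hc⟩
          exact ⟨C, hC, fun c hcC => ⟨(hc c hcC).1, by rw [← hv _ (hc c hcC).1]; exact (hc c hcC).2⟩⟩
        · rintro ⟨C, hC, hc⟩
          exact ⟨C, hC, fun c hcC => ⟨(hc c hcC).1, by rw [hv _ (hc c hcC).1]; exact (hc c hcC).2⟩⟩
      simp only [evt, ev, mem_ofPred_eq, he]
    refine ⟨key, fun h => ?_⟩
    rw [val_apply, val_apply]
    have h1 := key (fun i hi => h i hi.le)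
    rw [hr, h n le_rfl]
    by_cases h2 : ξ ∈ evt m p r
    · rw [if_pos h2, if_pos (h1.1 h2)]
    · rw [if_neg h2, if_neg (fun h3 => h2 (h1.2 h3))]

theorem val_dep (m : ℕ) (p : Pth) (r : ℝ) (ξ ξ' : Xi)
    (h : ∀ i ≤ (F m p r).card, ξ i = ξ' i) : val m p r ξ = val m p r ξ' :=
  (dep_aux m p _ r rfl ξ ξ').2 h

theorem evt_dep (m : ℕ) (p : Pth) (r : ℝ) (ξ ξ' : Xi)
    (h : ∀ i < (F m p r).card, ξ i = ξ' i) : ξ ∈ evt m p r ↔ ξ' ∈ evt m p r :=
  (dep_aux m p _ r rfl ξ ξ').1 h

theorem measurable_thr (q : ℝ) : Measurable (thr q) := by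
  unfold thr
  refine Measurable.ite measurableSet_Iio measurable_const ?_
  exact Measurable.ite measurableSet_Iio measurable_const measurable_const

theorem measurableSet_evj (m : ℕ) (p : Pth) (r : ℝ) (v : ℝ → Xi → S)
    (hv : ∀ r' ∈ F m p r, Measurable (v r')) (j : ℕ) : MeasurableSet (evj m p r v j) := by
  have : evj m p r v j = ⋃ C ∈ p.G r j, ⋂ c ∈ C, {ξ | c.1 ∈ F m p r ∧ v c.1 ξ = c.2} := by
    ext ξ; simp [evj]
  rw [this]
  refine Finset.measurableSet_biUnion _ fun C _ => Finset.measurableSet_biInter _ fun c _ => ?_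
  by_cases hc : c.1 ∈ F m p r
  · have : {ξ | c.1 ∈ F m p r ∧ v c.1 ξ = c.2} = v c.1 ⁻¹' {c.2} := by ext ξ; simp [hc]
    rw [this]
    exact hv _ hc (measurableSet_singleton _)
  · have : {ξ | c.1 ∈ F m p r ∧ v c.1 ξ = c.2} = ∅ := by ext ξ; simp [hc]
    rw [this]; exact MeasurableSet.empty

theorem measurableSet_ev (m : ℕ) (p : Pth) (r : ℝ) (v : ℝ → Xi → S)
    (hv : ∀ r' ∈ F m p r, Measurable (v r')) : MeasurableSet (ev m p r v) := by
  have : ev m p r v = ⋃ j ∈ {j | j < m ∧ PXi.real (evj m p r v j) ≤ wt j}, evj m p r v j := by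
    ext ξ; simp only [ev, mem_ofPred_eq, mem_iUnion, exists_prop]
    constructor
    · rintro ⟨j, h1, h2, h3⟩; exact ⟨j, ⟨h1, h2⟩, h3⟩
    · rintro ⟨j, ⟨h1, h2⟩, h3⟩; exact ⟨j, h1, h2, h3⟩
  rw [this]
  exact MeasurableSet.biUnion (to_countable _) fun j _ => measurableSet_evj m p r v hv j

open Classical in
theorem measurable_aux (m : ℕ) (p : Pth) (n : ℕ) : ∀ r : ℝ, (F m p r).card = n →
    Measurable (val m p r) := by
  induction n using Nat.strong_induction_on with
  | _ n ih =>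
    intro r hr
    have hv : ∀ r' ∈ F m p r, Measurable (val m p r') := fun r' hr' => by
      have hlt := F_card_lt hr'
      rw [hr] at hlt
      exact ih _ hlt r' rfl
    have h1 : MeasurableSet (evt m p r) := measurableSet_ev m p r _ hv
    have h2 : val m p r = fun ξ => if ξ ∈ evt m p r then 0 else
        thr (qq (PXi.real (evt m p r))) (ξ (F m p r).card) := by
      funext ξ
      rw [val_apply]
    rw [h2]
    refine Measurable.ite h1 measurable_const ?_
    exact (measurable_thr _).comp (measurable_pi_apply _)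

theorem measurable_val (m : ℕ) (p : Pth) (r : ℝ) : Measurable (val m p r) :=
  measurable_aux m p _ r rfl

theorem measurableSet_evt (m : ℕ) (p : Pth) (r : ℝ) : MeasurableSet (evt m p r) :=
  measurableSet_ev m p r _ fun _ _ => measurable_val m p _

theorem measurableSet_evjval (m : ℕ) (p : Pth) (r : ℝ) (j : ℕ) :
    MeasurableSet (evj m p r (val m p) j) :=
  measurableSet_evj m p r _ (fun _ _ => measurable_val m p _) j

end Pool.Agent.PIP
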